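import Pool.Agent.H60.AZ.Ba2

/-!
# Row Ldf (MP_ede373, all algebraic points): restriction to complex lines

PROOF.
* `line_diff`: for `|w| ≤ R` the terms `J n ∏ (x s + w b s)^(n s)` are bounded by `‖J n‖ ∏ (‖x s‖ + R ‖b s‖)^(n s)`, which is summable
  (`hser` at the point `s ↦ ‖x s‖ + R ‖b s‖`, absolute convergence in `ℂ`: `HasSum.summable`, `.norm`). Each term is a polynomial in `w`;
  `differentiableOn_tsum_of_summable_norm` on the ball of radius `R`, then all `R`.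
* `line_G`: `α, β, γ` from `q_line`; `G w = F(x + w b) exp(-(α w^2 + β w + γ))`; `‖G w‖ = ‖F(x+wb)‖ exp(-Re(..)) =
  ‖F‖ exp(-q(x+wb) + cq b (Im w)^2)`.
-/

set_option autoImplicit false

namespace AZ

open Complex Finset

variable {S ι : Type} [Fintype S] [DecidableEq S] [Fintype ι] [DecidableEq ι] (K : KD S ι)

theorem line_diff (F : (S → ℂ) → ℂ) (J : (S → ℕ) → ℂ)
    (hser : ∀ x, HasSum (fun n : S → ℕ ↦ J n * ∏ s, x s ^ n s) (F x)) (x b : S → ℂ) :
    Differentiable ℂ fun w : ℂ ↦ F (x + w • b) := by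
  intro w0
  obtain ⟨R, hR⟩ : ∃ R : ℝ, R = ‖w0‖ + 1 := ⟨_, rfl⟩
  have hR0 : 0 ≤ R := by rw [hR]; positivity
  have hu : Summable (fun n : S → ℕ ↦ ‖J n‖ * ∏ s, (‖x s‖ + R * ‖b s‖) ^ n s) := by
    have h1 := (hser (fun s ↦ ((‖x s‖ + R * ‖b s‖ : ℝ) : ℂ))).summable.norm
    refine h1.congr (fun n ↦ ?_)
    rw [norm_mul, norm_prod]
    congr 1
    refine Finset.prod_congr rfl (fun s _ ↦ ?_)
    rw [norm_pow, Complex.norm_real, Real.norm_eq_abs, abs_of_nonneg (by positivity)]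
  have h2 : DifferentiableOn ℂ (fun w : ℂ ↦ ∑' n : S → ℕ, J n * ∏ s, (x s + w * b s) ^ n s)
      (Metric.ball 0 R) := by
    refine Complex.differentiableOn_tsum_of_summable_norm hu (fun n ↦ ?_) Metric.isOpen_ball ?_
    · refine Differentiable.differentiableOn ?_
      refine Differentiable.const_mul ?_ _
      fun_prop
    · intro n w hw
      rw [norm_mul, norm_prod]
      refine mul_le_mul_of_nonneg_left ?_ (norm_nonneg _)
      refine Finset.prod_le_prod (fun s _ ↦ norm_nonneg _) (fun s _ ↦ ?_)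
      rw [norm_pow]
      refine pow_le_pow_left₀ (norm_nonneg _) ?_ _
      refine (norm_add_le _ _).trans ?_
      rw [norm_mul]
      have h3 : ‖w‖ ≤ R := by
        rw [mem_ball_zero_iff] at hw
        exact hw.le
      have h4 := mul_le_mul_of_nonneg_right h3 (norm_nonneg (b s))
      linarith
  have h5 : (fun w : ℂ ↦ F (x + w • b)) = fun w : ℂ ↦ ∑' n : S → ℕ, J n * ∏ s, (x s + w * b s) ^ n s := by
    funext w
    exact (hser (x + w • b)).tsum_eq.symm
  rw [h5]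
  refine h2.differentiableAt (Metric.isOpen_ball.mem_nhds ?_)
  rw [mem_ball_zero_iff, hR]
  linarith

theorem line_G (F : (S → ℂ) → ℂ) (J : (S → ℕ) → ℂ)
    (hser : ∀ x, HasSum (fun n : S → ℕ ↦ J n * ∏ s, x s ^ n s) (F x)) (x b : S → ℂ) :
    ∃ G : ℂ → ℂ, Differentiable ℂ G ∧
      ∀ w, ‖G w‖ = K.Nw F (x + w • b) * Real.exp (K.cq b * w.im ^ 2) := by
  obtain ⟨α, β, γ, h⟩ := q_line K x b
  refine ⟨fun w ↦ F (x + w • b) * exp (-(α * w ^ 2 + β * w + γ)), ?_, ?_⟩
  · refine (line_diff F J hser x b).mul ?_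
    fun_prop
  · intro w
    rw [norm_mul, Complex.norm_exp, KD.Nw, h w, mul_assoc, ← Real.exp_add]
    congr 2
    rw [Complex.neg_re]
    ring

end AZ
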