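import Pool.Agent.H60.AZ.Ba1
import Pool.Agent.H60.AZ.Ldf

/-!
# Row Int (MP_ede373, all algebraic points): Hadamard three lines between `V` and the level `R`

PROOF. Let `τ = ‖bb x‖`. If `τ = 0` then `x ∈ V` (`V_iff`) and the claim is `hM` (`R ^ 0`-type powers are `1`). Otherwise let
`b = (1/τ) • bb x` (real scalar): `‖b‖ = 1`, `b o = 0`, `b (bar s) = conj (b s)` for `s ≠ o` (`bb_bar`); `a = x - i bb x ∈ V` (`sub_bb_mem`), so
`x = a + (i τ) • b`. For `w ∈ ℂ`: `bb (a + w • b) = (Im w) b` (for `s ≠ o`: `(a s + w b s - conj(a (bar s)) - conj w conj(b (bar s)))/(2i) =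
(w - conj w) b s/(2i)`), so `‖bb (a + w b)‖ = |Im w|`. Let `G` be as in `line_G` for `(a, b)`.
`‖G w‖ = Nw F (a + w b) exp(cq b (Im w)^2)`. On `Im w = 0`: `a + w b ∈ V`, so `‖G w‖ ≤ M0`. On `Im w = R`: `‖G w‖ ≤ E1 * exp(Cq R^2) `
(`cq b ≤ Cq ‖b‖^2 = Cq`), `E = E1 exp(Cq R^2)`. In the strip `0 ≤ Im w ≤ R` the function is bounded
(`hF.gr`). The three lines theorem (`Complex.HadamardThreeLines.norm_le_interp_of_mem_verticalClosedStrip'`, applied to
`s ↦ G (I * s)`; see the use in `Pool/Agent/H22/CZ/S1.lean`) at `w = i τ`: `‖G (iτ)‖ ≤ M0^(1 - τ/R) E^(τ/R)`, and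
`Nw F x ≤ ‖G (iτ)‖` since `cq b ≥ 0`.
`interp` is stated with logarithms: `M0 = exp(-L)`, `E1 = exp(A1)`.
-/

set_option autoImplicit false

namespace AZ

open Complex Finset

variable {S ι : Type} [Fintype S] [DecidableEq S] [Fintype ι] [DecidableEq ι] (K : KD S ι)

/-- `bb` on the line `a + w b`, `a ∈ V`, `b` a multiple of `bb x`. -/
private theorem Int_bb (x a : S → ℂ) (ha : a ∈ K.V) (τ : ℝ) (w : ℂ) :
    K.bb (a + w • (((τ⁻¹ : ℝ) : ℂ) • K.bb x)) = ((w.im : ℝ) : ℂ) • (((τ⁻¹ : ℝ) : ℂ) • K.bb x) := by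
  funext s
  by_cases hs : s = K.o
  · have h1 : K.bb (a + w • (((τ⁻¹ : ℝ) : ℂ) • K.bb x)) s = 0 := by
      unfold KD.bb
      rw [if_pos hs]
    have h2 : K.bb x s = 0 := by
      unfold KD.bb
      rw [if_pos hs]
    rw [h1, Pi.smul_apply, Pi.smul_apply, h2, smul_zero, smul_zero]
  · have h1 : K.bb (a + w • (((τ⁻¹ : ℝ) : ℂ) • K.bb x)) s =
        ((a s + w * (((τ⁻¹ : ℝ) : ℂ) * K.bb x s)) -
          (starRingEnd ℂ) (a (K.bar s) + w * (((τ⁻¹ : ℝ) : ℂ) * K.bb x (K.bar s)))) / (2 * I) := by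
      conv_lhs => unfold KD.bb
      rw [if_neg hs]
      rfl
    have h2 : (starRingEnd ℂ) (a (K.bar s)) = a s := by
      rw [ha s hs, Complex.conj_conj]
    have h3 : (starRingEnd ℂ) (K.bb x (K.bar s)) = K.bb x s := by
      rw [bb_bar K x s hs, Complex.conj_conj]
    rw [h1, Pi.smul_apply, Pi.smul_apply, smul_eq_mul, smul_eq_mul, map_add, map_mul, map_mul, h2, h3,
      Complex.conj_ofReal]
    have h4 : w - (starRingEnd ℂ) w = 2 * ((w.im : ℝ) : ℂ) * I := by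
      apply Complex.ext <;> simp
      ring
    have hI : (2 * I : ℂ) ≠ 0 := mul_ne_zero two_ne_zero Complex.I_ne_zero
    rw [div_eq_iff hI]
    linear_combination (((τ⁻¹ : ℝ) : ℂ) * K.bb x s) * h4

theorem interp : ∃ C : ℝ, 1 ≤ C ∧ ∀ (F : (S → ℂ) → ℂ) (J : (S → ℕ) → ℂ) (A : ℝ), K.FDat F J A → 0 ≤ A →
    ∀ (R L A1 : ℝ), 0 < R → (∀ x ∈ K.V, K.Nw F x ≤ Real.exp (-L)) →
    (∀ x, ‖K.bb x‖ = R → K.Nw F x ≤ Real.exp A1) → ∀ x, ‖K.bb x‖ ≤ R →
      K.Nw F x ≤ Real.exp (-(L * (1 - ‖K.bb x‖ / R)) + (A1 + C * R ^ 2) * (‖K.bb x‖ / R)) := by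
  obtain ⟨C, hC, hcq⟩ := cq_le K
  refine ⟨C, hC, fun F J A hF hA R L A1 hR hV hR1 x hx => ?_⟩
  obtain ⟨τ, hτ⟩ : ∃ τ : ℝ, τ = ‖K.bb x‖ := ⟨_, rfl⟩
  rw [← hτ] at hx ⊢
  have hτ0 : 0 ≤ τ := by rw [hτ]; exact norm_nonneg _
  rcases hτ0.eq_or_lt with h0 | hτp
  · have h1 : K.bb x = 0 := by
      rw [← norm_eq_zero, ← hτ, ← h0]
    rw [← h0]
    have h2 := hV x ((V_iff K x).2 h1)
    simpa using h2
  have hτc : ((τ : ℝ) : ℂ) ≠ 0 := by
    exact_mod_cast hτp.ne'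
  obtain ⟨a, haD⟩ : ∃ a : S → ℂ, a = fun s ↦ x s - I * K.bb x s := ⟨_, rfl⟩
  have ha : a ∈ K.V := by rw [haD]; exact sub_bb_mem K x
  obtain ⟨b, hb⟩ : ∃ b : S → ℂ, b = ((τ⁻¹ : ℝ) : ℂ) • K.bb x := ⟨_, rfl⟩
  have hbn : ‖b‖ = 1 := by
    rw [hb, norm_smul, ← hτ, Complex.norm_real, Real.norm_eq_abs, abs_of_pos (inv_pos.2 hτp),
      inv_mul_cancel₀ hτp.ne']
  have hxab : x = a + (I * (τ : ℂ)) • b := by
    funext s
    rw [haD, hb, Pi.add_apply, Pi.smul_apply, Pi.smul_apply, smul_eq_mul, smul_eq_mul]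
    push_cast
    field_simp
    ring
  have hbbw : ∀ w : ℂ, K.bb (a + w • b) = ((w.im : ℝ) : ℂ) • b := by
    intro w
    rw [hb]
    exact Int_bb K x a ha τ w
  have hbbn : ∀ w : ℂ, ‖K.bb (a + w • b)‖ = |w.im| := by
    intro w
    rw [hbbw, norm_smul, hbn, mul_one, Complex.norm_real, Real.norm_eq_abs]
  have hcb : K.cq b ≤ C := by
    have := hcq b
    rw [hbn] at this
    linarith
  have hcb0 : 0 ≤ K.cq b := cq_nonneg K b
  obtain ⟨G, hGd, hG⟩ := line_G K F J hF.ser a b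
  have hNw0 : ∀ y, 0 ≤ K.Nw F y := by
    intro y
    unfold KD.Nw
    positivity
  -- the function on the vertical strip
  have hre : ∀ s : ℂ, (I * s).im = s.re := by
    intro s
    simp
  have hGs : ∀ s : ℂ, ‖G (I * s)‖ = K.Nw F (a + (I * s) • b) * Real.exp (K.cq b * s.re ^ 2) := by
    intro s
    rw [hG (I * s), hre]
  have hbd : ∀ s : ℂ, |s.re| ≤ R → Real.exp (K.cq b * s.re ^ 2) ≤ Real.exp (C * R ^ 2) := by
    intro s hs
    apply Real.exp_le_exp.2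
    have h1 : s.re ^ 2 ≤ R ^ 2 := by
      rw [← sq_abs]
      exact pow_le_pow_left₀ (abs_nonneg _) hs 2
    have h2 : K.cq b * s.re ^ 2 ≤ C * s.re ^ 2 := mul_le_mul_of_nonneg_right hcb (sq_nonneg _)
    have h3 : C * s.re ^ 2 ≤ C * R ^ 2 := mul_le_mul_of_nonneg_left h1 (by linarith)
    linarith
  have hfd : Differentiable ℂ (fun s : ℂ => G (I * s)) :=
    hGd.comp (differentiable_id.const_mul I)
  have h3l := Complex.HadamardThreeLines.norm_le_interp_of_mem_verticalClosedStrip'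
    (f := fun s : ℂ => G (I * s)) (z := (τ : ℂ)) (a := Real.exp (-L))
    (b := Real.exp (A1 + C * R ^ 2)) (l := 0) (u := R) hR
    (by
      show (τ : ℂ).re ∈ Set.Icc 0 R
      rw [Complex.ofReal_re]
      exact ⟨hτ0, hx⟩)
    hfd.diffContOnCl
    (by
      refine ⟨Real.exp (A * (1 + Real.log (1 + R))) * Real.exp (C * R ^ 2), ?_⟩
      rintro _ ⟨s, hs, rfl⟩
      have hs' : s.re ∈ Set.Icc 0 R := hs
      have habs : |s.re| = s.re := abs_of_nonneg hs'.1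
      show ‖G (I * s)‖ ≤ _
      rw [hGs]
      refine mul_le_mul ?_ (hbd s (by rw [habs]; exact hs'.2)) (Real.exp_pos _).le (Real.exp_pos _).le
      refine (hF.gr _).trans (Real.exp_le_exp.2 ?_)
      rw [hbbn, hre, habs]
      refine mul_le_mul_of_nonneg_left ?_ hA
      have h1 : Real.log (1 + s.re) ≤ Real.log (1 + R) :=
        Real.log_le_log (by linarith [hs'.1]) (by linarith [hs'.2])
      linarith)
    (by
      intro s hs
      have hs' : s.re = 0 := hs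
      show ‖G (I * s)‖ ≤ _
      rw [hGs, hs']
      have h1 : a + (I * s) • b ∈ K.V := by
        rw [V_iff K, ← norm_eq_zero, hbbn, hre, hs', abs_zero]
      have h2 := hV _ h1
      simpa using h2)
    (by
      intro s hs
      have hs' : s.re = R := hs
      have habs : |s.re| = R := by rw [hs', abs_of_pos hR]
      show ‖G (I * s)‖ ≤ _
      rw [hGs, Real.exp_add]
      refine mul_le_mul ?_ (hbd s habs.le) (Real.exp_pos _).le (Real.exp_pos _).le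
      refine hR1 _ ?_
      rw [hbbn, hre, habs])
  have h5 : K.Nw F x ≤ ‖G (I * (τ : ℂ))‖ := by
    rw [hGs, ← hxab, Complex.ofReal_re]
    have h6 : 1 ≤ Real.exp (K.cq b * τ ^ 2) := Real.one_le_exp (by positivity)
    exact le_mul_of_one_le_right (hNw0 x) h6
  refine h5.trans (h3l.trans (le_of_eq ?_))
  rw [Complex.ofReal_re, sub_zero, sub_zero, ← Real.exp_mul, ← Real.exp_mul, ← Real.exp_add]
  congr 1
  ring

end AZ
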