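import Mathlib

/-!
# MP_ede373, all algebraic points: the degree of a point that is not a CM point
-/

set_option autoImplicit false

namespace AZ

open Polynomial

theorem degree_ge {z : ℂ} (hint : IsIntegral ℚ z)
    (hcm : ¬ ∃ a b c : ℤ, (a ≠ 0 ∨ b ≠ 0 ∨ c ≠ 0) ∧ (a : ℂ) * z ^ 2 + b * z + c = 0) :
    3 ≤ (minpoly ℚ z).natDegree := by
  by_contra hlt
  push Not at hlt
  apply hcm
  set p := minpoly ℚ z with hp
  have hmon : p.Monic := minpoly.monic hint
  have h0 : aeval z p = 0 := minpoly.aeval ℚ z
  rw [aeval_eq_sum_range' hlt] at h0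
  simp only [Finset.sum_range_succ, Finset.sum_range_zero, zero_add, pow_zero, pow_one,
    Algebra.smul_def, eq_ratCast] at h0
  set q0 := p.coeff 0 with hq0
  set q1 := p.coeff 1 with hq1
  set q2 := p.coeff 2 with hq2
  have hd0 : (q0.den : ℂ) ≠ 0 := by exact_mod_cast q0.den_nz
  have hd1 : (q1.den : ℂ) ≠ 0 := by exact_mod_cast q1.den_nz
  have hd2 : (q2.den : ℂ) ≠ 0 := by exact_mod_cast q2.den_nz
  refine ⟨q2.num * q0.den * q1.den, q1.num * q0.den * q2.den, q0.num * q1.den * q2.den, ?_, ?_⟩
  · by_contra hcon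
    push Not at hcon
    obtain ⟨h2, h1, h3⟩ := hcon
    have e2 : q2 = 0 := by
      have : q2.num = 0 := by
        have hh : (q0.den : ℤ) ≠ 0 := by exact_mod_cast q0.den_nz
        have hh' : (q1.den : ℤ) ≠ 0 := by exact_mod_cast q1.den_nz
        simpa [hh, hh'] using h2
      exact Rat.num_eq_zero.1 this
    have e1 : q1 = 0 := by
      have : q1.num = 0 := by
        have hh : (q0.den : ℤ) ≠ 0 := by exact_mod_cast q0.den_nz
        have hh' : (q2.den : ℤ) ≠ 0 := by exact_mod_cast q2.den_nz
        simpa [hh, hh'] using h1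
      exact Rat.num_eq_zero.1 this
    have e0 : q0 = 0 := by
      have : q0.num = 0 := by
        have hh : (q1.den : ℤ) ≠ 0 := by exact_mod_cast q1.den_nz
        have hh' : (q2.den : ℤ) ≠ 0 := by exact_mod_cast q2.den_nz
        simpa [hh, hh'] using h3
      exact Rat.num_eq_zero.1 this
    have hlead := hmon.coeff_natDegree
    have : p.natDegree = 0 ∨ p.natDegree = 1 ∨ p.natDegree = 2 := by omega
    rcases this with h | h | h
    · rw [h, ← hq0, e0] at hlead; exact zero_ne_one hlead
    · rw [h, ← hq1, e1] at hlead; exact zero_ne_one hlead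
    · rw [h, ← hq2, e2] at hlead; exact zero_ne_one hlead
  · have r0 : (q0 : ℂ) = q0.num / q0.den := by
      conv_lhs => rw [← Rat.num_div_den q0]
      push_cast; rfl
    have r1 : (q1 : ℂ) = q1.num / q1.den := by
      conv_lhs => rw [← Rat.num_div_den q1]
      push_cast; rfl
    have r2 : (q2 : ℂ) = q2.num / q2.den := by
      conv_lhs => rw [← Rat.num_div_den q2]
      push_cast; rfl
    rw [r0, r1, r2] at h0
    field_simp at h0
    push_cast
    linear_combination h0

end AZ
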