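import Pool.Agent.H60.AZ.Defs

/-!
# Row Dm (MP_ede373, all algebraic points): the space of vanishing jets

PROOF. `T = {n : S → ℕ | 2 ∑ n s < Q}` is finite: it is contained in `Fintype.piFinset (fun _ ↦ range T0)`, `T0 = (Q+1)/2` (natural division:
`2 n s < Q` implies `n s < (Q+1)/2`), so `#T ≤ T0^K`, `K = card S ≥ 2`, and `4 T0^K ≤ (2 T0)^K ≤ (Q+1)^K = card Λ` (`4 ≤ 2^K`).
`V` = intersection of the kernels of the functionals `c ↦ ∑ c κ φ n κ`, `n ∈ T`: kernel of the linear map `Λ → ℂ` to `T → ℂ`, so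
`finrank V ≥ card Λ - #T` (rank-nullity), `2 finrank V ≥ 2 card Λ - 2 #T ≥ card Λ`. See the proof of `dim_V` in
`Pool/Agent/H22/CZ/MaC.lean` (the same argument).
-/

set_option autoImplicit false

namespace AZ

open Finset

variable {S : Type} [Fintype S] [DecidableEq S]

theorem dim_V2 (hS : 2 ≤ Fintype.card S) (Q : ℕ) (φ : (S → ℕ) → (S → Fin (Q + 1)) → ℂ) :
    ∃ V : Submodule ℂ ((S → Fin (Q + 1)) → ℂ),
      Fintype.card (S → Fin (Q + 1)) ≤ 2 * Module.finrank ℂ V ∧
      ∀ c ∈ V, ∀ n : S → ℕ, 2 * ∑ s, n s < Q → ∑ κ, c κ * φ n κ = 0 := by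
  classical
  obtain ⟨T0, hT0⟩ : ∃ T0 : ℕ, T0 = (Q + 1) / 2 := ⟨_, rfl⟩
  let T : Finset (S → ℕ) := Fintype.piFinset fun _ => range T0
  let L : ((S → Fin (Q + 1)) → ℂ) →ₗ[ℂ] (T → ℂ) :=
    { toFun := fun k t => ∑ l, k l * φ t.1 l
      map_add' := by
        intro k k'
        funext t
        simp only [Pi.add_apply, add_mul, Finset.sum_add_distrib]
      map_smul' := by
        intro a k
        funext t
        simp only [Pi.smul_apply, smul_eq_mul, RingHom.id_apply, Finset.mul_sum, mul_assoc] }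
  refine ⟨LinearMap.ker L, ?_, ?_⟩
  · have h1 := LinearMap.finrank_range_add_finrank_ker L
    rw [Module.finrank_fintype_fun_eq_card] at h1
    have h2 : Module.finrank ℂ (LinearMap.range L) ≤ T.card := by
      refine (Submodule.finrank_le _).trans ?_
      rw [Module.finrank_fintype_fun_eq_card, Fintype.card_coe]
    have h3 : T.card = T0 ^ Fintype.card S := by
      rw [Fintype.card_piFinset, Finset.prod_const, card_range, Finset.card_univ]
    have h5 : Fintype.card (S → Fin (Q + 1)) = (Q + 1) ^ Fintype.card S := by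
      rw [Fintype.card_fun, Fintype.card_fin]
    have h4 : 4 * T.card ≤ Fintype.card (S → Fin (Q + 1)) := by
      rw [h3, h5]
      calc 4 * T0 ^ Fintype.card S = 2 ^ 2 * T0 ^ Fintype.card S := by norm_num
        _ ≤ 2 ^ Fintype.card S * T0 ^ Fintype.card S :=
          Nat.mul_le_mul_right _ (Nat.pow_le_pow_right (by norm_num) hS)
        _ = (2 * T0) ^ Fintype.card S := by rw [mul_pow]
        _ ≤ (Q + 1) ^ Fintype.card S := Nat.pow_le_pow_left (by omega) _
    omega
  · intro c hc n hn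
    have h2 : n ∈ T := by
      refine Fintype.mem_piFinset.2 fun s => mem_range.2 ?_
      have h3 : n s ≤ ∑ s, n s := Finset.single_le_sum (fun _ _ => Nat.zero_le _) (mem_univ s)
      omega
    exact congrFun (LinearMap.mem_ker.1 hc) ⟨n, h2⟩

end AZ
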