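import Pool.Agent.H60.AZ.Zl
import Pool.Agent.H60.AZ.Dm
import Pool.Agent.H32.T3.Ht

/-!
# Row Hy (MP_ede373, all algebraic points): the hypotheses of the criterion

PROOF. `k = card S - 1`, `Q = M^(eQ k)`, `S1 = M^(eS k)`, `Kc = card S`. `Λ = S → Fin (Q + 1)`, `R = {n : S → ℕ // ∑ s, n s < S1}`,
`W n l` = the polynomial from `hW (fun s ↦ l s) n` (choice). `A = |log ‖lam‖|`, `B = |log ‖2πi/lam‖|`. For `M` large:
* `0 < card Λ = (Q+1)^Kc`, `log card Λ = Kc log(Q+1) ≤ M` (`log M = o(M)`; `Q + 1 ≤ M^(eQ+1)`).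
* degree: `C (∑κ + ∑n + 1) ≤ C (Kc Q + S1 + 1) ≤ 3 C Kc S1 ≤ M^(ea k)` (`ea k = eS k + 2`), `log nrm ≤ 3 C Kc S1 log(4 Kc S1) ≤ M^(ea k)`.
* identity: for `c : Λ → ℂ` let `c' κ = c κ (2πi/lam)^(∑ κ)`. Then `∑ c κ aeval P (W n κ) = lam^{-∑n} (∏ (n s)!) JJ c0 Q c' n`.
* lower bound: `‖c κ‖ ≤ 1`, some `= 1`. `μ = max ‖c' κ‖ ≥ exp(-B Kc Q)` and `c'/μ` satisfies the hypotheses of `ze`: there is `n` with `∑ n s < S1` and
  `‖JJ (c'/μ) n‖ ≥ exp(-M^(eb-1))`, so `‖∑‖ ≥ exp(-A S1 - B Kc Q - M^(eb-1)) ≥ exp(-M^eb)` (`∏ (n s)! ≥ 1`; `eS k < eb k - 1`).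
* upper bound: `V` from `dim_V2` with `φ n κ = (2πi/lam)^(∑κ) jc c0 κ n`; for `c ∈ V`, `‖c κ‖ ≤ 1`: `c'' = exp(-B Kc Q) c'` has `‖c'' κ‖ ≤ 1` and
  `JJ c'' n = 0` for `2 ∑ n s < Q`; `su`: `‖JJ c'' n‖ ≤ exp(-M^(eg+1))`, so
  `‖∑‖ ≤ exp(A S1 + B Kc Q + S1 log S1 - M^(eg+1)) ≤ exp(-M^eg)` (`∏ (n s)! ≤ (∑ n s)! ≤ S1^S1`;
  `eg k = 2(k+1)Ak - 5 > eS k + 2`, `k ≥ 1`).
See `Pool/Agent/H22/CZ/MaE.lean` for the same computation with fixed exponents (lemmas `MaE_pow`, `MaE_lam`). Never let `norm_num`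
or `simp` unfold the big powers: set `q := M^..` opaque.
-/

set_option autoImplicit false

namespace AZ

open Finset
open H32.T3 (nrm)

variable {S ι : Type} [Fintype S] [DecidableEq S] [Fintype ι] [DecidableEq ι] (K : KD S ι)

private theorem Hy_pow {m K : ℝ} {a b : ℕ} (hm : 1 ≤ m) (hK : K ≤ m) (hab : a + 1 ≤ b) :
    K * m ^ a ≤ m ^ b := by
  have hm0 : 0 ≤ m ^ a := pow_nonneg (by linarith) a
  calc K * m ^ a ≤ m * m ^ a := mul_le_mul_of_nonneg_right hK hm0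
    _ = m ^ (a + 1) := by rw [pow_succ, mul_comm]
    _ ≤ m ^ b := pow_le_pow_right₀ hm hab

private theorem Hy_log (N : ℝ) : ∃ M2 : ℕ, ∀ M : ℕ, M2 ≤ M → N * Real.log M ≤ M := by
  have h1 := Real.isLittleO_log_id_atTop.bound (c := 1 / (|N| + 1)) (by positivity)
  have h2 := tendsto_natCast_atTop_atTop (R := ℝ) |>.eventually h1
  obtain ⟨M2, hM2⟩ := Filter.eventually_atTop.1 h2
  refine ⟨M2, fun M hM => ?_⟩
  have h3 := hM2 M hM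
  simp only [Real.norm_eq_abs, id] at h3
  rw [Nat.abs_cast] at h3
  have h4 : |Real.log (M : ℝ)| * (|N| + 1) ≤ M := by
    rw [one_div, ← div_eq_inv_mul, le_div_iff₀ (by positivity)] at h3
    exact h3
  have h5 : N * Real.log M ≤ |N| * |Real.log M| := by
    rw [← abs_mul]
    exact le_abs_self _
  have h6 := abs_nonneg (Real.log (M : ℝ))
  nlinarith

private theorem Hy_lam {lam : ℂ} (hlam : lam ≠ 0) (s : ℕ) (B : ℝ) (hs : (s : ℝ) ≤ B) :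
    Real.exp (-(|Real.log ‖lam‖| * B)) ≤ ‖lam ^ s‖ ∧
      ‖lam ^ s‖ ≤ Real.exp (|Real.log ‖lam‖| * B) := by
  have hl : 0 < ‖lam‖ := norm_pos_iff.2 hlam
  have h1 : ‖lam ^ s‖ = Real.exp (s * Real.log ‖lam‖) := by
    rw [norm_pow, ← Real.exp_log hl, Real.log_exp, ← Real.exp_nat_mul]
  have h0 : (0 : ℝ) ≤ s := Nat.cast_nonneg s
  have h2 : |(s : ℝ) * Real.log ‖lam‖| ≤ |Real.log ‖lam‖| * B := by
    rw [abs_mul, abs_of_nonneg h0, mul_comm]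
    exact mul_le_mul_of_nonneg_left hs (abs_nonneg _)
  rw [abs_le] at h2
  rw [h1]
  exact ⟨Real.exp_le_exp.2 h2.1, Real.exp_le_exp.2 h2.2⟩

private theorem Hy_smul (c0 : ℂ) (Q : ℕ) (t : ℂ) (c : (S → Fin (Q + 1)) → ℂ) (n : S → ℕ) :
    K.JJ c0 Q (fun κ ↦ t * c κ) n = t * K.JJ c0 Q c n := by
  unfold KD.JJ
  rw [Finset.mul_sum]
  refine Finset.sum_congr rfl fun κ _ ↦ ?_
  ring

omit [DecidableEq S] in
private theorem Hy_fact (n : S → ℕ) {N : ℕ} (hn : ∑ s, n s ≤ N) :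
    (∏ s, (n s).factorial) ≤ N ^ N ∧ 1 ≤ ∏ s, (n s).factorial := by
  constructor
  · calc (∏ s, (n s).factorial) ≤ (∑ s, n s).factorial :=
          Nat.le_of_dvd (Nat.factorial_pos _) (Nat.prod_factorial_dvd_factorial_sum _ _)
      _ ≤ N.factorial := Nat.factorial_le hn
      _ ≤ N ^ N := Nat.factorial_le_pow N
  · exact Nat.succ_le_of_lt (Finset.prod_pos fun s _ ↦ Nat.factorial_pos _)

private theorem Hy_exp (k : ℕ) (hk : 1 ≤ k) : eQ k ≤ eS k ∧ ea k = eS k + 2 ∧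
    eS k + 1 ≤ eg k ∧ eS k + 1 ≤ eb k - 1 ∧ eb k - 1 + 1 = eb k := by
  unfold eQ eS ea eg eb Ak
  have h1 : 2 * (k + 1) * (10 * k + 30) = k * (10 * k + 30) + (k + 2) * (10 * k + 30) := by ring
  have h2 : 2 * (10 * k + 30) ≤ (k + 2) * (10 * k + 30) := Nat.mul_le_mul_right _ (by omega)
  rw [h1]
  refine ⟨by omega, by omega, by omega, by omega, by omega⟩

theorem crit_hyp2 {m : ℕ} (P : Fin m → ℂ) {c0 lam : ℂ} {C : ℝ} (hc0 : c0 ≠ 0) (hlam : lam ≠ 0)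
    (hC : 1 ≤ C)
    (hW : ∀ κ n : S → ℕ, ∃ W : MvPolynomial (Fin m) ℤ,
      (W.totalDegree : ℝ) ≤ C * (∑ s, κ s + ∑ s, n s + 1) ∧
      nrm W ≤ Real.exp (C * (∑ s, κ s + ∑ s, n s + 1) * Real.log (∑ s, κ s + ∑ s, n s + 2)) ∧
      (∏ s, ((n s).factorial : ℂ)) * (2 * Real.pi * Complex.I / lam) ^ (∑ s, κ s) * K.jc c0 κ n =
        lam ^ (∑ s, n s) * MvPolynomial.aeval P W) :
    ∃ M0 : ℕ, ∀ M : ℕ, M0 ≤ M → ∃ (Λ : Type) (_ : Fintype Λ) (R : Type)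
      (W : R → Λ → MvPolynomial (Fin m) ℤ),
      0 < Fintype.card Λ ∧ Real.log (Fintype.card Λ) ≤ M ∧
      (∀ s l, ((W s l).totalDegree : ℝ) ≤ (M : ℝ) ^ ea (Fintype.card S - 1) ∧
        nrm (W s l) ≤ Real.exp ((M : ℝ) ^ ea (Fintype.card S - 1))) ∧
      (∀ c : Λ → ℂ, (∀ l, ‖c l‖ ≤ 1) → (∃ l, ‖c l‖ = 1) →
        ∃ s, Real.exp (-(M : ℝ) ^ eb (Fintype.card S - 1)) ≤
          ‖∑ l, c l * MvPolynomial.aeval P (W s l)‖) ∧
      (∃ V : Submodule ℂ (Λ → ℂ), Fintype.card Λ ≤ 2 * Module.finrank ℂ V ∧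
        ∀ c ∈ V, (∀ l, ‖c l‖ ≤ 1) → ∀ s,
          ‖∑ l, c l * MvPolynomial.aeval P (W s l)‖ ≤
            Real.exp (-(M : ℝ) ^ eg (Fintype.card S - 1))) := by
  classical
  obtain ⟨M1, hM1⟩ := ze K c0 hc0
  obtain ⟨M2, hM2⟩ := su K c0
  choose W hWd hWn hWJ using hW
  have hcard2 := K.hS
  obtain ⟨Kc, hKc⟩ : ∃ Kc, Kc = Fintype.card S := ⟨_, rfl⟩
  obtain ⟨k, hk⟩ : ∃ k, k = Fintype.card S - 1 := ⟨_, rfl⟩
  have hk1 : 1 ≤ k := by omega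
  rw [← hk] at hM1 hM2 ⊢
  obtain ⟨μ, hμ⟩ : ∃ μ : ℂ, μ = 2 * Real.pi * Complex.I / lam := ⟨_, rfl⟩
  have hμ0 : μ ≠ 0 := by
    rw [hμ]
    exact div_ne_zero Complex.two_pi_I_ne_zero hlam
  rw [← hμ] at hWJ
  obtain ⟨A, hA⟩ : ∃ A, A = |Real.log ‖lam‖| := ⟨_, rfl⟩
  obtain ⟨B, hB⟩ : ∃ B, B = |Real.log ‖μ‖| := ⟨_, rfl⟩
  have hA0 : 0 ≤ A := by
    rw [hA]
    exact abs_nonneg _
  have hB0 : 0 ≤ B := by
    rw [hB]
    exact abs_nonneg _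
  obtain ⟨M3, hM3⟩ := Hy_log ((Kc : ℝ) * (eQ k + 1) + eS k + 1)
  obtain ⟨M4, hM4⟩ := exists_nat_ge (C * (Kc + 2) + (A + B * Kc) + 10)
  obtain ⟨e1, e2, e3, e4, e5⟩ := Hy_exp k hk1
  refine ⟨max (max M1 M2) (max M3 M4), fun M hM => ?_⟩
  have hMM1 : M1 ≤ M := le_trans (le_trans (le_max_left _ _) (le_max_left _ _)) hM
  have hMM2 : M2 ≤ M := le_trans (le_trans (le_max_right _ _) (le_max_left _ _)) hM
  have hMM3 : M3 ≤ M := le_trans (le_trans (le_max_left _ _) (le_max_right _ _)) hM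
  have hMM4 : (M4 : ℝ) ≤ M := by
    exact_mod_cast le_trans (le_trans (le_max_right _ _) (le_max_right _ _)) hM
  have hze := hM1 M hMM1
  have hsu := hM2 M hMM2
  have hlog := hM3 M hMM3
  have hbig : C * (Kc + 2) + (A + B * Kc) + 10 ≤ (M : ℝ) := hM4.trans hMM4
  clear hM1 hM2 hM3 hM4 hM
  obtain ⟨Q, hQ⟩ : ∃ Q, Q = M ^ eQ k := ⟨_, rfl⟩
  obtain ⟨N, hN⟩ : ∃ N, N = M ^ eS k := ⟨_, rfl⟩
  rw [← hQ] at hze hsu
  rw [← hN] at hze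
  have hQr : (Q : ℝ) = (M : ℝ) ^ eQ k := by
    rw [hQ]
    push_cast
    rfl
  have hNr : (N : ℝ) = (M : ℝ) ^ eS k := by
    rw [hN]
    push_cast
    rfl
  have hCK : 0 ≤ C * ((Kc : ℝ) + 2) := by positivity
  have hABK : 0 ≤ A + B * Kc := by positivity
  have hm10 : (10 : ℝ) ≤ M := by linarith
  have hm1 : (1 : ℝ) ≤ M := by linarith
  have hN1 : 1 ≤ N := by
    have : (1 : ℝ) ≤ N := by
      rw [hNr]
      exact one_le_pow₀ hm1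
    exact_mod_cast this
  have hQN : (Q : ℝ) ≤ N := by
    rw [hQr, hNr]
    exact pow_le_pow_right₀ hm1 e1
  have hlog0 : 0 ≤ Real.log (M : ℝ) := Real.log_nonneg hm1
  have hK0 : (0 : ℝ) ≤ Kc := Nat.cast_nonneg _
  have hC0 : 0 ≤ C := by linarith
  have hKCm : C * ((Kc : ℝ) + 2) ≤ M := by linarith
  have hKm : (Kc : ℝ) + 2 ≤ M := by
    have : 1 * ((Kc : ℝ) + 2) ≤ C * ((Kc : ℝ) + 2) := mul_le_mul_of_nonneg_right hC (by positivity)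
    linarith
  have hκs : ∀ κ : S → Fin (Q + 1), ((∑ s, (κ s : ℕ) : ℕ) : ℝ) ≤ Kc * Q := by
    intro κ
    have h1 : ∑ s, (κ s : ℕ) ≤ Kc * Q := by
      calc ∑ s, (κ s : ℕ) ≤ ∑ _s : S, Q :=
            Finset.sum_le_sum fun s _ ↦ Nat.lt_succ_iff.mp (κ s).2
        _ = Kc * Q := by rw [Finset.sum_const, Finset.card_univ, smul_eq_mul, hKc]
    exact_mod_cast h1
  -- the identity
  have hid : ∀ (c : (S → Fin (Q + 1)) → ℂ) (n : S → ℕ),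
      ‖∑ κ, c κ * MvPolynomial.aeval P (W (fun s ↦ (κ s : ℕ)) n)‖ * ‖lam ^ (∑ s, n s)‖ =
      ((∏ s, (n s).factorial : ℕ) : ℝ) *
        ‖K.JJ c0 Q (fun κ ↦ c κ * μ ^ (∑ s, (κ s : ℕ))) n‖ := by
    intro c n
    have h1 : (∑ κ, c κ * MvPolynomial.aeval P (W (fun s ↦ (κ s : ℕ)) n)) * lam ^ (∑ s, n s) =
        ((∏ s, (n s).factorial : ℕ) : ℂ) *
          K.JJ c0 Q (fun κ ↦ c κ * μ ^ (∑ s, (κ s : ℕ))) n := by
      unfold KD.JJ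
      rw [Finset.mul_sum, Finset.sum_mul]
      refine Finset.sum_congr rfl fun κ _ ↦ ?_
      have h2 := hWJ (fun s ↦ (κ s : ℕ)) n
      push_cast
      linear_combination -(c κ) * h2
    rw [← norm_mul, h1, norm_mul, Complex.norm_natCast]
  have hcard : Fintype.card (S → Fin (Q + 1)) = (Q + 1) ^ Kc := by
    rw [Fintype.card_fun, Fintype.card_fin, hKc]
  -- bounds for the powers
  have hlamb : ∀ n : S → ℕ, ∑ s, n s < N →
      Real.exp (-(A * (M : ℝ) ^ eS k)) ≤ ‖lam ^ (∑ s, n s)‖ ∧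
      ‖lam ^ (∑ s, n s)‖ ≤ Real.exp (A * (M : ℝ) ^ eS k) := by
    intro n hn
    have h1 : ((∑ s, n s : ℕ) : ℝ) ≤ (M : ℝ) ^ eS k := by
      rw [← hNr]
      exact_mod_cast hn.le
    rw [hA]
    exact Hy_lam hlam _ _ h1
  have hμb : ∀ κ : S → Fin (Q + 1),
      Real.exp (-(B * (Kc * Q))) ≤ ‖μ ^ (∑ s, (κ s : ℕ))‖ ∧
      ‖μ ^ (∑ s, (κ s : ℕ))‖ ≤ Real.exp (B * (Kc * Q)) := by
    intro κ
    rw [hB]
    exact Hy_lam hμ0 _ _ (hκs κ)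
  have hsmall : A * (M : ℝ) ^ eS k + B * (Kc * Q) ≤ (M : ℝ) ^ (eS k + 1) := by
    have h1 : B * (Kc * Q) ≤ B * Kc * (M : ℝ) ^ eS k := by
      rw [← hNr, mul_assoc]
      exact mul_le_mul_of_nonneg_left (mul_le_mul_of_nonneg_left hQN hK0) hB0
    have h2 : (A + B * Kc) * (M : ℝ) ^ eS k ≤ (M : ℝ) ^ (eS k + 1) :=
      Hy_pow hm1 (by linarith) le_rfl
    linarith
  refine ⟨S → Fin (Q + 1), inferInstance, {n : S → ℕ // ∑ s, n s < N},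
    fun n κ ↦ W (fun s ↦ (κ s : ℕ)) n.1, ?_, ?_, ?_, ?_, ?_⟩
  · rw [hcard]
    positivity
  · rw [hcard, Nat.cast_pow, Real.log_pow]
    have h1 : ((Q + 1 : ℕ) : ℝ) ≤ (M : ℝ) ^ (eQ k + 1) := by
      push_cast
      have h2 : (2 : ℝ) * (M : ℝ) ^ eQ k ≤ (M : ℝ) ^ (eQ k + 1) :=
        Hy_pow hm1 (by linarith) (le_refl _)
      have h3 : (1 : ℝ) ≤ (M : ℝ) ^ eQ k := one_le_pow₀ hm1
      rw [hQr]
      linarith
    have h2 : Real.log ((Q + 1 : ℕ) : ℝ) ≤ (eQ k + 1) * Real.log M := by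
      have h3 : (0 : ℝ) < ((Q + 1 : ℕ) : ℝ) := by positivity
      have h4 := Real.log_le_log h3 h1
      rw [Real.log_pow] at h4
      exact_mod_cast h4
    have h3 := mul_le_mul_of_nonneg_left h2 hK0
    have h4 : 0 ≤ (eS k + 1 : ℝ) * Real.log M := by positivity
    calc (Kc : ℝ) * Real.log ((Q + 1 : ℕ) : ℝ) ≤ Kc * ((eQ k + 1) * Real.log M) := h3
      _ ≤ (Kc * (eQ k + 1) + eS k + 1) * Real.log M := by linarith
      _ ≤ M := hlog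
  · rintro ⟨n, hn⟩ κ
    have hn1 : ((∑ s, n s : ℕ) : ℝ) + 1 ≤ N := by exact_mod_cast Nat.succ_le_of_lt hn
    have hκ1 := hκs κ
    have hS1 : ((∑ s, (κ s : ℕ) : ℕ) : ℝ) + ((∑ s, n s : ℕ) : ℝ) + 1 ≤ (Kc + 2) * (M : ℝ) ^ eS k := by
      rw [← hNr]
      have := mul_le_mul_of_nonneg_left hQN hK0
      have hN0 : (0 : ℝ) ≤ N := Nat.cast_nonneg _
      linarith
    have h0 : (0 : ℝ) ≤ ((∑ s, (κ s : ℕ) : ℕ) : ℝ) + ((∑ s, n s : ℕ) : ℝ) + 1 := by positivity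
    have h1 : C * (((∑ s, (κ s : ℕ) : ℕ) : ℝ) + ((∑ s, n s : ℕ) : ℝ) + 1) ≤
        (C * (Kc + 2)) * (M : ℝ) ^ eS k := by
      have := mul_le_mul_of_nonneg_left hS1 hC0
      linarith
    constructor
    · refine (hWd (fun s ↦ (κ s : ℕ)) n).trans (h1.trans ?_)
      rw [e2]
      exact Hy_pow hm1 hKCm (by omega)
    · refine (hWn (fun s ↦ (κ s : ℕ)) n).trans (Real.exp_le_exp.2 ?_)
      have h2 : Real.log (((∑ s, (κ s : ℕ) : ℕ) : ℝ) + ((∑ s, n s : ℕ) : ℝ) + 2) ≤ M := by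
        have h3 : ((∑ s, (κ s : ℕ) : ℕ) : ℝ) + ((∑ s, n s : ℕ) : ℝ) + 2 ≤ (M : ℝ) ^ (eS k + 1) := by
          have h4 : ((Kc : ℝ) + 2) * (M : ℝ) ^ eS k ≤ (M : ℝ) ^ (eS k + 1) :=
            Hy_pow hm1 hKm (le_refl _)
          have h5 : (1 : ℝ) ≤ (M : ℝ) ^ eS k := one_le_pow₀ hm1
          have h6 := mul_le_mul_of_nonneg_left hQN hK0
          rw [← hNr] at h4 h5
          linarith
        have h4 : (0 : ℝ) < ((∑ s, (κ s : ℕ) : ℕ) : ℝ) + ((∑ s, n s : ℕ) : ℝ) + 2 := by positivity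
        have h5 := Real.log_le_log h4 h3
        rw [Real.log_pow] at h5
        have h6 : ((eS k + 1 : ℕ) : ℝ) * Real.log M ≤
            (Kc * (eQ k + 1) + eS k + 1) * Real.log M := by
          apply mul_le_mul_of_nonneg_right _ hlog0
          push_cast
          have : (0 : ℝ) ≤ Kc * (eQ k + 1) := by positivity
          linarith
        linarith
      have h3 : (0 : ℝ) ≤ C * (((∑ s, (κ s : ℕ) : ℕ) : ℝ) + ((∑ s, n s : ℕ) : ℝ) + 1) :=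
        mul_nonneg hC0 h0
      calc C * (((∑ s, (κ s : ℕ) : ℕ) : ℝ) + ((∑ s, n s : ℕ) : ℝ) + 1) *
            Real.log (((∑ s, (κ s : ℕ) : ℕ) : ℝ) + ((∑ s, n s : ℕ) : ℝ) + 2)
          ≤ C * (((∑ s, (κ s : ℕ) : ℕ) : ℝ) + ((∑ s, n s : ℕ) : ℝ) + 1) * M :=
            mul_le_mul_of_nonneg_left h2 h3
        _ ≤ (C * (Kc + 2)) * (M : ℝ) ^ eS k * M :=
            mul_le_mul_of_nonneg_right h1 (by linarith)
        _ = (C * (Kc + 2)) * (M : ℝ) ^ (eS k + 1) := by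
            rw [pow_succ]
            ring
        _ ≤ (M : ℝ) ^ ea k := by
            rw [e2]
            exact Hy_pow hm1 hKCm (by omega)
  · -- lower bound
    intro c hc1 hc2
    obtain ⟨κ1, hκ1⟩ := hc2
    obtain ⟨κ0, -, hmax⟩ := Finset.exists_max_image (Finset.univ : Finset (S → Fin (Q + 1)))
      (fun κ ↦ ‖c κ * μ ^ (∑ s, (κ s : ℕ))‖) ⟨κ1, Finset.mem_univ _⟩
    obtain ⟨ν, hν⟩ : ∃ ν : ℝ, ν = ‖c κ0 * μ ^ (∑ s, (κ0 s : ℕ))‖ := ⟨_, rfl⟩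
    have hν1 : Real.exp (-(B * (Kc * Q))) ≤ ν := by
      have h1 := hmax κ1 (Finset.mem_univ _)
      simp only [norm_mul, hκ1, one_mul] at h1
      rw [hν, norm_mul]
      exact (hμb κ1).1.trans h1
    have hν0 : 0 < ν := lt_of_lt_of_le (Real.exp_pos _) hν1
    have hνn : ‖((ν : ℂ))⁻¹‖ = ν⁻¹ := by
      rw [norm_inv, Complex.norm_real, Real.norm_eq_abs, abs_of_pos hν0]
    obtain ⟨n, hn, hJ⟩ := hze (fun κ ↦ ((ν : ℂ))⁻¹ * (c κ * μ ^ (∑ s, (κ s : ℕ))))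
      (fun κ ↦ by
        rw [norm_mul, hνn, inv_mul_le_iff₀ hν0, mul_one, hν]
        exact hmax κ (Finset.mem_univ _))
      ⟨κ0, by
        rw [norm_mul, hνn, ← hν]
        exact inv_mul_cancel₀ hν0.ne'⟩
    refine ⟨⟨n, hn⟩, ?_⟩
    rw [Hy_smul, norm_mul, hνn] at hJ
    have hI := hid c n
    obtain ⟨hl1, hl2⟩ := hlamb n hn
    obtain ⟨hf1, hf2⟩ := Hy_fact n hn.le
    show Real.exp (-(M : ℝ) ^ eb k) ≤
      ‖∑ κ, c κ * MvPolynomial.aeval P (W (fun s ↦ (κ s : ℕ)) n)‖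
    obtain ⟨X, hX⟩ : ∃ X : ℝ, X = ‖∑ κ, c κ * MvPolynomial.aeval P (W (fun s ↦ (κ s : ℕ)) n)‖ :=
      ⟨_, rfl⟩
    obtain ⟨Y, hY⟩ : ∃ Y : ℝ, Y = ‖K.JJ c0 Q (fun κ ↦ c κ * μ ^ (∑ s, (κ s : ℕ))) n‖ := ⟨_, rfl⟩
    rw [← hX, ← hY] at hI
    rw [← hY] at hJ
    rw [← hX]
    have hX0 : 0 ≤ X := by
      rw [hX]
      exact norm_nonneg _
    have hY0 : 0 ≤ Y := by
      rw [hY]
      exact norm_nonneg _
    have hf2' : (1 : ℝ) ≤ ((∏ s, (n s).factorial : ℕ) : ℝ) := by exact_mod_cast hf2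
    have h1 : Y ≤ X * Real.exp (A * (M : ℝ) ^ eS k) := by
      calc Y = 1 * Y := (one_mul Y).symm
        _ ≤ ((∏ s, (n s).factorial : ℕ) : ℝ) * Y := mul_le_mul_of_nonneg_right hf2' hY0
        _ = X * ‖lam ^ (∑ s, n s)‖ := hI.symm
        _ ≤ X * Real.exp (A * (M : ℝ) ^ eS k) := mul_le_mul_of_nonneg_left hl2 hX0
    have h2 : Real.exp (-(M : ℝ) ^ (eb k - 1)) * Real.exp (-(B * (Kc * Q))) ≤ Y := by
      calc Real.exp (-(M : ℝ) ^ (eb k - 1)) * Real.exp (-(B * (Kc * Q)))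
          ≤ (ν⁻¹ * Y) * ν := mul_le_mul hJ hν1 (Real.exp_pos _).le (by positivity)
        _ = Y := by
          field_simp
    have h3 : Real.exp (-(M : ℝ) ^ (eb k - 1) + -(B * (Kc * Q)) + -(A * (M : ℝ) ^ eS k)) ≤ X := by
      rw [Real.exp_add, Real.exp_add, Real.exp_neg (A * (M : ℝ) ^ eS k), ← div_eq_mul_inv,
        div_le_iff₀ (Real.exp_pos _)]
      exact h2.trans h1
    refine le_trans (Real.exp_le_exp.2 ?_) h3
    have h4 : (M : ℝ) ^ (eS k + 1) ≤ (M : ℝ) ^ (eb k - 1) := pow_le_pow_right₀ hm1 e4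
    have h5 : 2 * (M : ℝ) ^ (eb k - 1) ≤ (M : ℝ) ^ eb k := Hy_pow hm1 (by linarith) (by omega)
    linarith
  · -- upper bound
    obtain ⟨V, hV1, hV2⟩ := dim_V2 K.hS Q
      (fun n κ ↦ μ ^ (∑ s, (κ s : ℕ)) * K.jc c0 (fun s ↦ (κ s : ℕ)) n)
    refine ⟨V, hV1, ?_⟩
    rintro c hcV hc1 ⟨n, hn⟩
    show ‖∑ κ, c κ * MvPolynomial.aeval P (W (fun s ↦ (κ s : ℕ)) n)‖ ≤
      Real.exp (-(M : ℝ) ^ eg k)
    have hJ := hsu (fun κ ↦ ((Real.exp (-(B * (Kc * Q))) : ℝ) : ℂ) *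
        (c κ * μ ^ (∑ s, (κ s : ℕ))))
      (fun κ ↦ by
        rw [norm_mul, Complex.norm_real, Real.norm_eq_abs, abs_of_pos (Real.exp_pos _), norm_mul]
        have h1 : ‖c κ‖ * ‖μ ^ (∑ s, (κ s : ℕ))‖ ≤ 1 * Real.exp (B * (Kc * Q)) :=
          mul_le_mul (hc1 κ) (hμb κ).2 (norm_nonneg _) zero_le_one
        calc Real.exp (-(B * (Kc * Q))) * (‖c κ‖ * ‖μ ^ (∑ s, (κ s : ℕ))‖)
            ≤ Real.exp (-(B * (Kc * Q))) * (1 * Real.exp (B * (Kc * Q))) :=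
              mul_le_mul_of_nonneg_left h1 (Real.exp_pos _).le
          _ = 1 := by rw [one_mul, ← Real.exp_add, neg_add_cancel, Real.exp_zero])
      (fun n' hn' ↦ by
        rw [Hy_smul]
        have h1 := hV2 c hcV n' hn'
        have h2 : K.JJ c0 Q (fun κ ↦ c κ * μ ^ (∑ s, (κ s : ℕ))) n' = 0 := by
          rw [← h1]
          unfold KD.JJ
          refine Finset.sum_congr rfl fun κ _ ↦ ?_
          ring
        rw [h2, mul_zero]) n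
    rw [Hy_smul, norm_mul, Complex.norm_real, Real.norm_eq_abs, abs_of_pos (Real.exp_pos _)] at hJ
    have hI := hid c n
    obtain ⟨hl1, hl2⟩ := hlamb n hn
    obtain ⟨hf1, hf2⟩ := Hy_fact n hn.le
    obtain ⟨X, hX⟩ : ∃ X : ℝ, X = ‖∑ κ, c κ * MvPolynomial.aeval P (W (fun s ↦ (κ s : ℕ)) n)‖ :=
      ⟨_, rfl⟩
    obtain ⟨Y, hY⟩ : ∃ Y : ℝ, Y = ‖K.JJ c0 Q (fun κ ↦ c κ * μ ^ (∑ s, (κ s : ℕ))) n‖ := ⟨_, rfl⟩
    rw [← hX, ← hY] at hI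
    rw [← hY] at hJ
    rw [← hX]
    have hX0 : 0 ≤ X := by
      rw [hX]
      exact norm_nonneg _
    have hY0 : 0 ≤ Y := by
      rw [hY]
      exact norm_nonneg _
    have hfr : ((∏ s, (n s).factorial : ℕ) : ℝ) ≤ Real.exp ((M : ℝ) ^ (eS k + 1)) := by
      have h1 : ((∏ s, (n s).factorial : ℕ) : ℝ) ≤ (N : ℝ) ^ N := by exact_mod_cast hf1
      have hNpos : (0 : ℝ) < N := by exact_mod_cast hN1
      have h2 : (N : ℝ) ^ N = Real.exp (N * Real.log N) := by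
        rw [Real.exp_nat_mul, Real.exp_log hNpos]
      refine h1.trans (h2.le.trans (Real.exp_le_exp.2 ?_))
      have h3 : Real.log N ≤ M := by
        rw [hNr, Real.log_pow]
        have h6 : (eS k : ℝ) * Real.log M ≤ (Kc * (eQ k + 1) + eS k + 1) * Real.log M := by
          apply mul_le_mul_of_nonneg_right _ hlog0
          have : (0 : ℝ) ≤ Kc * (eQ k + 1) := by positivity
          linarith
        linarith
      calc (N : ℝ) * Real.log N ≤ N * M := mul_le_mul_of_nonneg_left h3 hNpos.le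
        _ = (M : ℝ) ^ (eS k + 1) := by rw [hNr, pow_succ]
    have hY1 : Y ≤ Real.exp (B * (Kc * Q) + -(M : ℝ) ^ (eg k + 1)) := by
      rw [Real.exp_neg, inv_mul_le_iff₀ (Real.exp_pos _), ← Real.exp_add] at hJ
      exact hJ
    have h1 : X * Real.exp (-(A * (M : ℝ) ^ eS k)) ≤
        Real.exp ((M : ℝ) ^ (eS k + 1)) * Real.exp (B * (Kc * Q) + -(M : ℝ) ^ (eg k + 1)) := by
      calc X * Real.exp (-(A * (M : ℝ) ^ eS k)) ≤ X * ‖lam ^ (∑ s, n s)‖ :=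
            mul_le_mul_of_nonneg_left hl1 hX0
        _ = ((∏ s, (n s).factorial : ℕ) : ℝ) * Y := hI
        _ ≤ _ := mul_le_mul hfr hY1 hY0 (Real.exp_pos _).le
    have h2 : X ≤ Real.exp ((M : ℝ) ^ (eS k + 1) + (B * (Kc * Q) + -(M : ℝ) ^ (eg k + 1)) +
        A * (M : ℝ) ^ eS k) := by
      rw [Real.exp_add, Real.exp_add ((M : ℝ) ^ (eS k + 1))]
      rw [Real.exp_neg, ← div_eq_mul_inv, div_le_iff₀ (Real.exp_pos _)] at h1
      exact h1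
    refine h2.trans (Real.exp_le_exp.2 ?_)
    have h4 : (M : ℝ) ^ (eS k + 1) ≤ (M : ℝ) ^ eg k := pow_le_pow_right₀ hm1 e3
    have h5 : 3 * (M : ℝ) ^ eg k ≤ (M : ℝ) ^ (eg k + 1) := Hy_pow hm1 (by linarith) (by omega)
    linarith

end AZ
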