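import Mathlib

/-!
# Row Tr (MP_ede373, all algebraic points): two of three numbers

PROOF. As in `Pool/Agent/H22/CZ/MaB.lean` (matroid of algebraic independence): `J = range (fun i ↦ P (f i))` is independent with two elements and
contained in the closure of `X = range ![a, b, d]`, so `X` has rank `≥ 2` and contains an independent subset with two
elements (`Matroid.eRk`, `Matroid.exists_isBasis`/`Indep` subset of a given size: a basis `B` of `X` has `encard = eRk ≥ 2`, take
`B' ⊆ B` with two elements), `B' = {![a,b,d] i, ![a,b,d] j}` with different values, so `i ≠ j`; put `g = ![i, j]`.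
-/

set_option autoImplicit false

namespace AZ

theorem two_of_three {a b d : ℂ} {k : ℕ} {P : Fin k → ℂ} {f : Fin 2 → Fin k}
    (h : AlgebraicIndependent ℚ (fun i ↦ P (f i)))
    (hP : ∀ i, IsAlgebraic (IntermediateField.adjoin ℚ ({a, b, d} : Set ℂ)) (P i)) :
    ∃ g : Fin 2 → Fin 3, Function.Injective g ∧ AlgebraicIndependent ℚ (fun i ↦ ![a, b, d] (g i)) := by
  set M := AlgebraicIndependent.matroid ℚ ℂ with hM
  set X : Set ℂ := Set.range ![a, b, d] with hX
  have hXe : X = {a, b, d} := by
    rw [hX]
    simp only [Matrix.range_cons, Matrix.range_empty, Set.union_empty, Set.singleton_union]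
  -- the independent set
  set J : Set ℂ := Set.range (fun i ↦ P (f i)) with hJ
  have hJind : M.Indep J := by
    rw [hM, AlgebraicIndependent.matroid_indep_iff]
    exact h.to_subtype_range
  have hJcard : J.encard = 2 := by
    rw [hJ, ← Set.image_univ, h.injective.injOn.encard_image, Set.encard_univ]
    simp
  have hJX : J ⊆ M.closure X := by
    rw [hM, AlgebraicIndependent.matroid_closure_eq]
    rintro _ ⟨i, rfl⟩
    rw [SetLike.mem_coe, Subalgebra.mem_algebraicClosure, ← IntermediateField.isAlgebraic_adjoin_iff,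
      hXe]
    exact hP (f i)
  have hrk : (2 : ℕ∞) ≤ M.eRk X := by
    rw [← M.eRk_closure_eq X, ← hJcard]
    exact hJind.encard_le_eRk_of_subset hJX
  obtain ⟨B, hB⟩ := M.exists_isBasis X (by rw [hM, AlgebraicIndependent.matroid_e]; exact Set.subset_univ _)
  rw [← hB.encard_eq_eRk] at hrk
  obtain ⟨B', hB', hc⟩ := Set.exists_subset_encard_eq hrk
  have hind : M.Indep B' := hB.indep.subset hB'
  obtain ⟨u, v, huv, rfl⟩ := Set.encard_eq_two.1 hc
  obtain ⟨i, hi⟩ : u ∈ X := hB.subset (hB' (by simp))
  obtain ⟨j, hj⟩ : v ∈ X := hB.subset (hB' (by simp))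
  have hinj : Function.Injective (fun t ↦ ![a, b, d] ((![i, j] : Fin 2 → Fin 3) t)) := by
    intro s t hst
    fin_cases s <;> fin_cases t
    · rfl
    · exact absurd (by simpa [hi, hj] using hst) huv
    · exact absurd (by simpa [hi, hj] using hst.symm) huv
    · rfl
  refine ⟨![i, j], hinj.of_comp (f := ![a, b, d]) , ?_⟩
  refine AlgebraicIndependent.of_subtype_range hinj ?_
  have hr : Set.range (fun t ↦ ![a, b, d] ((![i, j] : Fin 2 → Fin 3) t)) = {u, v} := by
    ext x
    simp only [Set.mem_range, Set.mem_insert_iff, Set.mem_singleton_iff]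
    constructor
    · rintro ⟨t, rfl⟩
      fin_cases t
      · left
        exact hi
      · right
        exact hj
    · rintro (rfl | rfl)
      · exact ⟨0, hi⟩
      · exact ⟨1, hj⟩
  rw [hr]
  rw [hM, AlgebraicIndependent.matroid_indep_iff] at hind
  exact hind

end AZ
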