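import Pool.Agent.H60.AZ.Nd
import Pool.Agent.H60.AZ.Hy
import Pool.Agent.H60.AZ.Tr
import Pool.Agent.H60.AZ.Deg
import Pool.Agent.H32.AZ.Crit
import Pool.Agent.H32.AZ.Arith

/-!
# MP_ede373: every algebraic point that is not a CM point (assembly)
-/

set_option autoImplicit false

namespace AZ

theorem main_all (E4 E6 Jf : ℂ → ℂ)
    (h4 : ∀ τ : ℂ, E4 τ = 1 + 240 * ∑' m : ℕ, ((ArithmeticFunction.sigma 3 (m + 1) : ℕ) : ℂ) *
          Complex.exp (2 * (Real.pi : ℂ) * Complex.I * ((m : ℂ) + 1) * τ))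
    (h6 : ∀ τ : ℂ, E6 τ = 1 - 504 * ∑' m : ℕ, ((ArithmeticFunction.sigma 5 (m + 1) : ℕ) : ℂ) *
          Complex.exp (2 * (Real.pi : ℂ) * Complex.I * ((m : ℂ) + 1) * τ))
    (hJ : ∀ τ : ℂ, Jf τ = 1728 * E4 τ ^ 3 / (E4 τ ^ 3 - E6 τ ^ 2))
    (z : ℂ) (hz : 0 < z.im) (halg : IsAlgebraic ℚ z)
    (hcm : ¬ ∃ a b c : ℤ, (a ≠ 0 ∨ b ≠ 0 ∨ c ≠ 0) ∧ (a : ℂ) * z ^ 2 + b * z + c = 0) :
    ∃ g : Fin 2 → Fin 3, Function.Injective g ∧
      AlgebraicIndependent ℚ (fun i ↦ ![Jf z, deriv Jf z, deriv (deriv Jf) z] (g i)) := by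
  obtain ⟨S, ι, _, _, _, _, K, rfl⟩ := exists_KD hz halg.isIntegral (degree_ge halg.isIntegral hcm)
  obtain ⟨c0, m, P, lam, C, hc0, hlam, hC, hP, hW⟩ := arith K hcm E4 E6 Jf h4 h6 hJ
  have hk : 1 ≤ Fintype.card S - 1 := by have := K.hS; omega
  have hge : eg (Fintype.card S - 1) ≤ eb (Fintype.card S - 1) := by
    unfold eg eb; omega
  obtain ⟨f, hf⟩ := criterion2 P (ea (Fintype.card S - 1)) (eg (Fintype.card S - 1))
    (eb (Fintype.card S - 1)) (2 * (Fintype.card S - 1) + 5) (Fintype.card S - 1 + 3)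
    (by unfold ea; omega) (by omega) (by omega) hge (param _) (crit_hyp2 K P hc0 hlam hC hW)
  exact two_of_three hf hP

end AZ
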