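import Pool.Agent.H60.AZ.Defs

/-!
# Row Ba1 (MP_ede373, all algebraic points): the real subspace `V` and the dual basis

PROOF. `V_iff`: if `bb x = 0` then `x s = conj (x (bar s))` for `s ≠ o`; apply this to `bar s` (`bar s ≠ o`, because
`bar o = o` and `bar (bar s) = s`) to get `x (bar s) = conj (x s)`. Conversely substitute.
`bb_bar`: `bb x (bar s) = (x (bar s) - conj (x s)) / (2i)` and `conj (bb x s) = (conj (x s) - x (bar s)) / (-2i)` (for
`s ≠ o`, `bar s ≠ o`).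
`sub_bb_mem`: for `s ≠ o` the value `x s - i bb x s` is `(x s + conj (x (bar s))) / 2`, which is symmetric.
`st_v`: let `x ∈ V`. Put `T_j = ∑_s nu j s * x s + nu0 j * conj (x o)`, `T'_j = ∑_s ze s nu j s x s + z nu0 j conj (x o)`.
Both are real: the sum over `s ≠ o` is stable under `bar` (bijection of `univ.erase o`; terms for `bar s` are the
conjugates, by `nu_bar, ze_bar` and `x ∈ V`), and the terms `o` and `nu0 j * conj (x o)` are conjugate (`nu_o`, `ze_o`).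
`u_j(x) = z T_j - T'_j` (the terms with `nu0` cancel), so `(u_j x).im = z.im * T_j` and `v_j x = T_j` (`hz`). Then
`st v(x) t = ∑_j T_j nus j t = ∑_s x s (∑_j nu j s nus j t) + conj (x o) ∑_j nu0 j nus j t = x t` (`dual, dual0`).
`dist_V`: `x = a + i b`, `b = bb x`, `a = x - i b ∈ V`; `v` and `st` are additive (`v_j` real-linear), so
`x s - st v(x) s = i b s - st v(i b) s`, and `|v_j(i b)| ≤ C ‖b‖`, `‖st m s‖ ≤ C sup |m|`.
-/

set_option autoImplicit false

namespace AZ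

open Complex Finset

variable {S ι : Type} [Fintype S] [DecidableEq S] [Fintype ι] [DecidableEq ι] (K : KD S ι)

theorem bar_ne {s : S} (hs : s ≠ K.o) : K.bar s ≠ K.o := by
  intro h
  apply hs
  rw [← K.bar_bar s, h, K.bar_o]

private theorem Ba1_bb_ne (x : S → ℂ) {s : S} (hs : s ≠ K.o) :
    K.bb x s = (x s - (starRingEnd ℂ) (x (K.bar s))) / (2 * I) := by
  unfold KD.bb
  rw [if_neg hs]

private theorem Ba1_bb_o (x : S → ℂ) : K.bb x K.o = 0 := by
  unfold KD.bb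
  rw [if_pos rfl]

private theorem Ba1_2I : (2 * I : ℂ) ≠ 0 := mul_ne_zero two_ne_zero I_ne_zero

theorem V_iff (x : S → ℂ) : x ∈ K.V ↔ K.bb x = 0 := by
  constructor
  · intro h
    funext s
    rw [Pi.zero_apply]
    by_cases hs : s = K.o
    · rw [hs, Ba1_bb_o]
    · rw [Ba1_bb_ne K x hs]
      have h1 := h (K.bar s) (bar_ne K hs)
      rw [K.bar_bar] at h1
      rw [← h1, sub_self, zero_div]
  · intro h s hs
    have h1 : K.bb x (K.bar s) = 0 := by rw [h]; rfl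
    rw [Ba1_bb_ne K x (bar_ne K hs), K.bar_bar, div_eq_zero_iff] at h1
    rcases h1 with h1 | h1
    · exact sub_eq_zero.1 h1
    · exact absurd h1 Ba1_2I

theorem bb_bar (x : S → ℂ) (s : S) (hs : s ≠ K.o) :
    K.bb x (K.bar s) = (starRingEnd ℂ) (K.bb x s) := by
  rw [Ba1_bb_ne K x (bar_ne K hs), Ba1_bb_ne K x hs, K.bar_bar, map_div₀, map_sub, map_mul,
    Complex.conj_conj, Complex.conj_I]
  have h2 : (starRingEnd ℂ) (2 : ℂ) = 2 := by
    rw [← Complex.ofReal_ofNat, Complex.conj_ofReal]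
  rw [h2]
  have h3 : (2 * -I : ℂ) ≠ 0 := mul_ne_zero two_ne_zero (neg_ne_zero.2 I_ne_zero)
  rw [div_eq_div_iff Ba1_2I h3]
  ring

private theorem Ba1_half (x : S → ℂ) {s : S} (hs : s ≠ K.o) :
    x s - I * K.bb x s = (x s + (starRingEnd ℂ) (x (K.bar s))) / 2 := by
  rw [Ba1_bb_ne K x hs]
  have hI := I_ne_zero
  field_simp
  ring

theorem sub_bb_mem (x : S → ℂ) : (fun s ↦ x s - I * K.bb x s) ∈ K.V := by
  intro s hs
  show x (K.bar s) - I * K.bb x (K.bar s) = (starRingEnd ℂ) (x s - I * K.bb x s)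
  rw [Ba1_half K x (bar_ne K hs), Ba1_half K x hs, K.bar_bar, map_div₀, map_add,
    Complex.conj_conj]
  have h2 : (starRingEnd ℂ) (2 : ℂ) = 2 := by
    rw [← Complex.ofReal_ofNat, Complex.conj_ofReal]
  rw [h2, add_comm]

private theorem Ba1_real (g : S → ℂ) (g0 : ℂ)
    (hg : ∀ s, s ≠ K.o → g (K.bar s) = (starRingEnd ℂ) (g s)) (ho : g K.o = (starRingEnd ℂ) g0) :
    (starRingEnd ℂ) (∑ s, g s + g0) = ∑ s, g s + g0 := by
  have h1 : ∑ s, g s = g K.o + ∑ s ∈ univ.erase K.o, g s :=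
    (Finset.add_sum_erase _ _ (mem_univ K.o)).symm
  have h2 : (starRingEnd ℂ) (∑ s ∈ univ.erase K.o, g s) = ∑ s ∈ univ.erase K.o, g s := by
    rw [map_sum]
    refine Finset.sum_bij' (fun s _ ↦ K.bar s) (fun s _ ↦ K.bar s) ?_ ?_ ?_ ?_ ?_
    · intro s hs
      exact Finset.mem_erase.2 ⟨bar_ne K (Finset.mem_erase.1 hs).1, mem_univ _⟩
    · intro s hs
      exact Finset.mem_erase.2 ⟨bar_ne K (Finset.mem_erase.1 hs).1, mem_univ _⟩
    · intro s _
      exact K.bar_bar s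
    · intro s _
      exact K.bar_bar s
    · intro s hs
      exact (hg s (Finset.mem_erase.1 hs).1).symm
  rw [h1, map_add, map_add, h2, ho, Complex.conj_conj]
  ring

/-- the value of `v_j` on `V` -/
private theorem Ba1_v {x : S → ℂ} (hx : x ∈ K.V) (j : ι) :
    ((K.v j x : ℝ) : ℂ) = ∑ s, K.nu j s * x s + K.nu0 j * (starRingEnd ℂ) (x K.o) := by
  set T : ℂ := ∑ s, K.nu j s * x s + K.nu0 j * (starRingEnd ℂ) (x K.o) with hT
  set T' : ℂ := ∑ s, K.ze s * (K.nu j s * x s) + K.z * (K.nu0 j * (starRingEnd ℂ) (x K.o)) with hT'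
  have h1 : (starRingEnd ℂ) T = T := by
    apply Ba1_real K
    · intro s hs
      rw [K.nu_bar j s hs, hx s hs, map_mul]
    · rw [K.nu_o, map_mul, Complex.conj_conj]
  have h2 : (starRingEnd ℂ) T' = T' := by
    apply Ba1_real K
    · intro s hs
      rw [K.nu_bar j s hs, hx s hs, K.ze_bar s hs, map_mul, map_mul]
    · rw [K.nu_o, K.ze_o, map_mul, map_mul, Complex.conj_conj]
  have h3 : K.u j x = K.z * T - T' := by
    rw [hT, hT']
    unfold KD.u
    have e1 : ∑ s, (K.z - K.ze s) * K.nu j s * x s =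
        K.z * ∑ s, K.nu j s * x s - ∑ s, K.ze s * (K.nu j s * x s) := by
      rw [Finset.mul_sum, ← Finset.sum_sub_distrib]
      refine Finset.sum_congr rfl fun s _ ↦ ?_
      ring
    rw [e1]
    ring
  obtain ⟨r, hr⟩ := Complex.conj_eq_iff_real.1 h1
  obtain ⟨r', hr'⟩ := Complex.conj_eq_iff_real.1 h2
  have h4 : (K.u j x).im = K.z.im * r := by
    rw [h3, hr, hr']
    simp
  have h5 : K.v j x = r := by
    unfold KD.v
    rw [h4, mul_div_cancel_left₀ _ K.hz.ne']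
  rw [h5, hr]

theorem st_v {x : S → ℂ} (hx : x ∈ K.V) (s : S) :
    K.st (fun j ↦ ((K.v j x : ℝ) : ℂ)) s = x s := by
  unfold KD.st
  have h1 : ∀ j, ((K.v j x : ℝ) : ℂ) * K.nus j s =
      ∑ t, (K.nu j t * K.nus j s) * x t + (starRingEnd ℂ) (x K.o) * (K.nu0 j * K.nus j s) := by
    intro j
    rw [Ba1_v K hx j, add_mul, Finset.sum_mul]
    congr 1
    · refine Finset.sum_congr rfl fun t _ ↦ ?_
      ring
    · ring
  simp only [h1]
  rw [Finset.sum_add_distrib, Finset.sum_comm, ← Finset.mul_sum, K.dual0 s, mul_zero, add_zero]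
  have h2 : ∀ t, ∑ j, K.nu j t * K.nus j s * x t = if t = s then x t else 0 := by
    intro t
    rw [← Finset.sum_mul, K.dual t s]
    split_ifs
    · rw [one_mul]
    · rw [zero_mul]
  simp only [h2]
  rw [Finset.sum_ite_eq' Finset.univ s x, if_pos (mem_univ s)]

private theorem Ba1_u_add (j : ι) (x y : S → ℂ) :
    K.u j (fun s ↦ x s + y s) = K.u j x + K.u j y := by
  unfold KD.u
  rw [← Finset.sum_add_distrib]
  refine Finset.sum_congr rfl fun s _ ↦ ?_
  ring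

private theorem Ba1_v_add (j : ι) (x y : S → ℂ) :
    K.v j (fun s ↦ x s + y s) = K.v j x + K.v j y := by
  unfold KD.v
  rw [Ba1_u_add, Complex.add_im, add_div]

private theorem Ba1_u_le (j : ι) (y : S → ℂ) :
    ‖K.u j y‖ ≤ (∑ t, ‖(K.z - K.ze t) * K.nu j t‖) * ‖y‖ := by
  unfold KD.u
  refine (norm_sum_le _ _).trans ?_
  rw [Finset.sum_mul]
  refine Finset.sum_le_sum fun t _ ↦ ?_
  rw [norm_mul]
  exact mul_le_mul_of_nonneg_left (norm_le_pi_norm y t) (norm_nonneg _)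

private theorem Ba1_v_le (j : ι) (y : S → ℂ) :
    |K.v j y| ≤ (∑ t, ‖(K.z - K.ze t) * K.nu j t‖) / K.z.im * ‖y‖ := by
  unfold KD.v
  rw [abs_div, abs_of_pos K.hz, div_mul_eq_mul_div]
  refine div_le_div_of_nonneg_right ?_ K.hz.le
  exact (Complex.abs_im_le_norm _).trans (Ba1_u_le K j y)

theorem dist_V : ∃ C : ℝ, 1 ≤ C ∧ ∀ (x : S → ℂ) (s : S),
    ‖x s - K.st (fun j ↦ ((K.v j x : ℝ) : ℂ)) s‖ ≤ C * ‖K.bb x‖ := by
  have hnn : ∀ j, 0 ≤ (∑ t, ‖(K.z - K.ze t) * K.nu j t‖) / K.z.im := fun j ↦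
    div_nonneg (Finset.sum_nonneg fun t _ ↦ norm_nonneg _) K.hz.le
  refine ⟨1 + ∑ j, (∑ t, ‖(K.z - K.ze t) * K.nu j t‖) / K.z.im * ∑ s, ‖K.nus j s‖, ?_, ?_⟩
  · have : 0 ≤ ∑ j, (∑ t, ‖(K.z - K.ze t) * K.nu j t‖) / K.z.im * ∑ s, ‖K.nus j s‖ :=
      Finset.sum_nonneg fun j _ ↦ mul_nonneg (hnn j) (Finset.sum_nonneg fun s _ ↦ norm_nonneg _)
    linarith
  · intro x s
    set a : S → ℂ := fun s ↦ x s - I * K.bb x s with ha
    set b : S → ℂ := fun s ↦ I * K.bb x s with hb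
    have haV : a ∈ K.V := sub_bb_mem K x
    have hx : x = fun s ↦ a s + b s := by
      funext s
      rw [ha, hb]
      ring
    have hbn : ‖b‖ ≤ ‖K.bb x‖ := by
      rw [pi_norm_le_iff_of_nonneg (norm_nonneg _)]
      intro t
      rw [hb]
      show ‖I * K.bb x t‖ ≤ _
      rw [norm_mul, Complex.norm_I, one_mul]
      exact norm_le_pi_norm _ t
    have h1 : K.st (fun j ↦ ((K.v j x : ℝ) : ℂ)) s =
        a s + K.st (fun j ↦ ((K.v j b : ℝ) : ℂ)) s := by
      rw [← st_v K haV s]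
      unfold KD.st
      rw [← Finset.sum_add_distrib]
      refine Finset.sum_congr rfl fun j _ ↦ ?_
      have h2 : K.v j x = K.v j a + K.v j b := by
        conv_lhs => rw [hx]
        exact Ba1_v_add K j a b
      show ((K.v j x : ℝ) : ℂ) * K.nus j s =
        ((K.v j a : ℝ) : ℂ) * K.nus j s + ((K.v j b : ℝ) : ℂ) * K.nus j s
      rw [h2]
      push_cast
      ring
    have h3 : x s - K.st (fun j ↦ ((K.v j x : ℝ) : ℂ)) s =
        b s - K.st (fun j ↦ ((K.v j b : ℝ) : ℂ)) s := by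
      rw [h1, ha, hb]
      ring
    rw [h3]
    refine (norm_sub_le _ _).trans ?_
    have h4 : ‖b s‖ ≤ ‖K.bb x‖ := (norm_le_pi_norm b s).trans hbn
    have h5 : ‖K.st (fun j ↦ ((K.v j b : ℝ) : ℂ)) s‖ ≤
        (∑ j, (∑ t, ‖(K.z - K.ze t) * K.nu j t‖) / K.z.im * ∑ s, ‖K.nus j s‖) * ‖K.bb x‖ := by
      unfold KD.st
      refine (norm_sum_le _ _).trans ?_
      rw [Finset.sum_mul]
      refine Finset.sum_le_sum fun j _ ↦ ?_
      rw [norm_mul, Complex.norm_real, Real.norm_eq_abs]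
      have h6 : ‖K.nus j s‖ ≤ ∑ s, ‖K.nus j s‖ :=
        Finset.single_le_sum (f := fun s ↦ ‖K.nus j s‖) (fun s _ ↦ norm_nonneg _) (mem_univ s)
      have h7 : |K.v j b| ≤ (∑ t, ‖(K.z - K.ze t) * K.nu j t‖) / K.z.im * ‖K.bb x‖ :=
        (Ba1_v_le K j b).trans (mul_le_mul_of_nonneg_left hbn (hnn j))
      calc |K.v j b| * ‖K.nus j s‖
          ≤ ((∑ t, ‖(K.z - K.ze t) * K.nu j t‖) / K.z.im * ‖K.bb x‖) * ∑ s, ‖K.nus j s‖ :=
            mul_le_mul h7 h6 (norm_nonneg _) (mul_nonneg (hnn j) (norm_nonneg _))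
        _ = _ := by ring
    calc ‖b s‖ + ‖K.st (fun j ↦ ((K.v j b : ℝ) : ℂ)) s‖ ≤ ‖K.bb x‖ +
          (∑ j, (∑ t, ‖(K.z - K.ze t) * K.nu j t‖) / K.z.im * ∑ s, ‖K.nus j s‖) * ‖K.bb x‖ :=
          add_le_add h4 h5
      _ = _ := by ring

end AZ
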