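import Pool.Agent.H60.AZ.Defs

/-!
# Row Ba2 (MP_ede373, all algebraic points): linear bounds, the weight on complex lines

PROOF. Everything is elementary. Norm of `S → ℂ` and `ι → ℂ` = maximum norm.
`q_line`: with `a_j = u_j(x)`, `e_j = u_j(b)`, `u_j(x + w b) = a_j + w e_j`, and `(Im y)^2 = (|y|^2 - Re y^2)/2`,
`|a + w e|^2 = |a|^2 + 2 Re(w e conj a) + |w|^2 |e|^2`, `|w|^2 = Re w^2 + 2 (Im w)^2`. So with `P = π/Im z`:
`q(x + w b) = Re(α w^2 + β w + γ) + P ∑ |e_j|^2 (Im w)^2`, `α = (P/2) ∑ (|e_j|^2 - e_j^2)`, `β = P ∑ (e_j conj a_j - a_j e_j)`,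
`γ = (P/2) ∑ (|a_j|^2 - a_j^2)`. (Alternatively check real parts coordinatewise.)
`q_line0`: the case `x = 0`: `β = γ = 0`, `‖α‖ ≤ P ∑ |e_j|^2 = cq b`.
-/

set_option autoImplicit false

namespace AZ

open Complex Finset

variable {S ι : Type} [Fintype S] [DecidableEq S] [Fintype ι] [DecidableEq ι] (K : KD S ι)

theorem Ba2_id (P : ℝ) (a e w : ℂ) : P * (a + w * e).im ^ 2 =
    ((P / 2 : ℂ) * (e * (starRingEnd ℂ) e - e ^ 2) * w ^ 2 + (P : ℂ) * (e * (starRingEnd ℂ) a - a * e) * w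
      + (P / 2 : ℂ) * (a * (starRingEnd ℂ) a - a ^ 2)).re + P * ‖e‖ ^ 2 * w.im ^ 2 := by
  rw [Complex.sq_norm, Complex.normSq_apply]
  obtain ⟨a1, a2⟩ := a
  obtain ⟨e1, e2⟩ := e
  obtain ⟨w1, w2⟩ := w
  have h2 : (P / 2 : ℂ) = ((P / 2 : ℝ) : ℂ) := by push_cast; rfl
  rw [h2]
  simp only [Complex.add_re, Complex.add_im, Complex.mul_re, Complex.mul_im, Complex.sub_re, Complex.sub_im,
    Complex.conj_re, Complex.conj_im, Complex.ofReal_re, Complex.ofReal_im, pow_two]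
  ring

theorem u_add (j : ι) (x y : S → ℂ) : K.u j (x + y) = K.u j x + K.u j y := by
  simp only [KD.u, Pi.add_apply, mul_add, sum_add_distrib]

theorem u_smul (j : ι) (w : ℂ) (x : S → ℂ) : K.u j (w • x) = w * K.u j x := by
  simp only [KD.u, Pi.smul_apply, smul_eq_mul, mul_sum]
  exact Finset.sum_congr rfl (fun s _ => by ring)

theorem norm_u_le : ∃ C : ℝ, 1 ≤ C ∧ ∀ (j : ι) (x : S → ℂ), ‖K.u j x‖ ≤ C * ‖x‖ := by
  refine ⟨1 + ∑ j, ∑ s, ‖(K.z - K.ze s) * K.nu j s‖, ?_, ?_⟩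
  · have : 0 ≤ ∑ j, ∑ s, ‖(K.z - K.ze s) * K.nu j s‖ :=
      sum_nonneg (fun j _ => sum_nonneg (fun s _ => norm_nonneg _))
    linarith
  · intro j x
    have h1 : ‖K.u j x‖ ≤ (∑ s, ‖(K.z - K.ze s) * K.nu j s‖) * ‖x‖ := by
      rw [KD.u, sum_mul]
      refine (norm_sum_le _ _).trans (sum_le_sum (fun s _ => ?_))
      rw [norm_mul]
      exact mul_le_mul_of_nonneg_left (norm_le_pi_norm x s) (norm_nonneg _)
    have h2 : ∑ s, ‖(K.z - K.ze s) * K.nu j s‖ ≤ ∑ j, ∑ s, ‖(K.z - K.ze s) * K.nu j s‖ :=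
      single_le_sum (f := fun j => ∑ s, ‖(K.z - K.ze s) * K.nu j s‖)
        (fun j _ => sum_nonneg (fun s _ => norm_nonneg _)) (mem_univ j)
    refine h1.trans (mul_le_mul_of_nonneg_right ?_ (norm_nonneg _))
    linarith

theorem v_le : ∃ C : ℝ, 1 ≤ C ∧ ∀ (j : ι) (x : S → ℂ), |K.v j x| ≤ C * ‖x‖ := by
  obtain ⟨C, hC, h⟩ := norm_u_le K
  have hz := K.hz
  refine ⟨C / K.z.im + 1, ?_, ?_⟩
  · have : 0 ≤ C / K.z.im := by positivity
    linarith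
  · intro j x
    have h1 : |K.v j x| ≤ C / K.z.im * ‖x‖ := by
      rw [KD.v, abs_div, abs_of_pos hz, div_mul_eq_mul_div]
      exact div_le_div_of_nonneg_right ((Complex.abs_im_le_norm _).trans (h j x)) hz.le
    have := norm_nonneg x
    nlinarith

theorem q_nonneg (x : S → ℂ) : 0 ≤ K.q x := by
  have hz := K.hz
  have hP : 0 ≤ Real.pi / K.z.im := div_nonneg Real.pi_pos.le hz.le
  exact mul_nonneg hP (sum_nonneg (fun j _ => sq_nonneg _))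

theorem cq_nonneg (b : S → ℂ) : 0 ≤ K.cq b := by
  have hz := K.hz
  have hP : 0 ≤ Real.pi / K.z.im := div_nonneg Real.pi_pos.le hz.le
  exact mul_nonneg hP (sum_nonneg (fun j _ => sq_nonneg _))

theorem cq_le : ∃ C : ℝ, 1 ≤ C ∧ ∀ b : S → ℂ, K.cq b ≤ C * ‖b‖ ^ 2 := by
  obtain ⟨C, hC, h⟩ := norm_u_le K
  have hz := K.hz
  have hP : 0 ≤ Real.pi / K.z.im := div_nonneg Real.pi_pos.le hz.le
  refine ⟨Real.pi / K.z.im * (Fintype.card ι * C ^ 2) + 1, ?_, ?_⟩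
  · have : 0 ≤ Real.pi / K.z.im * (Fintype.card ι * C ^ 2) := by positivity
    linarith
  · intro b
    have h1 : ∑ j, ‖K.u j b‖ ^ 2 ≤ ∑ _j : ι, (C ^ 2 * ‖b‖ ^ 2) := by
      refine sum_le_sum (fun j _ => ?_)
      rw [← mul_pow]
      exact pow_le_pow_left₀ (norm_nonneg _) (h j b) 2
    have h2 : ∑ _j : ι, (C ^ 2 * ‖b‖ ^ 2) = Fintype.card ι * C ^ 2 * ‖b‖ ^ 2 := by
      rw [sum_const, card_univ, nsmul_eq_mul]; ring
    rw [h2] at h1
    have h3 : K.cq b ≤ Real.pi / K.z.im * (Fintype.card ι * C ^ 2 * ‖b‖ ^ 2) :=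
      mul_le_mul_of_nonneg_left h1 hP
    have h4 := sq_nonneg ‖b‖
    nlinarith

theorem Ba2_q_le_cq (x : S → ℂ) : K.q x ≤ K.cq x := by
  have hz := K.hz
  have hP : 0 ≤ Real.pi / K.z.im := div_nonneg Real.pi_pos.le hz.le
  refine mul_le_mul_of_nonneg_left (sum_le_sum (fun j _ => ?_)) hP
  have := Complex.abs_im_le_norm (K.u j x)
  rw [← sq_abs]
  exact pow_le_pow_left₀ (abs_nonneg _) this 2

theorem q_le : ∃ C : ℝ, 1 ≤ C ∧ ∀ x : S → ℂ, K.q x ≤ C * ‖x‖ ^ 2 := by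
  obtain ⟨C, hC, h⟩ := cq_le K
  exact ⟨C, hC, fun x => (Ba2_q_le_cq K x).trans (h x)⟩

theorem bb_le (x : S → ℂ) : ‖K.bb x‖ ≤ ‖x‖ := by
  rw [pi_norm_le_iff_of_nonneg (norm_nonneg x)]
  intro s
  unfold KD.bb
  split_ifs with h
  · simp
  · rw [norm_div]
    have h1 : ‖(2 * I : ℂ)‖ = 2 := by simp
    rw [h1, div_le_iff₀ (by norm_num)]
    refine (norm_sub_le _ _).trans ?_
    have h2 := norm_le_pi_norm x s
    have h3 := norm_le_pi_norm x (K.bar s)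
    have h4 : ‖(starRingEnd ℂ) (x (K.bar s))‖ = ‖x (K.bar s)‖ := RCLike.norm_conj _
    rw [h4]
    linarith

theorem bb_add (x y : S → ℂ) : K.bb (x + y) = K.bb x + K.bb y := by
  funext s
  simp only [KD.bb, Pi.add_apply, map_add]
  split_ifs with h
  · simp
  · ring

theorem st_le : ∃ C : ℝ, 1 ≤ C ∧ ∀ (m : ι → ℂ) (s : S), ‖K.st m s‖ ≤ C * ∑ j, ‖m j‖ := by
  refine ⟨1 + ∑ j, ∑ s, ‖K.nus j s‖, ?_, ?_⟩
  · have : 0 ≤ ∑ j, ∑ s, ‖K.nus j s‖ :=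
      sum_nonneg (fun j _ => sum_nonneg (fun s _ => norm_nonneg _))
    linarith
  · intro m s
    rw [KD.st, mul_sum]
    refine (norm_sum_le _ _).trans (sum_le_sum (fun j _ => ?_))
    rw [norm_mul, mul_comm]
    refine mul_le_mul_of_nonneg_right ?_ (norm_nonneg _)
    have h1 : ‖K.nus j s‖ ≤ ∑ s, ‖K.nus j s‖ :=
      single_le_sum (f := fun s => ‖K.nus j s‖) (fun s _ => norm_nonneg _) (mem_univ s)
    have h2 : ∑ s, ‖K.nus j s‖ ≤ ∑ j, ∑ s, ‖K.nus j s‖ :=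
      single_le_sum (f := fun j => ∑ s, ‖K.nus j s‖)
        (fun j _ => sum_nonneg (fun s _ => norm_nonneg _)) (mem_univ j)
    linarith

theorem st_add (m n : ι → ℂ) (s : S) : K.st (fun j ↦ m j + n j) s = K.st m s + K.st n s := by
  simp only [KD.st, add_mul, sum_add_distrib]

theorem q_line (x b : S → ℂ) : ∃ α β γ : ℂ, ∀ w : ℂ,
    K.q (x + w • b) = (α * w ^ 2 + β * w + γ).re + K.cq b * w.im ^ 2 := by
  set P : ℝ := Real.pi / K.z.im with hP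
  refine ⟨∑ j, (P / 2 : ℂ) * (K.u j b * (starRingEnd ℂ) (K.u j b) - K.u j b ^ 2),
    ∑ j, (P : ℂ) * (K.u j b * (starRingEnd ℂ) (K.u j x) - K.u j x * K.u j b),
    ∑ j, (P / 2 : ℂ) * (K.u j x * (starRingEnd ℂ) (K.u j x) - K.u j x ^ 2), ?_⟩
  intro w
  rw [KD.q, KD.cq, ← hP, mul_sum, mul_sum, sum_mul, sum_mul, sum_mul, ← sum_add_distrib, ← sum_add_distrib,
    Complex.re_sum, ← sum_add_distrib]
  refine sum_congr rfl (fun j _ => ?_)
  rw [u_add, u_smul]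
  exact Ba2_id P (K.u j x) (K.u j b) w

theorem q_line0 (b : S → ℂ) : ∃ α : ℂ, ‖α‖ ≤ K.cq b ∧ ∀ w : ℂ,
    K.q (w • b) = (α * w ^ 2).re + K.cq b * w.im ^ 2 := by
  set P : ℝ := Real.pi / K.z.im with hP
  have hP0 : 0 ≤ P := div_nonneg Real.pi_pos.le K.hz.le
  refine ⟨∑ j, (P / 2 : ℂ) * (K.u j b * (starRingEnd ℂ) (K.u j b) - K.u j b ^ 2), ?_, ?_⟩
  · rw [KD.cq, ← hP, mul_sum]
    refine (norm_sum_le _ _).trans (sum_le_sum (fun j _ => ?_))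
    have h1 : ‖K.u j b * (starRingEnd ℂ) (K.u j b) - K.u j b ^ 2‖ ≤ 2 * ‖K.u j b‖ ^ 2 := by
      refine (norm_sub_le _ _).trans ?_
      rw [norm_mul, norm_pow, RCLike.norm_conj]
      nlinarith
    have h2 : ‖(P / 2 : ℂ)‖ = P / 2 := by
      rw [show (P / 2 : ℂ) = ((P / 2 : ℝ) : ℂ) by push_cast; rfl, Complex.norm_real, Real.norm_eq_abs,
        abs_of_nonneg (by positivity)]
    rw [norm_mul, h2]
    nlinarith
  · intro w
    rw [KD.q, KD.cq, ← hP, mul_sum, mul_sum, sum_mul, sum_mul, Complex.re_sum, ← sum_add_distrib]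
    refine sum_congr rfl (fun j _ => ?_)
    rw [u_smul]
    have := Ba2_id P 0 (K.u j b) w
    simpa using this

end AZ
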