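import Pool.Agent.H60.AZ.Defs

/-!
# Row Ba3 (MP_ede373, all algebraic points): completing the square

PROOF. `‖(-1)^(m j)‖ = 1` (zpow), `‖exp(π i m^2 z)‖ = exp(-π m^2 Im z)`, `‖exp(2 π i ∑ m_j u_j)‖ = exp(-2 π ∑ m_j Im u_j)`,
`‖∏‖ = ∏ ‖·‖`, `∏ exp = exp ∑`. With `Im u_j = Y v_j` (`Y = Im z > 0`): for each `j`
`-π Y m_j^2 - 2 π m_j Y v_j - π/Y (Y v_j)^2 = -π Y (m_j + v_j)^2`.
-/

set_option autoImplicit false

namespace AZ

open Complex Finset

variable {S ι : Type} [Fintype S] [DecidableEq S] [Fintype ι] [DecidableEq ι] (K : KD S ι)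

private theorem Ba3_f (c0 z : ℂ) (m : ℤ) :
    ‖c0 * (-1) ^ m * exp (Real.pi * I * (m : ℂ) ^ 2 * z)‖ =
      ‖c0‖ * Real.exp (-(Real.pi * z.im * (m : ℝ) ^ 2)) := by
  rw [norm_mul, norm_mul, norm_zpow, norm_neg, norm_one, one_zpow, mul_one, Complex.norm_exp]
  congr 2
  have h : (Real.pi : ℂ) * I * (m : ℂ) ^ 2 * z = ((Real.pi * (m : ℝ) ^ 2 : ℝ) : ℂ) * (I * z) := by
    push_cast
    ring
  rw [h, Complex.re_ofReal_mul]
  simp only [Complex.mul_re, Complex.I_re, Complex.I_im]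
  ring

theorem norm_am (c0 : ℂ) (m : ι → ℤ) :
    ‖K.am c0 m‖ = ‖c0‖ ^ Fintype.card ι * Real.exp (-(Real.pi * K.z.im * ∑ j, (m j : ℝ) ^ 2)) := by
  unfold KD.am
  rw [norm_prod]
  simp only [Ba3_f]
  rw [prod_mul_distrib, prod_const, card_univ, ← Real.exp_sum]
  congr 2
  rw [mul_sum, sum_neg_distrib]

theorem norm_tm (c0 : ℂ) (m : ι → ℤ) (x : S → ℂ) :
    ‖K.tm c0 m x‖ * Real.exp (-K.q x) =
      ‖c0‖ ^ Fintype.card ι * Real.exp (-(Real.pi * K.z.im * ∑ j, ((m j : ℝ) + K.v j x) ^ 2)) := by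
  unfold KD.tm
  rw [norm_mul, norm_am, Complex.norm_exp, mul_assoc, mul_assoc, ← Real.exp_add, ← Real.exp_add]
  congr 2
  have h : (2 * Real.pi * I * ∑ j, (m j : ℂ) * K.u j x).re = -(2 * Real.pi * ∑ j, (m j : ℝ) * (K.u j x).im) := by
    have h1 : (2 * Real.pi * I * ∑ j, (m j : ℂ) * K.u j x) =
        ((2 * Real.pi : ℝ) : ℂ) * (I * ∑ j, (m j : ℂ) * K.u j x) := by
      push_cast
      ring
    have h2 : (∑ j, (m j : ℂ) * K.u j x).im = ∑ j, (m j : ℝ) * (K.u j x).im := by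
      rw [Complex.im_sum]
      refine sum_congr rfl fun j _ => ?_
      rw [← Complex.ofReal_intCast, Complex.im_ofReal_mul]
    rw [h1, Complex.re_ofReal_mul]
    simp only [Complex.mul_re, Complex.I_re, Complex.I_im]
    rw [h2]
    ring
  rw [h]
  unfold KD.q KD.v
  have hY : K.z.im ≠ 0 := K.hz.ne'
  rw [mul_sum, mul_sum, mul_sum, mul_sum, ← sum_neg_distrib, ← sum_neg_distrib, ← sum_neg_distrib, ← sum_neg_distrib,
    ← sum_add_distrib, ← sum_add_distrib]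
  refine sum_congr rfl fun j _ => ?_
  field_simp
  ring

end AZ
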