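import Mathlib

/-!
# Row Ba4 (MP_ede373, all algebraic points): sums of Gaussians times polynomials

Pure real analysis. `ι` finite, `Y > 0`.

PROOF. (1) One variable: for `c > 0` and all real `v`: `∑_{n ∈ ℤ} exp(-c (n+v)^2) ≤ G` with `G` depending only on `c`, and summable:
replace `v` by `v - round v` (shift of the summation index, `Equiv.addRight`), so `|v| ≤ 1/2` and
`(n+v)^2 ≥ n^2/4 - 1/2.. ` (`(n+v)^2 ≥ n^2/2 - v^2`), `exp(-c n^2/2)` is summable over `ℤ` (compare with a geometric series in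
`|n| ≤ n^2`, `Summable.of_nat_of_neg`, or `summable_exp_...`; Mathlib: `Real.summable_exp_neg_nat..`, jacobiTheta summability).
(2) Product: `∑_{m : ι → ℤ} ∏_j exp(-c (m_j+v_j)^2) ≤ G^(card ι)` and summable (nonnegative terms: every finite set of
`m : ι → ℤ` is contained in a box `Fintype.piFinset`, `Finset.prod_univ_sum`, `summable_of_sum_le`, `Real.tsum_le_of_sum_le`).
(3) `t = ∑_j |m_j+v_j|`, `t^2 ≤ d ∑ (m_j+v_j)^2`, `d = card ι` (Cauchy-Schwarz). `(B + t)^n ≤ B^n (1+t)^n` (`B ≥ 1`), and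
`(1+t)^n exp(-π Y ∑ (m_j+v_j)^2 / 2) ≤ (1+t)^n exp(-a t^2)`, `a = π Y/(2 d)` (if `ι` is empty everything is trivial);
`(1+t)^n exp(-a t^2) ≤ exp(C (n+1) log (n+2))`: `n log(1+t) ≤ a t^2 + C (n+1) log (n+2)`: if `t ≤ (n+2) T` (`T = max 1 (1/a) + 1`) then
`n log (1+t) ≤ n (log (n+2) + log (1+T))`; otherwise `log(1+t) ≤ t` and `a t^2 ≥ n t`.
-/

set_option autoImplicit false

namespace AZ

open Finset

variable {ι : Type} [Fintype ι] [DecidableEq ι]


omit [Fintype ι] [DecidableEq ι] in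
theorem Ba4_sq {m u : ℝ} (hu : |u| ≤ 1 / 2) : m ^ 2 / 2 - 1 / 4 ≤ (m + u) ^ 2 := by
  have h1 : u ^ 2 ≤ (1 / 2) ^ 2 := sq_le_sq.2 (by rw [abs_of_pos (by norm_num : (0 : ℝ) < 1 / 2)]; exact hu)
  have h2 : 0 ≤ (m + 2 * u) ^ 2 := sq_nonneg _
  have e : (m + 2 * u) ^ 2 = 2 * (m + u) ^ 2 + 2 * u ^ 2 - m ^ 2 := by ring
  rw [e] at h2
  norm_num at h1
  linarith

theorem Ba4_int {c : ℝ} (hc : 0 < c) : Summable (fun m : ℤ => Real.exp (-(c * (m : ℝ) ^ 2))) := by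
  have hn : Summable (fun n : ℕ => Real.exp (-(c * (n : ℝ) ^ 2))) := by
    have hg : Summable (fun n : ℕ => Real.exp (-c) ^ n) :=
      summable_geometric_of_lt_one (Real.exp_pos _).le (Real.exp_lt_one_iff.2 (by linarith))
    refine Summable.of_nonneg_of_le (fun n => (Real.exp_pos _).le) (fun n => ?_) hg
    rw [← Real.exp_nat_mul]
    refine Real.exp_le_exp.2 ?_
    have h1 : (n : ℝ) ≤ (n : ℝ) ^ 2 := by
      have : n ≤ n ^ 2 := Nat.le_self_pow (by norm_num) n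
      exact_mod_cast this
    have h2 : c * n ≤ c * (n : ℝ) ^ 2 := mul_le_mul_of_nonneg_left h1 hc.le
    linarith
  refine Summable.of_nat_of_neg ?_ ?_
  · simpa using hn
  · simpa using hn

theorem Ba4_one {c : ℝ} (hc : 0 < c) : ∃ G : ℝ, 1 ≤ G ∧ ∀ v : ℝ,
    Summable (fun n : ℤ => Real.exp (-(c * ((n : ℝ) + v) ^ 2))) ∧
    ∑' n : ℤ, Real.exp (-(c * ((n : ℝ) + v) ^ 2)) ≤ G := by
  have hS : Summable (fun m : ℤ => Real.exp (-(c / 2 * (m : ℝ) ^ 2))) := Ba4_int (half_pos hc)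
  have hS2 : Summable (fun m : ℤ => Real.exp (c / 4) * Real.exp (-(c / 2 * (m : ℝ) ^ 2))) := hS.mul_left _
  refine ⟨max 1 (∑' m : ℤ, Real.exp (c / 4) * Real.exp (-(c / 2 * (m : ℝ) ^ 2))), le_max_left _ _, fun v => ?_⟩
  obtain ⟨r, hr⟩ : ∃ r : ℤ, r = round v := ⟨_, rfl⟩
  obtain ⟨u, hu⟩ : ∃ u : ℝ, u = v - r := ⟨_, rfl⟩
  have hu1 : |u| ≤ 1 / 2 := by
    rw [hu, hr]
    exact abs_sub_round v
  have hb : ∀ m : ℤ, Real.exp (-(c * ((m : ℝ) + u) ^ 2)) ≤
      Real.exp (c / 4) * Real.exp (-(c / 2 * (m : ℝ) ^ 2)) := by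
    intro m
    rw [← Real.exp_add]
    refine Real.exp_le_exp.2 ?_
    have h1 := mul_le_mul_of_nonneg_left (Ba4_sq (m := (m : ℝ)) hu1) hc.le
    linarith
  have hs1 : Summable (fun m : ℤ => Real.exp (-(c * ((m : ℝ) + u) ^ 2))) :=
    Summable.of_nonneg_of_le (fun n => (Real.exp_pos _).le) hb hS2
  have hcomp : (fun n : ℤ => Real.exp (-(c * ((n : ℝ) + v) ^ 2))) =
      (fun m : ℤ => Real.exp (-(c * ((m : ℝ) + u) ^ 2))) ∘ (Equiv.addRight r) := by
    funext n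
    show _ = Real.exp (-(c * (((n + r : ℤ) : ℝ) + u) ^ 2))
    rw [hu]
    push_cast
    congr 3
    ring
  rw [hcomp]
  refine ⟨(Equiv.addRight r).summable_iff.2 hs1, ?_⟩
  have h2 : ∑' n : ℤ, ((fun m : ℤ => Real.exp (-(c * ((m : ℝ) + u) ^ 2))) ∘ (Equiv.addRight r)) n =
      ∑' m : ℤ, Real.exp (-(c * ((m : ℝ) + u) ^ 2)) :=
    (Equiv.addRight r).tsum_eq (fun m : ℤ => Real.exp (-(c * ((m : ℝ) + u) ^ 2)))
  rw [h2]
  exact (hs1.tsum_le_tsum hb hS2).trans (le_max_right _ _)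

/-- products -/
theorem Ba4_prod {c : ℝ} (hc : 0 < c) : ∃ G : ℝ, 1 ≤ G ∧ ∀ v : ι → ℝ,
    Summable (fun m : ι → ℤ => Real.exp (-(c * ∑ j, ((m j : ℝ) + v j) ^ 2))) ∧
    ∑' m : ι → ℤ, Real.exp (-(c * ∑ j, ((m j : ℝ) + v j) ^ 2)) ≤ G := by
  obtain ⟨G, hG1, hG⟩ := Ba4_one hc
  refine ⟨G ^ Fintype.card ι, one_le_pow₀ hG1, fun v => ?_⟩
  have hbd : ∀ s : Finset (ι → ℤ), ∑ m ∈ s, Real.exp (-(c * ∑ j, ((m j : ℝ) + v j) ^ 2)) ≤ G ^ Fintype.card ι := by
    intro s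
    obtain ⟨t, ht⟩ : ∃ t : ι → Finset ℤ, t = fun j => s.image (fun m => m j) := ⟨_, rfl⟩
    have hsub : s ⊆ Fintype.piFinset t := by
      intro m hm
      rw [Fintype.mem_piFinset]
      intro j
      rw [ht]
      exact Finset.mem_image_of_mem _ hm
    have e : ∀ m : ι → ℤ, Real.exp (-(c * ∑ j, ((m j : ℝ) + v j) ^ 2)) =
        ∏ j, Real.exp (-(c * ((m j : ℝ) + v j) ^ 2)) := by
      intro m
      rw [← Real.exp_sum, Finset.mul_sum, Finset.sum_neg_distrib]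
    calc ∑ m ∈ s, Real.exp (-(c * ∑ j, ((m j : ℝ) + v j) ^ 2))
        ≤ ∑ m ∈ Fintype.piFinset t, Real.exp (-(c * ∑ j, ((m j : ℝ) + v j) ^ 2)) :=
          Finset.sum_le_sum_of_subset_of_nonneg hsub fun m _ _ => (Real.exp_pos _).le
      _ = ∑ m ∈ Fintype.piFinset t, ∏ j, Real.exp (-(c * ((m j : ℝ) + v j) ^ 2)) :=
          Finset.sum_congr rfl fun m _ => e m
      _ = ∏ j, ∑ k ∈ t j, Real.exp (-(c * ((k : ℝ) + v j) ^ 2)) := by
          rw [Finset.prod_univ_sum]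
      _ ≤ ∏ _j : ι, G := by
          refine Finset.prod_le_prod (fun j _ => Finset.sum_nonneg fun k _ => (Real.exp_pos _).le) ?_
          intro j _
          exact ((hG (v j)).1.sum_le_tsum (t j) fun k _ => (Real.exp_pos _).le).trans (hG (v j)).2
      _ = G ^ Fintype.card ι := by
          rw [Finset.prod_const, Finset.card_univ]
  have hs : Summable (fun m : ι → ℤ => Real.exp (-(c * ∑ j, ((m j : ℝ) + v j) ^ 2))) :=
    summable_of_sum_le (fun m => (Real.exp_pos _).le) hbd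
  exact ⟨hs, hs.tsum_le_of_sum_le hbd⟩

/-- polynomials against Gaussians -/
theorem Ba4_poly {a : ℝ} (ha : 0 < a) : ∃ C : ℝ, 1 ≤ C ∧ ∀ (n : ℕ) (t : ℝ), 0 ≤ t →
    (1 + t) ^ n * Real.exp (-(a * t ^ 2)) ≤ Real.exp (C * (n + 1) * Real.log (n + 2)) := by
  have hl2 : 0 < Real.log 2 := Real.log_pos (by norm_num)
  have hL : 0 ≤ Real.log (1 + 1 / a) := Real.log_nonneg (by
    have : 0 < 1 / a := by positivity
    linarith)
  refine ⟨1 + Real.log (1 + 1 / a) / Real.log 2, by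
    have : 0 ≤ Real.log (1 + 1 / a) / Real.log 2 := by positivity
    linarith, fun n t ht => ?_⟩
  have hn : (0 : ℝ) ≤ n := Nat.cast_nonneg n
  have hln : Real.log 2 ≤ Real.log ((n : ℝ) + 2) := Real.log_le_log (by norm_num) (by linarith)
  have hln0 : 0 ≤ Real.log ((n : ℝ) + 2) := hl2.le.trans hln
  rcases le_or_gt t (n / a) with h | h
  · have h1 : 1 + t ≤ Real.exp (Real.log ((n : ℝ) + 2) + Real.log (1 + 1 / a)) := by
      rw [Real.exp_add, Real.exp_log (by positivity), Real.exp_log (by positivity)]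
      have h2 : (n : ℝ) / a ≤ (n + 2) * (1 / a) := by
        rw [mul_one_div]
        exact div_le_div_of_nonneg_right (by linarith) ha.le
      have h3 : ((n : ℝ) + 2) * (1 + 1 / a) = (n + 2) + (n + 2) * (1 / a) := by ring
      rw [h3]
      linarith
    have h4 : (1 + t) ^ n ≤ Real.exp (n * (Real.log ((n : ℝ) + 2) + Real.log (1 + 1 / a))) := by
      rw [Real.exp_nat_mul]
      exact pow_le_pow_left₀ (by linarith) h1 n
    have h5 : Real.exp (-(a * t ^ 2)) ≤ 1 := by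
      rw [← Real.exp_zero]
      refine Real.exp_le_exp.2 ?_
      have : 0 ≤ a * t ^ 2 := by positivity
      linarith
    calc (1 + t) ^ n * Real.exp (-(a * t ^ 2)) ≤ (1 + t) ^ n * 1 :=
          mul_le_mul_of_nonneg_left h5 (pow_nonneg (by linarith) n)
      _ = (1 + t) ^ n := mul_one _
      _ ≤ Real.exp (n * (Real.log ((n : ℝ) + 2) + Real.log (1 + 1 / a))) := h4
      _ ≤ _ := by
          refine Real.exp_le_exp.2 ?_
          have e1 : n * (Real.log ((n : ℝ) + 2) + Real.log (1 + 1 / a)) ≤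
              (n + 1) * (Real.log ((n : ℝ) + 2) + Real.log (1 + 1 / a)) :=
            mul_le_mul_of_nonneg_right (by linarith) (by linarith)
          have e2 : Real.log (1 + 1 / a) ≤ Real.log (1 + 1 / a) / Real.log 2 * Real.log ((n : ℝ) + 2) := by
            have e3 : Real.log (1 + 1 / a) = Real.log (1 + 1 / a) / Real.log 2 * Real.log 2 := by
              field_simp
            calc Real.log (1 + 1 / a) = Real.log (1 + 1 / a) / Real.log 2 * Real.log 2 := e3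
              _ ≤ _ := mul_le_mul_of_nonneg_left hln (by positivity)
          have e4 : ((n : ℝ) + 1) * (Real.log ((n : ℝ) + 2) + Real.log (1 + 1 / a)) ≤
              (n + 1) * (Real.log ((n : ℝ) + 2) + Real.log (1 + 1 / a) / Real.log 2 * Real.log ((n : ℝ) + 2)) :=
            mul_le_mul_of_nonneg_left (by linarith) (by linarith)
          have e5 : ((n : ℝ) + 1) * (Real.log ((n : ℝ) + 2) +
              Real.log (1 + 1 / a) / Real.log 2 * Real.log ((n : ℝ) + 2)) =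
              (1 + Real.log (1 + 1 / a) / Real.log 2) * (n + 1) * Real.log (n + 2) := by ring
          linarith
  · have h1 : (1 + t) ^ n ≤ Real.exp (n * t) := by
      rw [Real.exp_nat_mul]
      refine pow_le_pow_left₀ (by linarith) ?_ n
      have := Real.add_one_le_exp t
      linarith
    have h2 : (n : ℝ) * t ≤ a * t ^ 2 := by
      have h3 : (n : ℝ) ≤ a * t := by
        rw [div_lt_iff₀ ha] at h
        linarith
      have h4 := mul_le_mul_of_nonneg_right h3 ht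
      have e : a * t * t = a * t ^ 2 := by ring
      linarith
    calc (1 + t) ^ n * Real.exp (-(a * t ^ 2)) ≤ Real.exp (n * t) * Real.exp (-(a * t ^ 2)) :=
          mul_le_mul_of_nonneg_right h1 (Real.exp_pos _).le
      _ = Real.exp (n * t - a * t ^ 2) := by
          rw [← Real.exp_add]
          congr 1
      _ ≤ _ := by
          refine Real.exp_le_exp.2 ?_
          have e1 : 0 ≤ (1 + Real.log (1 + 1 / a) / Real.log 2) * (n + 1) * Real.log (n + 2) := by positivity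
          linarith

omit [DecidableEq ι] in
theorem Ba4_cs (x : ι → ℝ) : (∑ j, |x j|) ^ 2 ≤ (Fintype.card ι + 1) * ∑ j, x j ^ 2 := by
  have h1 := sq_sum_le_card_mul_sum_sq (s := (Finset.univ : Finset ι)) (f := fun j => |x j|)
  have h2 : ∑ j, |x j| ^ 2 = ∑ j, x j ^ 2 := Finset.sum_congr rfl fun j _ => sq_abs (x j)
  rw [h2, Finset.card_univ] at h1
  have h3 : 0 ≤ ∑ j, x j ^ 2 := Finset.sum_nonneg fun j _ => sq_nonneg _
  have h4 : ((Fintype.card ι : ℝ) + 1) * ∑ j, x j ^ 2 = Fintype.card ι * ∑ j, x j ^ 2 + ∑ j, x j ^ 2 := by ring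
  linarith

theorem gauss_sum {Y : ℝ} (hY : 0 < Y) : ∃ C : ℝ, 1 ≤ C ∧ ∀ (v : ι → ℝ) (n : ℕ) (B : ℝ), 1 ≤ B →
    Summable (fun m : ι → ℤ ↦ Real.exp (-(Real.pi * Y * ∑ j, ((m j : ℝ) + v j) ^ 2)) *
      (B + ∑ j, |(m j : ℝ) + v j|) ^ n) ∧
    ∑' m : ι → ℤ, Real.exp (-(Real.pi * Y * ∑ j, ((m j : ℝ) + v j) ^ 2)) *
      (B + ∑ j, |(m j : ℝ) + v j|) ^ n ≤ B ^ n * Real.exp (C * (n + 1) * Real.log (n + 2)) := by
  have hpi := Real.pi_pos
  have hl2 : 0 < Real.log 2 := Real.log_pos (by norm_num)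
  obtain ⟨c, hc⟩ : ∃ c : ℝ, c = Real.pi * Y / 2 := ⟨_, rfl⟩
  have hc0 : 0 < c := by
    rw [hc]
    positivity
  obtain ⟨G, hG1, hG⟩ := Ba4_prod (ι := ι) hc0
  obtain ⟨a, ha⟩ : ∃ a : ℝ, a = c / (Fintype.card ι + 1) := ⟨_, rfl⟩
  have ha0 : 0 < a := by
    rw [ha]
    positivity
  obtain ⟨C0, hC0, hP⟩ := Ba4_poly ha0
  have hlG : 0 ≤ Real.log G := Real.log_nonneg hG1
  have hpt : ∀ (v : ι → ℝ) (n : ℕ) (B : ℝ), 1 ≤ B → ∀ m : ι → ℤ,
      Real.exp (-(Real.pi * Y * ∑ j, ((m j : ℝ) + v j) ^ 2)) * (B + ∑ j, |(m j : ℝ) + v j|) ^ n ≤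
      B ^ n * Real.exp (C0 * (n + 1) * Real.log (n + 2)) *
        Real.exp (-(c * ∑ j, ((m j : ℝ) + v j) ^ 2)) := by
    intro v n B hB m
    have hcs := Ba4_cs (fun j => (m j : ℝ) + v j)
    obtain ⟨t, ht⟩ : ∃ t : ℝ, t = ∑ j, |(m j : ℝ) + v j| := ⟨_, rfl⟩
    obtain ⟨Q, hQ⟩ : ∃ Q : ℝ, Q = ∑ j, ((m j : ℝ) + v j) ^ 2 := ⟨_, rfl⟩
    have ht0 : 0 ≤ t := by
      rw [ht]
      exact Finset.sum_nonneg fun j _ => abs_nonneg _
    simp only [← ht, ← hQ] at hcs ⊢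
    have h1 : a * t ^ 2 ≤ c * Q := by
      rw [ha, div_mul_eq_mul_div, div_le_iff₀ (by positivity)]
      have := mul_le_mul_of_nonneg_left hcs hc0.le
      linarith
    have h2 : (B + t) ^ n ≤ B ^ n * (1 + t) ^ n := by
      rw [← mul_pow]
      refine pow_le_pow_left₀ (by linarith) ?_ n
      have : 0 ≤ (B - 1) * t := mul_nonneg (by linarith) ht0
      linarith
    have h3 : Real.exp (-(Real.pi * Y * Q)) ≤ Real.exp (-(a * t ^ 2)) * Real.exp (-(c * Q)) := by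
      rw [← Real.exp_add]
      refine Real.exp_le_exp.2 ?_
      have e : Real.pi * Y * Q = c * Q + c * Q := by
        rw [hc]
        ring
      linarith
    calc Real.exp (-(Real.pi * Y * Q)) * (B + t) ^ n
        ≤ (Real.exp (-(a * t ^ 2)) * Real.exp (-(c * Q))) * (B ^ n * (1 + t) ^ n) := by
          refine mul_le_mul h3 h2 (pow_nonneg (by linarith) n) (by positivity)
      _ = B ^ n * ((1 + t) ^ n * Real.exp (-(a * t ^ 2))) * Real.exp (-(c * Q)) := by ring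
      _ ≤ B ^ n * Real.exp (C0 * (n + 1) * Real.log (n + 2)) * Real.exp (-(c * Q)) := by
          refine mul_le_mul_of_nonneg_right ?_ (Real.exp_pos _).le
          exact mul_le_mul_of_nonneg_left (hP n t ht0) (pow_nonneg (by linarith) n)
  refine ⟨C0 + Real.log G / Real.log 2, by
    have : 0 ≤ Real.log G / Real.log 2 := by positivity
    linarith, fun v n B hB => ?_⟩
  obtain ⟨hs, hle⟩ := hG v
  have hs2 : Summable (fun m : ι → ℤ => B ^ n * Real.exp (C0 * (n + 1) * Real.log (n + 2)) *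
        Real.exp (-(c * ∑ j, ((m j : ℝ) + v j) ^ 2))) := hs.mul_left _
  have hnn : ∀ m : ι → ℤ, 0 ≤ Real.exp (-(Real.pi * Y * ∑ j, ((m j : ℝ) + v j) ^ 2)) *
      (B + ∑ j, |(m j : ℝ) + v j|) ^ n := by
    intro m
    have : 0 ≤ ∑ j, |(m j : ℝ) + v j| := Finset.sum_nonneg fun j _ => abs_nonneg _
    positivity
  have hs1 := Summable.of_nonneg_of_le hnn (hpt v n B hB) hs2
  refine ⟨hs1, ?_⟩
  refine (hs1.tsum_le_tsum (hpt v n B hB) hs2).trans ?_
  rw [tsum_mul_left, mul_assoc]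
  refine mul_le_mul_of_nonneg_left ?_ (pow_nonneg (by linarith) n)
  have hGe : ∑' m : ι → ℤ, Real.exp (-(c * ∑ j, ((m j : ℝ) + v j) ^ 2)) ≤
      Real.exp (Real.log G / Real.log 2 * (n + 1) * Real.log (n + 2)) := by
    refine hle.trans ?_
    calc G = Real.exp (Real.log G) := (Real.exp_log (by linarith)).symm
      _ ≤ _ := by
        refine Real.exp_le_exp.2 ?_
        have hn : (0 : ℝ) ≤ n := Nat.cast_nonneg n
        have hln : Real.log 2 ≤ Real.log ((n : ℝ) + 2) := Real.log_le_log (by norm_num) (by linarith)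
        have e1 : Real.log G = Real.log G / Real.log 2 * Real.log 2 := by
          field_simp
        have e2 : Real.log G / Real.log 2 * Real.log 2 ≤ Real.log G / Real.log 2 * ((n + 1) * Real.log (n + 2)) := by
          refine mul_le_mul_of_nonneg_left ?_ (by positivity)
          have e3 : 1 * Real.log ((n : ℝ) + 2) ≤ (n + 1) * Real.log (n + 2) :=
            mul_le_mul_of_nonneg_right (by linarith) (hl2.le.trans hln)
          linarith
        have e4 : Real.log G / Real.log 2 * ((n + 1) * Real.log (n + 2)) =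
          Real.log G / Real.log 2 * (n + 1) * Real.log (n + 2) := by ring
        linarith
  calc Real.exp (C0 * (n + 1) * Real.log (n + 2)) *
        ∑' m : ι → ℤ, Real.exp (-(c * ∑ j, ((m j : ℝ) + v j) ^ 2))
      ≤ Real.exp (C0 * (n + 1) * Real.log (n + 2)) *
        Real.exp (Real.log G / Real.log 2 * (n + 1) * Real.log (n + 2)) :=
        mul_le_mul_of_nonneg_left hGe (Real.exp_pos _).le
    _ = _ := by
      rw [← Real.exp_add]
      congr 1
      ring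

/-- The sum over the complement of a box. -/
theorem gauss_tail {Y : ℝ} (hY : 0 < Y) : ∃ C : ℝ, 1 ≤ C ∧ ∀ (v : ι → ℝ) (V : ℝ), (∀ j, |v j| ≤ V) →
    ∀ (n n0 : ℕ) (B : ℝ), 1 ≤ B → 2 * V ≤ n0 →
    ∑' m : {m : ι → ℤ // m ∉ Fintype.piFinset fun _ : ι ↦ Finset.Icc (-(n0 : ℤ)) n0},
      Real.exp (-(Real.pi * Y * ∑ j, ((m.1 j : ℝ) + v j) ^ 2)) *
      (B + ∑ j, |(m.1 j : ℝ) + v j|) ^ n ≤
    B ^ n * Real.exp (C * (n + 1) * Real.log (n + 2) - n0 ^ 2 / C) := by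
  have hpi := Real.pi_pos
  have hl2 : 0 < Real.log 2 := Real.log_pos (by norm_num)
  obtain ⟨C1, hC1, hS⟩ := gauss_sum (ι := ι) (half_pos hY)
  have hpY : 0 < Real.pi * Y := by positivity
  refine ⟨max C1 (8 / (Real.pi * Y)), hC1.trans (le_max_left _ _), fun v V hV n n0 B hB hn0 => ?_⟩
  obtain ⟨hs, hle⟩ := hS v n B hB
  obtain ⟨C, hC⟩ : ∃ C : ℝ, C = max C1 (8 / (Real.pi * Y)) := ⟨_, rfl⟩
  rw [← hC]
  have hCC1 : C1 ≤ C := by
    rw [hC]
    exact le_max_left _ _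
  have hC8 : 8 / (Real.pi * Y) ≤ C := by
    rw [hC]
    exact le_max_right _ _
  have hC0 : 0 < C := by linarith
  have hg : Summable (fun m : ι → ℤ => Real.exp (-((n0 : ℝ) ^ 2 / C)) *
      (Real.exp (-(Real.pi * (Y / 2) * ∑ j, ((m j : ℝ) + v j) ^ 2)) *
      (B + ∑ j, |(m j : ℝ) + v j|) ^ n)) := hs.mul_left _
  have hgnn : ∀ m : ι → ℤ, 0 ≤ Real.exp (-((n0 : ℝ) ^ 2 / C)) *
      (Real.exp (-(Real.pi * (Y / 2) * ∑ j, ((m j : ℝ) + v j) ^ 2)) *
      (B + ∑ j, |(m j : ℝ) + v j|) ^ n) := by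
    intro m
    have : 0 ≤ ∑ j, |(m j : ℝ) + v j| := Finset.sum_nonneg fun j _ => abs_nonneg _
    positivity
  have hle1 : ∀ m : {m : ι → ℤ // m ∉ Fintype.piFinset fun _ : ι ↦ Finset.Icc (-(n0 : ℤ)) n0},
      Real.exp (-(Real.pi * Y * ∑ j, ((m.1 j : ℝ) + v j) ^ 2)) *
      (B + ∑ j, |(m.1 j : ℝ) + v j|) ^ n ≤ Real.exp (-((n0 : ℝ) ^ 2 / C)) *
      (Real.exp (-(Real.pi * (Y / 2) * ∑ j, ((m.1 j : ℝ) + v j) ^ 2)) *
      (B + ∑ j, |(m.1 j : ℝ) + v j|) ^ n) := by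
    rintro ⟨m, hm⟩
    rw [Fintype.mem_piFinset] at hm
    push Not at hm
    obtain ⟨j, hj⟩ := hm
    have hmj : (n0 : ℝ) ≤ |(m j : ℝ)| := by
      have h1 : (n0 : ℤ) ≤ |m j| := by
        by_contra hc
        rw [not_le] at hc
        apply hj
        rw [Finset.mem_Icc]
        exact ⟨(abs_lt.1 hc).1.le, (abs_lt.1 hc).2.le⟩
      exact_mod_cast h1
    have hvj : |v j| ≤ n0 / 2 := by
      have := hV j
      linarith
    have hx : (n0 : ℝ) / 2 ≤ |(m j : ℝ) + v j| := by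
      have h1 : |(m j : ℝ)| ≤ |(m j : ℝ) + v j| + |v j| := by
        have h2 := abs_sub ((m j : ℝ) + v j) (v j)
        rw [add_sub_cancel_right] at h2
        exact h2
      linarith
    have hx2 : (n0 : ℝ) ^ 2 / 4 ≤ ((m j : ℝ) + v j) ^ 2 := by
      have h1 : ((n0 : ℝ) / 2) ^ 2 ≤ |(m j : ℝ) + v j| ^ 2 := pow_le_pow_left₀ (by positivity) hx 2
      rw [sq_abs] at h1
      have e : ((n0 : ℝ) / 2) ^ 2 = (n0 : ℝ) ^ 2 / 4 := by ring
      linarith
    have hQ : (n0 : ℝ) ^ 2 / 4 ≤ ∑ j, ((m j : ℝ) + v j) ^ 2 :=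
      hx2.trans (Finset.single_le_sum (f := fun j => ((m j : ℝ) + v j) ^ 2) (fun j _ => sq_nonneg _) (Finset.mem_univ j))
    obtain ⟨Q, hQe⟩ : ∃ Q : ℝ, Q = ∑ j, ((m j : ℝ) + v j) ^ 2 := ⟨_, rfl⟩
    show Real.exp (-(Real.pi * Y * ∑ j, ((m j : ℝ) + v j) ^ 2)) * (B + ∑ j, |(m j : ℝ) + v j|) ^ n ≤
      Real.exp (-((n0 : ℝ) ^ 2 / C)) * (Real.exp (-(Real.pi * (Y / 2) * ∑ j, ((m j : ℝ) + v j) ^ 2)) *
      (B + ∑ j, |(m j : ℝ) + v j|) ^ n)
    rw [← hQe] at hQ ⊢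
    rw [← mul_assoc, ← Real.exp_add]
    have ht0 : 0 ≤ ∑ j, |(m j : ℝ) + v j| := Finset.sum_nonneg fun j _ => abs_nonneg _
    refine mul_le_mul_of_nonneg_right (Real.exp_le_exp.2 ?_) (by positivity)
    have h5 : (n0 : ℝ) ^ 2 / C ≤ (n0 : ℝ) ^ 2 * (Real.pi * Y / 8) := by
      rw [div_eq_mul_inv]
      refine mul_le_mul_of_nonneg_left ?_ (sq_nonneg _)
      rw [inv_le_comm₀ hC0 (by positivity)]
      have e : (Real.pi * Y / 8)⁻¹ = 8 / (Real.pi * Y) := by rw [inv_div]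
      rw [e]
      exact hC8
    have h6 : Real.pi * Y / 2 * ((n0 : ℝ) ^ 2 / 4) ≤ Real.pi * Y / 2 * Q :=
      mul_le_mul_of_nonneg_left hQ (by positivity)
    have e1 : Real.pi * Y / 2 * ((n0 : ℝ) ^ 2 / 4) = (n0 : ℝ) ^ 2 * (Real.pi * Y / 8) := by ring
    have e2 : Real.pi * (Y / 2) * Q = Real.pi * Y / 2 * Q := by ring
    have e3 : Real.pi * Y * Q = Real.pi * Y / 2 * Q + Real.pi * Y / 2 * Q := by ring
    linarith
  have hf : Summable (fun m : {m : ι → ℤ // m ∉ Fintype.piFinset fun _ : ι ↦ Finset.Icc (-(n0 : ℤ)) n0} =>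
      Real.exp (-(Real.pi * Y * ∑ j, ((m.1 j : ℝ) + v j) ^ 2)) *
      (B + ∑ j, |(m.1 j : ℝ) + v j|) ^ n) := by
    refine Summable.of_nonneg_of_le (fun m => ?_) hle1 (hg.comp_injective Subtype.val_injective)
    have : 0 ≤ ∑ j, |(m.1 j : ℝ) + v j| := Finset.sum_nonneg fun j _ => abs_nonneg _
    positivity
  have h7 := Summable.tsum_le_tsum_of_inj (Subtype.val : {m : ι → ℤ // m ∉ Fintype.piFinset fun _ : ι ↦ Finset.Icc (-(n0 : ℤ)) n0} → (ι → ℤ))
    Subtype.val_injective (fun m _ => hgnn m) hle1 hf hg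
  refine h7.trans ?_
  rw [tsum_mul_left]
  calc Real.exp (-((n0 : ℝ) ^ 2 / C)) * ∑' m : ι → ℤ,
        (Real.exp (-(Real.pi * (Y / 2) * ∑ j, ((m j : ℝ) + v j) ^ 2)) * (B + ∑ j, |(m j : ℝ) + v j|) ^ n)
      ≤ Real.exp (-((n0 : ℝ) ^ 2 / C)) * (B ^ n * Real.exp (C1 * (n + 1) * Real.log (n + 2))) :=
        mul_le_mul_of_nonneg_left hle (Real.exp_pos _).le
    _ = B ^ n * Real.exp (C1 * (n + 1) * Real.log (n + 2) - (n0 : ℝ) ^ 2 / C) := by
        rw [Real.exp_sub, Real.exp_neg]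
        ring
    _ ≤ _ := by
        refine mul_le_mul_of_nonneg_left (Real.exp_le_exp.2 ?_) (pow_nonneg (by linarith) n)
        have hn : (0 : ℝ) ≤ n := Nat.cast_nonneg n
        have hln : Real.log 2 ≤ Real.log ((n : ℝ) + 2) := Real.log_le_log (by norm_num) (by linarith)
        have h8 : C1 * ((n + 1) * Real.log (n + 2)) ≤ C * ((n + 1) * Real.log (n + 2)) :=
          mul_le_mul_of_nonneg_right hCC1 (mul_nonneg (by linarith) (hl2.le.trans hln))
        have e1 : C1 * (n + 1) * Real.log (n + 2) = C1 * ((n + 1) * Real.log (n + 2)) := by ring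
        have e2 : C * (n + 1) * Real.log (n + 2) = C * ((n + 1) * Real.log (n + 2)) := by ring
        linarith

/-- Linear exponentials against Gaussians. -/
theorem gauss_lin {Y : ℝ} (hY : 0 < Y) (A : ℝ) (n : ℕ) :
    Summable (fun m : ι → ℤ ↦ Real.exp (-(Real.pi * Y * ∑ j, (m j : ℝ) ^ 2)) *
      (Real.exp (A * ∑ j, |(m j : ℝ)|) * (1 + ∑ j, |(m j : ℝ)|) ^ n)) := by
  have hpi := Real.pi_pos
  obtain ⟨C1, hC1, hS⟩ := gauss_sum (ι := ι) (half_pos hY)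
  obtain ⟨hs, _⟩ := hS (fun _ => 0) n 1 le_rfl
  simp only [add_zero] at hs
  obtain ⟨a, ha⟩ : ∃ a : ℝ, a = Real.pi * Y / 2 / (Fintype.card ι + 1) := ⟨_, rfl⟩
  have ha0 : 0 < a := by
    rw [ha]
    positivity
  refine Summable.of_nonneg_of_le (fun m => ?_) (fun m => ?_) (hs.mul_left (Real.exp (A ^ 2 / (4 * a))))
  · have : 0 ≤ ∑ j, |(m j : ℝ)| := Finset.sum_nonneg fun j _ => abs_nonneg _
    positivity
  · have hcs := Ba4_cs (fun j => (m j : ℝ))
    obtain ⟨t, ht⟩ : ∃ t : ℝ, t = ∑ j, |(m j : ℝ)| := ⟨_, rfl⟩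
    obtain ⟨Q, hQ⟩ : ∃ Q : ℝ, Q = ∑ j, (m j : ℝ) ^ 2 := ⟨_, rfl⟩
    have ht0 : 0 ≤ t := by
      rw [ht]
      exact Finset.sum_nonneg fun j _ => abs_nonneg _
    simp only [← ht, ← hQ] at hcs ⊢
    have h1 : a * t ^ 2 ≤ Real.pi * Y / 2 * Q := by
      rw [ha, div_mul_eq_mul_div, div_le_iff₀ (by positivity)]
      have := mul_le_mul_of_nonneg_left hcs (by positivity : 0 ≤ Real.pi * Y / 2)
      linarith
    have h2 : A * t - a * t ^ 2 ≤ A ^ 2 / (4 * a) := by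
      rw [le_div_iff₀ (by positivity)]
      have h3 : 0 ≤ (A - 2 * a * t) ^ 2 := sq_nonneg _
      have e : (A * t - a * t ^ 2) * (4 * a) = A ^ 2 - (A - 2 * a * t) ^ 2 := by ring
      linarith
    rw [← mul_assoc, ← mul_assoc, ← Real.exp_add, ← Real.exp_add]
    refine mul_le_mul_of_nonneg_right (Real.exp_le_exp.2 ?_) (pow_nonneg (by linarith) n)
    have e2 : Real.pi * (Y / 2) * Q = Real.pi * Y / 2 * Q := by ring
    have e3 : Real.pi * Y * Q = Real.pi * Y / 2 * Q + Real.pi * Y / 2 * Q := by ring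
    linarith

end AZ
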