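import Mathlib

/-!
# Row Cau (MP_ede373, all algebraic points): Cauchy estimates for power series in several variables

PROOF of `cauchy_poly` (finite version, exact). Roots of unity: let `N ≥ 1`, `ω = exp(2πi/N)`. For `k : S → Fin N` let
`x_k s = ω^(k s)`. Averaging over all `k`: `N^{-|S|} ∑_k (∏_s x_k s ^ (-n s)) F(x_k) = ∑_{n' ≡ n mod N} J n'` (orthogonality:
`∑_{k < N} ω^(k a)` is `N` if `N ∣ a` and `0` otherwise; geometric sum or `IsPrimitiveRoot.geom_sum_eq_zero`; product over `s` by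
`Finset.prod_univ_sum`), where the interchange of the finite sum over `k` with the series is `HasSum` linearity
(`hasSum_sum`, `HasSum.mul_left`). So `‖∑_{n' ≡ n mod N} J n'‖ ≤ B`, for every `N`. Now let `N > n s` for all `s`: the `n' ≠ n` with `n' ≡ n mod N`
satisfy `∑ n' s ≥ N`, hence `‖J n‖ ≤ B + ∑_{n' : N ≤ ∑ n' s} ‖J n'‖`, and the last sum tends to `0` as `N → ∞` (tail of a summable
family: `J` is summable at `x = 1`; for `ε > 0` a finite set `T` carries all but `ε`, take `N` larger than all `∑ n' s`, `n' ∈ T`).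
(Alternative: induction on the number of variables with the one-variable Cauchy estimate; choose what you like.)
-/

set_option autoImplicit false

namespace AZ

open Complex Finset

variable {S : Type} [Fintype S] [DecidableEq S]

private theorem Cau_orth (N : ℕ) (ζ : ℂ) (hζ : IsPrimitiveRoot ζ N) (hN : 0 < N) (a b : ℕ)
    (ha : a < N) (hb : b < N) (hab : a ≠ b) :
    ∑ j : Fin N, (ζ ^ (j : ℕ)) ^ a * ((ζ ^ (j : ℕ))⁻¹) ^ b = 0 := by
  have h0 : ζ ≠ 0 := hζ.ne_zero hN.ne'
  have h1 : ∀ j : ℕ, (ζ ^ j) ^ a * ((ζ ^ j)⁻¹) ^ b = (ζ ^ a * (ζ ^ b)⁻¹) ^ j := by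
    intro j
    rw [mul_pow, inv_pow, inv_pow, ← pow_mul, ← pow_mul, ← pow_mul, ← pow_mul, mul_comm j a,
      mul_comm j b]
  have h2 : ζ ^ a * (ζ ^ b)⁻¹ ≠ 1 := by
    intro h
    apply hab
    apply hζ.pow_inj ha hb
    have h3 : ζ ^ b ≠ 0 := pow_ne_zero _ h0
    rw [← div_eq_mul_inv, div_eq_one_iff_eq h3] at h
    exact h
  have h3 : (ζ ^ a * (ζ ^ b)⁻¹) ^ N = 1 := by
    rw [mul_pow, inv_pow, ← pow_mul, ← pow_mul, mul_comm a N, mul_comm b N, pow_mul, pow_mul,
      hζ.pow_eq_one, one_pow, one_pow, inv_one, one_mul]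
  rw [Finset.sum_congr rfl (fun (j : Fin N) _ => h1 j),
    Fin.sum_univ_eq_sum_range (fun j => (ζ ^ a * (ζ ^ b)⁻¹) ^ j), geom_sum_eq h2, h3, sub_self,
    zero_div]

theorem cauchy_est (F : (S → ℂ) → ℂ) (J : (S → ℕ) → ℂ)
    (hser : ∀ x, HasSum (fun n : S → ℕ ↦ J n * ∏ s, x s ^ n s) (F x)) (B : ℝ)
    (hB : ∀ x, (∀ s, ‖x s‖ = 1) → ‖F x‖ ≤ B) (n : S → ℕ) : ‖J n‖ ≤ B := by
  have hJ : Summable fun m => ‖J m‖ := by
    have h := (hser fun _ => 1).summable
    simp only [one_pow, Finset.prod_const_one, mul_one] at h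
    exact h.norm
  have hkey : ∀ T : Finset (S → ℕ), n ∈ T → ‖J n‖ ≤ B + ∑' m : {m // m ∉ T}, ‖J m‖ := by
    intro T hnT
    obtain ⟨N, hN, hT⟩ : ∃ N : ℕ, 0 < N ∧ ∀ m ∈ T, ∀ s, m s < N := by
      refine ⟨(∑ m ∈ T, ∑ s, m s) + 1, by omega, fun m hm s => ?_⟩
      have h1 : m s ≤ ∑ s, m s :=
        Finset.single_le_sum (f := fun s => m s) (fun _ _ => Nat.zero_le _) (Finset.mem_univ s)
      have h2 : ∑ s, m s ≤ ∑ m ∈ T, ∑ s, m s :=
        Finset.single_le_sum (f := fun m : S → ℕ => ∑ s, m s) (fun _ _ => Nat.zero_le _) hm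
      omega
    obtain ⟨ζ, hζ⟩ : ∃ ζ : ℂ, IsPrimitiveRoot ζ N := ⟨_, Complex.isPrimitiveRoot_exp N hN.ne'⟩
    have h0 : ζ ≠ 0 := hζ.ne_zero hN.ne'
    have hnorm : ∀ j : ℕ, ‖ζ ^ j‖ = 1 := by
      intro j
      rw [norm_pow, hζ.norm'_eq_one hN.ne', one_pow]
    obtain ⟨x, hx⟩ : ∃ x : (S → Fin N) → S → ℂ, x = fun k s => ζ ^ (k s : ℕ) := ⟨_, rfl⟩
    obtain ⟨c, hc⟩ : ∃ c : (S → Fin N) → ℂ, c = fun k => ∏ s, ((x k s)⁻¹) ^ n s := ⟨_, rfl⟩
    obtain ⟨W, hW⟩ : ∃ W : (S → ℕ) → ℂ, W = fun m => ∑ k, c k * ∏ s, x k s ^ m s := ⟨_, rfl⟩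
    obtain ⟨P, hP⟩ : ∃ P : ℝ, P = (Fintype.card (S → Fin N) : ℝ) := ⟨_, rfl⟩
    have hP0 : 0 < P := by
      rw [hP, Fintype.card_fun, Fintype.card_fin]
      have : 0 < N ^ Fintype.card S := pow_pos hN _
      exact_mod_cast this
    have hxn : ∀ k s, ‖x k s‖ = 1 := by
      intro k s
      rw [hx]
      exact hnorm _
    have hcn : ∀ k, ‖c k‖ = 1 := by
      intro k
      rw [hc]
      simp only [norm_prod, norm_pow, norm_inv, hxn, inv_one, one_pow, Finset.prod_const_one]
    have hA : HasSum (fun m => J m * W m) (∑ k, c k * F (x k)) := by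
      have h := hasSum_sum (s := (Finset.univ : Finset (S → Fin N)))
        (fun k _ => (hser (x k)).mul_left (c k))
      have e : (fun m => J m * W m) = fun m => ∑ k, c k * (J m * ∏ s, x k s ^ m s) := by
        funext m
        rw [hW]
        simp only
        rw [Finset.mul_sum]
        refine Finset.sum_congr rfl fun k _ => ?_
        ring
      rw [e]
      exact h
    have hAn : ‖∑ k, c k * F (x k)‖ ≤ P * B := by
      refine (norm_sum_le _ _).trans ?_
      have h1 : ∀ k ∈ (Finset.univ : Finset (S → Fin N)), ‖c k * F (x k)‖ ≤ B := by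
        intro k _
        rw [norm_mul, hcn, one_mul]
        exact hB _ (hxn k)
      refine (Finset.sum_le_sum h1).trans (le_of_eq ?_)
      rw [Finset.sum_const, Finset.card_univ, nsmul_eq_mul, hP]
    have hWn : ∀ m, ‖W m‖ ≤ P := by
      intro m
      rw [hW]
      refine (norm_sum_le _ _).trans ?_
      have h1 : ∀ k ∈ (Finset.univ : Finset (S → Fin N)), ‖c k * ∏ s, x k s ^ m s‖ ≤ 1 := by
        intro k _
        rw [norm_mul, hcn, one_mul, norm_prod]
        simp only [norm_pow, hxn, one_pow, Finset.prod_const_one, le_refl]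
      refine (Finset.sum_le_sum h1).trans (le_of_eq ?_)
      rw [Finset.sum_const, Finset.card_univ, nsmul_eq_mul, hP, mul_one]
    have hW1 : W n = (P : ℂ) := by
      rw [hW]
      have h1 : ∀ k ∈ (Finset.univ : Finset (S → Fin N)), c k * ∏ s, x k s ^ n s = 1 := by
        intro k _
        rw [hc]
        simp only
        rw [← Finset.prod_mul_distrib]
        refine Finset.prod_eq_one fun s _ => ?_
        have h2 : x k s ≠ 0 := by
          intro h3
          have h4 := hxn k s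
          rw [h3, norm_zero] at h4
          exact zero_ne_one h4
        rw [← mul_pow, inv_mul_cancel₀ h2, one_pow]
      simp only
      rw [Finset.sum_congr rfl h1, Finset.sum_const, Finset.card_univ, nsmul_eq_mul, hP, mul_one]
      push_cast
      rfl
    have hW0 : ∀ m ∈ T, m ≠ n → W m = 0 := by
      intro m hm hmn
      have h1 : W m = ∏ s, ∑ j : Fin N, (ζ ^ (j : ℕ)) ^ m s * ((ζ ^ (j : ℕ))⁻¹) ^ n s := by
        rw [Finset.prod_univ_sum, Fintype.piFinset_univ, hW]
        refine Finset.sum_congr rfl fun k _ => ?_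
        rw [hc, hx]
        simp only
        rw [← Finset.prod_mul_distrib]
        exact Finset.prod_congr rfl fun s _ => mul_comm _ _
      obtain ⟨s, hs⟩ : ∃ s, m s ≠ n s := by
        by_contra hcon
        push Not at hcon
        exact hmn (funext hcon)
      rw [h1]
      exact Finset.prod_eq_zero (Finset.mem_univ s)
        (Cau_orth N ζ hζ hN (m s) (n s) (hT m hm s) (hT n hnT s) hs)
    have hsplit := hA.summable.sum_add_tsum_subtype_compl T
    rw [hA.tsum_eq] at hsplit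
    have hfirst : ∑ m ∈ T, J m * W m = J n * W n := by
      refine Finset.sum_eq_single_of_mem n hnT fun m hm hmn => ?_
      rw [hW0 m hm hmn, mul_zero]
    rw [hfirst, hW1] at hsplit
    have hrest : ‖∑' m : {m // m ∉ T}, J m * W m‖ ≤ (∑' m : {m // m ∉ T}, ‖J m‖) * P := by
      have hs : Summable fun m : {m // m ∉ T} => ‖J m‖ := hJ.subtype _
      refine tsum_of_norm_bounded (hs.hasSum.mul_right P) fun m => ?_
      rw [norm_mul]
      exact mul_le_mul_of_nonneg_left (hWn m) (norm_nonneg _)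
    have h5 : ‖J n * (P : ℂ)‖ ≤ P * B + (∑' m : {m // m ∉ T}, ‖J m‖) * P := by
      rw [eq_sub_of_add_eq hsplit]
      exact (norm_sub_le _ _).trans (add_le_add hAn hrest)
    rw [norm_mul, Complex.norm_real, Real.norm_of_nonneg hP0.le] at h5
    have h6 : ‖J n‖ * P ≤ (B + ∑' m : {m // m ∉ T}, ‖J m‖) * P := by
      linarith
    exact le_of_mul_le_mul_right h6 hP0
  have hlim : Filter.Tendsto (fun T : Finset (S → ℕ) => B + ∑' m : {m // m ∉ T}, ‖J m‖)
      Filter.atTop (nhds (B + 0)) :=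
    tendsto_const_nhds.add (tendsto_tsum_compl_atTop_zero fun m => ‖J m‖)
  rw [add_zero] at hlim
  refine ge_of_tendsto hlim (Filter.eventually_atTop.2 ⟨{n}, fun T hT => ?_⟩)
  exact hkey T (hT (Finset.mem_singleton_self n))

end AZ
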