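import Mathlib

/-!
# MP_ede373, theorem (A): all algebraic points. Definitions of the analytic part

`z` in the upper half plane, algebraic of degree `d ≥ 3`; `S` = the embeddings of `K = ℚ(ζ)` different from
`σ₀` (`σ₀ ζ = z`), `o ∈ S` the complex conjugate of `σ₀`, `ι` indexes a `ℤ`-basis `ν_j` of the integers, `ν*_j` the dual
basis for the trace. Blueprint: `/team-store/H60_ede373_AZ_blueprint.md`.
All names live in the namespace `AZ`.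
-/

set_option autoImplicit false

namespace AZ

open Complex Finset

/-- The data of the number field. `ze s = s(ζ)`, `nu j s = s(ν_j)`, `nu0 j = σ₀(ν_j)`, `nus j s = s(ν*_j)`. -/
structure KD (S ι : Type) [Fintype S] [DecidableEq S] [Fintype ι] [DecidableEq ι] where
  z : ℂ
  o : S
  bar : S → S
  ze : S → ℂ
  nu : ι → S → ℂ
  nu0 : ι → ℂ
  nus : ι → S → ℂ
  N : ℕ
  T1 : ι → ι → ℤ
  T2 : ι → ι → ℤ
  C0 : ℝ
  hz : 0 < z.im
  hS : 2 ≤ Fintype.card S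
  bar_bar : ∀ s, bar (bar s) = s
  bar_o : bar o = o
  ze_o : ze o = (starRingEnd ℂ) z
  ze_bar : ∀ s, s ≠ o → ze (bar s) = (starRingEnd ℂ) (ze s)
  ze_ne : ∀ s, ze s ≠ z
  nu_o : ∀ j, nu j o = (starRingEnd ℂ) (nu0 j)
  nu_bar : ∀ j s, s ≠ o → nu j (bar s) = (starRingEnd ℂ) (nu j s)
  nus_bar : ∀ j s, s ≠ o → nus j (bar s) = (starRingEnd ℂ) (nus j s)
  dual : ∀ s t, ∑ j, nu j s * nus j t = if s = t then 1 else 0
  dual0 : ∀ s, ∑ j, nu0 j * nus j s = 0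
  hN : 0 < N
  hT1 : ∀ i j, ((T1 i j : ℤ) : ℂ) = N * (nu0 i * nu0 j + ∑ s, nu i s * nu j s)
  hT2 : ∀ i j, ((T2 i j : ℤ) : ℂ) = N * (z * (nu0 i * nu0 j) + ∑ s, ze s * (nu i s * nu j s))
  hnorm : ∀ m : ι → ℤ, m ≠ 0 → 1 ≤ ‖(∑ j, (m j : ℂ) * nu0 j) * ∏ s, ∑ j, (m j : ℂ) * nu j s‖
  hC0 : 1 ≤ C0
  hcov : ∀ h : ℝ, 1 ≤ h → ∀ a : S → ℂ, (∀ s, s ≠ o → a (bar s) = (starRingEnd ℂ) (a s)) →
    ∃ n : ι → ℤ, ‖a o - N * ∑ i, (n i : ℂ) * nu i o‖ ^ 2 ≤ C0 * h ^ (Fintype.card S - 1) ∧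
      ∀ s, s ≠ o → ‖a s - N * ∑ i, (n i : ℂ) * nu i s‖ ≤ C0 / h
  alg_z : IsAlgebraic ℚ z
  alg_ze : ∀ s, IsAlgebraic ℚ (ze s)
  alg_nu : ∀ j s, IsAlgebraic ℚ (nu j s)
  alg_nus : ∀ j s, IsAlgebraic ℚ (nus j s)

variable {S ι : Type} [Fintype S] [DecidableEq S] [Fintype ι] [DecidableEq ι]

namespace KD

variable (K : KD S ι)

/-- The linear forms `u_j`. -/
noncomputable def u (j : ι) (x : S → ℂ) : ℂ := ∑ s, (K.z - K.ze s) * K.nu j s * x s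

/-- `v_j = Im u_j / Im z`. -/
noncomputable def v (j : ι) (x : S → ℂ) : ℝ := (K.u j x).im / K.z.im

/-- The quadratic weight. -/
noncomputable def q (x : S → ℂ) : ℝ := Real.pi / K.z.im * ∑ j, (K.u j x).im ^ 2

/-- `m*`. -/
noncomputable def st (m : ι → ℂ) (s : S) : ℂ := ∑ j, m j * K.nus j s

/-- The coefficient of `Im(w)^2` in the direction `b`. -/
noncomputable def cq (b : S → ℂ) : ℝ := Real.pi / K.z.im * ∑ j, ‖K.u j b‖ ^ 2

/-- The points of the lattice. -/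
noncomputable def gam (n : ι → ℤ) (s : S) : ℂ := K.N * ∑ i, (n i : ℂ) * K.nu i s

/-- The real subspace `V`. -/
def V : Set (S → ℂ) := {x | ∀ s, s ≠ K.o → x (K.bar s) = (starRingEnd ℂ) (x s)}

/-- The distance from `V`, as a vector. -/
noncomputable def bb (x : S → ℂ) (s : S) : ℂ :=
  if s = K.o then 0 else (x s - (starRingEnd ℂ) (x (K.bar s))) / (2 * I)

variable (c0 : ℂ)

/-- The coefficient `a(m)` (a product of theta coefficients). -/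
noncomputable def am (m : ι → ℤ) : ℂ :=
  ∏ j, (c0 * (-1) ^ (m j) * exp (Real.pi * I * (m j : ℂ) ^ 2 * K.z))

/-- The exponential terms. -/
noncomputable def tm (m : ι → ℤ) (x : S → ℂ) : ℂ :=
  K.am c0 m * exp (2 * Real.pi * I * ∑ j, (m j : ℂ) * K.u j x)

/-- `∏ (x_s + m*_s)^(κ_s)`. -/
noncomputable def mon (κ : S → ℕ) (m : ι → ℤ) (x : S → ℂ) : ℂ :=
  ∏ s, (x s + K.st (fun j ↦ (m j : ℂ)) s) ^ κ s

/-- The functions `Φ_κ`. -/
noncomputable def Phi (κ : S → ℕ) (x : S → ℂ) : ℂ := ∑' m : ι → ℤ, K.tm c0 m x * K.mon κ m x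

/-- Linear combinations. -/
noncomputable def FF (Q : ℕ) (c : (S → Fin (Q + 1)) → ℂ) (x : S → ℂ) : ℂ :=
  ∑ κ, c κ * K.Phi c0 (fun s ↦ (κ s : ℕ)) x

/-- `b_s(m) = (z - s ζ) m^s`. -/
noncomputable def bs (m : ι → ℂ) (s : S) : ℂ := (K.z - K.ze s) * ∑ j, m j * K.nu j s

/-- The coefficient of `x ^ n` in `exp(2 π i b x) (x + α)^κ`. -/
noncomputable def cf (κ n : ℕ) (b α : ℂ) : ℂ :=
  ∑ i ∈ range (n + 1), (κ.choose i : ℂ) * α ^ (κ - i) *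
    ((2 * Real.pi * I * b) ^ (n - i) / ((n - i).factorial : ℂ))

/-- The Taylor coefficients of `Φ_κ` at `0`. -/
noncomputable def jc (κ n : S → ℕ) : ℂ :=
  ∑' m : ι → ℤ, K.am c0 m * ∏ s, cf (κ s) (n s) (K.bs (fun j ↦ (m j : ℂ)) s)
    (K.st (fun j ↦ (m j : ℂ)) s)

/-- The Taylor coefficients of `FF`. -/
noncomputable def JJ (Q : ℕ) (c : (S → Fin (Q + 1)) → ℂ) (n : S → ℕ) : ℂ :=
  ∑ κ, c κ * K.jc c0 (fun s ↦ (κ s : ℕ)) n

/-- The weighted size of a function. -/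
noncomputable def Nw (F : (S → ℂ) → ℂ) (x : S → ℂ) : ℝ := ‖F x‖ * Real.exp (-K.q x)

/-- Sums of `P_c (x + m*)`. -/
noncomputable def PP (Q : ℕ) (c : (S → Fin (Q + 1)) → ℂ) (m : ι → ℤ) (x : S → ℂ) : ℂ :=
  ∑ κ, c κ * K.mon (fun s ↦ (κ s : ℕ)) m x

/-- The vectors of the real shifts. -/
noncomputable def tt (r : ι → ℝ) (s : S) : ℂ :=
  if s = K.o then 0 else (∑ i, (r i : ℂ) * K.nu i s) / (K.z - K.ze s)

/-- The frequencies. -/
noncomputable def om (m : ι → ℤ) (i : ι) : ℝ :=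
  (∑ s ∈ univ.erase K.o, (∑ j, (m j : ℂ) * K.nu j s) * K.nu i s).re

/-- The hypotheses of the Schwarz lemma: `F` is entire with Taylor coefficients `J`, its weighted size is
invariant under the lattice and grows at most like `exp (A (1 + log (1 + ‖bb x‖)))`. -/
structure FDat (F : (S → ℂ) → ℂ) (J : (S → ℕ) → ℂ) (A : ℝ) : Prop where
  ser : ∀ x, HasSum (fun n : S → ℕ ↦ J n * ∏ s, x s ^ n s) (F x)
  inv : ∀ n x, K.Nw F (x + K.gam n) = K.Nw F x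
  gr : ∀ x, K.Nw F x ≤ Real.exp (A * (1 + Real.log (1 + ‖K.bb x‖)))

end KD

end AZ
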