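import Mathlib

/-!
# Row Na (MP_ede373, all algebraic points): the trace-dual basis and embeddings

`F` a number field, `ν = NumberField.integralBasis F` (indexed by `ι = Module.Free.ChooseBasisIndex ℤ (𝓞 F)`).

PROOF.
* `exists_dual`: the trace form is nondegenerate (`traceForm_nondegenerate`), so there is a dual basis `ν*`
  (`LinearMap.BilinForm.dualBasis`, `apply_dualBasis_left`): `Tr(ν*_j ν_i) = δ_ij`. With the matrices `M' j σ = σ(ν*_j)`,
  `M σ i = σ(ν_i)` (`σ : F →+* ℂ`), `Algebra.trace_eq_sum_embeddings` (for `F →ₐ[ℚ] ℂ`; use the equivalence `RingHom.equivRatAlgHom`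
  of `F →+* ℂ` and `F →ₐ[ℚ] ℂ`; see also `prod_emb_gen` in `Pool/Agent/H32/CZ/Ha.lean` for the analogous product) gives `M' * M = 1`. The
  index types have the same cardinality (`NumberField.Embeddings.card`, `Module.finrank_eq_card_basis`/`RingOfIntegers.rank`), so
  `M * M' = 1` (`Matrix.mul_eq_one_comm_of_card_eq`), which is the claim. The dual basis is in `F`, so `IsAlgebraic` is clear.
* `exists_int_mat`: `N > 0` with `N ζ` integral (`exists_integral_multiple`-type: there is a nonzero integer `y` with `y • ζ` integral; take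
  `natAbs`); the traces of the integral elements `N ν_i ν_j` and `(N ζ) ν_i ν_j` are integers
  (`Algebra.isIntegral_trace` + `IsIntegrallyClosed`/`IsInteger`), and equal the sums over the embeddings.
* `norm_ge`: for `x ∈ 𝓞 F`, `x ≠ 0`: `∏_σ σ x = Norm x` is a nonzero integer (`Algebra.norm_eq_prod_embeddings`,
  `RingOfIntegers.coe_norm`..), so the absolute value is `≥ 1`. For `m ≠ 0` the element `∑ m_j ν_j` is a nonzero
  algebraic integer (linear independence over `ℤ`/`ℚ`).
-/

set_option autoImplicit false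

namespace AZ

open Finset NumberField

variable (F : Type) [Field F] [NumberField F]

theorem Na_trace (x : F) : ∑ σ : F →+* ℂ, σ x = ((Algebra.trace ℚ F x : ℚ) : ℂ) := by
  have h1 := trace_eq_sum_embeddings (K := ℚ) (L := F) ℂ (x := x)
  rw [eq_ratCast] at h1
  rw [h1]
  exact Fintype.sum_equiv (RingHom.equivRatAlgHom F ℂ) _ _ fun σ => rfl

theorem Na_norm (x : F) : ∏ σ : F →+* ℂ, σ x = ((Algebra.norm ℚ x : ℚ) : ℂ) := by
  have h1 := Algebra.norm_eq_prod_embeddings ℚ ℂ x
  rw [eq_ratCast] at h1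
  rw [h1]
  exact Fintype.prod_equiv (RingHom.equivRatAlgHom F ℂ) _ _ fun σ => rfl

theorem Na_int {x : F} (hx : IsIntegral ℤ x) :
    ∃ n : ℤ, ((n : ℤ) : ℂ) = ∑ σ : F →+* ℂ, σ x := by
  obtain ⟨n, hn⟩ := IsIntegrallyClosed.isIntegral_iff.1 (Algebra.isIntegral_trace (L := ℚ) (F := F) hx)
  refine ⟨n, ?_⟩
  rw [Na_trace, ← hn]
  simp

theorem Na_basis (i : Module.Free.ChooseBasisIndex ℤ (𝓞 F)) : IsIntegral ℤ (integralBasis F i) := by
  rw [integralBasis_apply]
  exact RingOfIntegers.isIntegral_coe _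

open scoped Classical in
theorem exists_dual : ∃ νs : Module.Free.ChooseBasisIndex ℤ (𝓞 F) → F,
    ∀ σ τ : F →+* ℂ, ∑ j, σ (integralBasis F j) * τ (νs j) = if σ = τ then 1 else 0 := by
  classical
  let νs : Module.Free.ChooseBasisIndex ℤ (𝓞 F) → F := fun j =>
    (Algebra.traceForm ℚ F).dualBasis (traceForm_nondegenerate ℚ F) (integralBasis F) j
  refine ⟨νs, ?_⟩
  let M' : Matrix (Module.Free.ChooseBasisIndex ℤ (𝓞 F)) (F →+* ℂ) ℂ := fun j σ => σ (νs j)
  let M : Matrix (F →+* ℂ) (Module.Free.ChooseBasisIndex ℤ (𝓞 F)) ℂ := fun σ i => σ (integralBasis F i)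
  have h1 : M' * M = 1 := by
    ext j i
    have e := (Algebra.traceForm ℚ F).apply_dualBasis_left (traceForm_nondegenerate ℚ F)
      (integralBasis F) j i
    rw [Algebra.traceForm_apply] at e
    have e2 : (M' * M) j i = ∑ σ : F →+* ℂ, σ (νs j * integralBasis F i) := by
      rw [Matrix.mul_apply]
      exact Finset.sum_congr rfl fun σ _ => (map_mul σ _ _).symm
    rw [e2, Na_trace, e, Matrix.one_apply]
    by_cases h : i = j
    · rw [if_pos h, if_pos h.symm]
      simp
    · rw [if_neg h, if_neg (fun h' => h h'.symm)]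
      simp
  have hcard : Fintype.card (Module.Free.ChooseBasisIndex ℤ (𝓞 F)) = Fintype.card (F →+* ℂ) := by
    rw [NumberField.Embeddings.card, Module.finrank_eq_card_basis (integralBasis F)]
  have h2 : M * M' = 1 := (Matrix.mul_eq_one_comm_of_equiv (Fintype.card_eq.mp hcard).some).1 h1
  intro σ τ
  have e := congrFun (congrFun h2 σ) τ
  rw [Matrix.mul_apply, Matrix.one_apply] at e
  exact e

theorem exists_int_mat (ζ : F) : ∃ (N : ℕ)
    (T1 T2 : Module.Free.ChooseBasisIndex ℤ (𝓞 F) → Module.Free.ChooseBasisIndex ℤ (𝓞 F) → ℤ),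
    0 < N ∧
    (∀ i j, ((T1 i j : ℤ) : ℂ) = N * ∑ σ : F →+* ℂ, σ (integralBasis F i) * σ (integralBasis F j)) ∧
    (∀ i j, ((T2 i j : ℤ) : ℂ) =
      N * ∑ σ : F →+* ℂ, σ ζ * (σ (integralBasis F i) * σ (integralBasis F j))) := by
  obtain ⟨y, hy, hyi⟩ := (((IsFractionRing.isAlgebraic_iff ℤ ℚ F).2
    (Algebra.IsAlgebraic.isAlgebraic (R := ℚ) ζ)).exists_integral_multiple)
  have hN : 0 < y.natAbs := Int.natAbs_pos.2 hy
  have hNζ : IsIntegral ℤ ((y.natAbs : F) * ζ) := by
    rcases Int.natAbs_eq y with h | h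
    · have e : ((y.natAbs : F) * ζ) = y • ζ := by
        rw [zsmul_eq_mul]
        congr 1
        conv_rhs => rw [h]
        simp
      rw [e]
      exact hyi
    · have e : ((y.natAbs : F) * ζ) = -(y • ζ) := by
        rw [zsmul_eq_mul, ← neg_mul]
        congr 1
        conv_rhs => rw [h]
        simp
      rw [e]
      exact hyi.neg
  have hT1 : ∀ i j, ∃ n : ℤ, ((n : ℤ) : ℂ) = (y.natAbs : ℂ) *
      ∑ σ : F →+* ℂ, σ (integralBasis F i) * σ (integralBasis F j) := by
    intro i j
    have hy0 : IsIntegral ℤ (y.natAbs : F) := by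
      have h0 := isIntegral_algebraMap (R := ℤ) (A := F) (x := (y.natAbs : ℤ))
      simpa using h0
    have hi : IsIntegral ℤ ((y.natAbs : F) * (integralBasis F i * integralBasis F j)) :=
      hy0.mul ((Na_basis F i).mul (Na_basis F j))
    obtain ⟨n, hn⟩ := Na_int F hi
    refine ⟨n, ?_⟩
    rw [hn, Finset.mul_sum]
    refine Finset.sum_congr rfl fun σ _ => ?_
    rw [map_mul, map_mul, map_natCast]
  have hT2 : ∀ i j, ∃ n : ℤ, ((n : ℤ) : ℂ) = (y.natAbs : ℂ) *
      ∑ σ : F →+* ℂ, σ ζ * (σ (integralBasis F i) * σ (integralBasis F j)) := by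
    intro i j
    have hi : IsIntegral ℤ (((y.natAbs : F) * ζ) * (integralBasis F i * integralBasis F j)) :=
      hNζ.mul ((Na_basis F i).mul (Na_basis F j))
    obtain ⟨n, hn⟩ := Na_int F hi
    refine ⟨n, ?_⟩
    rw [hn, Finset.mul_sum]
    refine Finset.sum_congr rfl fun σ _ => ?_
    rw [map_mul, map_mul, map_mul, map_natCast]
    ring
  choose T1 hT1 using hT1
  choose T2 hT2 using hT2
  exact ⟨y.natAbs, T1, T2, hN, hT1, hT2⟩

theorem norm_ge (m : Module.Free.ChooseBasisIndex ℤ (𝓞 F) → ℤ) (hm : m ≠ 0) :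
    1 ≤ ‖∏ σ : F →+* ℂ, ∑ j, (m j : ℂ) * σ (integralBasis F j)‖ := by
  set x : F := ∑ j, (m j : ℚ) • integralBasis F j with hx
  have hx0 : x ≠ 0 := by
    intro h
    apply hm
    have hli := Fintype.linearIndependent_iff.1 (integralBasis F).linearIndependent
      (fun j => (m j : ℚ)) h
    ext j
    have := hli j
    simpa using this
  have hxi : IsIntegral ℤ x := by
    rw [hx]
    refine IsIntegral.sum _ fun j _ => ?_
    have e : (m j : ℚ) • integralBasis F j = (m j) • integralBasis F j := by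
      rw [Rat.smul_def, zsmul_eq_mul]
      simp
    rw [e]
    exact (Na_basis F j).smul _
  have e1 : ∀ σ : F →+* ℂ, ∑ j, (m j : ℂ) * σ (integralBasis F j) = σ x := by
    intro σ
    rw [hx, map_sum]
    refine Finset.sum_congr rfl fun j _ => ?_
    rw [Rat.smul_def, map_mul, Rat.cast_intCast, map_intCast]
  simp only [e1]
  rw [Na_norm]
  obtain ⟨n, hn⟩ := IsIntegrallyClosed.isIntegral_iff.1 (Algebra.isIntegral_norm ℚ hxi)
  have hn0 : n ≠ 0 := by
    rintro rfl
    have : Algebra.norm ℚ x = 0 := by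
      rw [← hn]
      simp
    exact hx0 (Algebra.norm_eq_zero_iff.1 this)
  rw [← hn]
  have h3 : (((algebraMap ℤ ℚ n : ℚ)) : ℂ) = ((n : ℤ) : ℂ) := by simp
  rw [h3, Complex.norm_intCast]
  exact_mod_cast Int.one_le_abs hn0

end AZ
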