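import Mathlib

/-!
# Row Nb (MP_ede373, all algebraic points): Minkowski's theorem

PROOF. `d = finrank ℚ F`, `w0 = InfinitePlace.mk σ0`, complex (`InfinitePlace.isComplex_mk_iff`, `σ0` is not real), so `mult w0 = 2`.
`minkowskiBound F 1 < ⊤` (`minkowskiBound_lt_top`), `convexBodyLTFactor F ≠ 0`: choose a constant `B : ℝ≥0`, `B ≥ 1`, with
`minkowskiBound F 1 < convexBodyLTFactor F * B`. For `h ≥ 1` let `f w = 1/h` (in `ℝ≥0`); `adjust_f` with `w₁ = w0` gives `g` with `g w = 1/h` for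
`w ≠ w0` and `∏ g w ^ mult w = B`. `convexBodyLT_volume` and `exists_ne_zero_mem_ringOfIntegers_lt`: `a ∈ 𝓞 F`, `a ≠ 0`, `w a < g w` for all `w`.
For `σ ≠ σ0, conj σ0`: `mk σ ≠ w0` (`InfinitePlace.mk_eq_iff`), so `‖σ a‖ = mk σ a < 1/h`. And `g w0 ^ 2 * ∏_{w ≠ w0} (1/h)^(mult w) = B`, with
`∑_{w ≠ w0} mult w = d - 2` (`sum_mult_eq`), so `g w0 ^ 2 = B h^(d-2)` and `‖σ0 a‖^2 ≤ B h^(d-2)`.
-/

set_option autoImplicit false

namespace AZ

open Finset NumberField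

open NumberField.InfinitePlace NumberField.mixedEmbedding in
theorem mink (F : Type) [Field F] [NumberField F] (σ0 : F →+* ℂ)
    (hσ0 : ComplexEmbedding.conjugate σ0 ≠ σ0) : ∃ C : ℝ, 1 ≤ C ∧ ∀ h : ℝ, 1 ≤ h → ∃ g : 𝓞 F, g ≠ 0 ∧
      ‖σ0 g‖ ^ 2 ≤ C * h ^ (Module.finrank ℚ F - 2) ∧
      ∀ σ : F →+* ℂ, σ ≠ σ0 → σ ≠ ComplexEmbedding.conjugate σ0 → ‖σ g‖ ≤ 1 / h := by
  classical
  obtain ⟨w0, hw0d⟩ : ∃ w0 : InfinitePlace F, w0 = InfinitePlace.mk σ0 := ⟨_, rfl⟩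
  have hw0 : InfinitePlace.IsComplex w0 := by
    rw [hw0d]
    exact InfinitePlace.isComplex_mk_iff.2 hσ0
  have hm0 : w0.mult = 2 := InfinitePlace.mult_isComplex ⟨w0, hw0⟩
  obtain ⟨B0, hB0⟩ := ENNReal.exists_nat_mul_gt (ENNReal.coe_ne_zero.mpr (convexBodyLTFactor_ne_zero F))
    (ne_of_lt (minkowskiBound_lt_top F 1))
  obtain ⟨B, hB⟩ : ∃ B : NNReal, B = max 1 (B0 : NNReal) := ⟨_, rfl⟩
  have hB1 : 1 ≤ B := by rw [hB]; exact le_max_left _ _
  have hB2 : (B0 : NNReal) ≤ B := by rw [hB]; exact le_max_right _ _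
  refine ⟨(B : ℝ), by exact_mod_cast hB1, fun h hh => ?_⟩
  have hh0 : 0 < h := by linarith
  obtain ⟨e, he⟩ : ∃ e : NNReal, (e : ℝ) = 1 / h := ⟨⟨1 / h, by positivity⟩, rfl⟩
  have he0 : e ≠ 0 := by
    intro h0
    rw [h0] at he
    have : 0 < 1 / h := by positivity
    rw [← he] at this
    simp at this
  obtain ⟨g, hg1, hg2⟩ := adjust_f F (w₁ := w0) (f := fun _ => e) B (fun w _ => he0)
  have hvol : minkowskiBound F ↑1 < MeasureTheory.volume (convexBodyLT F g) := by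
    rw [convexBodyLT_volume]
    have h1 : (∏ w, ((g w : NNReal) : ENNReal) ^ w.mult) = (B : ENNReal) := by
      rw [← hg2]
      push_cast
      rfl
    rw [← hg2] at h1
    refine lt_of_lt_of_le hB0 ?_
    rw [mul_comm]
    refine mul_le_mul_right ?_ _
    rw [hg2]
    exact_mod_cast hB2
  obtain ⟨a, ha, hlt⟩ := exists_ne_zero_mem_ringOfIntegers_lt F hvol
  refine ⟨a, ha, ?_, ?_⟩
  · have h1 : (g w0 : ℝ) ^ 2 * ∏ w ∈ univ.erase w0, (g w : ℝ) ^ w.mult = B := by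
      have h2 := Finset.mul_prod_erase univ (fun w : InfinitePlace F => (g w : ℝ) ^ w.mult) (mem_univ w0)
      rw [hm0] at h2
      rw [h2, ← hg2]
      push_cast
      rfl
    have h3 : ∏ w ∈ univ.erase w0, (g w : ℝ) ^ w.mult = (1 / h) ^ (Module.finrank ℚ F - 2) := by
      have h4 : ∑ w ∈ univ.erase w0, w.mult = Module.finrank ℚ F - 2 := by
        have h5 := Finset.add_sum_erase univ (fun w : InfinitePlace F => w.mult) (mem_univ w0)
        rw [InfinitePlace.sum_mult_eq, hm0] at h5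
        omega
      rw [← h4, ← Finset.prod_pow_eq_pow_sum]
      refine Finset.prod_congr rfl fun w hw => ?_
      rw [hg1 w (Finset.ne_of_mem_erase hw), he]
    have h6 : (g w0 : ℝ) ^ 2 = B * h ^ (Module.finrank ℚ F - 2) := by
      rw [h3, one_div, inv_pow] at h1
      have h7 : h ^ (Module.finrank ℚ F - 2) ≠ 0 := by positivity
      rw [← h1]
      field_simp
    have h8 : ‖σ0 (a : F)‖ = w0 (a : F) := by rw [hw0d]; rfl
    rw [h8, ← h6]
    exact pow_le_pow_left₀ (by rw [← h8]; exact norm_nonneg _) (hlt w0).le 2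
  · intro σ h1 h2
    have h3 : InfinitePlace.mk σ ≠ w0 := by
      intro h4
      rw [hw0d, InfinitePlace.mk_eq_iff] at h4
      rcases h4 with h4 | h4
      · exact h1 h4
      · apply h2
        rw [← h4]
        ext x
        simp
    have h5 := hlt (InfinitePlace.mk σ)
    rw [hg1 _ h3, he] at h5
    exact h5.le

end AZ
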