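import Pool.Agent.H60.AZ.Na
import Pool.Agent.H60.AZ.Nb

/-!
# Row Nc (MP_ede373, all algebraic points): covering

PROOF. `g` from `mink` for `h`, `νs` from `exists_dual`. `σ g ≠ 0` for all `σ`. Let
`t_j = ∑_σ (a σ/(N σ g)) σ(νs j)`: it is real because `conj` permutes the embeddings and the term of `conj σ` is the conjugate of the term
of `σ` (hypothesis on `a`; `(conjugate σ) x = conj (σ x)`). Duality in the form `∑_j σ(ν_j) τ(νs j) = δ_{στ}`:
`∑_j t_j N σ(g) σ(ν_j) = a σ` for all `σ`. Let `[t_j]` be the nearest integers. The element `g ∑_j [t_j] ν_j` is integral, `= ∑_i n_i ν_i` with integers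
`n_i` (`integralBasis_repr_apply` / `RingOfIntegers.basis`). Then `a σ - N ∑_i n_i σ(ν_i) = N σ(g) ∑_j (t_j - [t_j]) σ(ν_j)`, of absolute value
`≤ N ‖σ g‖ ∑_j ‖σ ν_j‖ ≤ C' ‖σ g‖`. So `≤ C'/h` for `σ ≠ σ0, conj σ0`, and the square is `≤ C'^2 C h^(d-2)` for `σ0`.
-/

set_option autoImplicit false

namespace AZ

open Finset NumberField

theorem covering (F : Type) [Field F] [NumberField F] (σ0 : F →+* ℂ)
    (hσ0 : ComplexEmbedding.conjugate σ0 ≠ σ0) (N : ℕ) (hN : 0 < N) :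
    ∃ C : ℝ, 1 ≤ C ∧ ∀ h : ℝ, 1 ≤ h → ∀ a : (F →+* ℂ) → ℂ,
      (∀ σ, a (ComplexEmbedding.conjugate σ) = (starRingEnd ℂ) (a σ)) →
      ∃ n : Module.Free.ChooseBasisIndex ℤ (𝓞 F) → ℤ,
        ‖a σ0 - N * ∑ i, (n i : ℂ) * σ0 (integralBasis F i)‖ ^ 2 ≤ C * h ^ (Module.finrank ℚ F - 2) ∧
        ∀ σ : F →+* ℂ, σ ≠ σ0 → σ ≠ ComplexEmbedding.conjugate σ0 →
          ‖a σ - N * ∑ i, (n i : ℂ) * σ (integralBasis F i)‖ ≤ C / h := by
  obtain ⟨C0, hC0, hm⟩ := mink F σ0 hσ0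
  obtain ⟨νs, hd⟩ := exists_dual F
  obtain ⟨Bm, hBm⟩ : ∃ Bm : ℝ, Bm = ∑ σ : F →+* ℂ, ∑ j, ‖σ (integralBasis F j)‖ := ⟨_, rfl⟩
  have hBm0 : 0 ≤ Bm := by
    rw [hBm]
    exact sum_nonneg fun _ _ => sum_nonneg fun _ _ => norm_nonneg _
  have hBσ : ∀ σ : F →+* ℂ, ∑ j, ‖σ (integralBasis F j)‖ ≤ Bm := by
    intro σ
    rw [hBm]
    exact single_le_sum (f := fun σ : F →+* ℂ => ∑ j, ‖σ (integralBasis F j)‖)
      (fun _ _ => sum_nonneg fun _ _ => norm_nonneg _) (mem_univ σ)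
  have hNB : 0 ≤ (N : ℝ) * Bm := by positivity
  have hN0 : (N : ℂ) ≠ 0 := by exact_mod_cast hN.ne'
  refine ⟨(N * Bm + 1) ^ 2 * C0, by nlinarith, ?_⟩
  intro h hh a ha
  obtain ⟨g, hg0, hg1, hg2⟩ := hm h hh
  have hgF : (g : F) ≠ 0 := by
    intro h0
    exact hg0 (RingOfIntegers.ext h0)
  have hσg : ∀ σ : F →+* ℂ, σ g ≠ 0 := fun σ => (map_ne_zero σ).2 hgF
  -- the real coordinates
  obtain ⟨t, ht⟩ : ∃ t : Module.Free.ChooseBasisIndex ℤ (𝓞 F) → ℂ,
      ∀ j, t j = ∑ σ : F →+* ℂ, a σ / (N * σ g) * σ (νs j) := ⟨_, fun _ => rfl⟩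
  have htreal : ∀ j, ∃ r : ℝ, t j = r := by
    intro j
    rw [← Complex.conj_eq_iff_real, ht, map_sum]
    refine Fintype.sum_bijective ComplexEmbedding.conjugate
      (ComplexEmbedding.involutive_conjugate F).bijective _ _ (fun σ => ?_)
    rw [ha σ, map_mul, map_div₀, map_mul, ComplexEmbedding.conjugate_coe_eq,
      ComplexEmbedding.conjugate_coe_eq, Complex.conj_natCast]
  choose r hr using htreal
  have hrec : ∀ σ : F →+* ℂ, ∑ j, t j * (N * σ g * σ (integralBasis F j)) = a σ := by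
    intro σ
    have h1 : ∀ j, t j * (N * σ g * σ (integralBasis F j)) =
        ∑ τ : F →+* ℂ, a τ / (N * τ g) * (N * σ g) * (σ (integralBasis F j) * τ (νs j)) := by
      intro j
      rw [ht, sum_mul]
      exact sum_congr rfl fun τ _ => by ring
    rw [sum_congr rfl fun j _ => h1 j, sum_comm]
    rw [sum_eq_single σ]
    · rw [← mul_sum, hd σ σ, if_pos rfl, mul_one]
      exact div_mul_cancel₀ _ (mul_ne_zero hN0 (hσg σ))
    · intro τ _ hτ
      rw [← mul_sum, hd σ τ, if_neg (fun h => hτ h.symm), mul_zero]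
    · intro h
      exact absurd (mem_univ σ) h
  -- the integral element
  obtain ⟨y, hy⟩ : ∃ y : 𝓞 F, y = g * ∑ j, (round (r j) : ℤ) • RingOfIntegers.basis F j := ⟨_, rfl⟩
  obtain ⟨n, hn⟩ : ∃ n : Module.Free.ChooseBasisIndex ℤ (𝓞 F) → ℤ,
      ∀ i, n i = (RingOfIntegers.basis F).repr y i := ⟨_, fun _ => rfl⟩
  have hb : ∀ j, (algebraMap (𝓞 F) F) (RingOfIntegers.basis F j) = integralBasis F j := fun j =>
    (integralBasis_apply F j).symm
  have hy1 : ∀ σ : F →+* ℂ, σ (algebraMap (𝓞 F) F y) =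
      σ g * ∑ j, (round (r j) : ℂ) * σ (integralBasis F j) := by
    intro σ
    rw [hy, map_mul, map_mul, map_sum, map_sum]
    congr 1
    refine sum_congr rfl fun j _ => ?_
    rw [zsmul_eq_mul, map_mul, map_mul, hb, map_intCast, map_intCast]
  have hy2 : ∀ σ : F →+* ℂ, σ (algebraMap (𝓞 F) F y) = ∑ i, (n i : ℂ) * σ (integralBasis F i) := by
    intro σ
    conv_lhs => rw [← (RingOfIntegers.basis F).sum_repr y]
    rw [map_sum, map_sum]
    refine sum_congr rfl fun i _ => ?_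
    rw [zsmul_eq_mul, map_mul, map_mul, hb, map_intCast, map_intCast, hn]
  have key : ∀ σ : F →+* ℂ, ‖a σ - N * ∑ i, (n i : ℂ) * σ (integralBasis F i)‖ ≤ N * Bm * ‖σ g‖ := by
    intro σ
    have h1 : a σ - N * ∑ i, (n i : ℂ) * σ (integralBasis F i) =
        N * σ g * ∑ j, ((r j - round (r j) : ℝ) : ℂ) * σ (integralBasis F j) := by
      rw [← hy2 σ, hy1 σ, ← hrec σ, mul_sum, mul_sum, mul_sum, ← sum_sub_distrib]
      refine sum_congr rfl fun j _ => ?_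
      rw [hr j]
      push_cast
      ring
    rw [h1, norm_mul, norm_mul, Complex.norm_natCast]
    have h2 : ‖∑ j, ((r j - round (r j) : ℝ) : ℂ) * σ (integralBasis F j)‖ ≤ Bm := by
      refine (norm_sum_le _ _).trans (le_trans (sum_le_sum fun j _ => ?_) (hBσ σ))
      rw [norm_mul, Complex.norm_real, Real.norm_eq_abs]
      have h3 := abs_sub_round (r j)
      have h4 := norm_nonneg (σ (integralBasis F j))
      nlinarith
    have h5 : 0 ≤ (N : ℝ) * ‖σ g‖ := by positivity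
    calc (N : ℝ) * ‖σ g‖ * ‖∑ j, ((r j - round (r j) : ℝ) : ℂ) * σ (integralBasis F j)‖
        ≤ N * ‖σ g‖ * Bm := mul_le_mul_of_nonneg_left h2 h5
      _ = N * Bm * ‖σ g‖ := by ring
  refine ⟨n, ?_, ?_⟩
  · have h1 := pow_le_pow_left₀ (norm_nonneg _) (key σ0) 2
    refine h1.trans ?_
    rw [mul_pow]
    have h2 : ((N : ℝ) * Bm) ^ 2 ≤ (N * Bm + 1) ^ 2 := pow_le_pow_left₀ hNB (by linarith) 2
    have h3 : 0 ≤ C0 * h ^ (Module.finrank ℚ F - 2) := by positivity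
    calc ((N : ℝ) * Bm) ^ 2 * ‖σ0 g‖ ^ 2 ≤ (N * Bm) ^ 2 * (C0 * h ^ (Module.finrank ℚ F - 2)) :=
          mul_le_mul_of_nonneg_left hg1 (by positivity)
      _ ≤ (N * Bm + 1) ^ 2 * (C0 * h ^ (Module.finrank ℚ F - 2)) :=
          mul_le_mul_of_nonneg_right h2 h3
      _ = (N * Bm + 1) ^ 2 * C0 * h ^ (Module.finrank ℚ F - 2) := by ring
  · intro σ h1 h2
    have h3 := mul_le_mul_of_nonneg_left (hg2 σ h1 h2) hNB
    refine (key σ).trans (h3.trans ?_)
    have h4 : 0 < 1 / h := by positivity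
    rw [div_eq_mul_one_div ((N * Bm + 1) ^ 2 * C0) h]
    refine mul_le_mul_of_nonneg_right ?_ h4.le
    nlinarith

end AZ
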