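import Pool.Agent.H60.AZ.Defs
import Pool.Agent.H60.AZ.Nc

/-!
# Row Nd (MP_ede373, all algebraic points): the number field data exist

PROOF. `kd_of_field`: `S = {σ : F →+* ℂ // σ ≠ σ0}`, `ι = Module.Free.ChooseBasisIndex ℤ (𝓞 F)` (both finite; `DecidableEq` by `Classical`),
`σ1 = conjugate σ0 ≠ σ0` because `(σ0 ζ).im > 0`. `o = ⟨σ1, _⟩`, `bar s = if s = o then o else ⟨conjugate s, _⟩` (for `s ≠ o`,
`conjugate s ≠ σ0`, as otherwise `s = conjugate σ0`). `ze s = s ζ`, `nu j s = s (integralBasis F j)`, `nu0 j = σ0 (integralBasis F j)`,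
`nus j s = s (νs j)` (`exists_dual`), `N, T1, T2` from `exists_int_mat`, `C0` = max 1 of `covering`. Sums and products over all embeddings
are the `σ0`-term plus/times the sum/product over `S` (`Fintype.sum_subtype`-like: `Finset.sum_erase`, `Fintype.sum_eq_add_sum_compl`;
prove one lemma `∑ σ, f σ = f σ0 + ∑ s : S, f s`). `hS`: `card S = finrank - 1 ≥ 2` (`NumberField.Embeddings.card`).
`ze_ne`: `hgen`. `dual0`: `exists_dual` with `σ = σ0`, `τ = s ≠ σ0`. `hcov`: extend `a : S → ℂ` by `a σ0 := conj (a o)`; it satisfies the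
conjugation hypothesis (at `σ0`, at `σ1`, and at the others by the assumption). `covering` gives `n`; for `σ0`:
`‖a σ0 - N ∑ n σ0 ν‖ = ‖a o - N ∑ n σ1 ν‖` (conjugate; integers are real). `card S - 1 = finrank - 2`.
`alg_*`: elements of the number field are algebraic over `ℚ`; images under `σ` too (`IsAlgebraic` of `s x`: `(Algebra.IsAlgebraic.isAlgebraic x).map`-like).
`exists_KD`: `F = ℚ⟮z⟯` (`IntermediateField.adjoin ℚ {z}`), a number field (`IntermediateField.adjoin.finiteDimensional`), `σ0` the inclusion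
(`algebraMap F ℂ`), `ζ = AdjoinSimple.gen ℚ z`; `hgen`: two ring homomorphisms (`ℚ`-algebra homomorphisms) which agree at the generator are
equal (`IntermediateField.algHom_ext_of_eq_adjoin`/`AdjoinSimple` ext); `finrank = natDegree (minpoly ℚ z)`
(`IntermediateField.adjoin.finrank`).
-/

set_option autoImplicit false

namespace AZ

open Finset NumberField

private theorem Nd_alg (F : Type) [Field F] [NumberField F] (σ : F →+* ℂ) (x : F) :
    IsAlgebraic ℚ (σ x) :=
  (Algebra.IsAlgebraic.isAlgebraic (R := ℚ) x).algHom (RingHom.toRatAlgHom σ)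

private theorem Nd_sum (F : Type) [Field F] [NumberField F] (σ0 : F →+* ℂ)
    [Fintype {σ : F →+* ℂ // σ ≠ σ0}] (f : (F →+* ℂ) → ℂ) :
    ∑ σ, f σ = f σ0 + ∑ s : {σ : F →+* ℂ // σ ≠ σ0}, f s.1 := by
  classical
  rw [Fintype.sum_eq_add_sum_subtype_ne f σ0]
  congr 1
  exact Finset.sum_congr (by ext; simp) fun _ _ => rfl

private theorem Nd_prod (F : Type) [Field F] [NumberField F] (σ0 : F →+* ℂ)
    [Fintype {σ : F →+* ℂ // σ ≠ σ0}] (f : (F →+* ℂ) → ℂ) :
    ∏ σ, f σ = f σ0 * ∏ s : {σ : F →+* ℂ // σ ≠ σ0}, f s.1 := by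
  classical
  rw [Fintype.prod_eq_mul_prod_subtype_ne f σ0]
  congr 1
  exact Finset.prod_congr (by ext; simp) fun _ _ => rfl

theorem kd_of_field (F : Type) [Field F] [NumberField F] (σ0 : F →+* ℂ) (ζ : F) (hz : 0 < (σ0 ζ).im)
    (hgen : ∀ σ : F →+* ℂ, σ ζ = σ0 ζ → σ = σ0) (hd : 3 ≤ Module.finrank ℚ F) :
    ∃ (S ι : Type) (_ : Fintype S) (_ : DecidableEq S) (_ : Fintype ι) (_ : DecidableEq ι) (K : KD S ι),
      K.z = σ0 ζ := by
  classical
  have hcc : ∀ σ : F →+* ℂ,
      ComplexEmbedding.conjugate (ComplexEmbedding.conjugate σ) = σ := fun σ =>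
    ComplexEmbedding.involutive_conjugate F σ
  have hcx : ∀ (σ : F →+* ℂ) (x : F),
      ComplexEmbedding.conjugate σ x = (starRingEnd ℂ) (σ x) := fun _ _ => rfl
  have h01 : ComplexEmbedding.conjugate σ0 ≠ σ0 := by
    intro h
    have h1 : (starRingEnd ℂ) (σ0 ζ) = σ0 ζ := by rw [← hcx, h]
    have h2 := congrArg Complex.im h1
    rw [Complex.conj_im] at h2
    linarith
  obtain ⟨νs, hνs⟩ := exists_dual F
  obtain ⟨N, T1, T2, hN, hT1, hT2⟩ := exists_int_mat F ζ
  obtain ⟨C, hC1, hC⟩ := covering F σ0 h01 N hN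
  have hb : ∀ s : {σ : F →+* ℂ // σ ≠ σ0}, s ≠ ⟨ComplexEmbedding.conjugate σ0, h01⟩ →
      ComplexEmbedding.conjugate s.1 ≠ σ0 := by
    intro s hs h
    apply hs
    apply Subtype.ext
    change s.1 = ComplexEmbedding.conjugate σ0
    have h1 := congrArg ComplexEmbedding.conjugate h
    rw [hcc] at h1
    exact h1
  have hcard : Fintype.card {σ : F →+* ℂ // σ ≠ σ0} = Module.finrank ℚ F - 1 := by
    have h1 : Fintype.card (F →+* ℂ) = Module.finrank ℚ F := NumberField.Embeddings.card F ℂ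
    have h2 := Fintype.card_subtype_compl (fun σ : F →+* ℂ => σ = σ0)
    have h3 : Fintype.card {σ : F →+* ℂ // σ = σ0} = 1 := Fintype.card_subtype_eq σ0
    rw [h3, h1] at h2
    exact h2
  obtain ⟨bar, hbar⟩ : ∃ bar : {σ : F →+* ℂ // σ ≠ σ0} → {σ : F →+* ℂ // σ ≠ σ0},
      (bar ⟨ComplexEmbedding.conjugate σ0, h01⟩ = ⟨ComplexEmbedding.conjugate σ0, h01⟩) ∧
      ∀ s, s ≠ ⟨ComplexEmbedding.conjugate σ0, h01⟩ →
        (bar s).1 = ComplexEmbedding.conjugate s.1 := by
    refine ⟨fun s => if h : s = ⟨ComplexEmbedding.conjugate σ0, h01⟩ then s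
      else ⟨ComplexEmbedding.conjugate s.1, hb s h⟩, ?_, fun s hs => ?_⟩
    · simp
    · simp only [dif_neg hs]
  obtain ⟨hbar1, hbar2⟩ := hbar
  have hbar3 : ∀ s, s ≠ ⟨ComplexEmbedding.conjugate σ0, h01⟩ →
      bar s ≠ ⟨ComplexEmbedding.conjugate σ0, h01⟩ := by
    intro s hs h
    have h1 := hbar2 s hs
    rw [h] at h1
    have h2 : ComplexEmbedding.conjugate σ0 = ComplexEmbedding.conjugate s.1 := h1
    have h3 := congrArg ComplexEmbedding.conjugate h2
    rw [hcc, hcc] at h3
    exact s.2 h3.symm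
  refine ⟨{σ : F →+* ℂ // σ ≠ σ0}, Module.Free.ChooseBasisIndex ℤ (𝓞 F), inferInstance,
    inferInstance, inferInstance, inferInstance,
    { z := σ0 ζ
      o := ⟨ComplexEmbedding.conjugate σ0, h01⟩
      bar := bar
      ze := fun s => s.1 ζ
      nu := fun j s => s.1 (integralBasis F j)
      nu0 := fun j => σ0 (integralBasis F j)
      nus := fun j s => s.1 (νs j)
      N := N
      T1 := T1
      T2 := T2
      C0 := C
      hz := hz
      hS := ?_
      bar_bar := ?_
      bar_o := hbar1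
      ze_o := rfl
      ze_bar := ?_
      ze_ne := ?_
      nu_o := fun j => rfl
      nu_bar := ?_
      nus_bar := ?_
      dual := ?_
      dual0 := ?_
      hN := hN
      hT1 := ?_
      hT2 := ?_
      hnorm := ?_
      hC0 := hC1
      hcov := ?_
      alg_z := Nd_alg F σ0 ζ
      alg_ze := fun s => Nd_alg F s.1 ζ
      alg_nu := fun j s => Nd_alg F s.1 _
      alg_nus := fun j s => Nd_alg F s.1 _ }, rfl⟩
  · rw [hcard]; omega
  · intro s
    by_cases hs : s = ⟨ComplexEmbedding.conjugate σ0, h01⟩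
    · rw [hs, hbar1, hbar1]
    · apply Subtype.ext
      rw [hbar2 _ (hbar3 s hs), hbar2 s hs, hcc]
  · intro s hs
    change (bar s).1 ζ = _
    rw [hbar2 s hs]
    rfl
  · intro s h
    exact s.2 (hgen s.1 h)
  · intro j s hs
    change (bar s).1 _ = _
    rw [hbar2 s hs]
    rfl
  · intro j s hs
    change (bar s).1 _ = _
    rw [hbar2 s hs]
    rfl
  · intro s t
    have h := hνs s.1 t.1
    rw [h]
    by_cases hst : s = t
    · rw [if_pos hst, if_pos (by rw [hst])]
    · rw [if_neg hst, if_neg fun h => hst (Subtype.ext h)]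
  · intro s
    have h := hνs σ0 s.1
    rw [h, if_neg fun h => s.2 h.symm]
  · intro i j
    rw [hT1 i j, Nd_sum F σ0]
  · intro i j
    rw [hT2 i j, Nd_sum F σ0]
  · intro m hm
    have h := norm_ge F m hm
    rw [Nd_prod F σ0] at h
    exact h
  · intro h hh a ha
    obtain ⟨a', ha1, ha2⟩ : ∃ a' : (F →+* ℂ) → ℂ,
        a' σ0 = (starRingEnd ℂ) (a ⟨ComplexEmbedding.conjugate σ0, h01⟩) ∧
        ∀ s : {σ : F →+* ℂ // σ ≠ σ0}, a' s.1 = a s := by
      refine ⟨fun σ => if hσ : σ = σ0 then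
        (starRingEnd ℂ) (a ⟨ComplexEmbedding.conjugate σ0, h01⟩) else a ⟨σ, hσ⟩, ?_, fun s => ?_⟩
      · simp
      · simp only [dif_neg s.2]
    obtain ⟨n, hn1, hn2⟩ := hC h hh a' (by
      intro σ
      by_cases h0 : σ = σ0
      · rw [h0, ha1]
        have h3 := ha2 ⟨ComplexEmbedding.conjugate σ0, h01⟩
        rw [h3, Complex.conj_conj]
      · have h3 := ha2 ⟨σ, h0⟩
        by_cases h1 : (⟨σ, h0⟩ : {σ : F →+* ℂ // σ ≠ σ0}) =
            ⟨ComplexEmbedding.conjugate σ0, h01⟩
        · have h4 : σ = ComplexEmbedding.conjugate σ0 := congrArg Subtype.val h1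
          have h5 : ComplexEmbedding.conjugate σ = σ0 := by rw [h4, hcc]
          rw [h5, ha1]
          have h6 : a' σ = a ⟨ComplexEmbedding.conjugate σ0, h01⟩ := by rw [← h1]; exact h3
          rw [h6]
        · have h4 := ha ⟨σ, h0⟩ h1
          have h5 := ha2 (bar ⟨σ, h0⟩)
          rw [hbar2 _ h1] at h5
          have h6 : a' (ComplexEmbedding.conjugate σ) = a (bar ⟨σ, h0⟩) := h5
          rw [h6, h4]
          have h7 : a' σ = a ⟨σ, h0⟩ := h3
          rw [h7])
    refine ⟨n, ?_, fun s hs => ?_⟩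
    · have e1 : a' σ0 - N * ∑ i, (n i : ℂ) * σ0 (integralBasis F i) =
          (starRingEnd ℂ) (a ⟨ComplexEmbedding.conjugate σ0, h01⟩ -
            N * ∑ i, (n i : ℂ) * ComplexEmbedding.conjugate σ0 (integralBasis F i)) := by
        rw [ha1]
        simp only [map_sub, map_mul, map_sum, map_natCast, hcx, Complex.conj_conj, map_intCast]
      rw [e1, RCLike.norm_conj] at hn1
      rw [hcard]
      have e2 : Module.finrank ℚ F - 1 - 1 = Module.finrank ℚ F - 2 := by omega
      rw [e2]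
      exact hn1
    · have h3 := hn2 s.1 s.2 fun h4 => hs (Subtype.ext h4)
      rw [ha2 s] at h3
      exact h3

theorem exists_KD {z : ℂ} (hz : 0 < z.im) (hint : IsIntegral ℚ z) (hd : 3 ≤ (minpoly ℚ z).natDegree) :
    ∃ (S ι : Type) (_ : Fintype S) (_ : DecidableEq S) (_ : Fintype ι) (_ : DecidableEq ι) (K : KD S ι),
      K.z = z := by
  haveI hfd : FiniteDimensional ℚ (IntermediateField.adjoin ℚ {z}) :=
    IntermediateField.adjoin.finiteDimensional hint
  haveI : NumberField (IntermediateField.adjoin ℚ {z}) := { to_finiteDimensional := hfd }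
  have hg : algebraMap (IntermediateField.adjoin ℚ {z}) ℂ
      (IntermediateField.AdjoinSimple.gen ℚ z) = z :=
    IntermediateField.AdjoinSimple.algebraMap_gen ℚ z
  have h := kd_of_field (IntermediateField.adjoin ℚ {z})
    (algebraMap (IntermediateField.adjoin ℚ {z}) ℂ) (IntermediateField.AdjoinSimple.gen ℚ z)
    (by rw [hg]; exact hz) (by
      intro σ hσ
      have h1 : RingHom.toRatAlgHom σ =
          RingHom.toRatAlgHom (algebraMap (IntermediateField.adjoin ℚ {z}) ℂ) := by
        refine (IntermediateField.adjoin.powerBasis hint).algHom_ext ?_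
        rw [IntermediateField.adjoin.powerBasis_gen]
        exact hσ
      ext x
      exact DFunLike.congr_fun h1 x) (by
      rw [IntermediateField.adjoin.finrank hint]
      exact hd)
  rw [hg] at h
  exact h

end AZ
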