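import Pool.Agent.H60.AZ.Ba1
import Pool.Agent.H60.AZ.Ldf

/-!
# Row One (MP_ede373, all algebraic points): one step of the Schwarz lemma

PROOF. `y ∈ V`, `‖y‖ ≤ ρ` (`ρ ≥ 1`), `|y s| ≤ ε` for `s ≠ o`, `e = exp 1`.
`f w = F (w • y)` is entire (`line_diff` with `x = 0`). Let `T w = ∑_{n : ∑ n s < N} J n ∏ (y s)^(n s) w^(∑ n s)` (a finite sum:
the set `{n : S → ℕ | ∑ n s < N}` is finite, `⊆ Fintype.piFinset (range N)`), a polynomial in `w`. From `hser` at `w • y`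
`f w - T w = ∑_{∑ n s ≥ N} J n ∏ y^n w^(∑ n)`. One can write it as `w^N g(w)` with `g` entire
(`g w = ∑'_{n} J n ∏ y^n w^(∑ n - N)` over the `n` with `∑ n s ≥ N`: the same summability argument as `line_diff`).
Number of `n` with `∑ n s < N`: at most `N^(card S)`; so for `‖w‖ ≤ e`: `‖T w‖ ≤ N^K η (ρ e)^N =: T0`
(`‖y s‖ ≤ ρ`, `ρ ≥ 1`).
Let `α` be as in `q_line0` for `b = y`: `‖α‖ ≤ cq y ≤ Cq ρ^2`. `G w = g w exp(-α w^2)`; on `‖w‖ = e`:
`‖w^N G w‖ = e^N ‖G w‖ ≤ ‖f w exp(-α w^2)‖ + ‖T w‖ exp(‖α‖ e^2)`, and `‖f w exp(-α w^2)‖ = Nw F (w y) exp(cq y (Im w)^2) ≤ M1 exp(Cq ρ^2 e^2)`,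
because `y ∈ V` gives `bb (w • y) s = (Im w) y s` for `s ≠ o`, so `‖bb (w y)‖ ≤ e ε` (and `hM1`). Maximum modulus
(`Complex.norm_le_of_forall_mem_frontier_norm_le` on the ball of radius `e`): `‖G 1‖ ≤ e^{-N} (M1 + T0) exp(Cq ρ^2 e^2)`. So
`Nw F y = ‖f 1 exp(-α)‖ ≤ ‖g 1 exp(-α)‖ + ‖T 1‖ exp(‖α‖) ≤ e^{-N} (M1 + T0) exp(9 Cq ρ^2) + T0 exp(Cq ρ^2)`. If `C (ρ^2) ≤ N` with `C` large
(`≥ 18 Cq`, ...) `exp(9 Cq ρ^2) ≤ exp(N/2)`, `ρ ≤ N`, `T0 ≤ η exp(K log N + 2 N + N log N)`, so all is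
`≤ exp(-N/2) M1 + η exp(C N log(N+2))`. (`N ≥ 1` because `C ρ^2 ≤ N`, `ρ ≥ 1`.)
-/

set_option autoImplicit false

namespace AZ

open Complex Finset

/-- splitting off the terms of low order -/
theorem One_split {I : Type} [DecidableEq I] (c : I → ℂ) (k : I → ℕ) (f : ℂ → ℂ)
    (hf : ∀ w : ℂ, HasSum (fun n ↦ c n * w ^ k n) (f w)) (N : ℕ) (A : Finset I) (hA : ∀ n, n ∉ A → N ≤ k n) :
    ∃ g : ℂ → ℂ, Differentiable ℂ g ∧ ∀ w, f w = ∑ n ∈ A, c n * w ^ k n + w ^ N * g w := by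
  set t : I → ℂ → ℂ := fun n w ↦ if n ∈ A then 0 else c n * w ^ (k n - N) with ht
  have hb : ∀ R : ℝ, 1 ≤ R → ∀ n w, ‖w‖ ≤ R → ‖t n w‖ ≤ ‖c n * (R : ℂ) ^ k n‖ := by
    intro R hR n w hw
    rw [ht]
    beta_reduce
    split_ifs with h
    · rw [norm_zero]
      exact norm_nonneg _
    · rw [norm_mul, norm_mul, norm_pow, norm_pow]
      refine mul_le_mul_of_nonneg_left ?_ (norm_nonneg _)
      have h1 : ‖(R : ℂ)‖ = R := by
        rw [Complex.norm_real, Real.norm_of_nonneg (by linarith)]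
      rw [h1]
      exact (pow_le_pow_left₀ (norm_nonneg _) hw _).trans (pow_le_pow_right₀ hR (Nat.sub_le _ _))
  have hs : ∀ R : ℝ, Summable fun n ↦ ‖c n * (R : ℂ) ^ k n‖ := fun R ↦ (hf R).summable.norm
  refine ⟨fun w ↦ ∑' n, t n w, ?_, ?_⟩
  · intro w
    have h1 : DifferentiableOn ℂ (fun w ↦ ∑' n, t n w) (Metric.ball 0 (‖w‖ + 1)) := by
      refine differentiableOn_tsum_of_summable_norm (hs (‖w‖ + 1)) (fun n ↦ ?_) Metric.isOpen_ball
        (fun n v hv ↦ hb _ (by linarith [norm_nonneg w]) n v ?_)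
      · refine Differentiable.differentiableOn ?_
        rw [ht]
        beta_reduce
        by_cases h : n ∈ A
        · simp only [if_pos h]
          exact differentiable_const _
        · simp only [if_neg h]
          exact (differentiable_id.pow _).const_mul _
      · rw [mem_ball_zero_iff] at hv
        exact hv.le
    refine h1.differentiableAt (Metric.isOpen_ball.mem_nhds ?_)
    rw [mem_ball_zero_iff]
    linarith
  · intro w
    have hsw : Summable fun n ↦ t n w := by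
      refine Summable.of_norm_bounded (hs (max 1 ‖w‖)) fun n ↦ ?_
      exact hb _ (le_max_left _ _) n w (le_max_right _ _)
    have h1 : HasSum (fun n ↦ w ^ N * t n w) (w ^ N * ∑' n, t n w) := hsw.hasSum.mul_left _
    have h2 : HasSum (fun n ↦ if n ∈ A then c n * w ^ k n else 0) (∑ n ∈ A, if n ∈ A then c n * w ^ k n else 0) :=
      hasSum_sum_of_ne_finset_zero fun n hn ↦ if_neg hn
    have h3 : (∑ n ∈ A, if n ∈ A then c n * w ^ k n else 0) = ∑ n ∈ A, c n * w ^ k n :=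
      sum_congr rfl fun n hn ↦ if_pos hn
    rw [h3] at h2
    have h4 := h2.add h1
    have e : (fun n ↦ (if n ∈ A then c n * w ^ k n else 0) + w ^ N * t n w) = fun n ↦ c n * w ^ k n := by
      funext n
      rw [ht]
      beta_reduce
      by_cases h : n ∈ A
      · simp [h]
      · rw [if_neg h, if_neg h, zero_add]
        rw [← mul_assoc, mul_comm (w ^ N), mul_assoc, ← pow_add, Nat.add_sub_cancel' (hA n h)]
    rw [e] at h4
    exact (hf w).unique h4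

/-- the Schwarz lemma with a small polynomial -/
theorem One_max (f T g : ℂ → ℂ) (hg : Differentiable ℂ g) (N : ℕ) (hf : ∀ w, f w = T w + w ^ N * g w)
    (α : ℂ) (X B1 T0 : ℝ) (hα : ‖α‖ ≤ X) (hT0 : 0 ≤ T0)
    (hT : ∀ w, ‖w‖ ≤ Real.exp 1 → ‖T w‖ ≤ T0)
    (hB : ∀ w, ‖w‖ = Real.exp 1 → ‖f w * exp (-(α * w ^ 2))‖ ≤ B1) :
    ‖f 1 * exp (-α)‖ ≤ Real.exp (-N) * (B1 + T0 * Real.exp (9 * X)) + T0 * Real.exp (9 * X) := by
  have he : (0 : ℝ) < Real.exp 1 := Real.exp_pos 1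
  have he1 : (1 : ℝ) ≤ Real.exp 1 := by
    have := Real.add_one_le_exp (1 : ℝ)
    linarith
  have he3 : Real.exp 1 ≤ 3 := by
    have := Real.exp_one_lt_d9
    linarith
  have hX : 0 ≤ X := (norm_nonneg _).trans hα
  have hexp : ∀ w : ℂ, ‖w‖ ≤ Real.exp 1 → ‖exp (-(α * w ^ 2))‖ ≤ Real.exp (9 * X) := by
    intro w hw
    rw [Complex.norm_exp]
    refine Real.exp_le_exp.2 ?_
    have h1 : (-(α * w ^ 2)).re ≤ ‖-(α * w ^ 2)‖ := Complex.re_le_norm _
    rw [norm_neg, norm_mul, norm_pow] at h1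
    have h2 : ‖w‖ ^ 2 ≤ 9 := by
      have := norm_nonneg w
      nlinarith
    calc _ ≤ ‖α‖ * ‖w‖ ^ 2 := h1
      _ ≤ X * 9 := mul_le_mul hα h2 (by positivity) hX
      _ = 9 * X := by ring
  set G : ℂ → ℂ := fun w ↦ g w * exp (-(α * w ^ 2)) with hG
  have hGd : Differentiable ℂ G := by
    rw [hG]
    exact hg.mul (((differentiable_id.pow 2).const_mul α).neg.cexp)
  have hfr : ∀ w ∈ frontier (Metric.ball (0 : ℂ) (Real.exp 1)), ‖G w‖ ≤ Real.exp (-N) * (B1 + T0 * Real.exp (9 * X)) := by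
    intro w hw
    rw [frontier_ball _ he.ne', mem_sphere_zero_iff_norm] at hw
    have h1 : w ^ N * G w = f w * exp (-(α * w ^ 2)) - T w * exp (-(α * w ^ 2)) := by
      rw [hG, hf w]
      ring
    have h2 : Real.exp 1 ^ N * ‖G w‖ ≤ B1 + T0 * Real.exp (9 * X) := by
      have h3 : ‖w ^ N * G w‖ = Real.exp 1 ^ N * ‖G w‖ := by rw [norm_mul, norm_pow, hw]
      rw [← h3, h1]
      refine (norm_sub_le _ _).trans (add_le_add (hB w hw) ?_)
      rw [norm_mul]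
      exact mul_le_mul (hT w hw.le) (hexp w hw.le) (norm_nonneg _) hT0
    have h4 : Real.exp (-N) * Real.exp 1 ^ N = 1 := by
      rw [← Real.exp_nat_mul, ← Real.exp_add]
      simp
    calc ‖G w‖ = Real.exp (-N) * (Real.exp 1 ^ N * ‖G w‖) := by rw [← mul_assoc, h4, one_mul]
      _ ≤ _ := mul_le_mul_of_nonneg_left h2 (Real.exp_pos _).le
  have h1 : ‖G 1‖ ≤ Real.exp (-N) * (B1 + T0 * Real.exp (9 * X)) := by
    refine Complex.norm_le_of_forall_mem_frontier_norm_le Metric.isBounded_ball hGd.diffContOnCl hfr ?_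
    refine subset_closure ?_
    rw [mem_ball_zero_iff, norm_one]
    have := Real.add_one_lt_exp (one_ne_zero : (1 : ℝ) ≠ 0)
    linarith
  have h2 : f 1 * exp (-α) = G 1 + T 1 * exp (-α) := by
    rw [hG, hf 1]
    simp
    ring
  rw [h2]
  refine (norm_add_le _ _).trans (add_le_add h1 ?_)
  rw [norm_mul]
  have h3 := hexp 1 (by rw [norm_one]; exact he1)
  rw [one_pow, mul_one] at h3
  exact mul_le_mul (hT 1 (by rw [norm_one]; exact he1)) h3 (norm_nonneg _) hT0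

/-- the numbers -/
theorem One_num {Cq ρ η M1 : ℝ} {N k : ℕ} (hCq : 1 ≤ Cq) (hρ : 1 ≤ ρ) (hη : 0 ≤ η) (hM : 0 ≤ M1)
    (hN : (18 * Cq + k + 4) * ρ ^ 2 ≤ N) :
    Real.exp (-N) * (M1 * Real.exp (9 * (Cq * ρ ^ 2)) + (N ^ k * (η * (ρ * Real.exp 1) ^ N)) * Real.exp (9 * (Cq * ρ ^ 2))) +
      (N ^ k * (η * (ρ * Real.exp 1) ^ N)) * Real.exp (9 * (Cq * ρ ^ 2)) ≤
    Real.exp (-(N / 2)) * M1 + η * Real.exp ((18 * Cq + k + 4) * N * Real.log (N + 2)) := by
  have hρ2 : 1 ≤ ρ ^ 2 := one_le_pow₀ hρ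
  have hk : (0 : ℝ) ≤ k := Nat.cast_nonneg _
  have hN1 : (1 : ℝ) ≤ N := by nlinarith
  have hρN : ρ ≤ N := by nlinarith
  have h9 : 9 * (Cq * ρ ^ 2) ≤ N / 2 := by nlinarith
  have hL : 1 ≤ Real.log (N + 2) := by
    rw [Real.le_log_iff_exp_le (by positivity)]
    have := Real.exp_one_lt_d9
    linarith
  set L := Real.log ((N : ℝ) + 2) with hLd
  have hLN : 1 ≤ N * L := by nlinarith
  have hlogN : Real.log N ≤ L := Real.log_le_log (by linarith) (by linarith)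
  have e1 : (N : ℝ) = Real.exp (Real.log N) := (Real.exp_log (by linarith)).symm
  have h1 : (N : ℝ) ^ k ≤ Real.exp (k * (N * L)) := by
    calc (N : ℝ) ^ k = Real.exp (k * Real.log N) := by
          rw [Real.exp_nat_mul, ← e1]
      _ ≤ _ := by
          refine Real.exp_le_exp.2 (mul_le_mul_of_nonneg_left ?_ hk)
          nlinarith
  have h2 : ρ ^ N ≤ Real.exp (N * L) := by
    calc ρ ^ N ≤ (N : ℝ) ^ N := pow_le_pow_left₀ (by linarith) hρN N
      _ = Real.exp (N * Real.log N) := by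
          rw [Real.exp_nat_mul, ← e1]
      _ ≤ _ := by
          refine Real.exp_le_exp.2 ?_
          nlinarith
  have h3 : Real.exp 1 ^ N ≤ Real.exp (N * L) := by
    rw [← Real.exp_nat_mul]
    refine Real.exp_le_exp.2 ?_
    nlinarith
  have h4 : Real.exp (9 * (Cq * ρ ^ 2)) ≤ Real.exp (N * L) := by
    refine Real.exp_le_exp.2 ?_
    nlinarith
  have h5 : (2 : ℝ) ≤ Real.exp (N * L) := by
    have := Real.add_one_le_exp ((N : ℝ) * L)
    linarith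
  have h6 : Real.exp (-N) ≤ 1 := by
    rw [Real.exp_le_one_iff]
    linarith
  have h7 : Real.exp (-N) * Real.exp (9 * (Cq * ρ ^ 2)) ≤ Real.exp (-(N / 2)) := by
    rw [← Real.exp_add]
    refine Real.exp_le_exp.2 ?_
    linarith
  set E9 := Real.exp (9 * (Cq * ρ ^ 2)) with hE9
  have hE90 : 0 < E9 := Real.exp_pos _
  set T0 := (N : ℝ) ^ k * (η * (ρ * Real.exp 1) ^ N) with hT0
  have hT00 : 0 ≤ T0 := by positivity
  have h8 : 2 * (T0 * E9) ≤ η * Real.exp ((18 * Cq + k + 4) * N * L) := by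
    have e2 : 2 * (T0 * E9) = η * (2 * ((N : ℝ) ^ k * (ρ ^ N * (Real.exp 1 ^ N * E9)))) := by
      rw [hT0, mul_pow]
      ring
    rw [e2]
    refine mul_le_mul_of_nonneg_left ?_ hη
    calc 2 * ((N : ℝ) ^ k * (ρ ^ N * (Real.exp 1 ^ N * E9)))
        ≤ Real.exp (N * L) * (Real.exp (k * (N * L)) * (Real.exp (N * L) * (Real.exp (N * L) * Real.exp (N * L)))) := by
          gcongr
      _ = Real.exp ((k + 4) * (N * L)) := by
          rw [← Real.exp_add, ← Real.exp_add, ← Real.exp_add, ← Real.exp_add]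
          congr 1
          ring
      _ ≤ _ := by
          refine Real.exp_le_exp.2 ?_
          nlinarith
  have h10 : Real.exp (-N) * (T0 * E9) ≤ 1 * (T0 * E9) := mul_le_mul_of_nonneg_right h6 (by positivity)
  have h11 : Real.exp (-N) * E9 * M1 ≤ Real.exp (-(N / 2)) * M1 := mul_le_mul_of_nonneg_right h7 hM
  calc _ = Real.exp (-N) * E9 * M1 + Real.exp (-N) * (T0 * E9) + T0 * E9 := by ring
    _ ≤ Real.exp (-(N / 2)) * M1 + 1 * (T0 * E9) + T0 * E9 := by linarith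
    _ ≤ _ := by linarith

variable {S ι : Type} [Fintype S] [DecidableEq S] [Fintype ι] [DecidableEq ι] (K : KD S ι)

theorem One_bb {y : S → ℂ} (hy : y ∈ K.V) {ε : ℝ} (hε : 0 ≤ ε) (hys : ∀ s, s ≠ K.o → ‖y s‖ ≤ ε)
    {w : ℂ} (hw : ‖w‖ ≤ Real.exp 1) : ‖K.bb (w • y)‖ ≤ Real.exp 1 * ε := by
  have he := Real.exp_pos 1
  rw [pi_norm_le_iff_of_nonneg (by positivity)]
  intro s
  unfold KD.bb
  split_ifs with h
  · rw [norm_zero]
    positivity
  · have h1 : (starRingEnd ℂ) (y (K.bar s)) = y s := by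
      rw [hy s h, Complex.conj_conj]
    have h2 : ((w • y) s - (starRingEnd ℂ) ((w • y) (K.bar s))) / (2 * I) = (w.im : ℂ) * y s := by
      rw [Pi.smul_apply, Pi.smul_apply, smul_eq_mul, smul_eq_mul, map_mul, h1]
      have h3 : w - (starRingEnd ℂ) w = 2 * I * (w.im : ℂ) := by
        rw [Complex.sub_conj]
        push_cast
        ring
      have h4 : w * y s - (starRingEnd ℂ) w * y s = 2 * I * ((w.im : ℂ) * y s) := by
        rw [← sub_mul, h3]
        ring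
      rw [h4, mul_div_assoc, mul_div_cancel₀]
      simp
    rw [h2, norm_mul, Complex.norm_real, Real.norm_eq_abs]
    exact mul_le_mul ((Complex.abs_im_le_norm w).trans hw) (hys s h) (norm_nonneg _) he.le

theorem one_step : ∃ C : ℝ, 1 ≤ C ∧ ∀ (F : (S → ℂ) → ℂ) (J : (S → ℕ) → ℂ),
    (∀ x, HasSum (fun n : S → ℕ ↦ J n * ∏ s, x s ^ n s) (F x)) →
    ∀ (N : ℕ) (η ρ ε M1 : ℝ), 0 ≤ η → 1 ≤ ρ → 0 ≤ ε → C * ρ ^ 2 ≤ N →
    (∀ n : S → ℕ, ∑ s, n s < N → ‖J n‖ ≤ η) →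
    (∀ x, ‖K.bb x‖ ≤ Real.exp 1 * ε → K.Nw F x ≤ M1) →
    ∀ y ∈ K.V, ‖y‖ ≤ ρ → (∀ s, s ≠ K.o → ‖y s‖ ≤ ε) →
      K.Nw F y ≤ Real.exp (-(N / 2)) * M1 + η * Real.exp (C * N * Real.log (N + 2)) := by
  obtain ⟨Cq, hCq, hq⟩ := cq_le K
  refine ⟨18 * Cq + Fintype.card S + 4, ?_, ?_⟩
  · have : (0 : ℝ) ≤ Fintype.card S := Nat.cast_nonneg _
    linarith
  intro F J hser N η ρ ε M1 hη hρ hε hN hJ hM1 y hy hyρ hys
  have he : (0 : ℝ) < Real.exp 1 := Real.exp_pos 1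
  have he1 : (1 : ℝ) ≤ Real.exp 1 := by
    have := Real.add_one_le_exp (1 : ℝ)
    linarith
  have he3 : Real.exp 1 ≤ 3 := by
    have := Real.exp_one_lt_d9
    linarith
  have hM0 : 0 ≤ M1 := by
    have h1 := hM1 0 (by
      have h2 : K.bb (0 : S → ℂ) = 0 := by
        funext s
        simp [KD.bb]
      rw [h2, norm_zero]
      positivity)
    refine le_trans ?_ h1
    unfold KD.Nw
    positivity
  obtain ⟨α, hα, hα2⟩ := q_line0 K y
  have hcq : K.cq y ≤ Cq * ρ ^ 2 := by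
    refine (hq y).trans (mul_le_mul_of_nonneg_left ?_ (by linarith))
    exact pow_le_pow_left₀ (norm_nonneg _) hyρ 2
  -- the function on the line
  set c : (S → ℕ) → ℂ := fun n ↦ J n * ∏ s, y s ^ n s with hc
  have hf : ∀ w : ℂ, HasSum (fun n : S → ℕ ↦ c n * w ^ (∑ s, n s)) (F (w • y)) := by
    intro w
    have h1 := hser (w • y)
    have e : (fun n : S → ℕ ↦ J n * ∏ s, (w • y) s ^ n s) = fun n ↦ c n * w ^ (∑ s, n s) := by
      funext n
      rw [hc]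
      beta_reduce
      rw [← Finset.prod_pow_eq_pow_sum, mul_assoc, ← Finset.prod_mul_distrib]
      congr 1
      refine Finset.prod_congr rfl fun s _ ↦ ?_
      rw [Pi.smul_apply, smul_eq_mul, mul_pow, mul_comm]
    rwa [e] at h1
  set A : Finset (S → ℕ) := (Fintype.piFinset fun _ : S ↦ range N).filter (fun n ↦ ∑ s, n s < N) with hA
  have hAm : ∀ n : S → ℕ, n ∉ A → N ≤ ∑ s, n s := by
    intro n hn
    by_contra hlt
    push Not at hlt
    apply hn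
    rw [hA, mem_filter, Fintype.mem_piFinset]
    refine ⟨fun s ↦ ?_, hlt⟩
    rw [mem_range]
    exact (Finset.single_le_sum (f := n) (fun _ _ ↦ Nat.zero_le _) (mem_univ s)).trans_lt hlt
  have hAc : (A.card : ℝ) ≤ (N : ℝ) ^ Fintype.card S := by
    have h1 : A.card ≤ N ^ Fintype.card S := by
      refine (card_filter_le _ _).trans ?_
      rw [Fintype.card_piFinset]
      simp
    exact_mod_cast h1
  obtain ⟨g, hg, hfg⟩ := One_split c (fun n ↦ ∑ s, n s) (fun w ↦ F (w • y)) hf N A hAm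
  set T : ℂ → ℂ := fun w ↦ ∑ n ∈ A, c n * w ^ (∑ s, n s) with hTd
  have hT : ∀ w, ‖w‖ ≤ Real.exp 1 → ‖T w‖ ≤ N ^ Fintype.card S * (η * (ρ * Real.exp 1) ^ N) := by
    intro w hw
    have h1 : ∀ n ∈ A, ‖c n * w ^ (∑ s, n s)‖ ≤ η * (ρ * Real.exp 1) ^ N := by
      intro n hn
      rw [hA, mem_filter] at hn
      rw [hc]
      beta_reduce
      rw [norm_mul, norm_mul, norm_prod, norm_pow]
      have h2 : ∏ s, ‖y s ^ n s‖ ≤ ρ ^ (∑ s, n s) := by
        rw [← prod_pow_eq_pow_sum]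
        refine prod_le_prod (fun _ _ ↦ norm_nonneg _) fun s _ ↦ ?_
        rw [norm_pow]
        exact pow_le_pow_left₀ (norm_nonneg _) ((norm_le_pi_norm y s).trans hyρ) _
      have h3 : ‖w‖ ^ (∑ s, n s) ≤ Real.exp 1 ^ (∑ s, n s) := pow_le_pow_left₀ (norm_nonneg _) hw _
      have h4 : (ρ * Real.exp 1) ^ (∑ s, n s) ≤ (ρ * Real.exp 1) ^ N :=
        pow_le_pow_right₀ (by nlinarith) hn.2.le
      have h5 : 0 ≤ ∏ s, ‖y s ^ n s‖ := prod_nonneg fun _ _ ↦ norm_nonneg _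
      calc (‖J n‖ * ∏ s, ‖y s ^ n s‖) * ‖w‖ ^ (∑ s, n s)
          ≤ η * ρ ^ (∑ s, n s) * Real.exp 1 ^ (∑ s, n s) :=
            mul_le_mul (mul_le_mul (hJ n hn.2) h2 h5 hη) h3 (by positivity) (by positivity)
        _ = η * (ρ * Real.exp 1) ^ (∑ s, n s) := by rw [mul_pow]; ring
        _ ≤ _ := mul_le_mul_of_nonneg_left h4 hη
    calc ‖T w‖ ≤ ∑ n ∈ A, ‖c n * w ^ (∑ s, n s)‖ := norm_sum_le _ _
      _ ≤ ∑ n ∈ A, η * (ρ * Real.exp 1) ^ N := sum_le_sum h1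
      _ = A.card * (η * (ρ * Real.exp 1) ^ N) := by rw [sum_const, nsmul_eq_mul]
      _ ≤ _ := mul_le_mul_of_nonneg_right hAc (by positivity)
  have hB : ∀ w, ‖w‖ = Real.exp 1 → ‖F (w • y) * exp (-(α * w ^ 2))‖ ≤ M1 * Real.exp (9 * (Cq * ρ ^ 2)) := by
    intro w hw
    have h1 := hM1 (w • y) (One_bb K hy hε hys hw.le)
    rw [norm_mul, Complex.norm_exp]
    have h2 : (-(α * w ^ 2)).re = -K.q (w • y) + K.cq y * w.im ^ 2 := by
      rw [hα2 w, Complex.neg_re]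
      ring
    rw [h2, Real.exp_add, ← mul_assoc]
    refine mul_le_mul h1 (Real.exp_le_exp.2 ?_) (Real.exp_pos _).le hM0
    have h3 : w.im ^ 2 ≤ 9 := by
      have h4 := Complex.abs_im_le_norm w
      rw [hw] at h4
      have h5 : |w.im| ≤ 3 := h4.trans he3
      have := abs_le.1 h5
      nlinarith
    calc K.cq y * w.im ^ 2 ≤ (Cq * ρ ^ 2) * 9 := mul_le_mul hcq h3 (sq_nonneg _) (by positivity)
      _ = _ := by ring
  have hmax := One_max (fun w ↦ F (w • y)) T g hg N hfg α (Cq * ρ ^ 2) _ _ (hα.trans hcq) (by positivity) hT hB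
  have hNw : K.Nw F y = ‖F ((1 : ℂ) • y) * exp (-α)‖ := by
    unfold KD.Nw
    have h1 := hα2 1
    rw [one_smul] at h1 ⊢
    rw [norm_mul, Complex.norm_exp, h1]
    simp
  rw [hNw]
  exact hmax.trans (One_num hCq hρ hη hM0 hN)

end AZ
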