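import Pool.Agent.H60.AZ.Defs

/-!
# The parameters (MP_ede373, all algebraic points)

`k ≥ 1`; `Ak = 10 k + 30`; `Q = M^(k Ak)`, `S1 = M^(k Ak + 5 k + 1)`.
-/

set_option autoImplicit false

namespace AZ

/-- `A_k`. -/
def Ak (k : ℕ) : ℕ := 10 * k + 30

/-- Exponent of the degree `Q`. -/
def eQ (k : ℕ) : ℕ := k * Ak k

/-- Exponent of the order `S1`. -/
def eS (k : ℕ) : ℕ := k * Ak k + 5 * k + 1

/-- Exponent of the size. -/
def ea (k : ℕ) : ℕ := k * Ak k + 5 * k + 3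

/-- Exponent of the upper bound. -/
def eg (k : ℕ) : ℕ := 2 * (k + 1) * Ak k - 5

/-- Exponent of the lower bound. -/
def eb (k : ℕ) : ℕ := 2 * (k + 1) * Ak k + 10

theorem param (k : ℕ) : (eb k - eg k + ea k + 1) * (2 * k + 5) < eb k * ((2 * k + 5) - (k + 3)) := by
  have h1 : eb k - eg k = 15 := by
    unfold eb eg Ak
    have : 5 ≤ 2 * (k + 1) * (10 * k + 30) := by nlinarith
    omega
  have h2 : (2 * k + 5) - (k + 3) = k + 2 := by omega
  rw [h1, h2]
  unfold ea eb Ak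
  nlinarith

end AZ
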