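import Pool.Agent.H60.AZ.Ub

/-!
# Row Qp (MP_ede373, all algebraic points): invariance of the weighted size under the lattice

PROOF. Let `n : ι → ℤ`, `γ = gam n`, `n'_j = ∑_i T1 j i * n i`, `n''_j = ∑_i T2 j i * n i` (integers).
* `u_gam`: `u_j(γ) = ∑_s (z - ze s) nu j s N ∑_i n_i nu i s = z N ∑_i n_i (∑_s nu j s nu i s) - N ∑_i n_i ∑_s ze s nu j s nu i s`
  `= z (n'_j - N ∑ n_i nu0 j nu0 i) - (n''_j - N z ∑ n_i nu0 j nu0 i) = z n'_j - n''_j` (`hT1`, `hT2` with `i := j`, `j := i`).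
* `st_gam`: `∑_j n'_j nus j s = N ∑_i n_i (nu0 i ∑_j nu0 j nus j s + ∑_t nu i t ∑_j nu j t nus j s) = N ∑_i n_i nu i s = γ_s`.
* Terms: with `m' = m + n'`: `tm m (x + γ) = am(m) exp(2πi ∑ m_j u_j(x)) exp(2πi ∑ m_j (z n'_j - n''_j))`, the part with `n''` is 1;
  `mon κ m (x + γ) = mon κ (m + n') x` (`st_gam`, `st` additive). And
  `am(m) exp(2πi z ∑ m_j n'_j) = am(m + n') exp(-π i z ∑ n'_j^2) ∏ (-1)^(n'_j)` (sign: `(-1)^m (-1)^n' = (-1)^(m+n')`, so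
  `(-1)^(m_j) = (-1)^(m_j + n'_j) (-1)^(n'_j)`), `exp(2πi ∑ m_j u_j x) = exp(2πi ∑ (m_j+n'_j) u_j x) exp(-2πi ∑ n'_j u_j x)`.
  So `tm m (x+γ) mon κ m (x+γ) = e(x) tm (m+n') x mon κ (m+n') x` with `e(x) = ∏(-1)^(n'_j) exp(-πi z ∑ n'_j^2 - 2πi ∑ n'_j u_j(x))`,
  and shifting the sum (`Equiv.addRight n'`, `Equiv.tsum_eq`) `Phi κ (x+γ) = e(x) Phi κ x`, `FF (x + γ) = e(x) FF x`.
* `‖e(x)‖ = exp(π Y ∑ n'_j^2 + 2π ∑ n'_j Im u_j(x)) = exp(q(x+γ) - q(x))` because `Im u_j(x+γ) = Im u_j(x) + Y n'_j`.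
-/

set_option autoImplicit false

namespace AZ

open Complex Finset

variable {S ι : Type} [Fintype S] [DecidableEq S] [Fintype ι] [DecidableEq ι] (K : KD S ι)

theorem u_gam (n : ι → ℤ) (j : ι) :
    K.u j (K.gam n) = K.z * ((∑ i, K.T1 j i * n i : ℤ) : ℂ) - ((∑ i, K.T2 j i * n i : ℤ) : ℂ) := by
  unfold KD.u KD.gam
  have e1 : ((∑ i, K.T1 j i * n i : ℤ) : ℂ)
      = ∑ i, (K.N * (K.nu0 j * K.nu0 i + ∑ s, K.nu j s * K.nu i s)) * (n i : ℂ) := by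
    push_cast
    exact Finset.sum_congr rfl fun i _ ↦ by rw [K.hT1]
  have e2 : ((∑ i, K.T2 j i * n i : ℤ) : ℂ)
      = ∑ i, (K.N * (K.z * (K.nu0 j * K.nu0 i) + ∑ s, K.ze s * (K.nu j s * K.nu i s))) * (n i : ℂ) := by
    push_cast
    exact Finset.sum_congr rfl fun i _ ↦ by rw [K.hT2]
  rw [e1, e2, Finset.mul_sum, ← Finset.sum_sub_distrib]
  have e3 : ∀ s, (K.z - K.ze s) * K.nu j s * (K.N * ∑ i, (n i : ℂ) * K.nu i s)
      = ∑ i, (K.z - K.ze s) * K.nu j s * (K.N * ((n i : ℂ) * K.nu i s)) := by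
    intro s
    rw [Finset.mul_sum, Finset.mul_sum]
  rw [Finset.sum_congr rfl fun s _ ↦ e3 s, Finset.sum_comm]
  refine Finset.sum_congr rfl fun i _ ↦ ?_
  have e4 : K.z * (K.N * (K.nu0 j * K.nu0 i + ∑ s, K.nu j s * K.nu i s) * (n i : ℂ))
      - K.N * (K.z * (K.nu0 j * K.nu0 i) + ∑ s, K.ze s * (K.nu j s * K.nu i s)) * (n i : ℂ)
      = (K.N * (n i : ℂ)) * (K.z * ∑ s, K.nu j s * K.nu i s - ∑ s, K.ze s * (K.nu j s * K.nu i s)) := by
    ring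
  rw [e4, Finset.mul_sum, ← Finset.sum_sub_distrib, Finset.mul_sum]
  exact Finset.sum_congr rfl fun s _ ↦ by ring

theorem st_gam (n : ι → ℤ) (s : S) :
    K.st (fun j ↦ ((∑ i, K.T1 j i * n i : ℤ) : ℂ)) s = K.gam n s := by
  unfold KD.st KD.gam
  have e1 : ∀ j, ((∑ i, K.T1 j i * n i : ℤ) : ℂ) * K.nus j s
      = ∑ i, (K.N * (n i : ℂ)) * (K.nu0 i * (K.nu0 j * K.nus j s)
        + ∑ t, K.nu i t * (K.nu j t * K.nus j s)) := by
    intro j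
    push_cast
    rw [Finset.sum_mul]
    refine Finset.sum_congr rfl fun i _ ↦ ?_
    rw [K.hT1]
    have e2 : ∑ t, K.nu i t * (K.nu j t * K.nus j s) = (∑ t, K.nu j t * K.nu i t) * K.nus j s := by
      rw [Finset.sum_mul]
      exact Finset.sum_congr rfl fun t _ ↦ by ring
    rw [e2]
    ring
  rw [Finset.sum_congr rfl fun j _ ↦ e1 j, Finset.sum_comm, Finset.mul_sum]
  refine Finset.sum_congr rfl fun i _ ↦ ?_
  rw [← Finset.mul_sum, Finset.sum_add_distrib, ← Finset.mul_sum, K.dual0, Finset.sum_comm]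
  have e3 : ∀ t, ∑ j, K.nu i t * (K.nu j t * K.nus j s) = K.nu i t * (if t = s then 1 else 0) := by
    intro t
    rw [← Finset.mul_sum, K.dual]
  rw [Finset.sum_congr rfl fun t _ ↦ e3 t]
  simp
  ring

/-- the factor of automorphy -/
noncomputable def Qp_E (p : ι → ℤ) (x : S → ℂ) : ℂ :=
  ∏ j, ((-1) ^ (p j) * exp (-(Real.pi * I * (p j : ℂ) ^ 2 * K.z) - 2 * Real.pi * I * ((p j : ℂ) * K.u j x)))

theorem Qp_u_add (j : ι) (x y : S → ℂ) : K.u j (x + y) = K.u j x + K.u j y := by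
  unfold KD.u
  rw [← Finset.sum_add_distrib]
  exact Finset.sum_congr rfl fun s _ ↦ by rw [Pi.add_apply]; ring

theorem Qp_tm_eq (c0 : ℂ) (m : ι → ℤ) (x : S → ℂ) : K.tm c0 m x
    = ∏ j, (c0 * (-1) ^ (m j) * exp (Real.pi * I * (m j : ℂ) ^ 2 * K.z)
      * exp (2 * Real.pi * I * ((m j : ℂ) * K.u j x))) := by
  unfold KD.tm KD.am
  rw [Finset.mul_sum, Complex.exp_sum, ← Finset.prod_mul_distrib]

theorem Qp_tm (c0 : ℂ) (p r m : ι → ℤ) (x g : S → ℂ)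
    (hg : ∀ j, K.u j g = K.z * (p j : ℂ) - (r j : ℂ)) :
    K.tm c0 m (x + g) = Qp_E K p x * K.tm c0 (m + p) x := by
  rw [Qp_tm_eq, Qp_tm_eq, Qp_E, ← Finset.prod_mul_distrib]
  refine Finset.prod_congr rfl fun j _ ↦ ?_
  rw [Qp_u_add, hg, Pi.add_apply]
  have h1 : ((-1 : ℂ)) ^ (m j) = (-1) ^ (p j) * (-1) ^ (m j + p j) := by
    rw [← zpow_add₀ (by norm_num : (-1 : ℂ) ≠ 0), show p j + (m j + p j) = m j + 2 * p j by ring,
      zpow_add₀ (by norm_num : (-1 : ℂ) ≠ 0), zpow_mul]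
    simp
  have h2 : exp (2 * Real.pi * I * ((m j : ℂ) * (K.u j x + (K.z * (p j : ℂ) - (r j : ℂ)))))
      = exp (2 * Real.pi * I * ((m j : ℂ) * (K.u j x + K.z * (p j : ℂ)))) := by
    rw [Complex.exp_eq_exp_iff_exists_int]
    refine ⟨-(m j * r j), ?_⟩
    push_cast
    ring
  rw [h1, h2]
  have h3 : exp (Real.pi * I * (m j : ℂ) ^ 2 * K.z)
        * exp (2 * Real.pi * I * ((m j : ℂ) * (K.u j x + K.z * (p j : ℂ))))
      = exp (-(Real.pi * I * (p j : ℂ) ^ 2 * K.z) - 2 * Real.pi * I * ((p j : ℂ) * K.u j x))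
        * exp (Real.pi * I * (((m j + p j : ℤ)) : ℂ) ^ 2 * K.z)
        * exp (2 * Real.pi * I * ((((m j + p j : ℤ)) : ℂ) * K.u j x)) := by
    rw [← Complex.exp_add, ← Complex.exp_add, ← Complex.exp_add]
    congr 1
    push_cast
    ring
  calc c0 * ((-1) ^ (p j) * (-1) ^ (m j + p j)) * exp (Real.pi * I * (m j : ℂ) ^ 2 * K.z)
        * exp (2 * Real.pi * I * ((m j : ℂ) * (K.u j x + K.z * (p j : ℂ))))
      = c0 * ((-1) ^ (p j) * (-1) ^ (m j + p j)) * (exp (Real.pi * I * (m j : ℂ) ^ 2 * K.z)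
        * exp (2 * Real.pi * I * ((m j : ℂ) * (K.u j x + K.z * (p j : ℂ))))) := by ring
    _ = _ := by rw [h3]; ring

theorem Qp_mon (κ : S → ℕ) (p m : ι → ℤ) (x g : S → ℂ)
    (hg : ∀ s, K.st (fun j ↦ (p j : ℂ)) s = g s) :
    K.mon κ m (x + g) = K.mon κ (m + p) x := by
  unfold KD.mon
  refine Finset.prod_congr rfl fun s _ ↦ ?_
  congr 1
  have h1 : K.st (fun j ↦ (((m + p) j : ℤ) : ℂ)) s
      = K.st (fun j ↦ (m j : ℂ)) s + K.st (fun j ↦ (p j : ℂ)) s := by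
    unfold KD.st
    rw [← Finset.sum_add_distrib]
    exact Finset.sum_congr rfl fun j _ ↦ by simp only [Pi.add_apply]; push_cast; ring
  rw [h1, hg, Pi.add_apply]
  ring

theorem Qp_Phi (c0 : ℂ) (κ : S → ℕ) (p r : ι → ℤ) (x g : S → ℂ)
    (hg : ∀ j, K.u j g = K.z * (p j : ℂ) - (r j : ℂ))
    (hg' : ∀ s, K.st (fun j ↦ (p j : ℂ)) s = g s) :
    K.Phi c0 κ (x + g) = Qp_E K p x * K.Phi c0 κ x := by
  unfold KD.Phi
  have h1 : ∀ m : ι → ℤ, K.tm c0 m (x + g) * K.mon κ m (x + g)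
      = Qp_E K p x * (K.tm c0 (m + p) x * K.mon κ (m + p) x) := by
    intro m
    rw [Qp_tm K c0 p r m x g hg, Qp_mon K κ p m x g hg']
    ring
  rw [tsum_congr h1, tsum_mul_left]
  congr 1
  exact (Equiv.addRight p).tsum_eq fun m : ι → ℤ ↦ K.tm c0 m x * K.mon κ m x

theorem Qp_norm (p r : ι → ℤ) (x g : S → ℂ) (hg : ∀ j, K.u j g = K.z * (p j : ℂ) - (r j : ℂ)) :
    ‖Qp_E K p x‖ = Real.exp (K.q (x + g) - K.q x) := by
  have hY := K.hz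
  unfold Qp_E KD.q
  rw [norm_prod, ← mul_sub, ← Finset.sum_sub_distrib, Finset.mul_sum, Real.exp_sum]
  refine Finset.prod_congr rfl fun j _ ↦ ?_
  rw [norm_mul, norm_zpow, norm_neg, norm_one, one_zpow, one_mul, Complex.norm_exp]
  congr 1
  have h1 : (K.u j (x + g)).im = (K.u j x).im + K.z.im * (p j : ℝ) := by
    rw [Qp_u_add, hg]
    simp
  rw [h1]
  have h2 : (-(Real.pi * I * (p j : ℂ) ^ 2 * K.z) - 2 * Real.pi * I * ((p j : ℂ) * K.u j x)).re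
      = Real.pi * (p j : ℝ) ^ 2 * K.z.im + 2 * Real.pi * ((p j : ℝ) * (K.u j x).im) := by
    have h3 : (-(Real.pi * I * (p j : ℂ) ^ 2 * K.z) - 2 * Real.pi * I * ((p j : ℂ) * K.u j x))
        = -(((Real.pi * (p j : ℝ) ^ 2 : ℝ) : ℂ) * (I * K.z))
          - ((2 * Real.pi * (p j : ℝ) : ℝ) : ℂ) * (I * K.u j x) := by
      push_cast
      ring
    rw [h3, Complex.sub_re, Complex.neg_re, Complex.re_ofReal_mul, Complex.re_ofReal_mul]
    simp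
    ring
  rw [h2]
  field_simp
  ring

theorem invariant (c0 : ℂ) (Q : ℕ) (c : (S → Fin (Q + 1)) → ℂ) (n : ι → ℤ) (x : S → ℂ) :
    K.Nw (K.FF c0 Q c) (x + K.gam n) = K.Nw (K.FF c0 Q c) x := by
  have hg := u_gam K n
  have hg' := st_gam K n
  have hF : K.FF c0 Q c (x + K.gam n) = Qp_E K (fun j ↦ ∑ i, K.T1 j i * n i) x * K.FF c0 Q c x := by
    unfold KD.FF
    rw [Finset.mul_sum]
    refine Finset.sum_congr rfl fun κ _ ↦ ?_
    rw [Qp_Phi K c0 _ (fun j ↦ ∑ i, K.T1 j i * n i) (fun j ↦ ∑ i, K.T2 j i * n i) x (K.gam n) hg hg']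
    ring
  unfold KD.Nw
  rw [hF, norm_mul, Qp_norm K (fun j ↦ ∑ i, K.T1 j i * n i) (fun j ↦ ∑ i, K.T2 j i * n i) x (K.gam n) hg,
    mul_assoc, mul_comm, mul_assoc, ← Real.exp_add, show -K.q (x + K.gam n) + (K.q (x + K.gam n) - K.q x)
      = -K.q x by ring]

end AZ
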