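import Pool.Agent.H60.AZ.Int
import Pool.Agent.H60.AZ.One

/-!
# Row Sch (MP_ede373, all algebraic points): the Schwarz lemma and the spreading lemma

PROOF of `schwarz`. Let `k = card S - 1`, `C1` of `one_step`, `C2` of `interp`, `C0` of `K.hcov`. `ε = C0/h`, `ρ^2 = C0^2 h^k + C0^2 + 1`
(so `1 ≤ ρ`, and a `y ∈ V` with `‖y o‖^2 ≤ C0 h^k`, `‖y s‖ ≤ C0/h ≤ C0` has `‖y‖ ≤ ρ`); `C1 ρ^2 ≤ N` follows from `C h^k ≤ N` for
`C` large (`h ≥ 1`). `τ = e ε = e C0/h`. Let `M0 = sup {Nw F x : x ∈ V}` (bounded by `hF.gr`: `bb x = 0`), `M0 ≥ 0`.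
`η' = η exp(C1 N log(N+2))`. If `M0 ≤ 2 η'` we are done (`C ≥ C1 + 1`: `2 ≤ exp(N log(N+2))` as `N ≥ 1`). Otherwise `M0 > 0`; put
`L = -log M0`. Every `x ∈ V` is `γ + y` (`hcov` applied to `a = x`, `y = x - gam n`, `gam n ∈ V` by `nu_bar`), and
`Nw F x = Nw F y` (`hF.inv n y`: `Nw F (y + gam n) = Nw F y`).
For any `R ≥ τ`: `interp` with `A1 = A (1 + log(1+R))` gives for `‖bb x‖ ≤ τ` (if `M0 ≤ exp A1` use that the exponent is increasing in
`‖bb x‖` as `-L ≤ A1 + C2 R^2`): `Nw F x ≤ exp(-L (1 - τ/R) + (A1 + C2 R^2) τ/R) =: M1`. `one_step`: for all `y` as above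
`Nw F y ≤ e^{-N/2} M1 + η'`, so `M0 ≤ e^{-N/2} M1 + M0/2`, `M0 ≤ 2 e^{-N/2} M1`. Taking logarithms:
`-L ≤ log 2 - N/2 - L + L τ/R + (A1 + C2 R^2) τ/R`, i.e. `-L ≤ (R/τ)(log 2 - N/2) + A1 + C2 R^2 ≤ -(R/τ) N/8 + A1 + C2 R^2`
(`N ≥ 2`, `log 2 ≤ 3N/8` for `N ≥ 2`). Choose `R = c N h` with `c` small such that `R/τ N/8 = c N^2 h^2/(8 e C0) ≥ 2 C2 R^2 = 2 C2 c^2 N^2 h^2`, i.e.
`c = 1/(16 e C0 C2)`, and `R ≥ τ` holds because `N h^2 ≥ C ≥ e C0/c`. So `Nw F x ≤ M0 ≤ exp(-N^2 h^2/C + A (1 + log(1 + c N h)))`, and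
`1 + log(1 + cNh) ≤ C log(N h + 2)`.
PROOF of `spread`. `interp` with `R = 2 r`, `L`, `A1 = A (1 + log(1 + 2r))`: the exponent is
`-L (1 - t) + (A1 + 4 C2 r^2) t` with `t = ‖bb x‖/(2r) ∈ [0, 1/2]`, `L ≥ 0`: `≤ -L/2 + A1 + 4 C2 r^2`; `A1 ≤ C A log(r+2)` for `r ≥ 1`.
-/

set_option autoImplicit false

namespace AZ

open Complex Finset

variable {S ι : Type} [Fintype S] [DecidableEq S] [Fintype ι] [DecidableEq ι] (K : KD S ι)

theorem Sch_zero_mem : (0 : S → ℂ) ∈ K.V := by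
  intro s _
  simp

theorem Sch_gam_mem (n : ι → ℤ) : K.gam n ∈ K.V := by
  intro s hs
  unfold KD.gam
  rw [map_mul, map_sum]
  simp only [Complex.conj_natCast]
  congr 1
  refine Finset.sum_congr rfl fun i _ ↦ ?_
  rw [K.nu_bar i s hs, map_mul, map_intCast]

theorem Sch_sub_mem {x y : S → ℂ} (hx : x ∈ K.V) (hy : y ∈ K.V) : x - y ∈ K.V := by
  intro s hs
  rw [Pi.sub_apply, Pi.sub_apply, map_sub, hx s hs, hy s hs]

theorem Sch_le_A {F : (S → ℂ) → ℂ} {J : (S → ℕ) → ℂ} {A : ℝ} (hF : K.FDat F J A) {x : S → ℂ}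
    (hx : x ∈ K.V) : K.Nw F x ≤ Real.exp A := by
  have h := hF.gr x
  rw [(V_iff K x).1 hx] at h
  simpa using h

/-- Every point of `V` is a lattice point plus a small vector. -/
theorem Sch_red {F : (S → ℂ) → ℂ} {J : (S → ℕ) → ℂ} {A : ℝ} (hF : K.FDat F J A) {h : ℝ}
    (hh : 1 ≤ h) {x : S → ℂ} (hx : x ∈ K.V) :
    ∃ y ∈ K.V, ‖y‖ ≤ Real.sqrt (K.C0 ^ 2 * h ^ (Fintype.card S - 1) + K.C0 ^ 2 + 1) ∧
      (∀ s, s ≠ K.o → ‖y s‖ ≤ K.C0 / h) ∧ K.Nw F x = K.Nw F y := by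
  obtain ⟨n, hn1, hn2⟩ := K.hcov h hh x hx
  have hC0 := K.hC0
  have hhk : 1 ≤ h ^ (Fintype.card S - 1) := one_le_pow₀ hh
  have hC2 : K.C0 ≤ K.C0 ^ 2 := by nlinarith
  refine ⟨x - K.gam n, Sch_sub_mem K hx (Sch_gam_mem K n), ?_, ?_, ?_⟩
  · rw [pi_norm_le_iff_of_nonneg (Real.sqrt_nonneg _)]
    intro s
    apply Real.le_sqrt_of_sq_le
    by_cases hs : s = K.o
    · subst hs
      have h1 : ‖(x - K.gam n) K.o‖ ^ 2 ≤ K.C0 * h ^ (Fintype.card S - 1) := hn1
      have h2 : K.C0 * h ^ (Fintype.card S - 1) ≤ K.C0 ^ 2 * h ^ (Fintype.card S - 1) :=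
        mul_le_mul_of_nonneg_right hC2 (by linarith)
      have h3 : 0 ≤ K.C0 ^ 2 := sq_nonneg _
      linarith
    · have h1 : ‖(x - K.gam n) s‖ ≤ K.C0 / h := hn2 s hs
      have h2 : K.C0 / h ≤ K.C0 := div_le_self (by linarith) hh
      have h3 : ‖(x - K.gam n) s‖ ^ 2 ≤ K.C0 ^ 2 :=
        pow_le_pow_left₀ (norm_nonneg _) (h1.trans h2) 2
      have h4 : 0 ≤ K.C0 ^ 2 * h ^ (Fintype.card S - 1) := by positivity
      linarith
  · intro s hs
    exact hn2 s hs
  · have h1 := hF.inv n (x - K.gam n)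
    rw [sub_add_cancel] at h1
    exact h1

theorem schwarz : ∃ C : ℝ, 1 ≤ C ∧ ∀ (F : (S → ℂ) → ℂ) (J : (S → ℕ) → ℂ) (A : ℝ), K.FDat F J A → 0 ≤ A →
    ∀ (N : ℕ) (h η : ℝ), 1 ≤ h → C * h ^ (Fintype.card S - 1) ≤ N → 0 ≤ η →
    (∀ n : S → ℕ, ∑ s, n s < N → ‖J n‖ ≤ η) → ∀ x ∈ K.V,
      K.Nw F x ≤ Real.exp (-(N ^ 2 * h ^ 2 / C) + C * A * Real.log (N * h + 2)) +
        η * Real.exp (C * N * Real.log (N + 2)) := by
  obtain ⟨C1, hC1, H1⟩ := one_step K
  obtain ⟨C2, hC2, H2⟩ := interp K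
  have hC0 := K.hC0
  have he1 : 1 ≤ Real.exp 1 := Real.one_le_exp (by norm_num)
  have he0 : 0 < Real.exp 1 := Real.exp_pos 1
  set c : ℝ := 1 / (16 * Real.exp 1 * K.C0 * C2) with hc
  have hden : 1 ≤ 16 * Real.exp 1 * K.C0 * C2 := by
    have a1 : 1 ≤ 16 * Real.exp 1 := by linarith
    have a2 : 1 ≤ 16 * Real.exp 1 * K.C0 := one_le_mul_of_one_le_of_one_le a1 hC0
    exact one_le_mul_of_one_le_of_one_le a2 hC2
  have hc0 : 0 < c := by rw [hc]; positivity
  have hc1 : c ≤ 1 := by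
    rw [hc, div_le_one (by linarith)]
    exact hden
  have hcden : c * (16 * Real.exp 1 * K.C0 * C2) = 1 := by
    rw [hc]
    exact one_div_mul_cancel (by positivity)
  set C : ℝ := C1 * (2 * K.C0 ^ 2 + 1) + 1 / (C2 * c ^ 2) + Real.exp 1 * K.C0 / c + C1 + 3 with hC
  have p1 : 0 ≤ C1 * (2 * K.C0 ^ 2 + 1) := by positivity
  have p2 : 0 < 1 / (C2 * c ^ 2) := by positivity
  have p3 : 0 ≤ Real.exp 1 * K.C0 / c := by positivity
  refine ⟨C, by rw [hC]; linarith, ?_⟩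
  intro F J A hF hA N h η hh hNh hη hJ x hx
  have hCpos : 0 < C := by rw [hC]; linarith
  have hhk : 1 ≤ h ^ (Fintype.card S - 1) := one_le_pow₀ hh
  have hNC : C ≤ (N : ℝ) := by
    calc C = C * 1 := (mul_one C).symm
      _ ≤ C * h ^ (Fintype.card S - 1) := mul_le_mul_of_nonneg_left hhk hCpos.le
      _ ≤ N := hNh
  have hN3 : (3 : ℝ) ≤ N := by
    refine le_trans ?_ hNC
    rw [hC]; linarith
  have hN0 : (0 : ℝ) < N := by linarith
  -- the supremum
  set Z : Set ℝ := K.Nw F '' K.V with hZ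
  have hZne : Z.Nonempty := ⟨_, 0, Sch_zero_mem K, rfl⟩
  have hZb : BddAbove Z := by
    refine ⟨Real.exp A, ?_⟩
    rintro _ ⟨y, hy, rfl⟩
    exact Sch_le_A K hF hy
  set M0 : ℝ := sSup Z with hM0
  have hM : ∀ y ∈ K.V, K.Nw F y ≤ M0 := fun y hy ↦ le_csSup hZb ⟨y, hy, rfl⟩
  have hMA : M0 ≤ Real.exp A := by
    refine csSup_le hZne ?_
    rintro _ ⟨y, hy, rfl⟩
    exact Sch_le_A K hF hy
  have hlogN : 1 ≤ Real.log ((N : ℝ) + 2) := by
    rw [Real.le_log_iff_exp_le (by linarith)]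
    have := Real.exp_one_lt_d9
    linarith
  set η' : ℝ := η * Real.exp (C1 * N * Real.log (N + 2)) with hη'
  have hη'0 : 0 ≤ η' := by rw [hη']; positivity
  by_cases hcase : M0 ≤ 2 * η'
  · have h1 : 2 * η' ≤ η * Real.exp (C * N * Real.log (N + 2)) := by
      have h2 : 2 * Real.exp (C1 * N * Real.log (N + 2)) ≤ Real.exp (C * N * Real.log (N + 2)) := by
        have h3 : (2 : ℝ) ≤ Real.exp 1 := by
          have := Real.add_one_le_exp (1 : ℝ)
          linarith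
        have h4 : Real.exp 1 * Real.exp (C1 * N * Real.log (N + 2)) ≤
            Real.exp (C * N * Real.log (N + 2)) := by
          rw [← Real.exp_add, Real.exp_le_exp]
          have h5 : (C1 + 1) * ((N : ℝ) * Real.log (N + 2)) ≤ C * ((N : ℝ) * Real.log (N + 2)) := by
            refine mul_le_mul_of_nonneg_right ?_ (by positivity)
            rw [hC]; linarith
          have h6 : 1 ≤ (N : ℝ) * Real.log (N + 2) :=
            one_le_mul_of_one_le_of_one_le (by linarith) hlogN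
          have e1 : C1 * (N : ℝ) * Real.log (N + 2) = C1 * ((N : ℝ) * Real.log (N + 2)) := by ring
          have e2 : C * (N : ℝ) * Real.log (N + 2) = C * ((N : ℝ) * Real.log (N + 2)) := by ring
          rw [e1, e2]
          linarith
        calc 2 * Real.exp (C1 * N * Real.log (N + 2)) ≤
            Real.exp 1 * Real.exp (C1 * N * Real.log (N + 2)) :=
              mul_le_mul_of_nonneg_right h3 (Real.exp_pos _).le
          _ ≤ _ := h4
      calc 2 * η' = η * (2 * Real.exp (C1 * N * Real.log (N + 2))) := by rw [hη']; ring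
        _ ≤ _ := mul_le_mul_of_nonneg_left h2 hη
    have h7 := Real.exp_pos (-(N ^ 2 * h ^ 2 / C) + C * A * Real.log (N * h + 2))
    have h8 := hM x hx
    linarith
  · have hcase' : 2 * η' < M0 := not_le.1 hcase
    have hM0pos : 0 < M0 := by linarith
    set L : ℝ := -Real.log M0 with hL
    have hML : M0 = Real.exp (-L) := by
      rw [hL, neg_neg, Real.exp_log hM0pos]
    have hLA : -L ≤ A := by
      rw [hL, neg_neg, Real.log_le_iff_le_exp hM0pos]
      exact hMA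
    set ε : ℝ := K.C0 / h with hε
    have hh0 : 0 < h := by linarith
    have hε0 : 0 < ε := by rw [hε]; positivity
    set τ : ℝ := Real.exp 1 * ε with hτ
    have hτ0 : 0 < τ := by rw [hτ]; positivity
    set R : ℝ := c * N * h with hR
    have hR0 : 0 < R := by rw [hR]; positivity
    have hRτ : τ ≤ R := by
      have h1 : Real.exp 1 * K.C0 / c ≤ N := by
        refine le_trans ?_ hNC
        rw [hC]; linarith
      rw [div_le_iff₀ hc0] at h1
      rw [hτ, hε, hR, ← mul_div_assoc, div_le_iff₀ hh0]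
      have h2 : (N : ℝ) * c ≤ c * N * h * h := by
        have : 1 ≤ h * h := one_le_mul_of_one_le_of_one_le hh hh
        have h3 : (N : ℝ) * c * 1 ≤ (N : ℝ) * c * (h * h) :=
          mul_le_mul_of_nonneg_left this (by positivity)
        linarith
      linarith
    set A1 : ℝ := A * (1 + Real.log (1 + R)) with hA1
    have hlogR : 0 ≤ Real.log (1 + R) := Real.log_nonneg (by linarith)
    have hAA1 : A ≤ A1 := by
      rw [hA1]
      have : 0 ≤ A * Real.log (1 + R) := mul_nonneg hA hlogR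
      linarith
    set Y : ℝ := L + A1 + C2 * R ^ 2 with hY
    have hY0 : 0 ≤ Y := by
      have : 0 ≤ C2 * R ^ 2 := by positivity
      rw [hY]; linarith
    have hI := H2 F J A hF hA R L A1 hR0 (fun y hy ↦ by rw [← hML]; exact hM y hy)
      (fun y hy ↦ by
        have := hF.gr y
        rw [hy] at this
        exact this)
    set M1 : ℝ := Real.exp (-L + τ / R * Y) with hM1
    have hM1' : ∀ y, ‖K.bb y‖ ≤ Real.exp 1 * ε → K.Nw F y ≤ M1 := by
      intro y hy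
      refine (hI y (hy.trans hRτ)).trans ?_
      rw [hM1, Real.exp_le_exp]
      have h1 : ‖K.bb y‖ / R ≤ τ / R := div_le_div_of_nonneg_right hy hR0.le
      have h2 : ‖K.bb y‖ / R * Y ≤ τ / R * Y := mul_le_mul_of_nonneg_right h1 hY0
      have h3 : -(L * (1 - ‖K.bb y‖ / R)) + (A1 + C2 * R ^ 2) * (‖K.bb y‖ / R) =
          -L + ‖K.bb y‖ / R * Y := by rw [hY]; ring
      rw [h3]
      linarith
    -- the parameter rho
    set ρ : ℝ := Real.sqrt (K.C0 ^ 2 * h ^ (Fintype.card S - 1) + K.C0 ^ 2 + 1) with hρ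
    have hρ2 : ρ ^ 2 = K.C0 ^ 2 * h ^ (Fintype.card S - 1) + K.C0 ^ 2 + 1 := by
      rw [hρ]
      exact Real.sq_sqrt (by positivity)
    have hρ1 : 1 ≤ ρ := by
      rw [hρ]
      apply Real.le_sqrt_of_sq_le
      have : 0 ≤ K.C0 ^ 2 * h ^ (Fintype.card S - 1) := by positivity
      have h2 : 0 ≤ K.C0 ^ 2 := sq_nonneg _
      linarith
    have hρN : C1 * ρ ^ 2 ≤ N := by
      have h1 : ρ ^ 2 ≤ (2 * K.C0 ^ 2 + 1) * h ^ (Fintype.card S - 1) := by
        rw [hρ2]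
        have h2 : K.C0 ^ 2 * 1 ≤ K.C0 ^ 2 * h ^ (Fintype.card S - 1) :=
          mul_le_mul_of_nonneg_left hhk (sq_nonneg _)
        linarith
      calc C1 * ρ ^ 2 ≤ C1 * ((2 * K.C0 ^ 2 + 1) * h ^ (Fintype.card S - 1)) :=
            mul_le_mul_of_nonneg_left h1 (by linarith)
        _ = C1 * (2 * K.C0 ^ 2 + 1) * h ^ (Fintype.card S - 1) := by ring
        _ ≤ C * h ^ (Fintype.card S - 1) := by
            refine mul_le_mul_of_nonneg_right ?_ (by linarith)
            rw [hC]; linarith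
        _ ≤ N := hNh
    have hstep : ∀ y ∈ K.V, K.Nw F y ≤ Real.exp (-(N / 2)) * M1 + η' := by
      intro y hy
      obtain ⟨w, hw, hw1, hw2, hw3⟩ := Sch_red K hF hh hy
      rw [hw3]
      exact H1 F J hF.ser N η ρ ε M1 hη hρ1 hε0.le hρN hJ hM1' w hw hw1 hw2
    have hM02 : M0 ≤ Real.exp (-(N / 2)) * M1 + η' := by
      refine csSup_le hZne ?_
      rintro _ ⟨y, hy, rfl⟩
      exact hstep y hy
    have hM03 : M0 ≤ 2 * (Real.exp (-(N / 2)) * M1) := by linarith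
    have hlog : -L ≤ Real.log 2 + (-(N / 2) + (-L + τ / R * Y)) := by
      have h1 : 2 * (Real.exp (-(N / 2)) * M1) =
          Real.exp (Real.log 2 + (-(N / 2) + (-L + τ / R * Y))) := by
        rw [Real.exp_add, Real.exp_log (by norm_num : (0 : ℝ) < 2), hM1, ← Real.exp_add]
      rw [h1, hML, Real.exp_le_exp] at hM03
      exact hM03
    have hlog2 : Real.log 2 ≤ 3 * (N : ℝ) / 8 := by
      have := Real.log_two_lt_d9
      linarith
    have h0 : (N : ℝ) / 8 ≤ τ / R * Y := by linarith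
    have h1 : (N : ℝ) / 8 * (R / τ) ≤ Y := by
      have h2 : (N : ℝ) / 8 * (R / τ) ≤ τ / R * Y * (R / τ) :=
        mul_le_mul_of_nonneg_right h0 (by positivity)
      have h3 : τ / R * Y * (R / τ) = Y := by
        field_simp
      linarith
    have h2 : (N : ℝ) / 8 * (R / τ) = 2 * C2 * R ^ 2 := by
      have e1 : R / τ = c * N * h * h / (Real.exp 1 * K.C0) := by
        rw [hR, hτ, hε]
        field_simp
      rw [e1, hR]
      rw [mul_div_assoc', div_eq_iff (by positivity)]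
      have e2 : 2 * C2 * (c * (N : ℝ) * h) ^ 2 * (Real.exp 1 * K.C0) =
          (c * (16 * Real.exp 1 * K.C0 * C2)) * (c * N ^ 2 * h ^ 2 / 8) := by ring
      rw [e2, hcden]
      ring
    have h3 : -L ≤ A1 - C2 * R ^ 2 := by
      rw [h2] at h1
      rw [hY] at h1
      linarith
    have hlogNh : Real.log 2 ≤ Real.log (N * h + 2) := by
      apply Real.log_le_log (by norm_num)
      have : 0 ≤ (N : ℝ) * h := by positivity
      linarith
    have h4 : 1 + Real.log (1 + R) ≤ C * Real.log (N * h + 2) := by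
      have e1 : Real.log (1 + R) ≤ Real.log (N * h + 2) := by
        apply Real.log_le_log (by linarith)
        have : c * ((N : ℝ) * h) ≤ 1 * ((N : ℝ) * h) :=
          mul_le_mul_of_nonneg_right hc1 (by positivity)
        rw [hR]
        linarith
      have e2 : 1 ≤ 2 * Real.log (N * h + 2) := by
        have := Real.log_two_gt_d9
        linarith
      have e3 : 3 * Real.log (N * h + 2) ≤ C * Real.log (N * h + 2) := by
        refine mul_le_mul_of_nonneg_right ?_ (by linarith)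
        rw [hC]; linarith
      linarith
    have h5 : A1 ≤ C * A * Real.log (N * h + 2) := by
      rw [hA1]
      calc A * (1 + Real.log (1 + R)) ≤ A * (C * Real.log (N * h + 2)) :=
            mul_le_mul_of_nonneg_left h4 hA
        _ = _ := by ring
    have h6 : (N : ℝ) ^ 2 * h ^ 2 / C ≤ C2 * R ^ 2 := by
      have e1 : 1 / (C2 * c ^ 2) ≤ C := by rw [hC]; linarith
      rw [div_le_iff₀ (by positivity)] at e1
      rw [div_le_iff₀ hCpos, hR]
      have e2 : C2 * (c * (N : ℝ) * h) ^ 2 * C = (C * (C2 * c ^ 2)) * ((N : ℝ) ^ 2 * h ^ 2) := by ring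
      rw [e2]
      have e3 : 1 * ((N : ℝ) ^ 2 * h ^ 2) ≤ (C * (C2 * c ^ 2)) * ((N : ℝ) ^ 2 * h ^ 2) :=
        mul_le_mul_of_nonneg_right e1 (by positivity)
      linarith
    have h7 : K.Nw F x ≤ Real.exp (-(N ^ 2 * h ^ 2 / C) + C * A * Real.log (N * h + 2)) := by
      refine (hM x hx).trans ?_
      rw [hML, Real.exp_le_exp]
      linarith
    have h8 : 0 ≤ η * Real.exp (C * N * Real.log (N + 2)) := by positivity
    linarith

theorem spread : ∃ C : ℝ, 1 ≤ C ∧ ∀ (F : (S → ℂ) → ℂ) (J : (S → ℕ) → ℂ) (A : ℝ), K.FDat F J A → 0 ≤ A →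
    ∀ (L r : ℝ), 0 ≤ L → 1 ≤ r → (∀ x ∈ K.V, K.Nw F x ≤ Real.exp (-L)) → ∀ x, ‖K.bb x‖ ≤ r →
      K.Nw F x ≤ Real.exp (-(L / 2) + C * A * Real.log (r + 2) + C * r ^ 2) := by
  obtain ⟨C2, hC2, H2⟩ := interp K
  refine ⟨4 * C2, by linarith, ?_⟩
  intro F J A hF hA L r hL hr hM x hx
  have hr0 : 0 < 2 * r := by linarith
  have hI := H2 F J A hF hA (2 * r) L (A * (1 + Real.log (1 + 2 * r))) hr0 hM
    (fun y hy ↦ by
      have := hF.gr y
      rw [hy] at this
      exact this) x (by linarith)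
  refine hI.trans ?_
  rw [Real.exp_le_exp]
  set t : ℝ := ‖K.bb x‖ / (2 * r) with ht
  have ht0 : 0 ≤ t := by rw [ht]; positivity
  have ht1 : t ≤ 1 / 2 := by
    rw [ht, div_le_iff₀ hr0]
    linarith
  have hlog : 1 ≤ Real.log (r + 2) := by
    rw [Real.le_log_iff_exp_le (by linarith)]
    have := Real.exp_one_lt_d9
    linarith
  have hlog2 : Real.log (1 + 2 * r) ≤ 2 * Real.log (r + 2) := by
    have h1 : 2 * Real.log (r + 2) = Real.log ((r + 2) ^ 2) := by
      rw [Real.log_pow]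
      push_cast
      ring
    rw [h1]
    apply Real.log_le_log (by linarith)
    nlinarith
  have hA1 : A * (1 + Real.log (1 + 2 * r)) ≤ 4 * C2 * A * Real.log (r + 2) := by
    calc A * (1 + Real.log (1 + 2 * r)) ≤ A * (4 * C2 * Real.log (r + 2)) := by
          refine mul_le_mul_of_nonneg_left ?_ hA
          have : 4 * Real.log (r + 2) ≤ 4 * C2 * Real.log (r + 2) :=
            mul_le_mul_of_nonneg_right (by linarith) (by linarith)
          linarith
      _ = _ := by ring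
  have hpos : 0 ≤ A * (1 + Real.log (1 + 2 * r)) + C2 * (2 * r) ^ 2 := by
    have h1 : 0 ≤ Real.log (1 + 2 * r) := Real.log_nonneg (by linarith)
    positivity
  have h2 : (A * (1 + Real.log (1 + 2 * r)) + C2 * (2 * r) ^ 2) * t ≤
      (A * (1 + Real.log (1 + 2 * r)) + C2 * (2 * r) ^ 2) * 1 :=
    mul_le_mul_of_nonneg_left (by linarith) hpos
  have h3 : L * t ≤ L * (1 / 2) := mul_le_mul_of_nonneg_left ht1 hL
  have h4 : C2 * (2 * r) ^ 2 = 4 * C2 * r ^ 2 := by ring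
  rw [h4] at h2 ⊢
  linarith

end AZ
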