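import Pool.Agent.H60.AZ.Ser1

/-!
# Row Ser (MP_ede373, all algebraic points): the power series of `FF`

PROOF. Fix `κ` and `x`. For `m : ι → ℤ`, `n : S → ℕ` let
`g m n = am m * ∏_s (cf (κ s) (n s) (bs m s) (m*_s) * x s ^ n s)`. By `prod_hasSum`, `cf_hasSum`, `tm_eq`: `HasSum (g m) (tm m x * mon κ m x)`,
and `∑'_n ‖g m n‖ ≤ ‖am m‖ ∏_s exp(2π ‖bs m s‖ ‖x s‖) (‖x s‖ + ‖m*_s‖)^κ_s ≤ ‖am m‖ exp(A ∑|m_j|) (C (1 + ∑ |m_j|))^n0`, which is summable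
over `m` by `norm_am` and `gauss_lin` (`‖bs m s‖ ≤ C ∑ |m_j|`, `‖m*_s‖ ≤ C ∑ |m_j|`). So `g` is (norm-)summable on
`(ι → ℤ) × (S → ℕ)` (`summable_prod_of_nonneg`), and the two iterated sums agree (`HasSum.prod_fiberwise`, `Summable.tsum_comm`):
`∑_n (∑_m g m n) = ∑_m tm m x mon κ m x = Phi κ x`, where `∑_m g m n = jc κ n * ∏ x s ^ n s` (`tsum_mul_right`). Finally sum over `κ`
(finite, `hasSum_sum`).
-/

set_option autoImplicit false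

namespace AZ

open Complex Finset

variable {S ι : Type} [Fintype S] [DecidableEq S] [Fintype ι] [DecidableEq ι] (K : KD S ι)

/-- The terms of the double series. -/
private noncomputable def Ser_g (c0 : ℂ) (κ : S → ℕ) (x : S → ℂ) (m : ι → ℤ) (n : S → ℕ) : ℂ :=
  K.am c0 m * ∏ s, (KD.cf (κ s) (n s) (K.bs (fun j ↦ (m j : ℂ)) s)
    (K.st (fun j ↦ (m j : ℂ)) s) * x s ^ n s)

private theorem Ser_eq (c0 : ℂ) (κ : S → ℕ) (x : S → ℂ) (m : ι → ℤ) (n : S → ℕ) :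
    Ser_g K c0 κ x m n = (K.am c0 m * ∏ s, KD.cf (κ s) (n s) (K.bs (fun j ↦ (m j : ℂ)) s)
      (K.st (fun j ↦ (m j : ℂ)) s)) * ∏ s, x s ^ n s := by
  rw [Ser_g, Finset.prod_mul_distrib, mul_assoc]

private theorem Ser_hs (c0 : ℂ) (κ : S → ℕ) (x : S → ℂ) (m : ι → ℤ) :
    HasSum (fun n : S → ℕ ↦ Ser_g K c0 κ x m n) (K.tm c0 m x * K.mon κ m x) := by
  have h := (prod_hasSum (S := S) (fun s (n : ℕ) ↦ KD.cf (κ s) n (K.bs (fun j ↦ (m j : ℂ)) s)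
    (K.st (fun j ↦ (m j : ℂ)) s) * x s ^ n) (fun s ↦ (cf_norm _ _ _ _).1)).2.1
  have h2 := h.mul_left (K.am c0 m)
  rw [tm_eq]
  simp only [(cf_hasSum _ _ _ _).tsum_eq] at h2
  exact h2

private theorem Ser_nsum (c0 : ℂ) (κ : S → ℕ) (x : S → ℂ) (m : ι → ℤ) :
    (Summable fun n : S → ℕ ↦ ‖Ser_g K c0 κ x m n‖) ∧
    ∑' n : S → ℕ, ‖Ser_g K c0 κ x m n‖ ≤ ‖K.am c0 m‖ * ∏ s,
      (Real.exp (2 * Real.pi * ‖K.bs (fun j ↦ (m j : ℂ)) s‖ * ‖x s‖) *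
        (‖x s‖ + ‖K.st (fun j ↦ (m j : ℂ)) s‖) ^ κ s) := by
  have h := (prod_hasSum (S := S) (fun s (n : ℕ) ↦ KD.cf (κ s) n (K.bs (fun j ↦ (m j : ℂ)) s)
    (K.st (fun j ↦ (m j : ℂ)) s) * x s ^ n) (fun s ↦ (cf_norm _ _ _ _).1))
  have he : ∀ n : S → ℕ, ‖Ser_g K c0 κ x m n‖ = ‖K.am c0 m‖ *
      ‖∏ s, (KD.cf (κ s) (n s) (K.bs (fun j ↦ (m j : ℂ)) s)
        (K.st (fun j ↦ (m j : ℂ)) s) * x s ^ n s)‖ := fun n ↦ norm_mul _ _
  constructor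
  · simp only [he]
    exact h.1.mul_left _
  · simp only [he]
    rw [tsum_mul_left, h.2.2]
    apply mul_le_mul_of_nonneg_left _ (norm_nonneg _)
    apply Finset.prod_le_prod
    · intro s _
      exact tsum_nonneg fun n ↦ norm_nonneg _
    · intro s _
      exact (cf_norm _ _ _ _).2

private theorem Ser_bs : ∃ C : ℝ, 0 ≤ C ∧ ∀ (m : ι → ℤ) (s : S),
    ‖K.bs (fun j ↦ (m j : ℂ)) s‖ ≤ C * ∑ j, |(m j : ℝ)| := by
  refine ⟨∑ s, ∑ j, ‖K.z - K.ze s‖ * ‖K.nu j s‖, ?_, ?_⟩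
  · exact Finset.sum_nonneg fun s _ ↦ Finset.sum_nonneg fun j _ ↦ by positivity
  · intro m s
    rw [KD.bs, norm_mul, Finset.mul_sum]
    calc ‖K.z - K.ze s‖ * ‖∑ j, (m j : ℂ) * K.nu j s‖
        ≤ ‖K.z - K.ze s‖ * ∑ j, ‖(m j : ℂ) * K.nu j s‖ :=
          mul_le_mul_of_nonneg_left (norm_sum_le _ _) (norm_nonneg _)
      _ = ∑ j, ‖K.z - K.ze s‖ * ‖K.nu j s‖ * |(m j : ℝ)| := by
          rw [Finset.mul_sum]
          apply Finset.sum_congr rfl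
          intro j _
          rw [norm_mul, Complex.norm_intCast]
          ring
      _ ≤ ∑ j, (∑ s, ∑ j, ‖K.z - K.ze s‖ * ‖K.nu j s‖) * |(m j : ℝ)| := by
          apply Finset.sum_le_sum
          intro j _
          apply mul_le_mul_of_nonneg_right _ (abs_nonneg _)
          calc ‖K.z - K.ze s‖ * ‖K.nu j s‖
              ≤ ∑ j, ‖K.z - K.ze s‖ * ‖K.nu j s‖ :=
                Finset.single_le_sum (f := fun j ↦ ‖K.z - K.ze s‖ * ‖K.nu j s‖)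
                  (fun j _ ↦ by positivity) (Finset.mem_univ j)
            _ ≤ ∑ s, ∑ j, ‖K.z - K.ze s‖ * ‖K.nu j s‖ :=
                Finset.single_le_sum (f := fun s ↦ ∑ j, ‖K.z - K.ze s‖ * ‖K.nu j s‖)
                  (fun s _ ↦ Finset.sum_nonneg fun j _ ↦ by positivity) (Finset.mem_univ s)

private theorem Ser_sm (c0 : ℂ) (κ : S → ℕ) (x : S → ℂ) :
    Summable fun m : ι → ℤ ↦ ∑' n : S → ℕ, ‖Ser_g K c0 κ x m n‖ := by
  obtain ⟨Cb, hCb, hb⟩ := Ser_bs K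
  obtain ⟨Cs, hCs, hs⟩ := st_le K
  set A0 : ℝ := 2 * Real.pi * Cb * ‖x‖ with hA0
  set D : ℝ := 1 + ‖x‖ + Cs with hD
  have hD0 : 0 ≤ D := by
    have := norm_nonneg x
    rw [hD]
    linarith
  have hg := (gauss_lin (ι := ι) K.hz (Fintype.card S * A0) (∑ s, κ s)).mul_left
    (‖c0‖ ^ Fintype.card ι * D ^ ∑ s, κ s)
  refine Summable.of_nonneg_of_le (fun m ↦ tsum_nonneg fun n ↦ norm_nonneg _) ?_ hg
  intro m
  refine (Ser_nsum K c0 κ x m).2.trans ?_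
  rw [norm_am]
  set t : ℝ := ∑ j, |(m j : ℝ)| with ht
  have ht0 : 0 ≤ t := Finset.sum_nonneg fun j _ ↦ abs_nonneg _
  have hprod : ∏ s, (Real.exp (2 * Real.pi * ‖K.bs (fun j ↦ (m j : ℂ)) s‖ * ‖x s‖) *
        (‖x s‖ + ‖K.st (fun j ↦ (m j : ℂ)) s‖) ^ κ s) ≤
      ∏ s, (Real.exp (A0 * t) * (D * (1 + t)) ^ κ s) := by
    apply Finset.prod_le_prod
    · intro s _
      positivity
    · intro s _
      have hx := norm_le_pi_norm x s
      have h1 := hb m s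
      have h2 := hs (fun j ↦ (m j : ℂ)) s
      simp only [Complex.norm_intCast] at h2
      apply mul_le_mul
      · apply Real.exp_le_exp.2
        calc 2 * Real.pi * ‖K.bs (fun j ↦ (m j : ℂ)) s‖ * ‖x s‖
            ≤ 2 * Real.pi * (Cb * t) * ‖x‖ := by
              apply mul_le_mul _ hx (norm_nonneg _) (by positivity)
              exact mul_le_mul_of_nonneg_left h1 (by positivity)
          _ = A0 * t := by rw [hA0]; ring
      · apply pow_le_pow_left₀ (by positivity)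
        calc ‖x s‖ + ‖K.st (fun j ↦ (m j : ℂ)) s‖ ≤ ‖x‖ + Cs * t := add_le_add hx h2
          _ ≤ D * (1 + t) := by
            rw [hD]
            have := norm_nonneg x
            nlinarith [mul_nonneg this ht0]
      · positivity
      · positivity
  have hpe : ∏ s, (Real.exp (A0 * t) * (D * (1 + t)) ^ κ s) =
      Real.exp (Fintype.card S * A0 * t) * (D ^ (∑ s, κ s) * (1 + t) ^ ∑ s, κ s) := by
    rw [Finset.prod_mul_distrib, Finset.prod_const, Finset.card_univ, ← Real.exp_nat_mul,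
      Finset.prod_pow_eq_pow_sum, mul_pow]
    congr 2
    ring
  calc ‖c0‖ ^ Fintype.card ι * Real.exp (-(Real.pi * K.z.im * ∑ j, (m j : ℝ) ^ 2)) * _
      ≤ ‖c0‖ ^ Fintype.card ι * Real.exp (-(Real.pi * K.z.im * ∑ j, (m j : ℝ) ^ 2)) *
        ∏ s, (Real.exp (A0 * t) * (D * (1 + t)) ^ κ s) :=
        mul_le_mul_of_nonneg_left hprod (by positivity)
    _ = _ := by
        rw [hpe]
        ring

private theorem Ser_phi (c0 : ℂ) (κ : S → ℕ) (x : S → ℂ) :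
    HasSum (fun n : S → ℕ ↦ K.jc c0 κ n * ∏ s, x s ^ n s) (K.Phi c0 κ x) := by
  have hsn : Summable fun p : (ι → ℤ) × (S → ℕ) ↦ ‖Ser_g K c0 κ x p.1 p.2‖ :=
    (summable_prod_of_nonneg (fun p ↦ norm_nonneg _)).2
      ⟨fun m ↦ (Ser_nsum K c0 κ x m).1, Ser_sm K c0 κ x⟩
  have hsum : Summable fun p : (ι → ℤ) × (S → ℕ) ↦ Ser_g K c0 κ x p.1 p.2 := hsn.of_norm
  have htot : HasSum (fun p : (ι → ℤ) × (S → ℕ) ↦ Ser_g K c0 κ x p.1 p.2) (K.Phi c0 κ x) := by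
    have h1 := hsum.hasSum
    have h2 : HasSum (fun m : ι → ℤ ↦ K.tm c0 m x * K.mon κ m x)
        (∑' p : (ι → ℤ) × (S → ℕ), Ser_g K c0 κ x p.1 p.2) :=
      h1.prod_fiberwise fun m ↦ Ser_hs K c0 κ x m
    rw [KD.Phi, h2.tsum_eq]
    exact h1
  have hsw : HasSum (fun p : (S → ℕ) × (ι → ℤ) ↦ Ser_g K c0 κ x p.2 p.1) (K.Phi c0 κ x) :=
    (Equiv.prodComm (S → ℕ) (ι → ℤ)).hasSum_iff.2 htot
  refine hsw.prod_fiberwise fun n ↦ ?_
  have hsm : Summable fun m : ι → ℤ ↦ Ser_g K c0 κ x m n := hsw.summable.prod_factor n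
  have he : ∑' m : ι → ℤ, Ser_g K c0 κ x m n = K.jc c0 κ n * ∏ s, x s ^ n s := by
    simp only [Ser_eq]
    rw [tsum_mul_right, KD.jc]
  rw [← he]
  exact hsm.hasSum

theorem ser (c0 : ℂ) (Q : ℕ) (c : (S → Fin (Q + 1)) → ℂ) (x : S → ℂ) :
    HasSum (fun n : S → ℕ ↦ K.JJ c0 Q c n * ∏ s, x s ^ n s) (K.FF c0 Q c x) := by
  have h := hasSum_sum (s := (Finset.univ : Finset (S → Fin (Q + 1))))
    (f := fun κ (n : S → ℕ) ↦ c κ * (K.jc c0 (fun s ↦ (κ s : ℕ)) n * ∏ s, x s ^ n s))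
    (a := fun κ ↦ c κ * K.Phi c0 (fun s ↦ (κ s : ℕ)) x)
    (fun κ _ ↦ (Ser_phi K c0 (fun s ↦ (κ s : ℕ)) x).mul_left (c κ))
  have he : (fun n : S → ℕ ↦ K.JJ c0 Q c n * ∏ s, x s ^ n s) =
      fun n ↦ ∑ κ : S → Fin (Q + 1), c κ * (K.jc c0 (fun s ↦ (κ s : ℕ)) n * ∏ s, x s ^ n s) := by
    funext n
    rw [KD.JJ, Finset.sum_mul]
    apply Finset.sum_congr rfl
    intro κ _
    ring
  rw [he, KD.FF]
  exact h

end AZ
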