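import Pool.Agent.H60.AZ.Ub

/-!
# Row Ser1 (MP_ede373, all algebraic points): power series of the terms

PROOF.
* `cf_hasSum`: `exp(2πi b x) = ∑ (2πi b x)^n/n!` and `(x + α)^κ = ∑_{i ≤ κ} binom(κ,i) x^i α^(κ-i)`; Cauchy product
  (`tsum_mul_tsum_eq_tsum_sum_range`-type; `binom(κ,i) = 0` for `i > κ`): the coefficient of `x^n` is `cf κ n b α`.
* `cf_norm`: `‖cf κ n b α‖ ≤ ∑_{i ≤ n} binom(κ,i) ‖α‖^(κ-i) (2π‖b‖)^(n-i)/(n-i)!`; summing against `r^n` (all terms nonnegative,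
  the same Cauchy product) gives `exp(2π‖b‖ r) (r + ‖α‖)^κ`: so every partial sum is bounded by it.
* `term_hasSum`: product over `s : S` of absolutely convergent series: for a finite index type `S`,
  `∏_s ∑_n f s n = ∑_{n : S → ℕ} ∏_s f s (n s)` with absolute convergence (a lemma for finite products: Mathlib may have
  `HasSum`/`tsum` over pi types, e.g. `Summable.tsum_pi..`/`hasSum_pi_prod`; else induction on the finite set of indices, using
  `Summable.mul_of_nonneg`, or use `prod_hasSum` of this file). `tm m x * mon κ m x = am m * ∏_s exp(2πi bs m s x s) (x s + m*_s)^κ_s`,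
  since `∑_j m_j u_j(x) = ∑_s bs m s * x s`.
-/

set_option autoImplicit false

namespace AZ

open Complex Finset

variable {S ι : Type} [Fintype S] [DecidableEq S] [Fintype ι] [DecidableEq ι] (K : KD S ι)

/-- the statement for an index type -/
def Ser1_P (α A : Type) [Fintype A] : Prop := ∀ f : A → α → ℂ,
    (∀ s, Summable fun n ↦ ‖f s n‖) →
    (Summable fun n : A → α ↦ ‖∏ s, f s (n s)‖) ∧
      HasSum (fun n : A → α ↦ ∏ s, f s (n s)) (∏ s, ∑' n, f s n) ∧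
      ∑' n : A → α, ‖∏ s, f s (n s)‖ = ∏ s, ∑' n, ‖f s n‖

theorem Ser1_equiv {α A B : Type} [Fintype A] [Fintype B] (e : A ≃ B) (h : Ser1_P α A) :
    Ser1_P α B := by
  intro f hf
  obtain ⟨h1, h2, h3⟩ := h (fun a ↦ f (e a)) (fun a ↦ hf (e a))
  have key : ∀ n : B → α, ∏ s, f s (n s) = ∏ a, f (e a) (n (e a)) := fun n ↦
    (Fintype.prod_equiv e (fun a ↦ f (e a) (n (e a))) (fun s ↦ f s (n s)) (fun a ↦ rfl)).symm
  have g3 : ∏ s, ∑' n, f s n = ∏ a, ∑' n, f (e a) n :=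
    (Fintype.prod_equiv e (fun a ↦ ∑' n, f (e a) n) (fun s ↦ ∑' n, f s n) (fun a ↦ rfl)).symm
  have g4 : ∏ s, ∑' n, ‖f s n‖ = ∏ a, ∑' n, ‖f (e a) n‖ :=
    (Fintype.prod_equiv e (fun a ↦ ∑' n, ‖f (e a) n‖) (fun s ↦ ∑' n, ‖f s n‖) (fun a ↦ rfl)).symm
  have hE : Function.Bijective (fun (n : B → α) (a : A) ↦ n (e a)) :=
    ⟨fun n n' hn ↦ by
      funext b
      have := congrFun hn (e.symm b)
      simpa using this, fun n ↦ ⟨fun b ↦ n (e.symm b), by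
      funext a
      simp⟩⟩
  have k1 := (Equiv.ofBijective _ hE).summable_iff.mpr h1
  have k2 := (Equiv.ofBijective _ hE).hasSum_iff.mpr h2
  have k3 := (Equiv.ofBijective _ hE).tsum_eq (fun n : A → α ↦ ‖∏ a, f (e a) (n a)‖)
  have m1 : (fun n : B → α ↦ ∏ s, f s (n s)) = fun n : B → α ↦ ∏ a, f (e a) (n (e a)) :=
    funext key
  have m2 : (fun n : B → α ↦ ‖∏ s, f s (n s)‖) = fun n : B → α ↦ ‖∏ a, f (e a) (n (e a))‖ := by
    funext n
    rw [key n]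
  rw [m1, m2, g3, g4]
  exact ⟨k1, k2, k3.trans h3⟩

theorem Ser1_mulsum {A B : Type} (f : A → ℂ) (g : B → ℂ) (hf : Summable fun a ↦ ‖f a‖)
    (hg : Summable fun a ↦ ‖g a‖) : Summable (fun p : A × B ↦ f p.1 * g p.2) :=
  summable_mul_of_summable_norm hf hg

theorem Ser1_mulhas {A B : Type} (f : A → ℂ) (g : B → ℂ) {a b : ℂ} (hf : HasSum f a)
    (hg : HasSum g b) (h : Summable (fun p : A × B ↦ f p.1 * g p.2)) :
    HasSum (fun p : A × B ↦ f p.1 * g p.2) (a * b) := hf.mul hg h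

theorem Ser1_fin {α : Type} (k : ℕ) : Ser1_P α (Fin k) := by
  induction k with
  | zero =>
    intro f hf
    refine ⟨(hasSum_fintype _).summable, ?_, ?_⟩
    · have := hasSum_fintype (fun n : Fin 0 → α ↦ ∏ s, f s (n s))
      simpa using this
    · rw [tsum_fintype]
      simp
  | succ k ih =>
    intro f hf
    obtain ⟨h1, h2, h3⟩ := ih (fun a ↦ f a.succ) (fun a ↦ hf a.succ)
    have h0 := hf 0
    have hs : Summable (fun p : α × (Fin k → α) ↦ ‖f 0 p.1‖ * ‖∏ a, f a.succ (p.2 a)‖) :=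
      h0.mul_of_nonneg h1 (fun _ ↦ norm_nonneg _) (fun _ ↦ norm_nonneg _)
    have h1' : (Summable fun n : Fin k → α ↦ ‖∏ s : Fin k, f s.succ (n s)‖) := h1
    have h2' : HasSum (fun n : Fin k → α ↦ ∏ a : Fin k, f a.succ (n a))
        (∏ a : Fin k, ∑' n, f a.succ n) := h2
    have hsm := Ser1_mulsum (f 0) (fun p : Fin k → α ↦ ∏ a : Fin k, f a.succ (p a)) h0 h1'
    have h00 : HasSum (f 0) (∑' n, f 0 n) := h0.of_norm.hasSum
    have hc := Ser1_mulhas (f 0) (fun p : Fin k → α ↦ ∏ a : Fin k, f a.succ (p a)) h00 h2' hsm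
    have hE : Function.Bijective (fun (n : Fin (k + 1) → α) ↦ (n 0, fun a : Fin k ↦ n a.succ)) :=
      ⟨fun n n' hn ↦ by
        have e1 := (Prod.mk.inj hn).1
        have e2 := (Prod.mk.inj hn).2
        funext b
        refine Fin.cases e1 (fun a ↦ congrFun e2 a) b, fun p ↦ ⟨Fin.cons p.1 p.2, by
        ext a <;> simp⟩⟩
    have k1 := (Equiv.ofBijective _ hE).summable_iff.mpr hs
    have k2 := (Equiv.ofBijective _ hE).hasSum_iff.mpr hc
    have k3 := (Equiv.ofBijective _ hE).tsum_eq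
      (fun p : α × (Fin k → α) ↦ ‖f 0 p.1‖ * ‖∏ a, f a.succ (p.2 a)‖)
    have m1 : (fun n : Fin (k + 1) → α ↦ ∏ s, f s (n s)) =
        fun n ↦ f 0 (n 0) * ∏ a : Fin k, f a.succ (n a.succ) := by
      funext n
      rw [Fin.prod_univ_succ]
    have m2 : (fun n : Fin (k + 1) → α ↦ ‖∏ s, f s (n s)‖) =
        fun n ↦ ‖f 0 (n 0)‖ * ‖∏ a : Fin k, f a.succ (n a.succ)‖ := by
      funext n
      rw [Fin.prod_univ_succ, norm_mul]
    rw [m1, m2, Fin.prod_univ_succ, Fin.prod_univ_succ]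
    refine ⟨k1, k2, ?_⟩
    rw [← h3, h0.tsum_mul_tsum h1 hs]
    exact k3

theorem Ser1_prod_aux {α : Type} (S' : Type) [Fintype S'] : Ser1_P α S' :=
  Ser1_equiv (Fintype.equivFin S').symm (Ser1_fin _)

/-- Products of absolutely convergent series. -/
theorem prod_hasSum {α : Type} [Countable α] (f : S → α → ℂ) (hf : ∀ s, Summable fun n ↦ ‖f s n‖) :
    (Summable fun n : S → α ↦ ‖∏ s, f s (n s)‖) ∧
      HasSum (fun n : S → α ↦ ∏ s, f s (n s)) (∏ s, ∑' n, f s n) ∧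
      ∑' n : S → α, ‖∏ s, f s (n s)‖ = ∏ s, ∑' n, ‖f s n‖ :=
  Ser1_prod_aux S f hf

/-- the binomial terms -/
noncomputable def Ser1_F (κ : ℕ) (α x : ℂ) (i : ℕ) : ℂ := (κ.choose i : ℂ) * α ^ (κ - i) * x ^ i

/-- the exponential terms -/
noncomputable def Ser1_G (b x : ℂ) (n : ℕ) : ℂ :=
  (2 * Real.pi * I * b) ^ n / (n.factorial : ℂ) * x ^ n

theorem Ser1_cf (κ : ℕ) (b α x : ℂ) (n : ℕ) : KD.cf κ n b α * x ^ n =
    ∑ i ∈ range (n + 1), Ser1_F κ α x i * Ser1_G b x (n - i) := by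
  unfold KD.cf Ser1_F Ser1_G
  rw [Finset.sum_mul]
  apply Finset.sum_congr rfl
  intro i hi
  have hi' : i ≤ n := Nat.lt_succ_iff.mp (mem_range.mp hi)
  have : x ^ n = x ^ i * x ^ (n - i) := by rw [← pow_add, Nat.add_sub_cancel' hi']
  rw [this]
  ring

theorem Ser1_hF (κ : ℕ) (α x : ℂ) : HasSum (Ser1_F κ α x) ((x + α) ^ κ) := by
  have h : (x + α) ^ κ = ∑ i ∈ range (κ + 1), Ser1_F κ α x i := by
    rw [add_pow]
    apply Finset.sum_congr rfl
    intro i _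
    unfold Ser1_F
    ring
  rw [h]
  apply hasSum_sum_of_ne_finset_zero
  intro i hi
  unfold Ser1_F
  rw [Nat.choose_eq_zero_of_lt (by simpa using hi)]
  simp

theorem Ser1_hFn (κ : ℕ) (α x : ℂ) : HasSum (fun i ↦ ‖Ser1_F κ α x i‖) ((‖x‖ + ‖α‖) ^ κ) := by
  have h : (‖x‖ + ‖α‖) ^ κ = ∑ i ∈ range (κ + 1), ‖Ser1_F κ α x i‖ := by
    rw [add_pow]
    apply Finset.sum_congr rfl
    intro i _
    unfold Ser1_F
    rw [norm_mul, norm_mul, norm_pow, norm_pow, Complex.norm_natCast]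
    ring
  rw [h]
  apply hasSum_sum_of_ne_finset_zero
  intro i hi
  unfold Ser1_F
  rw [Nat.choose_eq_zero_of_lt (by simpa using hi)]
  simp

theorem Ser1_G_eq (b x : ℂ) (n : ℕ) :
    Ser1_G b x n = (2 * Real.pi * I * b * x) ^ n / (n.factorial : ℂ) := by
  unfold Ser1_G
  rw [mul_pow (2 * Real.pi * I * b) x n]
  ring

theorem Ser1_hG (b x : ℂ) : HasSum (Ser1_G b x) (exp (2 * Real.pi * I * b * x)) := by
  have h := NormedSpace.expSeries_div_hasSum_exp (2 * Real.pi * I * b * x : ℂ)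
  rw [← Complex.exp_eq_exp_ℂ] at h
  have e : Ser1_G b x = fun n ↦ (2 * Real.pi * I * b * x) ^ n / (n.factorial : ℂ) := by
    funext n
    exact Ser1_G_eq b x n
  rw [e]
  exact h

theorem Ser1_hGn (b x : ℂ) : HasSum (fun n ↦ ‖Ser1_G b x n‖)
    (Real.exp (2 * Real.pi * ‖b‖ * ‖x‖)) := by
  have h := NormedSpace.expSeries_div_hasSum_exp (2 * Real.pi * ‖b‖ * ‖x‖ : ℝ)
  rw [← Real.exp_eq_exp_ℝ] at h
  have e : (fun n ↦ ‖Ser1_G b x n‖) = fun n ↦ (2 * Real.pi * ‖b‖ * ‖x‖) ^ n / (n.factorial : ℝ) := by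
    funext n
    rw [Ser1_G_eq, norm_div, norm_pow, Complex.norm_natCast]
    congr 2
    rw [norm_mul, norm_mul, norm_mul, norm_mul, Complex.norm_I, Complex.norm_real]
    simp [abs_of_pos Real.pi_pos]
  rw [e]
  exact h

theorem cf_hasSum (κ : ℕ) (b α x : ℂ) :
    HasSum (fun n : ℕ ↦ KD.cf κ n b α * x ^ n) (exp (2 * Real.pi * I * b * x) * (x + α) ^ κ) := by
  have h := hasSum_sum_range_mul_of_summable_norm (Ser1_hFn κ α x).summable
    (Ser1_hGn b x).summable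
  rw [(Ser1_hF κ α x).tsum_eq, (Ser1_hG b x).tsum_eq] at h
  have e : (fun n : ℕ ↦ KD.cf κ n b α * x ^ n) =
      fun n ↦ ∑ i ∈ range (n + 1), Ser1_F κ α x i * Ser1_G b x (n - i) := by
    funext n
    exact Ser1_cf κ b α x n
  rw [e, mul_comm (exp _)]
  exact h

theorem cf_norm (κ : ℕ) (b α x : ℂ) : Summable (fun n : ℕ ↦ ‖KD.cf κ n b α * x ^ n‖) ∧
    ∑' n : ℕ, ‖KD.cf κ n b α * x ^ n‖ ≤ Real.exp (2 * Real.pi * ‖b‖ * ‖x‖) * (‖x‖ + ‖α‖) ^ κ := by
  have hF := (Ser1_hFn κ α x)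
  have hG := (Ser1_hGn b x)
  have hF' : Summable (fun i ↦ ‖‖Ser1_F κ α x i‖‖) := by simpa using hF.summable
  have hG' : Summable (fun i ↦ ‖‖Ser1_G b x i‖‖) := by simpa using hG.summable
  have h := hasSum_sum_range_mul_of_summable_norm hF' hG'
  rw [hF.tsum_eq, hG.tsum_eq] at h
  have hle : ∀ n, ‖KD.cf κ n b α * x ^ n‖ ≤
      ∑ i ∈ range (n + 1), ‖Ser1_F κ α x i‖ * ‖Ser1_G b x (n - i)‖ := by
    intro n
    rw [Ser1_cf]
    refine (norm_sum_le _ _).trans (le_of_eq ?_)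
    exact Finset.sum_congr rfl (fun i _ ↦ norm_mul _ _)
  have hs : Summable (fun n : ℕ ↦ ‖KD.cf κ n b α * x ^ n‖) :=
    Summable.of_nonneg_of_le (fun n ↦ norm_nonneg _) hle h.summable
  refine ⟨hs, ?_⟩
  calc ∑' n : ℕ, ‖KD.cf κ n b α * x ^ n‖
      ≤ ∑' n, ∑ i ∈ range (n + 1), ‖Ser1_F κ α x i‖ * ‖Ser1_G b x (n - i)‖ :=
        hs.tsum_le_tsum hle h.summable
    _ = (‖x‖ + ‖α‖) ^ κ * Real.exp (2 * Real.pi * ‖b‖ * ‖x‖) := h.tsum_eq
    _ = Real.exp (2 * Real.pi * ‖b‖ * ‖x‖) * (‖x‖ + ‖α‖) ^ κ := mul_comm _ _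

theorem tm_eq (c0 : ℂ) (κ : S → ℕ) (m : ι → ℤ) (x : S → ℂ) :
    K.tm c0 m x * K.mon κ m x = K.am c0 m * ∏ s,
      (exp (2 * Real.pi * I * K.bs (fun j ↦ (m j : ℂ)) s * x s) *
        (x s + K.st (fun j ↦ (m j : ℂ)) s) ^ κ s) := by
  unfold KD.tm KD.mon
  rw [Finset.prod_mul_distrib, ← Complex.exp_sum]
  have e : 2 * Real.pi * I * ∑ j, (m j : ℂ) * K.u j x =
      ∑ s, 2 * Real.pi * I * K.bs (fun j ↦ (m j : ℂ)) s * x s := by
    unfold KD.u KD.bs
    rw [Finset.mul_sum]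
    simp_rw [Finset.mul_sum, Finset.sum_mul]
    rw [Finset.sum_comm]
    apply Finset.sum_congr rfl
    intro s _
    apply Finset.sum_congr rfl
    intro j _
    ring
  rw [e]
  ring

end AZ
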