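import Pool.Agent.H60.AZ.Pm
import Pool.Agent.H60.AZ.Qp
import Pool.Agent.H60.AZ.Ser
import Pool.Agent.H60.AZ.Cau
import Pool.Agent.H60.AZ.Sch

/-!
# Row Su (MP_ede373, all algebraic points): decay of all jets if the first ones vanish

PROOF. `fdat`: `FF` with `‖c κ‖ ≤ 1` satisfies `FDat` with `J = JJ c0 Q c` (`ser`), `invariant`, `growth`: `A = C (Q+1) log(Q+2)`.
`su`: `k = card S - 1`, `A' = Ak k`, `Q = M^(k A')`, `h = M^(A'-1)`, `N = ⌈Q/2⌉`-ish: `N := (Q+1)/2` (natural division; `n s` with `∑ n s < N` satisfy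
`2 ∑ n s < Q + 1`, i.e. `2 ∑ n s ≤ Q`.. take `N := Q/2`, then `∑ n s < N` implies `2 ∑ n s < Q`; `N ≥ Q/4`). `h^k = M^(kA' - k) ≤ Q/M`, so `C h^k ≤ N` for
`M` large. `schwarz` with `η = 0`: for `x ∈ V`:
`Nw ≤ exp(-N² h²/C + C A log(N h + 2)) ≤ exp(-M^(2 k A' + 2 A' - 2)/(16 C) + M^(kA'+2)) ≤ exp(-2 M^(2(k+1)A' - 3))` (`M` large: `log` terms
`≤ M`, `kA' + 2 < 2(k+1)A' - 3`). `spread` with `L = 2 M^(2(k+1)A'-3)`, `r = 1`: for `‖x s‖ = 1` (so `‖bb x‖ ≤ ‖x‖ ≤ 1`):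
`Nw x ≤ exp(-M^(2(k+1)A'-3) + C A log 3 + C)`, `‖FF x‖ = Nw x e^{q x} ≤ exp(.. + C)` (`q_le`), which is `≤ exp(-M^(2(k+1)A'-4))`. `cauchy_est`.
-/

set_option autoImplicit false

namespace AZ

open Complex Finset

variable {S ι : Type} [Fintype S] [DecidableEq S] [Fintype ι] [DecidableEq ι] (K : KD S ι)

private theorem Su_log {m : ℝ} (hm : 3 ≤ m) (n : ℕ) {y : ℝ} (hy0 : 0 < y) (hy : y ≤ m ^ n + 2) :
    Real.log y ≤ (n + 1) * m := by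
  have h1 : (1 : ℝ) ≤ m ^ n := one_le_pow₀ (by linarith)
  have h2 : y ≤ m ^ (n + 1) := by
    rw [pow_succ]
    nlinarith
  have h3 : Real.log y ≤ Real.log (m ^ (n + 1)) := Real.log_le_log hy0 h2
  rw [Real.log_pow] at h3
  have h4 : Real.log m ≤ m := Real.log_le_self (by linarith)
  have h5 : ((n + 1 : ℕ) : ℝ) * Real.log m ≤ (n + 1) * m := by
    push_cast
    exact mul_le_mul_of_nonneg_left h4 (by positivity)
  exact h3.trans h5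

private theorem Su_eg (k : ℕ) : 2 * eQ k + 2 * (Ak k - 1) = eg k + 3 := by
  unfold eQ eg Ak
  have h1 : 2 * (k + 1) * (10 * k + 30) = 2 * (k * (10 * k + 30)) + 2 * (10 * k + 30) := by ring
  rw [h1]
  omega

private theorem Su_eg2 (k : ℕ) : eQ k + 3 ≤ eg k + 1 := by
  have h := Su_eg k
  unfold Ak at h
  omega

private theorem Su_num (k : ℕ) (C1 C2 C3 C4 : ℝ) (h1 : 1 ≤ C1) (h2 : 1 ≤ C2) (h3 : 1 ≤ C3)
    (h4 : 1 ≤ C4) (hk : 1 ≤ k) : ∃ M0 : ℕ, ∀ M : ℕ, M0 ≤ M →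
      1 ≤ (M : ℝ) ^ (Ak k - 1) ∧
      C2 * ((M : ℝ) ^ (Ak k - 1)) ^ k ≤ ((M ^ eQ k / 2 : ℕ) : ℝ) ∧
      -(((M ^ eQ k / 2 : ℕ) : ℝ) ^ 2 * ((M : ℝ) ^ (Ak k - 1)) ^ 2 / C2) +
        C2 * (C1 * (((M ^ eQ k : ℕ) : ℝ) + 1) * Real.log (((M ^ eQ k : ℕ) : ℝ) + 2)) *
          Real.log (((M ^ eQ k / 2 : ℕ) : ℝ) * (M : ℝ) ^ (Ak k - 1) + 2) ≤
        -(2 * (M : ℝ) ^ (eg k + 2)) ∧
      -((2 * (M : ℝ) ^ (eg k + 2)) / 2) +
        C3 * (C1 * (((M ^ eQ k : ℕ) : ℝ) + 1) * Real.log (((M ^ eQ k : ℕ) : ℝ) + 2)) *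
          Real.log (1 + 2) + C3 * 1 ^ 2 + C4 ≤ -(M : ℝ) ^ (eg k + 1) ∧
      0 ≤ C1 * (((M ^ eQ k : ℕ) : ℝ) + 1) * Real.log (((M ^ eQ k : ℕ) : ℝ) + 2) := by
  obtain ⟨M0, hM0⟩ := exists_nat_ge (3 + 48 * C2 + 2 * C1 * C2 * (eQ k + 1) * (eQ k + Ak k) +
    4 * C1 * C3 * (eQ k + 1) + (C3 + C4))
  refine ⟨M0, fun M hM => ?_⟩
  have hM' : (M0 : ℝ) ≤ M := by exact_mod_cast hM
  have p1 : 0 ≤ 2 * C1 * C2 * (eQ k + 1) * (eQ k + Ak k) := by positivity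
  have p2 : 0 ≤ 4 * C1 * C3 * (eQ k + 1) := by positivity
  obtain ⟨m, hm⟩ : ∃ m : ℝ, m = M := ⟨_, rfl⟩
  rw [← hm] at hM'
  have m3 : 3 ≤ m := by linarith
  have mC2 : 48 * C2 ≤ m := by linarith
  have mD1 : 2 * C1 * C2 * (eQ k + 1) * (eQ k + Ak k) ≤ m := by linarith
  have mD2 : 4 * C1 * C3 * (eQ k + 1) ≤ m := by linarith
  have mC : C3 + C4 ≤ m := by linarith
  have hQ : ((M ^ eQ k : ℕ) : ℝ) = m ^ eQ k := by
    rw [hm]
    push_cast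
    rfl
  have m0 : 0 < m := by linarith
  have hQ1 : 1 ≤ m ^ eQ k := one_le_pow₀ (by linarith)
  have heQ : 1 ≤ eQ k := by
    unfold eQ Ak
    nlinarith
  have hQ3 : 3 ≤ m ^ eQ k := by
    calc (3 : ℝ) ≤ m := m3
      _ = m ^ 1 := (pow_one m).symm
      _ ≤ m ^ eQ k := pow_le_pow_right₀ (by linarith) heQ
  have hN4 : m ^ eQ k / 4 ≤ ((M ^ eQ k / 2 : ℕ) : ℝ) := by
    have h5 : M ^ eQ k < 2 * (M ^ eQ k / 2) + 2 := by omega
    have h6 : ((M ^ eQ k : ℕ) : ℝ) < 2 * ((M ^ eQ k / 2 : ℕ) : ℝ) + 2 := by exact_mod_cast h5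
    have h7 : M ^ eQ k ≤ 2 * (M ^ eQ k / 2) + 1 := by omega
    have h8 : ((M ^ eQ k : ℕ) : ℝ) ≤ 2 * ((M ^ eQ k / 2 : ℕ) : ℝ) + 1 := by exact_mod_cast h7
    rw [hQ] at h8
    linarith
  have hNQ : ((M ^ eQ k / 2 : ℕ) : ℝ) ≤ m ^ eQ k := by
    rw [← hQ]
    exact_mod_cast Nat.div_le_self _ _
  have hN0 : 0 ≤ ((M ^ eQ k / 2 : ℕ) : ℝ) := Nat.cast_nonneg _
  rw [hQ, ← hm]
  obtain ⟨n, hn⟩ : ∃ n : ℝ, n = ((M ^ eQ k / 2 : ℕ) : ℝ) := ⟨_, rfl⟩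
  rw [← hn] at hN4 hNQ hN0 ⊢
  have hh1 : 1 ≤ m ^ (Ak k - 1) := one_le_pow₀ (by linarith)
  have hL1 : Real.log (m ^ eQ k + 2) ≤ (eQ k + 1) * m := Su_log m3 (eQ k) (by positivity) le_rfl
  have hL1' : 0 ≤ Real.log (m ^ eQ k + 2) := Real.log_nonneg (by linarith)
  have hL2 : Real.log (n * m ^ (Ak k - 1) + 2) ≤ (eQ k + Ak k) * m := by
    have h5 : n * m ^ (Ak k - 1) + 2 ≤ m ^ (eQ k + (Ak k - 1)) + 2 := by
      rw [pow_add]
      have := mul_le_mul_of_nonneg_right hNQ (by positivity : 0 ≤ m ^ (Ak k - 1))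
      linarith
    have h6 := Su_log m3 (eQ k + (Ak k - 1)) (by positivity) h5
    have h7 : ((eQ k + (Ak k - 1) : ℕ) : ℝ) + 1 = eQ k + Ak k := by
      have h8 : eQ k + (Ak k - 1) + 1 = eQ k + Ak k := by
        unfold Ak
        omega
      exact_mod_cast h8
    rw [h7] at h6
    exact h6
  have hL2' : 0 ≤ Real.log (n * m ^ (Ak k - 1) + 2) := by
    apply Real.log_nonneg
    have : 0 ≤ n * m ^ (Ak k - 1) := by positivity
    linarith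
  have hA : C1 * (m ^ eQ k + 1) * Real.log (m ^ eQ k + 2) ≤ 2 * C1 * (eQ k + 1) * m ^ (eQ k + 1) := by
    have h5 : C1 * (m ^ eQ k + 1) ≤ C1 * (2 * m ^ eQ k) :=
      mul_le_mul_of_nonneg_left (by linarith) (by linarith)
    calc C1 * (m ^ eQ k + 1) * Real.log (m ^ eQ k + 2)
        ≤ C1 * (2 * m ^ eQ k) * ((eQ k + 1) * m) :=
          mul_le_mul h5 hL1 hL1' (by positivity)
      _ = 2 * C1 * (eQ k + 1) * m ^ (eQ k + 1) := by ring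
  have hA0 : 0 ≤ C1 * (m ^ eQ k + 1) * Real.log (m ^ eQ k + 2) := by positivity
  obtain ⟨A, hAdef⟩ : ∃ A : ℝ, A = C1 * (m ^ eQ k + 1) * Real.log (m ^ eQ k + 2) := ⟨_, rfl⟩
  rw [← hAdef] at hA hA0 ⊢
  have e3 := Su_eg k
  have e4 := Su_eg2 k
  have mp1 : 1 ≤ m := by linarith
  refine ⟨hh1, ?_, ?_, ?_, hA0⟩
  · -- C2 h^k ≤ N
    have h5 : (m ^ (Ak k - 1)) ^ k * m ≤ m ^ eQ k := by
      rw [← pow_mul, ← pow_succ]
      apply pow_le_pow_right₀ mp1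
      unfold eQ Ak
      have h6 : (10 * k + 30 - 1) * k = k * (10 * k + 30) - k := by
        rw [Nat.sub_mul, mul_comm k, one_mul]
      rw [h6]
      have h7 : k ≤ k * (10 * k + 30) := by nlinarith
      omega
    have h6 : 0 ≤ (m ^ (Ak k - 1)) ^ k := by positivity
    have h7 : C2 * (m ^ (Ak k - 1)) ^ k ≤ (m ^ (Ak k - 1)) ^ k * m / 4 := by
      have : 4 * C2 ≤ m := by linarith
      nlinarith
    linarith
  · -- (3)
    have h5 : 3 * m ^ (eg k + 2) ≤ n ^ 2 * (m ^ (Ak k - 1)) ^ 2 / C2 := by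
      rw [le_div_iff₀ (by linarith)]
      have h6 : (m ^ eQ k / 4) ^ 2 ≤ n ^ 2 := pow_le_pow_left₀ (by positivity) hN4 2
      have h7 : (m ^ eQ k / 4) ^ 2 * (m ^ (Ak k - 1)) ^ 2 ≤ n ^ 2 * (m ^ (Ak k - 1)) ^ 2 :=
        mul_le_mul_of_nonneg_right h6 (by positivity)
      have h8 : (m ^ eQ k / 4) ^ 2 * (m ^ (Ak k - 1)) ^ 2 = m ^ (eg k + 3) / 16 := by
        rw [div_pow, ← pow_mul, ← pow_mul, ← e3, pow_add]
        have e5 : eQ k * 2 = 2 * eQ k := mul_comm _ _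
        have e6 : (Ak k - 1) * 2 = 2 * (Ak k - 1) := mul_comm _ _
        rw [e5, e6]
        norm_num
        ring
      have h9 : m ^ (eg k + 3) = m ^ (eg k + 2) * m := pow_succ _ _
      have h10 : 0 ≤ m ^ (eg k + 2) := by positivity
      have h11 : m ^ (eg k + 2) * (48 * C2) ≤ m ^ (eg k + 2) * m :=
        mul_le_mul_of_nonneg_left mC2 h10
      rw [h8, h9] at h7
      linarith
    have h6 : C2 * A * Real.log (n * m ^ (Ak k - 1) + 2) ≤ m ^ (eg k + 2) := by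
      calc C2 * A * Real.log (n * m ^ (Ak k - 1) + 2)
          ≤ C2 * (2 * C1 * (eQ k + 1) * m ^ (eQ k + 1)) * ((eQ k + Ak k) * m) := by
            apply mul_le_mul _ hL2 hL2' (by positivity)
            exact mul_le_mul_of_nonneg_left hA (by linarith)
        _ = (2 * C1 * C2 * (eQ k + 1) * (eQ k + Ak k)) * m ^ (eQ k + 2) := by ring
        _ ≤ m * m ^ (eQ k + 2) := mul_le_mul_of_nonneg_right mD1 (by positivity)
        _ = m ^ (eQ k + 3) := by ring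
        _ ≤ m ^ (eg k + 2) := pow_le_pow_right₀ mp1 (by omega)
    linarith
  · -- (4)
    have h5 : C3 * A * Real.log (1 + 2) ≤ m ^ (eg k + 1) := by
      have h6 : Real.log (1 + 2) ≤ 2 := by
        have := Real.log_le_sub_one_of_pos (by norm_num : (0 : ℝ) < 1 + 2)
        linarith
      have h6' : 0 ≤ Real.log ((1 : ℝ) + 2) := Real.log_nonneg (by norm_num)
      calc C3 * A * Real.log (1 + 2)
          ≤ C3 * (2 * C1 * (eQ k + 1) * m ^ (eQ k + 1)) * 2 := by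
            apply mul_le_mul _ h6 h6' (by positivity)
            exact mul_le_mul_of_nonneg_left hA (by linarith)
        _ = (4 * C1 * C3 * (eQ k + 1)) * m ^ (eQ k + 1) := by ring
        _ ≤ m * m ^ (eQ k + 1) := mul_le_mul_of_nonneg_right mD2 (by positivity)
        _ = m ^ (eQ k + 2) := by ring
        _ ≤ m ^ (eg k + 1) := pow_le_pow_right₀ mp1 (by omega)
    have h7 : m ≤ m ^ (eg k + 1) := by
      calc m = m ^ 1 := (pow_one m).symm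
        _ ≤ m ^ (eg k + 1) := pow_le_pow_right₀ mp1 (by omega)
    have h8 : m ^ (eg k + 2) = m ^ (eg k + 1) * m := pow_succ _ _
    have h9 : m ^ (eg k + 1) * 3 ≤ m ^ (eg k + 1) * m :=
      mul_le_mul_of_nonneg_left m3 (by positivity)
    rw [h8]
    have h10 : -(2 * (m ^ (eg k + 1) * m) / 2) + C3 * A * Real.log (1 + 2) + C3 * 1 ^ 2 + C4 =
        -(m ^ (eg k + 1) * m) + C3 * A * Real.log (1 + 2) + (C3 + C4) := by ring
    rw [h10]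
    linarith only [h5, h7, h9, mC]

theorem fdat (c0 : ℂ) : ∃ C : ℝ, 1 ≤ C ∧ ∀ (Q : ℕ) (c : (S → Fin (Q + 1)) → ℂ), (∀ κ, ‖c κ‖ ≤ 1) →
    K.FDat (K.FF c0 Q c) (K.JJ c0 Q c) (C * (Q + 1) * Real.log (Q + 2)) := by
  obtain ⟨C, hC, h⟩ := growth K c0
  refine ⟨C, hC, fun Q c hc => ⟨fun x => ser K c0 Q c x, fun n x => invariant K c0 Q c n x,
    fun x => h Q c hc x⟩⟩

theorem su (c0 : ℂ) : ∃ M0 : ℕ, ∀ M : ℕ, M0 ≤ M →
    ∀ c : (S → Fin (M ^ eQ (Fintype.card S - 1) + 1)) → ℂ, (∀ κ, ‖c κ‖ ≤ 1) →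
      (∀ n : S → ℕ, 2 * ∑ s, n s < M ^ eQ (Fintype.card S - 1) →
        K.JJ c0 (M ^ eQ (Fintype.card S - 1)) c n = 0) →
      ∀ n : S → ℕ, ‖K.JJ c0 (M ^ eQ (Fintype.card S - 1)) c n‖ ≤
        Real.exp (-(M : ℝ) ^ (eg (Fintype.card S - 1) + 1)) := by
  obtain ⟨C1, hC1, hfd⟩ := fdat K c0
  obtain ⟨C2, hC2, hsch⟩ := schwarz K
  obtain ⟨C3, hC3, hspr⟩ := spread K
  obtain ⟨C4, hC4, hq⟩ := q_le K
  obtain ⟨k, hk⟩ : ∃ k, k = Fintype.card S - 1 := ⟨_, rfl⟩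
  have hk1 : 1 ≤ k := by
    have := K.hS
    omega
  rw [← hk] at hsch ⊢
  obtain ⟨M0, hM0⟩ := Su_num k C1 C2 C3 C4 hC1 hC2 hC3 hC4 hk1
  refine ⟨M0, fun M hM c hc hJ n => ?_⟩
  obtain ⟨a1, a2, a3, a4, a5⟩ := hM0 M hM
  have hF := hfd (M ^ eQ k) c hc
  have hs := hsch _ _ _ hF a5 (M ^ eQ k / 2) ((M : ℝ) ^ (Ak k - 1)) 0 a1 a2 le_rfl (fun n hn => by
    rw [hJ n (by omega), norm_zero])
  have hV : ∀ x ∈ K.V, K.Nw (K.FF c0 (M ^ eQ k) c) x ≤ Real.exp (-(2 * (M : ℝ) ^ (eg k + 2))) := by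
    intro x hx
    have h5 := hs x hx
    rw [zero_mul, add_zero] at h5
    exact h5.trans (Real.exp_le_exp.mpr a3)
  have hsp := hspr _ _ _ hF a5 (2 * (M : ℝ) ^ (eg k + 2)) 1 (by positivity) le_rfl hV
  apply cauchy_est (K.FF c0 (M ^ eQ k) c) (K.JJ c0 (M ^ eQ k) c) hF.ser
  intro x hx
  have hx1 : ‖x‖ ≤ 1 := by
    rw [pi_norm_le_iff_of_nonneg (by norm_num)]
    intro s
    exact (hx s).le
  have h5 := hsp x ((bb_le K x).trans hx1)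
  have h6 : K.q x ≤ C4 := by
    refine (hq x).trans ?_
    have : ‖x‖ ^ 2 ≤ 1 := pow_le_one₀ (norm_nonneg _) hx1
    nlinarith
  have h7 : ‖K.FF c0 (M ^ eQ k) c x‖ = K.Nw (K.FF c0 (M ^ eQ k) c) x * Real.exp (K.q x) := by
    unfold KD.Nw
    rw [mul_assoc, ← Real.exp_add, neg_add_cancel, Real.exp_zero, mul_one]
  rw [h7]
  calc K.Nw (K.FF c0 (M ^ eQ k) c) x * Real.exp (K.q x)
      ≤ Real.exp (-(2 * (M : ℝ) ^ (eg k + 2) / 2) +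
          C3 * (C1 * (((M ^ eQ k : ℕ) : ℝ) + 1) * Real.log (((M ^ eQ k : ℕ) : ℝ) + 2)) *
            Real.log (1 + 2) + C3 * 1 ^ 2) * Real.exp C4 :=
        mul_le_mul h5 (Real.exp_le_exp.mpr h6) (Real.exp_pos _).le (Real.exp_pos _).le
    _ = Real.exp (-(2 * (M : ℝ) ^ (eg k + 2) / 2) +
          C3 * (C1 * (((M ^ eQ k : ℕ) : ℝ) + 1) * Real.log (((M ^ eQ k : ℕ) : ℝ) + 2)) *
            Real.log (1 + 2) + C3 * 1 ^ 2 + C4) := by rw [← Real.exp_add]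
    _ ≤ Real.exp (-(M : ℝ) ^ (eg k + 1)) := Real.exp_le_exp.mpr a4

end AZ
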