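import Pool.Agent.H60.AZ.Ba1
import Pool.Agent.H60.AZ.Ba2
import Pool.Agent.H60.AZ.Ba3
import Pool.Agent.H60.AZ.Ba4

/-!
# Row Ub (MP_ede373, all algebraic points): upper bounds, summability

Notation `t = ∑_j |m_j + v_j(x)|`, `B = ‖bb x‖`, `Y = Im z`.

PROOF.
* `mon_le`: `x s + m*_s = (x s - v(x)*_s) + (m + v(x))*_s` (`st_add`), so by `dist_V` and `st_le`
  `‖x s + m*_s‖ ≤ C (B + t) ≤ C (1 + B + t)`. Take the product over `s` (`∑ κ s` factors, `C (1 + B + t) ≥ 1`).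
* `summable_Phi`: `‖tm m x‖ ≤ e^{q x} ‖c0‖^d exp(-π Y ∑ (m_j+v_j)^2)` (`norm_tm`) and `mon_le`; compare with `gauss_sum` (first
  part, with `B := C (1 + B)`..: `(C(1+B+t))^n = C^n (1+B+t)^n`).
* `growth`: `‖FF x‖ ≤ ∑_κ ‖c κ‖ ∑'_m ‖tm m x‖ ‖mon κ m x‖`; there are `(Q+1)^(card S)` values of `κ`, `∑ κ s ≤ card S * Q`; with
  `n = card S * Q`, `C (1+B+t) ≥ 1`: `≤ (Q+1)^K ‖c0‖^d e^{q x} C^n (1+B)^n exp(C (n+1) log(n+2))` (`gauss_sum` with `1 + B ≥ 1`). Finally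
  `n log(1+B) ≤ C' (Q+1) log(Q+2) log(1+B)` (as `log(Q+2) ≥ log 2`), `log(n+2) ≤ C'' log(Q+2)` etc. The constant may depend on `K`
  and `c0` (`log (1 + ‖c0‖)`).
-/

set_option autoImplicit false

namespace AZ

open Complex Finset

variable {S ι : Type} [Fintype S] [DecidableEq S] [Fintype ι] [DecidableEq ι] (K : KD S ι)

theorem mon_le : ∃ C : ℝ, 1 ≤ C ∧ ∀ (κ : S → ℕ) (m : ι → ℤ) (x : S → ℂ),
    ‖K.mon κ m x‖ ≤ (C * (1 + ‖K.bb x‖ + ∑ j, |(m j : ℝ) + K.v j x|)) ^ ∑ s, κ s := by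
  obtain ⟨C1, hC1, h1⟩ := dist_V K
  obtain ⟨C2, hC2, h2⟩ := st_le K
  refine ⟨C1 + C2, by linarith, fun κ m x ↦ ?_⟩
  have ht : 0 ≤ ∑ j, |(m j : ℝ) + K.v j x| := sum_nonneg fun j _ ↦ abs_nonneg _
  have hB : 0 ≤ ‖K.bb x‖ := norm_nonneg _
  have hs : ∀ s, ‖x s + K.st (fun j ↦ (m j : ℂ)) s‖ ≤
      (C1 + C2) * (1 + ‖K.bb x‖ + ∑ j, |(m j : ℝ) + K.v j x|) := by
    intro s
    have e : x s + K.st (fun j ↦ (m j : ℂ)) s =
        (x s - K.st (fun j ↦ ((K.v j x : ℝ) : ℂ)) s) +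
          K.st (fun j ↦ (m j : ℂ) + ((K.v j x : ℝ) : ℂ)) s := by
      rw [st_add]
      ring
    rw [e]
    have h3 := h2 (fun j ↦ (m j : ℂ) + ((K.v j x : ℝ) : ℂ)) s
    have h4 : ∑ j, ‖(m j : ℂ) + ((K.v j x : ℝ) : ℂ)‖ = ∑ j, |(m j : ℝ) + K.v j x| := by
      refine sum_congr rfl fun j _ ↦ ?_
      rw [← Real.norm_eq_abs, ← Complex.norm_real]
      push_cast
      rfl
    rw [h4] at h3
    have h5 := h1 x s
    refine (norm_add_le _ _).trans ((add_le_add h5 h3).trans ?_)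
    nlinarith [mul_nonneg (by linarith : (0 : ℝ) ≤ C1) ht, mul_nonneg (by linarith : (0 : ℝ) ≤ C2) hB]
  unfold KD.mon
  rw [norm_prod]
  calc ∏ s, ‖(x s + K.st (fun j ↦ (m j : ℂ)) s) ^ κ s‖
      ≤ ∏ s, ((C1 + C2) * (1 + ‖K.bb x‖ + ∑ j, |(m j : ℝ) + K.v j x|)) ^ κ s := by
        refine prod_le_prod (fun s _ ↦ norm_nonneg _) fun s _ ↦ ?_
        rw [norm_pow]
        exact pow_le_pow_left₀ (norm_nonneg _) (hs s) _
    _ = ((C1 + C2) * (1 + ‖K.bb x‖ + ∑ j, |(m j : ℝ) + K.v j x|)) ^ ∑ s, κ s :=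
        prod_pow_eq_pow_sum _ _ _

private theorem Ub_term (c0 : ℂ) {C : ℝ} (hC : 1 ≤ C)
    (hmon : ∀ (κ : S → ℕ) (m : ι → ℤ) (x : S → ℂ),
      ‖K.mon κ m x‖ ≤ (C * (1 + ‖K.bb x‖ + ∑ j, |(m j : ℝ) + K.v j x|)) ^ ∑ s, κ s)
    (κ : S → ℕ) (x : S → ℂ) (m : ι → ℤ) :
    ‖K.tm c0 m x * K.mon κ m x‖ ≤ Real.exp (K.q x) * (‖c0‖ ^ Fintype.card ι * (C ^ ∑ s, κ s)) *
      (Real.exp (-(Real.pi * K.z.im * ∑ j, ((m j : ℝ) + K.v j x) ^ 2)) *
        (1 + ‖K.bb x‖ + ∑ j, |(m j : ℝ) + K.v j x|) ^ ∑ s, κ s) := by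
  have h1 : ‖K.tm c0 m x‖ = Real.exp (K.q x) * (‖c0‖ ^ Fintype.card ι *
      Real.exp (-(Real.pi * K.z.im * ∑ j, ((m j : ℝ) + K.v j x) ^ 2))) := by
    rw [← norm_tm K c0 m x, Real.exp_neg]
    have := Real.exp_ne_zero (K.q x)
    field_simp
  rw [norm_mul, h1]
  have h2 := hmon κ m x
  rw [mul_pow] at h2
  have h3 : 0 ≤ Real.exp (K.q x) * (‖c0‖ ^ Fintype.card ι *
      Real.exp (-(Real.pi * K.z.im * ∑ j, ((m j : ℝ) + K.v j x) ^ 2))) := by positivity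
  refine (mul_le_mul_of_nonneg_left h2 h3).trans (le_of_eq ?_)
  ring

private theorem Ub_Phi (c0 : ℂ) : ∃ C : ℝ, 1 ≤ C ∧ ∃ D : ℝ, 1 ≤ D ∧ ∀ (κ : S → ℕ) (x : S → ℂ),
    (Summable fun m : ι → ℤ ↦ ‖K.tm c0 m x * K.mon κ m x‖) ∧
    ‖K.Phi c0 κ x‖ * Real.exp (-K.q x) ≤ ‖c0‖ ^ Fintype.card ι * ((C ^ ∑ s, κ s) *
      ((1 + ‖K.bb x‖) ^ (∑ s, κ s) * Real.exp (D * ((∑ s, κ s : ℕ) + 1) *
        Real.log ((∑ s, κ s : ℕ) + 2)))) := by
  obtain ⟨C, hC, hmon⟩ := mon_le K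
  obtain ⟨D, hD, hg⟩ := gauss_sum (ι := ι) K.hz
  refine ⟨C, hC, D, hD, fun κ x ↦ ?_⟩
  have hB : 1 ≤ 1 + ‖K.bb x‖ := by linarith [norm_nonneg (K.bb x)]
  obtain ⟨hs, hle⟩ := hg (fun j ↦ K.v j x) (∑ s, κ s) (1 + ‖K.bb x‖) hB
  have hterm := Ub_term K c0 hC hmon κ x
  have hs2 := hs.mul_left (Real.exp (K.q x) * (‖c0‖ ^ Fintype.card ι * (C ^ ∑ s, κ s)))
  have hsum : Summable fun m : ι → ℤ ↦ ‖K.tm c0 m x * K.mon κ m x‖ :=
    Summable.of_nonneg_of_le (fun m ↦ norm_nonneg _) hterm hs2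
  refine ⟨hsum, ?_⟩
  have h1 : ‖K.Phi c0 κ x‖ ≤ Real.exp (K.q x) * (‖c0‖ ^ Fintype.card ι * (C ^ ∑ s, κ s)) *
      ((1 + ‖K.bb x‖) ^ (∑ s, κ s) * Real.exp (D * ((∑ s, κ s : ℕ) + 1) *
        Real.log ((∑ s, κ s : ℕ) + 2))) := by
    unfold KD.Phi
    refine (norm_tsum_le_tsum_norm hsum).trans ((hsum.tsum_le_tsum hterm hs2).trans ?_)
    rw [tsum_mul_left]
    exact mul_le_mul_of_nonneg_left hle (by positivity)
  have h2 := mul_le_mul_of_nonneg_right h1 (Real.exp_pos (-K.q x)).le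
  refine h2.trans (le_of_eq ?_)
  have h3 : Real.exp (K.q x) * Real.exp (-K.q x) = 1 := by
    rw [← Real.exp_add, add_neg_cancel, Real.exp_zero]
  calc _ = (Real.exp (K.q x) * Real.exp (-K.q x)) * (‖c0‖ ^ Fintype.card ι * ((C ^ ∑ s, κ s) *
      ((1 + ‖K.bb x‖) ^ (∑ s, κ s) * Real.exp (D * ((∑ s, κ s : ℕ) + 1) *
        Real.log ((∑ s, κ s : ℕ) + 2))))) := by ring
    _ = _ := by rw [h3, one_mul]

theorem summable_Phi (c0 : ℂ) (κ : S → ℕ) (x : S → ℂ) :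
    Summable fun m : ι → ℤ ↦ ‖K.tm c0 m x * K.mon κ m x‖ := by
  obtain ⟨C, hC, D, hD, h⟩ := Ub_Phi K c0
  exact (h κ x).1

theorem growth (c0 : ℂ) : ∃ C : ℝ, 1 ≤ C ∧ ∀ (Q : ℕ) (c : (S → Fin (Q + 1)) → ℂ),
    (∀ κ, ‖c κ‖ ≤ 1) → ∀ x : S → ℂ, K.Nw (K.FF c0 Q c) x ≤
      Real.exp (C * (Q + 1) * Real.log (Q + 2) * (1 + Real.log (1 + ‖K.bb x‖))) := by
  obtain ⟨C, hC, D, hD, h⟩ := Ub_Phi K c0
  obtain ⟨k, hk⟩ : ∃ k : ℕ, k = Fintype.card S := ⟨_, rfl⟩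
  obtain ⟨l2, hl2⟩ : ∃ l2 : ℝ, l2 = Real.log 2 := ⟨_, rfl⟩
  have hl2p : 0 < l2 := by rw [hl2]; exact Real.log_pos (by norm_num)
  obtain ⟨D0, hD0⟩ : ∃ D0 : ℝ, D0 = Fintype.card ι * Real.log (1 + ‖c0‖) := ⟨_, rfl⟩
  have hc1 : (1 : ℝ) ≤ 1 + ‖c0‖ := by linarith [norm_nonneg c0]
  have hD0p : 0 ≤ D0 := by
    rw [hD0]
    exact mul_nonneg (Nat.cast_nonneg _) (Real.log_nonneg hc1)
  have hlC : 0 ≤ Real.log C := Real.log_nonneg hC
  have hk1 : (1 : ℝ) ≤ (k : ℝ) + 1 := by linarith [(Nat.cast_nonneg k : (0 : ℝ) ≤ (k : ℝ))]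
  have hlk : 0 ≤ Real.log ((k : ℝ) + 1) := Real.log_nonneg hk1
  have hk0 : (0 : ℝ) ≤ k := Nat.cast_nonneg _
  refine ⟨1 + k + D0 / l2 + k * Real.log C / l2 + k / l2 +
    D * (k + 1) * (Real.log ((k : ℝ) + 1) / l2 + 1), ?_, ?_⟩
  · have : 0 ≤ D0 / l2 := by positivity
    have : 0 ≤ k * Real.log C / l2 := by positivity
    have : 0 ≤ k / l2 := by positivity
    have : 0 ≤ D * (k + 1) * (Real.log ((k : ℝ) + 1) / l2 + 1) := by positivity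
    linarith
  intro Q c hc x
  obtain ⟨N, hN⟩ : ∃ N : ℕ, N = k * Q := ⟨_, rfl⟩
  obtain ⟨β, hβ⟩ : ∃ β : ℝ, β = Real.log (1 + ‖K.bb x‖) := ⟨_, rfl⟩
  have hB : 1 ≤ 1 + ‖K.bb x‖ := by linarith [norm_nonneg (K.bb x)]
  have hβ0 : 0 ≤ β := by rw [hβ]; exact Real.log_nonneg hB
  have hBe : 1 + ‖K.bb x‖ = Real.exp β := by rw [hβ, Real.exp_log (by linarith)]
  obtain ⟨L, hL⟩ : ∃ L : ℝ, L = Real.log ((Q : ℝ) + 2) := ⟨_, rfl⟩
  have hQ0 : (0 : ℝ) ≤ Q := Nat.cast_nonneg _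
  have hLl : l2 ≤ L := by
    rw [hl2, hL]
    exact Real.log_le_log (by norm_num) (by linarith)
  have hL0 : 0 < L := lt_of_lt_of_le hl2p hLl
  -- the bound for one function
  obtain ⟨M, hM⟩ : ∃ M : ℝ, M = ‖c0‖ ^ Fintype.card ι * (C ^ N *
      ((1 + ‖K.bb x‖) ^ N * Real.exp (D * ((N : ℝ) + 1) * Real.log ((N : ℝ) + 2)))) := ⟨_, rfl⟩
  have hone : ∀ κ : S → Fin (Q + 1), ‖K.Phi c0 (fun s ↦ (κ s : ℕ)) x‖ * Real.exp (-K.q x) ≤ M := by
    intro κ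
    have h1 := (h (fun s ↦ (κ s : ℕ)) x).2
    obtain ⟨n, hn⟩ : ∃ n : ℕ, n = ∑ s, (κ s : ℕ) := ⟨_, rfl⟩
    have hnN : n ≤ N := by
      rw [hn, hN, hk]
      calc ∑ s, (κ s : ℕ) ≤ ∑ _s : S, Q := sum_le_sum fun s _ ↦ Nat.lt_succ_iff.mp (κ s).2
        _ = Fintype.card S * Q := by rw [sum_const, card_univ, smul_eq_mul]
    rw [← hn] at h1
    refine h1.trans ?_
    rw [hM]
    have hnN' : (n : ℝ) ≤ N := by exact_mod_cast hnN
    have hn0 : (0 : ℝ) ≤ n := Nat.cast_nonneg _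
    have a1 : C ^ n ≤ C ^ N := pow_le_pow_right₀ hC hnN
    have a2 : (1 + ‖K.bb x‖) ^ n ≤ (1 + ‖K.bb x‖) ^ N := pow_le_pow_right₀ hB hnN
    have a3 : Real.log ((n : ℝ) + 2) ≤ Real.log ((N : ℝ) + 2) :=
      Real.log_le_log (by linarith) (by linarith)
    have a4 : 0 ≤ Real.log ((n : ℝ) + 2) := Real.log_nonneg (by linarith)
    have a5 : Real.exp (D * ((n : ℝ) + 1) * Real.log ((n : ℝ) + 2)) ≤
        Real.exp (D * ((N : ℝ) + 1) * Real.log ((N : ℝ) + 2)) := by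
      refine Real.exp_le_exp.2 ?_
      refine mul_le_mul ?_ a3 a4 (by positivity)
      exact mul_le_mul_of_nonneg_left (by linarith) (by linarith)
    have hC0 : 0 ≤ C := by linarith
    refine mul_le_mul_of_nonneg_left ?_ (by positivity)
    refine mul_le_mul a1 ?_ (by positivity) (by positivity)
    exact mul_le_mul a2 a5 (Real.exp_pos _).le (by positivity)
  have hNw : K.Nw (K.FF c0 Q c) x ≤ ((Q : ℝ) + 1) ^ k * M := by
    unfold KD.Nw KD.FF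
    calc ‖∑ κ, c κ * K.Phi c0 (fun s ↦ (κ s : ℕ)) x‖ * Real.exp (-K.q x)
        ≤ (∑ κ : S → Fin (Q + 1), ‖K.Phi c0 (fun s ↦ (κ s : ℕ)) x‖) * Real.exp (-K.q x) := by
          refine mul_le_mul_of_nonneg_right ?_ (Real.exp_pos _).le
          refine (norm_sum_le _ _).trans (sum_le_sum fun κ _ ↦ ?_)
          rw [norm_mul]
          have := mul_le_mul_of_nonneg_right (hc κ)
            (norm_nonneg (K.Phi c0 (fun s ↦ (κ s : ℕ)) x))
          rwa [one_mul] at this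
      _ = ∑ κ : S → Fin (Q + 1), ‖K.Phi c0 (fun s ↦ (κ s : ℕ)) x‖ * Real.exp (-K.q x) := by
          rw [sum_mul]
      _ ≤ ∑ _κ : S → Fin (Q + 1), M := sum_le_sum fun κ _ ↦ hone κ
      _ = ((Q : ℝ) + 1) ^ k * M := by
          rw [sum_const, card_univ, Fintype.card_fun, Fintype.card_fin, nsmul_eq_mul, ← hk]
          push_cast
          ring
  refine hNw.trans ?_
  rw [hM]
  -- exponents
  obtain ⟨W, hW⟩ : ∃ W : ℝ, W = ((Q : ℝ) + 1) * L * (1 + β) := ⟨_, rfl⟩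
  have hWL : L ≤ W := by
    rw [hW]
    have h1 : L ≤ ((Q : ℝ) + 1) * L := by nlinarith
    have h2 : ((Q : ℝ) + 1) * L ≤ ((Q : ℝ) + 1) * L * (1 + β) := by
      have : 0 ≤ ((Q : ℝ) + 1) * L := by positivity
      nlinarith
    linarith
  have hW0 : 0 < W := lt_of_lt_of_le hL0 hWL
  have hWQL : ((Q : ℝ) + 1) * L ≤ W := by
    rw [hW]
    have : 0 ≤ ((Q : ℝ) + 1) * L := by positivity
    nlinarith
  have hWQ : ((Q : ℝ) + 1) ≤ W / l2 := by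
    rw [le_div_iff₀ hl2p]
    have : ((Q : ℝ) + 1) * l2 ≤ ((Q : ℝ) + 1) * L := mul_le_mul_of_nonneg_left hLl (by positivity)
    linarith
  have hWQβ : ((Q : ℝ) + 1) * β ≤ W / l2 := by
    rw [le_div_iff₀ hl2p, hW]
    have h1 : ((Q : ℝ) + 1) * β * l2 ≤ ((Q : ℝ) + 1) * β * L :=
      mul_le_mul_of_nonneg_left hLl (by positivity)
    have h2 : 0 ≤ ((Q : ℝ) + 1) * L := by positivity
    nlinarith
  have t1 : ((Q : ℝ) + 1) ^ k ≤ Real.exp (k * W) := by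
    have h1 : ((Q : ℝ) + 1) ≤ Real.exp W := by
      have h2 : ((Q : ℝ) + 2) = Real.exp L := by rw [hL, Real.exp_log (by positivity)]
      have h3 := Real.exp_le_exp.2 hWL
      linarith
    rw [Real.exp_nat_mul]
    exact pow_le_pow_left₀ (by positivity) h1 k
  have t2 : ‖c0‖ ^ Fintype.card ι ≤ Real.exp (D0 / l2 * W) := by
    have h1 : ‖c0‖ ^ Fintype.card ι ≤ (1 + ‖c0‖) ^ Fintype.card ι :=
      pow_le_pow_left₀ (norm_nonneg _) (by linarith) _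
    have h2 : (1 + ‖c0‖) ^ Fintype.card ι = Real.exp D0 := by
      rw [hD0, Real.exp_nat_mul, Real.exp_log (by linarith)]
    have h3 : D0 ≤ D0 / l2 * W := by
      have h4 : D0 = D0 / l2 * l2 := by field_simp
      have h5 : D0 / l2 * l2 ≤ D0 / l2 * W :=
        mul_le_mul_of_nonneg_left (by linarith) (by positivity)
      linarith
    exact h1.trans (h2.le.trans (Real.exp_le_exp.2 h3))
  have hNQ : (N : ℝ) ≤ k * ((Q : ℝ) + 1) := by
    rw [hN]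
    push_cast
    nlinarith
  have t3 : C ^ N ≤ Real.exp (k * Real.log C / l2 * W) := by
    have h1 : C ^ N = Real.exp (N * Real.log C) := by
      rw [Real.exp_nat_mul, Real.exp_log (by linarith)]
    rw [h1]
    refine Real.exp_le_exp.2 ?_
    calc (N : ℝ) * Real.log C ≤ k * ((Q : ℝ) + 1) * Real.log C :=
          mul_le_mul_of_nonneg_right hNQ hlC
      _ = (k * Real.log C) * ((Q : ℝ) + 1) := by ring
      _ ≤ (k * Real.log C) * (W / l2) := mul_le_mul_of_nonneg_left hWQ (by positivity)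
      _ = k * Real.log C / l2 * W := by ring
  have t4 : (1 + ‖K.bb x‖) ^ N ≤ Real.exp (k / l2 * W) := by
    rw [hBe, ← Real.exp_nat_mul]
    refine Real.exp_le_exp.2 ?_
    calc (N : ℝ) * β ≤ k * ((Q : ℝ) + 1) * β := mul_le_mul_of_nonneg_right hNQ hβ0
      _ = k * (((Q : ℝ) + 1) * β) := by ring
      _ ≤ k * (W / l2) := mul_le_mul_of_nonneg_left hWQβ hk0
      _ = k / l2 * W := by ring
  have t5 : Real.exp (D * ((N : ℝ) + 1) * Real.log ((N : ℝ) + 2)) ≤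
      Real.exp (D * (k + 1) * (Real.log ((k : ℝ) + 1) / l2 + 1) * W) := by
    refine Real.exp_le_exp.2 ?_
    have hN0 : (0 : ℝ) ≤ N := Nat.cast_nonneg _
    have hNr : (N : ℝ) = k * Q := by
      rw [hN]
      push_cast
      ring
    have h1 : (N : ℝ) + 1 ≤ (k + 1) * ((Q : ℝ) + 1) := by
      rw [hNr]
      nlinarith
    have h2 : (N : ℝ) + 2 ≤ ((k : ℝ) + 1) * ((Q : ℝ) + 2) := by
      rw [hNr]
      nlinarith
    have h3 : Real.log ((N : ℝ) + 2) ≤ Real.log ((k : ℝ) + 1) + L := by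
      rw [hL, ← Real.log_mul (by positivity) (by positivity)]
      exact Real.log_le_log (by positivity) h2
    have h4 : Real.log ((k : ℝ) + 1) + L ≤ (Real.log ((k : ℝ) + 1) / l2 + 1) * L := by
      have h5 : Real.log ((k : ℝ) + 1) = Real.log ((k : ℝ) + 1) / l2 * l2 := by field_simp
      have h6 : Real.log ((k : ℝ) + 1) / l2 * l2 ≤ Real.log ((k : ℝ) + 1) / l2 * L :=
        mul_le_mul_of_nonneg_left hLl (by positivity)
      linarith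
    have h7 := h3.trans h4
    have hlN : 0 ≤ Real.log ((N : ℝ) + 2) := Real.log_nonneg (by linarith)
    calc D * ((N : ℝ) + 1) * Real.log ((N : ℝ) + 2)
        ≤ D * ((k + 1) * ((Q : ℝ) + 1)) * ((Real.log ((k : ℝ) + 1) / l2 + 1) * L) := by
          refine mul_le_mul ?_ h7 hlN (by positivity)
          exact mul_le_mul_of_nonneg_left h1 (by linarith)
      _ = D * (k + 1) * (Real.log ((k : ℝ) + 1) / l2 + 1) * (((Q : ℝ) + 1) * L) := by ring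
      _ ≤ D * (k + 1) * (Real.log ((k : ℝ) + 1) / l2 + 1) * W :=
          mul_le_mul_of_nonneg_left hWQL (by positivity)
  have hC0 : 0 ≤ C := by linarith
  calc ((Q : ℝ) + 1) ^ k * (‖c0‖ ^ Fintype.card ι * (C ^ N *
      ((1 + ‖K.bb x‖) ^ N * Real.exp (D * ((N : ℝ) + 1) * Real.log ((N : ℝ) + 2)))))
      ≤ Real.exp (k * W) * (Real.exp (D0 / l2 * W) * (Real.exp (k * Real.log C / l2 * W) *
        (Real.exp (k / l2 * W) *
          Real.exp (D * (k + 1) * (Real.log ((k : ℝ) + 1) / l2 + 1) * W)))) := by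
        refine mul_le_mul t1 ?_ (by positivity) (Real.exp_pos _).le
        refine mul_le_mul t2 ?_ (by positivity) (Real.exp_pos _).le
        refine mul_le_mul t3 ?_ (by positivity) (Real.exp_pos _).le
        exact mul_le_mul t4 t5 (Real.exp_pos _).le (Real.exp_pos _).le
    _ = Real.exp ((k + D0 / l2 + k * Real.log C / l2 + k / l2 +
        D * (k + 1) * (Real.log ((k : ℝ) + 1) / l2 + 1)) * W) := by
        rw [← Real.exp_add, ← Real.exp_add, ← Real.exp_add, ← Real.exp_add]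
        congr 1
        ring
    _ ≤ Real.exp ((1 + k + D0 / l2 + k * Real.log C / l2 + k / l2 +
        D * (k + 1) * (Real.log ((k : ℝ) + 1) / l2 + 1)) * (Q + 1) * Real.log (Q + 2) *
          (1 + Real.log (1 + ‖K.bb x‖))) := by
        refine Real.exp_le_exp.2 ?_
        rw [← hL, ← hβ]
        have h1 : (1 + k + D0 / l2 + k * Real.log C / l2 + k / l2 +
            D * (k + 1) * (Real.log ((k : ℝ) + 1) / l2 + 1)) * ((Q : ℝ) + 1) * L * (1 + β) =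
            (1 + k + D0 / l2 + k * Real.log C / l2 + k / l2 +
            D * (k + 1) * (Real.log ((k : ℝ) + 1) / l2 + 1)) * W := by
          rw [hW]
          ring
        rw [h1]
        exact mul_le_mul_of_nonneg_right (by linarith) hW0.le

end AZ
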