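import Pool.Agent.H60.AZ.Ub

/-!
# Row Za (MP_ede373, all algebraic points): the real shifts `tt r`

PROOF.
* `om_eq`: the sum `∑_{s ≠ o} m^s nu i s` (`m^s = ∑_j m_j nu j s`) is real: `s ↦ bar s` is a bijection of `univ.erase o` and the term
  of `bar s` is the conjugate of the term of `s` (`nu_bar`).
* `tt` : `u_j(tt r) = ∑_{s ≠ o} nu j s ∑_i r_i nu i s` (the factor `z - ze s ≠ 0` cancels), which is real (same argument with real `r`), so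
  `Im u_j(x + tt r) = Im u_j(x)`: `v_tt`, `q_tt`.
* `tm_tt`: `∑_j m_j u_j(tt r) = ∑_i r_i ∑_{s ≠ o} m^s nu i s = ∑_i r_i om m i`.
* `tt_le`: `‖tt r s‖ ≤ C ‖r‖` (`∑_i |r_i| ‖nu i s‖ / ‖z - ze s‖`); `bb_tt` from `bb_add`, `bb_le`.
-/

set_option autoImplicit false

namespace AZ

open Complex Finset

variable {S ι : Type} [Fintype S] [DecidableEq S] [Fintype ι] [DecidableEq ι] (K : KD S ι)

private theorem Za_real {f : S → ℂ} (hf : ∀ s, s ≠ K.o → f (K.bar s) = (starRingEnd ℂ) (f s)) :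
    (((∑ s ∈ univ.erase K.o, f s).re : ℝ) : ℂ) = ∑ s ∈ univ.erase K.o, f s := by
  rw [← Complex.conj_eq_iff_re, map_sum]
  refine Finset.sum_nbij' K.bar K.bar (fun s hs => ?_) (fun s hs => ?_) (fun s _ => K.bar_bar s)
    (fun s _ => K.bar_bar s) (fun s hs => ?_)
  · rw [Finset.mem_erase] at hs ⊢
    exact ⟨bar_ne K hs.1, Finset.mem_univ _⟩
  · rw [Finset.mem_erase] at hs ⊢
    exact ⟨bar_ne K hs.1, Finset.mem_univ _⟩
  · rw [Finset.mem_erase] at hs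
    exact (hf s hs.1).symm

private theorem Za_u (j : ι) (r : ι → ℝ) :
    K.u j (K.tt r) = ∑ s ∈ univ.erase K.o, K.nu j s * ∑ i, (r i : ℂ) * K.nu i s := by
  unfold KD.u
  rw [← Finset.add_sum_erase _ _ (Finset.mem_univ K.o)]
  have h0 : K.tt r K.o = 0 := by simp [KD.tt]
  rw [h0, mul_zero, zero_add]
  refine Finset.sum_congr rfl fun s hs => ?_
  rw [Finset.mem_erase] at hs
  have h1 : K.z - K.ze s ≠ 0 := sub_ne_zero.2 (K.ze_ne s).symm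
  unfold KD.tt
  rw [if_neg hs.1]
  field_simp

private theorem Za_im (j : ι) (r : ι → ℝ) : (K.u j (K.tt r)).im = 0 := by
  have h : (((∑ s ∈ univ.erase K.o, K.nu j s * ∑ i, (r i : ℂ) * K.nu i s).re : ℝ) : ℂ) =
      ∑ s ∈ univ.erase K.o, K.nu j s * ∑ i, (r i : ℂ) * K.nu i s := by
    refine Za_real K (f := fun s => K.nu j s * ∑ i, (r i : ℂ) * K.nu i s) fun s hs => ?_
    simp only [K.nu_bar _ s hs, map_mul, map_sum, Complex.conj_ofReal]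
  rw [Za_u, ← h, Complex.ofReal_im]

theorem om_eq (m : ι → ℤ) (i : ι) :
    ((K.om m i : ℝ) : ℂ) = ∑ s ∈ univ.erase K.o, (∑ j, (m j : ℂ) * K.nu j s) * K.nu i s := by
  refine Za_real K (f := fun s => (∑ j, (m j : ℂ) * K.nu j s) * K.nu i s) fun s hs => ?_
  simp only [K.nu_bar _ s hs, map_mul, map_sum, map_intCast]

private theorem Za_uim (x : S → ℂ) (r : ι → ℝ) (j : ι) : (K.u j (x + K.tt r)).im = (K.u j x).im := by
  rw [u_add, Complex.add_im, Za_im, add_zero]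

theorem v_tt (x : S → ℂ) (r : ι → ℝ) (j : ι) : K.v j (x + K.tt r) = K.v j x := by
  unfold KD.v
  rw [Za_uim]

theorem q_tt (x : S → ℂ) (r : ι → ℝ) : K.q (x + K.tt r) = K.q x := by
  unfold KD.q
  simp only [Za_uim]

theorem tm_tt (c0 : ℂ) (m : ι → ℤ) (x : S → ℂ) (r : ι → ℝ) :
    K.tm c0 m (x + K.tt r) = K.tm c0 m x * exp (2 * Real.pi * I * ∑ i, (r i : ℂ) * (K.om m i : ℝ)) := by
  have h : ∑ j, (m j : ℂ) * K.u j (K.tt r) = ∑ i, (r i : ℂ) * (K.om m i : ℝ) := by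
    simp only [om_eq, Za_u]
    simp only [Finset.mul_sum, Finset.sum_mul]
    rw [Finset.sum_comm]
    have h1 : ∀ s : S, ∑ j, ∑ i, (m j : ℂ) * (K.nu j s * ((r i : ℂ) * K.nu i s)) =
        ∑ i, ∑ j, (r i : ℂ) * ((m j : ℂ) * K.nu j s * K.nu i s) := by
      intro s
      rw [Finset.sum_comm]
      refine Finset.sum_congr rfl fun i _ => Finset.sum_congr rfl fun j _ => ?_
      ring
    simp only [h1]
    rw [Finset.sum_comm]
  have h2 : ∑ j, (m j : ℂ) * K.u j (x + K.tt r) = ∑ j, (m j : ℂ) * K.u j x + ∑ i, (r i : ℂ) * (K.om m i : ℝ) := by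
    rw [← h, ← Finset.sum_add_distrib]
    refine Finset.sum_congr rfl fun j _ => ?_
    rw [u_add, mul_add]
  unfold KD.tm
  rw [h2, mul_add, Complex.exp_add, mul_assoc (K.am c0 m)]

theorem tt_le : ∃ C : ℝ, 1 ≤ C ∧ ∀ (r : ι → ℝ), ‖K.tt r‖ ≤ C * ‖r‖ := by
  have hnn : ∀ s : S, 0 ≤ (∑ i, ‖K.nu i s‖) / ‖K.z - K.ze s‖ := fun s => by positivity
  have hs0 : 0 ≤ ∑ s : S, (∑ i, ‖K.nu i s‖) / ‖K.z - K.ze s‖ := Finset.sum_nonneg fun s _ => hnn s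
  refine ⟨1 + ∑ s : S, (∑ i, ‖K.nu i s‖) / ‖K.z - K.ze s‖, by linarith, fun r => ?_⟩
  rw [pi_norm_le_iff_of_nonneg (by positivity)]
  intro s
  have hle : (∑ i, ‖K.nu i s‖) / ‖K.z - K.ze s‖ ≤ ∑ s : S, (∑ i, ‖K.nu i s‖) / ‖K.z - K.ze s‖ :=
    Finset.single_le_sum (f := fun s => (∑ i, ‖K.nu i s‖) / ‖K.z - K.ze s‖) (fun s _ => hnn s) (Finset.mem_univ s)
  unfold KD.tt
  split_ifs with h
  · rw [norm_zero]
    positivity
  · rw [norm_div]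
    have h1 : ‖∑ i, (r i : ℂ) * K.nu i s‖ ≤ ‖r‖ * ∑ i, ‖K.nu i s‖ := by
      rw [Finset.mul_sum]
      refine (norm_sum_le _ _).trans (Finset.sum_le_sum fun i _ => ?_)
      rw [norm_mul, Complex.norm_real]
      exact mul_le_mul_of_nonneg_right (norm_le_pi_norm r i) (norm_nonneg _)
    calc ‖∑ i, (r i : ℂ) * K.nu i s‖ / ‖K.z - K.ze s‖ ≤ (‖r‖ * ∑ i, ‖K.nu i s‖) / ‖K.z - K.ze s‖ :=
          div_le_div_of_nonneg_right h1 (norm_nonneg _)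
      _ = ((∑ i, ‖K.nu i s‖) / ‖K.z - K.ze s‖) * ‖r‖ := by ring
      _ ≤ (1 + ∑ s : S, (∑ i, ‖K.nu i s‖) / ‖K.z - K.ze s‖) * ‖r‖ :=
          mul_le_mul_of_nonneg_right (by linarith) (norm_nonneg _)

theorem bb_tt : ∃ C : ℝ, 1 ≤ C ∧ ∀ (x : S → ℂ) (r : ι → ℝ),
    ‖K.bb (x + K.tt r)‖ ≤ ‖K.bb x‖ + C * ‖r‖ := by
  obtain ⟨C, hC, h⟩ := tt_le K
  refine ⟨C, hC, fun x r => ?_⟩
  rw [bb_add]
  exact (norm_add_le _ _).trans (add_le_add_right ((bb_le K _).trans (h r)) _)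

end AZ
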