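import Pool.Agent.H60.AZ.Za

/-!
# Row Zb (MP_ede373, all algebraic points): the frequencies are not small

PROOF. Let `m ≠ 0`, `m^s = ∑_j m_j nu j s`, `m0 = ∑_j m_j nu0 j`, `|m|_1 = ∑ |m_j|`, `W = ‖om m‖` (maximum norm).
For `t ≠ o`: `∑_i om m i * nus i t = ∑_{s ≠ o} m^s ∑_i nu i s nus i t = m^t` (`om_eq`, `dual`). So `‖m^t‖ ≤ C W`, `C = ∑_i ∑_t ‖nus i t‖`.
`‖m^o‖ ≤ C |m|_1`, `‖m0‖ ≤ C |m|_1`. `hnorm`: `1 ≤ ‖m0‖ ‖m^o‖ ∏_{s ≠ o} ‖m^s‖ ≤ (C |m|_1)^2 (C W)^(card S - 1)`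
(`Finset.mul_prod_erase`, `card_erase_of_mem`).
-/

set_option autoImplicit false

namespace AZ

open Complex Finset

variable {S ι : Type} [Fintype S] [DecidableEq S] [Fintype ι] [DecidableEq ι] (K : KD S ι)

private theorem Zb_dual (m : ι → ℤ) (t : S) (ht : t ≠ K.o) :
    ∑ i, ((K.om m i : ℝ) : ℂ) * K.nus i t = ∑ j, (m j : ℂ) * K.nu j t := by
  have h1 : ∀ i, ((K.om m i : ℝ) : ℂ) * K.nus i t =
      ∑ s ∈ univ.erase K.o, (∑ j, (m j : ℂ) * K.nu j s) * (K.nu i s * K.nus i t) := by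
    intro i
    rw [om_eq, Finset.sum_mul]
    refine Finset.sum_congr rfl (fun s _ ↦ ?_)
    ring
  rw [Finset.sum_congr rfl (fun i _ ↦ h1 i), Finset.sum_comm]
  have h2 : ∀ s ∈ univ.erase K.o,
      ∑ i, (∑ j, (m j : ℂ) * K.nu j s) * (K.nu i s * K.nus i t) =
        if s = t then (∑ j, (m j : ℂ) * K.nu j s) else 0 := by
    intro s _
    rw [← Finset.mul_sum, K.dual s t]
    split_ifs <;> simp
  rw [Finset.sum_congr rfl h2, Finset.sum_ite_eq' (univ.erase K.o) t]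
  rw [if_pos (Finset.mem_erase.mpr ⟨ht, Finset.mem_univ t⟩)]

private theorem Zb_le (m : ι → ℤ) (f : ι → ℂ) :
    ‖∑ j, (m j : ℂ) * f j‖ ≤ (∑ j, ‖f j‖) * ∑ j, |(m j : ℝ)| := by
  refine (norm_sum_le _ _).trans ?_
  rw [Finset.sum_mul_sum, Finset.sum_comm]
  refine Finset.sum_le_sum (fun j _ ↦ ?_)
  have h1 : ‖(m j : ℂ) * f j‖ = ‖f j‖ * |(m j : ℝ)| := by
    rw [norm_mul, Complex.norm_intCast, mul_comm]
  rw [h1]
  exact Finset.single_le_sum (f := fun i ↦ ‖f i‖ * |(m j : ℝ)|)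
    (fun i _ ↦ mul_nonneg (norm_nonneg _) (abs_nonneg _)) (Finset.mem_univ j)

theorem gap : ∃ C : ℝ, 1 ≤ C ∧ ∀ m : ι → ℤ, m ≠ 0 →
    1 ≤ C * (∑ j, |(m j : ℝ)|) ^ 2 * ‖K.om m‖ ^ (Fintype.card S - 1) := by
  set D : ℝ := 1 + (∑ t, ∑ i, ‖K.nus i t‖) + (∑ j, ‖K.nu j K.o‖) + ∑ j, ‖K.nu0 j‖ with hD
  have hA : 0 ≤ ∑ t, ∑ i, ‖K.nus i t‖ :=
    Finset.sum_nonneg (fun t _ ↦ Finset.sum_nonneg (fun i _ ↦ norm_nonneg _))
  have hB : 0 ≤ ∑ j, ‖K.nu j K.o‖ := Finset.sum_nonneg (fun j _ ↦ norm_nonneg _)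
  have hE : 0 ≤ ∑ j, ‖K.nu0 j‖ := Finset.sum_nonneg (fun j _ ↦ norm_nonneg _)
  have hD1 : 1 ≤ D := by rw [hD]; linarith
  have hD0 : 0 ≤ D := by linarith
  refine ⟨D ^ 2 * D ^ (Fintype.card S - 1), ?_, ?_⟩
  · exact one_le_mul_of_one_le_of_one_le (one_le_pow₀ hD1) (one_le_pow₀ hD1)
  intro m hm
  set M : ℝ := ∑ j, |(m j : ℝ)| with hM
  have hM0 : 0 ≤ M := Finset.sum_nonneg (fun j _ ↦ abs_nonneg _)
  set W : ℝ := ‖K.om m‖ with hW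
  have hW0 : 0 ≤ W := norm_nonneg _
  have h0 : ‖∑ j, (m j : ℂ) * K.nu0 j‖ ≤ D * M := by
    refine (Zb_le m K.nu0).trans (mul_le_mul_of_nonneg_right ?_ hM0)
    rw [hD]; linarith
  have ho : ‖∑ j, (m j : ℂ) * K.nu j K.o‖ ≤ D * M := by
    refine (Zb_le m (fun j ↦ K.nu j K.o)).trans (mul_le_mul_of_nonneg_right ?_ hM0)
    rw [hD]; linarith
  have ht : ∀ t ∈ univ.erase K.o, ‖∑ j, (m j : ℂ) * K.nu j t‖ ≤ D * W := by
    intro t htm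
    have htne : t ≠ K.o := (Finset.mem_erase.mp htm).1
    rw [← Zb_dual K m t htne]
    refine (norm_sum_le _ _).trans ?_
    have h1 : ∀ i ∈ (univ : Finset ι), ‖((K.om m i : ℝ) : ℂ) * K.nus i t‖ ≤ ‖K.nus i t‖ * W := by
      intro i _
      rw [norm_mul, Complex.norm_real, mul_comm]
      exact mul_le_mul_of_nonneg_left (norm_le_pi_norm (K.om m) i) (norm_nonneg _)
    refine (Finset.sum_le_sum h1).trans ?_
    rw [← Finset.sum_mul]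
    refine mul_le_mul_of_nonneg_right ?_ hW0
    have h2 : ∑ i, ‖K.nus i t‖ ≤ ∑ t, ∑ i, ‖K.nus i t‖ :=
      Finset.single_le_sum (f := fun t ↦ ∑ i, ‖K.nus i t‖)
        (fun t _ ↦ Finset.sum_nonneg (fun i _ ↦ norm_nonneg _)) (Finset.mem_univ t)
    rw [hD]; linarith
  have hn := K.hnorm m hm
  rw [← Finset.mul_prod_erase univ (fun s ↦ ∑ j, (m j : ℂ) * K.nu j s) (Finset.mem_univ K.o),
    norm_mul, norm_mul, norm_prod] at hn
  have hp : ∏ s ∈ univ.erase K.o, ‖∑ j, (m j : ℂ) * K.nu j s‖ ≤ (D * W) ^ (Fintype.card S - 1) := by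
    refine (Finset.prod_le_prod (fun s _ ↦ norm_nonneg _) ht).trans ?_
    rw [Finset.prod_const, Finset.card_erase_of_mem (Finset.mem_univ _), Finset.card_univ]
  have hDM : 0 ≤ D * M := mul_nonneg hD0 hM0
  calc (1 : ℝ) ≤ _ := hn
    _ ≤ (D * M) * ((D * M) * (D * W) ^ (Fintype.card S - 1)) := by
        refine mul_le_mul h0 (mul_le_mul ho hp
          (Finset.prod_nonneg (fun s _ ↦ norm_nonneg _)) hDM)
          (mul_nonneg (norm_nonneg _) (Finset.prod_nonneg (fun s _ ↦ norm_nonneg _))) hDM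
    _ = _ := by
        rw [mul_pow D W]
        ring

end AZ
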