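import Mathlib

/-!
# Row Zc (MP_ede373, all algebraic points): Gaussian moments with a frequency, one variable

PROOF of `gauss1`. For complex `c`: `I(c) = ∫ exp(-b r^2 + c r) dr = sqrt(π/b) exp(c^2/(4b))`
(`integral_cexp_quadratic` / `integral_cexp_neg_mul_sq_add_const`...). `I` is entire and its `n`-th derivative at `c = 2πiw` is
`∫ r^n exp(-b r^2 + 2πi w r) dr`; Cauchy estimate on the circle `|c - 2πiw| = √b =: ρ`
(`Complex.norm_iteratedDeriv_le_of_forall_mem_sphere_norm_le`): `‖I^(n)(2πiw)‖ ≤ n! ρ^{-n} max |I|`, and for `c = 2πiw + ζ`, `|ζ| = ρ`: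
`Re c^2 = -4π²w² + Re(4πi w ζ) + Re ζ² ≤ -4π²w² + 4π|w|ρ + ρ²`, so `Re c²/(4b) ≤ -π²w²/b + π|w|/√b + 1/4 ≤ -π²w²/(2b) + 1/2 + 1/4`
(`xy ≤ x²/2 + y²/2` with `x = π|w|/√b`, `y = 1`), `exp(3/4) ≤ 3`.
To see that the `n`-th derivative is the integral one may avoid differentiation under the integral: prove by Fubini/Cauchy formula, or
use `n! c_n` = coefficient: `∫ exp(-b r²+ 2πi w r) exp(ζ r) dr = ∑_n ζ^n/n! ∫ r^n ...` (exchange of sum and integral,
`hasSum_integral_of_summable_integral_norm`, dominated by `exp(-b r² + |ζ| |r|)`), and compare with the Taylor series of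
`I(2πiw + ζ)`; or `hasDerivAt_integral_of_dominated_loc_of_deriv_le` inductively; or integrate by parts. Your choice.
`gauss_int`: integrability of `r^n exp(-b r²) exp(2πi w r)` (`integrable_rpow_mul_exp_neg_mul_sq` or
`integrable_mul_exp..`; norm is `|r|^n exp(-b r²)`).
-/

set_option autoImplicit false

namespace AZ

open Complex

open MeasureTheory

private theorem Zc_real_int {b : ℝ} (hb : 0 < b) (n : ℕ) :
    Integrable fun r : ℝ ↦ |r| ^ n * Real.exp (-b * r ^ 2) := by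
  have h := (integrable_rpow_mul_exp_neg_mul_sq hb (s := n)
    (by have : (0:ℝ) ≤ n := Nat.cast_nonneg n
        linarith)).norm
  refine h.congr (Filter.Eventually.of_forall fun r ↦ ?_)
  simp only [Real.rpow_natCast, norm_mul, norm_pow, Real.norm_eq_abs, Real.abs_exp]

/-- integrability of `|r|^n exp (K |r| - b r^2)` -/
private theorem Zc_dom_int {b : ℝ} (hb : 0 < b) (n : ℕ) (K : ℝ) :
    Integrable fun r : ℝ ↦ |r| ^ n * Real.exp (K * |r| - b * r ^ 2) := by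
  have hb2 : 0 < b / 2 := by linarith
  refine ((Zc_real_int hb2 n).const_mul (Real.exp (K ^ 2 / (2 * b)))).mono' ?_ ?_
  · exact (Continuous.aestronglyMeasurable (by fun_prop))
  · refine Filter.Eventually.of_forall fun r ↦ ?_
    rw [Real.norm_eq_abs, abs_of_nonneg (by positivity)]
    have h1 : K * |r| - b * r ^ 2 ≤ K ^ 2 / (2 * b) + -(b / 2) * r ^ 2 := by
      have h2 : K * |r| ≤ K ^ 2 / (2 * b) + b / 2 * |r| ^ 2 := by
        have h3 : 0 ≤ (K / b - |r|) ^ 2 * (b / 2) := by positivity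
        have h4 : (K / b - |r|) ^ 2 * (b / 2) = K ^ 2 / (2 * b) - K * |r| + b / 2 * |r| ^ 2 := by
          field_simp
          ring
        linarith
      rw [sq_abs] at h2
      linarith
    calc |r| ^ n * Real.exp (K * |r| - b * r ^ 2)
        ≤ |r| ^ n * Real.exp (K ^ 2 / (2 * b) + -(b / 2) * r ^ 2) := by gcongr
      _ = Real.exp (K ^ 2 / (2 * b)) * (|r| ^ n * Real.exp (-(b / 2) * r ^ 2)) := by
          rw [Real.exp_add]; ring

private noncomputable def Zc_F (b : ℝ) (n : ℕ) (c : ℂ) : ℂ :=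
  ∫ r : ℝ, (r : ℂ) ^ n * exp (-(b * (r : ℂ) ^ 2) + c * r)

private theorem Zc_norm (b : ℝ) (n : ℕ) (c : ℂ) (r : ℝ) :
    ‖(r : ℂ) ^ n * exp (-(b * (r : ℂ) ^ 2) + c * r)‖ ≤
      |r| ^ n * Real.exp (‖c‖ * |r| - b * r ^ 2) := by
  rw [norm_mul, norm_pow, norm_real, Real.norm_eq_abs, norm_exp]
  gcongr
  have h1 : (-(b * (r : ℂ) ^ 2) + c * r).re = -(b * r ^ 2) + c.re * r := by
    have : (-(b * (r : ℂ) ^ 2) + c * r) = ((-(b * r ^ 2) : ℝ) : ℂ) + c * (r : ℂ) := by push_cast; ring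
    rw [this, add_re, ofReal_re, re_mul_ofReal]
  rw [h1]
  have h2 : c.re * r ≤ ‖c‖ * |r| := by
    calc c.re * r ≤ |c.re * r| := le_abs_self _
      _ = |c.re| * |r| := abs_mul _ _
      _ ≤ ‖c‖ * |r| := by gcongr; exact abs_re_le_norm c
  linarith

private theorem Zc_cont (b : ℝ) (n : ℕ) (c : ℂ) :
    Continuous fun r : ℝ ↦ (r : ℂ) ^ n * exp (-(b * (r : ℂ) ^ 2) + c * r) := by
  fun_prop

private theorem Zc_int {b : ℝ} (hb : 0 < b) (n : ℕ) (c : ℂ) :
    Integrable fun r : ℝ ↦ (r : ℂ) ^ n * exp (-(b * (r : ℂ) ^ 2) + c * r) :=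
  (Zc_dom_int hb n ‖c‖).mono' (Zc_cont b n c).aestronglyMeasurable
    (Filter.Eventually.of_forall fun r ↦ Zc_norm b n c r)

private theorem Zc_deriv {b : ℝ} (hb : 0 < b) (n : ℕ) (c : ℂ) :
    HasDerivAt (Zc_F b n) (Zc_F b (n + 1) c) c := by
  have key := hasDerivAt_integral_of_dominated_loc_of_deriv_le (μ := volume) (𝕜 := ℂ)
    (F := fun (c : ℂ) (r : ℝ) ↦ (r : ℂ) ^ n * exp (-(b * (r : ℂ) ^ 2) + c * r))
    (F' := fun (c : ℂ) (r : ℝ) ↦ (r : ℂ) ^ (n + 1) * exp (-(b * (r : ℂ) ^ 2) + c * r))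
    (x₀ := c) (s := Metric.ball c 1)
    (bound := fun r ↦ |r| ^ (n + 1) * Real.exp ((‖c‖ + 1) * |r| - b * r ^ 2))
    (Metric.ball_mem_nhds c one_pos)
    (Filter.Eventually.of_forall fun x ↦ (Zc_cont b n x).aestronglyMeasurable)
    (Zc_int hb n c)
    (Zc_cont b (n + 1) c).aestronglyMeasurable
    (Filter.Eventually.of_forall fun r x hx ↦ ?_)
    (Zc_dom_int hb (n + 1) (‖c‖ + 1))
    (Filter.Eventually.of_forall fun r x hx ↦ ?_)
  · exact key.2
  · refine (Zc_norm b (n + 1) x r).trans ?_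
    have : ‖x‖ ≤ ‖c‖ + 1 := by
      have h1 : ‖x - c‖ < 1 := by simpa [dist_eq_norm] using hx
      calc ‖x‖ = ‖c + (x - c)‖ := by ring_nf
        _ ≤ ‖c‖ + ‖x - c‖ := norm_add_le _ _
        _ ≤ ‖c‖ + 1 := by linarith
    gcongr
  · have h1 : HasDerivAt (fun x : ℂ ↦ -(b * (r : ℂ) ^ 2) + x * r) (r : ℂ) x := by
      simpa using ((hasDerivAt_id x).mul_const (r : ℂ)).const_add (-(b * (r : ℂ) ^ 2))
    have h2 := (h1.cexp).const_mul ((r : ℂ) ^ n)
    refine h2.congr_deriv ?_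
    rw [pow_succ]; ring

private theorem Zc_iter {b : ℝ} (hb : 0 < b) (n : ℕ) :
    iteratedDeriv n (Zc_F b 0) = Zc_F b n := by
  induction n with
  | zero => simp
  | succ n ih =>
      rw [iteratedDeriv_succ, ih]
      funext c
      exact (Zc_deriv hb n c).deriv

private theorem Zc_zero {b : ℝ} (hb : 0 < b) (c : ℂ) :
    ‖Zc_F b 0 c‖ = Real.sqrt (Real.pi / b) * Real.exp ((c ^ 2).re / (4 * b)) := by
  have h := integral_cexp_quadratic (b := (-b : ℂ)) (by simpa using hb) c 0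
  have h1 : Zc_F b 0 c = ∫ x : ℝ, exp ((-b : ℂ) * x ^ 2 + c * x + 0) := by
    unfold Zc_F
    refine integral_congr_ae (Filter.Eventually.of_forall fun r ↦ ?_)
    simp only [pow_zero, one_mul, add_zero, neg_mul]
  rw [h1, h, norm_mul]
  congr 1
  · rw [neg_neg]
    have : ((Real.pi : ℂ) / (b : ℂ)) = ((Real.pi / b : ℝ) : ℂ) := by push_cast; ring
    rw [this, norm_cpow_eq_rpow_re_of_pos (by positivity), Real.sqrt_eq_rpow]
    norm_num
  · rw [norm_exp]
    congr 1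
    have : (0 - c ^ 2 / (4 * (-b : ℂ))) = c ^ 2 / ((4 * b : ℝ) : ℂ) := by
      push_cast
      rw [mul_neg, div_neg]
      ring
    rw [this, div_ofReal_re]

theorem gauss_int {b : ℝ} (hb : 0 < b) (n : ℕ) (w : ℝ) :
    MeasureTheory.Integrable fun r : ℝ ↦ (r : ℂ) ^ n *
      (exp (-(b * (r : ℂ) ^ 2)) * exp (2 * Real.pi * I * (r * w))) := by
  refine (Zc_int hb n (2 * Real.pi * I * w)).congr (Filter.Eventually.of_forall fun r ↦ ?_)
  simp only [← exp_add]
  ring_nf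

theorem gauss1 {b : ℝ} (hb : 0 < b) (n : ℕ) (w : ℝ) :
    ‖∫ r : ℝ, (r : ℂ) ^ n * (exp (-(b * (r : ℂ) ^ 2)) * exp (2 * Real.pi * I * (r * w)))‖ ≤
      3 * n.factorial * (Real.sqrt b)⁻¹ ^ n * Real.sqrt (Real.pi / b) *
        Real.exp (-(Real.pi ^ 2 * w ^ 2 / (2 * b))) := by
  set c₀ : ℂ := 2 * Real.pi * I * w with hc₀
  have h0 : ∫ r : ℝ, (r : ℂ) ^ n * (exp (-(b * (r : ℂ) ^ 2)) * exp (2 * Real.pi * I * (r * w))) =
      Zc_F b n c₀ := by
    unfold Zc_F
    refine integral_congr_ae (Filter.Eventually.of_forall fun r ↦ ?_)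
    simp only [← exp_add, hc₀]
    ring_nf
  rw [h0, ← Zc_iter hb n]
  have hρ : 0 < Real.sqrt b := Real.sqrt_pos.2 hb
  have hd : Differentiable ℂ (Zc_F b 0) := fun c ↦ (Zc_deriv hb 0 c).differentiableAt
  have key := Complex.norm_iteratedDeriv_le_of_forall_mem_sphere_norm_le (c := c₀)
    (R := Real.sqrt b) (C := 3 * Real.sqrt (Real.pi / b) * Real.exp (-(Real.pi ^ 2 * w ^ 2 / (2 * b))))
    (F := ℂ) (f := Zc_F b 0) n hρ hd.diffContOnCl ?_
  · refine key.trans (le_of_eq ?_)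
    rw [inv_pow]
    field_simp
  · intro z hz
    obtain ⟨ζ, hζ, rfl⟩ : ∃ ζ : ℂ, ‖ζ‖ = Real.sqrt b ∧ z = c₀ + ζ :=
      ⟨z - c₀, by simpa [dist_eq_norm] using hz, by ring⟩
    rw [Zc_zero hb]
    have hre : ((c₀ + ζ) ^ 2).re ≤ -(4 * Real.pi ^ 2 * w ^ 2) + 4 * Real.pi * |w| * Real.sqrt b + b := by
      have e1 : (c₀ + ζ) ^ 2 = ((-(4 * Real.pi ^ 2 * w ^ 2) : ℝ) : ℂ) + ((4 * Real.pi * w : ℝ) : ℂ) * (I * ζ)
          + ζ ^ 2 := by
        rw [hc₀]
        push_cast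
        linear_combination (4 * (Real.pi : ℂ) ^ 2 * (w : ℂ) ^ 2) * I_sq
      rw [e1, add_re, add_re, ofReal_re, re_ofReal_mul]
      have e2 : (I * ζ).re = -ζ.im := by simp
      have e3 : (ζ ^ 2).re ≤ b := by
        calc (ζ ^ 2).re ≤ ‖ζ ^ 2‖ := re_le_norm _
          _ = Real.sqrt b ^ 2 := by rw [norm_pow, hζ]
          _ = b := Real.sq_sqrt hb.le
      have e4 : 4 * Real.pi * w * (I * ζ).re ≤ 4 * Real.pi * |w| * Real.sqrt b := by
        rw [e2]
        have h1 : |ζ.im| ≤ Real.sqrt b := by rw [← hζ]; exact abs_im_le_norm ζ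
        calc 4 * Real.pi * w * -ζ.im = 4 * Real.pi * (w * -ζ.im) := by ring
          _ ≤ 4 * Real.pi * (|w| * Real.sqrt b) := by
              have h2 : w * -ζ.im ≤ |w| * Real.sqrt b := by
                calc w * -ζ.im ≤ |w * -ζ.im| := le_abs_self _
                  _ = |w| * |ζ.im| := by rw [abs_mul, abs_neg]
                  _ ≤ |w| * Real.sqrt b := by gcongr
              have := Real.pi_pos
              gcongr
          _ = _ := by ring
      linarith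
    have hx : ((c₀ + ζ) ^ 2).re / (4 * b) ≤ -(Real.pi ^ 2 * w ^ 2 / (2 * b)) + 3 / 4 := by
      rw [div_le_iff₀ (by positivity)]
      have hs : Real.sqrt b ^ 2 = b := Real.sq_sqrt hb.le
      have e5 : (-(Real.pi ^ 2 * w ^ 2 / (2 * b)) + 3 / 4) * (4 * b) =
          -(2 * Real.pi ^ 2 * w ^ 2) + 3 * b := by
        field_simp
        ring
      rw [e5]
      have e6 : 4 * Real.pi * |w| * Real.sqrt b ≤ 2 * Real.pi ^ 2 * w ^ 2 + 2 * b := by
        have h3 : 0 ≤ (Real.pi * |w| - Real.sqrt b) ^ 2 := sq_nonneg _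
        have h4 : (Real.pi * |w| - Real.sqrt b) ^ 2 =
            Real.pi ^ 2 * w ^ 2 - 2 * Real.pi * |w| * Real.sqrt b + b := by
          rw [sub_sq, mul_pow, sq_abs, hs]; ring
        linarith
      linarith
    have h34 : Real.exp (3 / 4) ≤ 3 := by
      have := Real.exp_one_lt_d9
      calc Real.exp (3 / 4) ≤ Real.exp 1 := Real.exp_le_exp.2 (by norm_num)
        _ ≤ 3 := by linarith
    calc Real.sqrt (Real.pi / b) * Real.exp (((c₀ + ζ) ^ 2).re / (4 * b))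
        ≤ Real.sqrt (Real.pi / b) * Real.exp (-(Real.pi ^ 2 * w ^ 2 / (2 * b)) + 3 / 4) := by gcongr
      _ = Real.exp (3 / 4) * (Real.sqrt (Real.pi / b) * Real.exp (-(Real.pi ^ 2 * w ^ 2 / (2 * b)))) := by
          rw [Real.exp_add]; ring
      _ ≤ 3 * (Real.sqrt (Real.pi / b) * Real.exp (-(Real.pi ^ 2 * w ^ 2 / (2 * b)))) := by gcongr
      _ = _ := by ring

end AZ
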