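import Pool.Agent.H60.AZ.Zc

/-!
# Row Zd (MP_ede373, all algebraic points): Gaussian moments of products of linear forms

Notation: `gk b ω r = exp(-b ∑ r_i²) exp(2πi ∑ r_i ω_i)` (definition below), `d = card ι`.

PROOF.
* monomials: `∏_i r_i^(ν_i) gk b ω r = ∏_i (r_i^(ν_i) exp(-b r_i²) exp(2πi r_i ω_i))`; `MeasureTheory.integral_fintype_prod_eq_prod`
  (volume on `ι → ℝ`), `Integrable.fintype_prod`, `gauss1`: norm of the integral
  `≤ ∏ (3 ν_i! (√b)^{-ν_i} √(π/b) exp(-π²ω_i²/(2b))) ≤ 3^d n! (√b)^{-n} √(π/b)^d exp(-π² ∑ω_i²/(2b))` with `n = ∑ ν_i`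
  (`∏ ν_i! ≤ (∑ ν_i)!`: `Nat.prod_factorial_dvd_factorial_sum`).
* products: by induction on `n` (all `ν`): for `A : Fin n → ℂ`, `B : Fin n → ι → ℂ`, `‖A l‖ + ∑_i ‖B l i‖ ≤ R`:
  `‖∫ ∏ r_i^(ν_i) ∏_l (A l + ∑_i B l i r_i) gk‖ ≤ R^n 3^d (n + ∑ν)! (√b)^{-(n+∑ν)} √(π/b)^d exp(..)`: split off the last factor,
  linearity; `A l` times (the case `n - 1`, same `ν`) plus `∑_i B l i` times (the case `n-1`, `ν + e_i`), and
  `(√b)^{-1} ≥ 1` (`b ≤ 1`), factorials monotone. Integrability by the same induction.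
-/

set_option autoImplicit false

namespace AZ

open Complex Finset

/-- The Gaussian with frequency. -/
noncomputable def gk {ι : Type} [Fintype ι] (b : ℝ) (ω : ι → ℝ) (r : ι → ℝ) : ℂ :=
  exp (-(b * ∑ i, (r i : ℂ) ^ 2)) * exp (2 * Real.pi * I * ∑ i, (r i : ℂ) * (ω i : ℂ))

variable {ι : Type} [Fintype ι] [DecidableEq ι]

theorem Zd_gk (b : ℝ) (ω r : ι → ℝ) :
    gk b ω r = ∏ i, (exp (-(b * (r i : ℂ) ^ 2)) * exp (2 * Real.pi * I * (r i * ω i))) := by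
  unfold gk
  rw [Finset.prod_mul_distrib, ← Complex.exp_sum, ← Complex.exp_sum, Finset.sum_neg_distrib,
    ← Finset.mul_sum, ← Finset.mul_sum]

theorem Zd_mono (b : ℝ) (ω r : ι → ℝ) (ν : ι → ℕ) :
    (∏ i, (r i : ℂ) ^ ν i) * gk b ω r =
      ∏ i, ((r i : ℂ) ^ ν i * (exp (-(b * (r i : ℂ) ^ 2)) * exp (2 * Real.pi * I * (r i * ω i)))) := by
  rw [Zd_gk, Finset.prod_mul_distrib (f := fun i => (r i : ℂ) ^ ν i)]

theorem Zd_mono_int {b : ℝ} (hb : 0 < b) (ω : ι → ℝ) (ν : ι → ℕ) :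
    MeasureTheory.Integrable fun r : ι → ℝ ↦ (∏ i, (r i : ℂ) ^ ν i) * gk b ω r := by
  have h : (fun r : ι → ℝ ↦ (∏ i, (r i : ℂ) ^ ν i) * gk b ω r) = fun r : ι → ℝ ↦
      ∏ i, ((r i : ℂ) ^ ν i * (exp (-(b * (r i : ℂ) ^ 2)) * exp (2 * Real.pi * I * (r i * ω i)))) := by
    funext r
    exact Zd_mono b ω r ν
  rw [h]
  exact MeasureTheory.Integrable.fintype_prod (fun i => gauss_int hb (ν i) (ω i))

theorem Zd_mono_le {b : ℝ} (hb : 0 < b) (ω : ι → ℝ) (ν : ι → ℕ) :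
    ‖∫ r : ι → ℝ, (∏ i, (r i : ℂ) ^ ν i) * gk b ω r‖ ≤
      3 ^ Fintype.card ι * (∑ i, ν i).factorial * (Real.sqrt b)⁻¹ ^ (∑ i, ν i) *
        Real.sqrt (Real.pi / b) ^ Fintype.card ι *
        Real.exp (-(Real.pi ^ 2 * (∑ i, ω i ^ 2) / (2 * b))) := by
  have h : (fun r : ι → ℝ ↦ (∏ i, (r i : ℂ) ^ ν i) * gk b ω r) = fun r : ι → ℝ ↦
      ∏ i, ((r i : ℂ) ^ ν i * (exp (-(b * (r i : ℂ) ^ 2)) * exp (2 * Real.pi * I * (r i * ω i)))) := by
    funext r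
    exact Zd_mono b ω r ν
  rw [h, MeasureTheory.integral_fintype_prod_volume_eq_prod (fun (i : ι) (x : ℝ) => (x : ℂ) ^ ν i *
    (exp (-(b * (x : ℂ) ^ 2)) * exp (2 * Real.pi * I * (x * ω i)))), norm_prod]
  refine (Finset.prod_le_prod (fun i _ => norm_nonneg _) (fun i _ => gauss1 hb (ν i) (ω i))).trans ?_
  rw [Finset.prod_mul_distrib, Finset.prod_mul_distrib, Finset.prod_mul_distrib, Finset.prod_mul_distrib,
    Finset.prod_const, Finset.prod_const, Finset.prod_pow_eq_pow_sum, ← Real.exp_sum, Finset.card_univ]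
  have e1 : ∑ i, -(Real.pi ^ 2 * ω i ^ 2 / (2 * b)) = -(Real.pi ^ 2 * (∑ i, ω i ^ 2) / (2 * b)) := by
    rw [Finset.sum_neg_distrib, Finset.mul_sum, Finset.sum_div]
  rw [e1]
  have e2 : (∏ i, ((ν i).factorial : ℝ)) ≤ ((∑ i, ν i).factorial : ℝ) := by
    have := Nat.le_of_dvd (Nat.factorial_pos _) (Nat.prod_factorial_dvd_factorial_sum Finset.univ ν)
    exact_mod_cast this
  have hs : 0 ≤ (Real.sqrt b)⁻¹ := inv_nonneg.2 (Real.sqrt_nonneg _)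
  gcongr

/-- raise the exponent of `i` by one -/
def Zd_up (ν : ι → ℕ) (i j : ι) : ℕ := ν j + if j = i then 1 else 0

theorem Zd_single (r : ι → ℝ) (ν : ι → ℕ) (i : ι) :
    (∏ j, (r j : ℂ) ^ ((Zd_up ν i) j)) = (∏ j, (r j : ℂ) ^ ν j) * r i := by
  have h1 : (∏ j, (r j : ℂ) ^ (if j = i then 1 else 0)) = r i := by
    rw [Finset.prod_eq_single i]
    · rw [if_pos rfl, pow_one]
    · intro j _ hj
      rw [if_neg hj, pow_zero]
    · intro h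
      exact absurd (Finset.mem_univ i) h
  unfold Zd_up
  simp only [pow_add]
  rw [Finset.prod_mul_distrib, h1]

theorem Zd_sum (ν : ι → ℕ) (i : ι) : ∑ j, (Zd_up ν i) j = ∑ j, ν j + 1 := by
  unfold Zd_up
  rw [Finset.sum_add_distrib]
  congr 1
  simp

theorem Zd_split {b : ℝ} (ω : ι → ℝ) (ν : ι → ℕ) (n : ℕ) (A : Fin (n + 1) → ℂ)
    (B : Fin (n + 1) → ι → ℂ) (r : ι → ℝ) :
    (∏ i, (r i : ℂ) ^ ν i) * (∏ l, (A l + ∑ i, B l i * (r i : ℂ))) * gk b ω r =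
      A 0 * ((∏ i, (r i : ℂ) ^ ν i) * (∏ l : Fin n, (A l.succ + ∑ i, B l.succ i * (r i : ℂ))) * gk b ω r) +
      ∑ i, B 0 i * ((∏ j, (r j : ℂ) ^ ((Zd_up ν i) j)) *
        (∏ l : Fin n, (A l.succ + ∑ i, B l.succ i * (r i : ℂ))) * gk b ω r) := by
  rw [Fin.prod_univ_succ]
  simp only [Zd_single]
  have h : ∑ i, B 0 i * ((∏ j, (r j : ℂ) ^ ν j) * (r i : ℂ) *
        (∏ l : Fin n, (A l.succ + ∑ i, B l.succ i * (r i : ℂ))) * gk b ω r) =
      (∑ i, B 0 i * (r i : ℂ)) * ((∏ j, (r j : ℂ) ^ ν j) *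
        (∏ l : Fin n, (A l.succ + ∑ i, B l.succ i * (r i : ℂ))) * gk b ω r) := by
    rw [Finset.sum_mul]
    exact Finset.sum_congr rfl fun i _ => by ring
  rw [h]
  ring

theorem Zd_int {b : ℝ} (hb : 0 < b) (ω : ι → ℝ) (n : ℕ) : ∀ (ν : ι → ℕ) (A : Fin n → ℂ)
    (B : Fin n → ι → ℂ), MeasureTheory.Integrable fun r : ι → ℝ ↦
      (∏ i, (r i : ℂ) ^ ν i) * (∏ l, (A l + ∑ i, B l i * (r i : ℂ))) * gk b ω r := by
  induction n with
  | zero =>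
    intro ν A B
    have h : (fun r : ι → ℝ ↦
      (∏ i, (r i : ℂ) ^ ν i) * (∏ l, (A l + ∑ i, B l i * (r i : ℂ))) * gk b ω r) =
      fun r : ι → ℝ ↦ (∏ i, (r i : ℂ) ^ ν i) * gk b ω r := by
      funext r
      rw [Fin.prod_univ_zero, mul_one]
    rw [h]
    exact Zd_mono_int hb ω ν
  | succ n ih =>
    intro ν A B
    have h := funext (fun r => Zd_split (b := b) ω ν n A B r)
    rw [h]
    refine ((ih ν (fun l => A l.succ) (fun l => B l.succ)).const_mul _).add ?_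
    exact MeasureTheory.integrable_finsetSum _ fun i _ =>
      (ih (Zd_up ν i) (fun l => A l.succ) (fun l => B l.succ)).const_mul _

theorem Zd_le {b : ℝ} (hb : 0 < b) (hb1 : b ≤ 1) (ω : ι → ℝ) (n : ℕ) : ∀ (ν : ι → ℕ) (A : Fin n → ℂ)
    (B : Fin n → ι → ℂ) (R : ℝ), (∀ l, ‖A l‖ + ∑ i, ‖B l i‖ ≤ R) → ‖∫ r : ι → ℝ,
      (∏ i, (r i : ℂ) ^ ν i) * (∏ l, (A l + ∑ i, B l i * (r i : ℂ))) * gk b ω r‖ ≤
      R ^ n * (3 ^ Fintype.card ι * (n + ∑ i, ν i).factorial * (Real.sqrt b)⁻¹ ^ (n + ∑ i, ν i) *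
        Real.sqrt (Real.pi / b) ^ Fintype.card ι *
        Real.exp (-(Real.pi ^ 2 * (∑ i, ω i ^ 2) / (2 * b)))) := by
  induction n with
  | zero =>
    intro ν A B R _
    have h : (fun r : ι → ℝ ↦
      (∏ i, (r i : ℂ) ^ ν i) * (∏ l, (A l + ∑ i, B l i * (r i : ℂ))) * gk b ω r) =
      fun r : ι → ℝ ↦ (∏ i, (r i : ℂ) ^ ν i) * gk b ω r := by
      funext r
      rw [Fin.prod_univ_zero, mul_one]
    rw [h, pow_zero, one_mul, Nat.zero_add]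
    exact Zd_mono_le hb ω ν
  | succ n ih =>
    intro ν A B R hR
    have h := funext (fun r => Zd_split (b := b) ω ν n A B r)
    have hi := Zd_int hb ω n
    rw [h, MeasureTheory.integral_add ((hi ν (fun l => A l.succ) (fun l => B l.succ)).const_mul _)
      (MeasureTheory.integrable_finsetSum _ fun i _ =>
        (hi (Zd_up ν i) (fun l => A l.succ) (fun l => B l.succ)).const_mul _),
      MeasureTheory.integral_finsetSum _ (fun i _ =>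
        (hi (Zd_up ν i) (fun l => A l.succ) (fun l => B l.succ)).const_mul _),
      MeasureTheory.integral_const_mul]
    simp only [MeasureTheory.integral_const_mul]
    have hR' : ∀ l : Fin n, ‖A l.succ‖ + ∑ i, ‖B l.succ i‖ ≤ R := fun l => hR l.succ
    have hR0 : 0 ≤ R := le_trans (add_nonneg (norm_nonneg _)
      (Finset.sum_nonneg fun i _ => norm_nonneg _)) (hR 0)
    have hs : 1 ≤ (Real.sqrt b)⁻¹ := by
      refine (one_le_inv₀ (Real.sqrt_pos.2 hb)).2 ?_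
      rw [Real.sqrt_le_one]
      exact hb1
    have hs0 : 0 ≤ (Real.sqrt b)⁻¹ := zero_le_one.trans hs
    obtain ⟨G, hG⟩ : ∃ G : ℝ, G = R ^ n * (3 ^ Fintype.card ι * (n + 1 + ∑ i, ν i).factorial *
        (Real.sqrt b)⁻¹ ^ (n + 1 + ∑ i, ν i) * Real.sqrt (Real.pi / b) ^ Fintype.card ι *
        Real.exp (-(Real.pi ^ 2 * (∑ i, ω i ^ 2) / (2 * b)))) := ⟨_, rfl⟩
    have hG0 : 0 ≤ G := by
      rw [hG]
      positivity
    have h1 : ‖∫ r : ι → ℝ, (∏ i, (r i : ℂ) ^ ν i) *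
        (∏ l : Fin n, (A l.succ + ∑ i, B l.succ i * (r i : ℂ))) * gk b ω r‖ ≤ G := by
      refine (ih ν (fun l => A l.succ) (fun l => B l.succ) R hR').trans ?_
      rw [hG]
      have e1 : ((n + ∑ i, ν i).factorial : ℝ) ≤ ((n + 1 + ∑ i, ν i).factorial : ℝ) := by
        exact_mod_cast Nat.factorial_le (by omega)
      have e2 : (Real.sqrt b)⁻¹ ^ (n + ∑ i, ν i) ≤ (Real.sqrt b)⁻¹ ^ (n + 1 + ∑ i, ν i) :=
        pow_le_pow_right₀ hs (by omega)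
      gcongr
    have h2 : ∀ i, ‖∫ r : ι → ℝ, (∏ j, (r j : ℂ) ^ ((Zd_up ν i) j)) *
        (∏ l : Fin n, (A l.succ + ∑ i, B l.succ i * (r i : ℂ))) * gk b ω r‖ ≤ G := by
      intro i
      refine (ih (Zd_up ν i) (fun l => A l.succ) (fun l => B l.succ) R hR').trans ?_
      rw [hG, Zd_sum, show n + (∑ j, ν j + 1) = n + 1 + ∑ j, ν j by ring]
    have h3 : (‖A 0‖ + ∑ i, ‖B 0 i‖) * G ≤ R * G := mul_le_mul_of_nonneg_right (hR 0) hG0
    have h4 : R * G = R ^ (n + 1) * (3 ^ Fintype.card ι * (n + 1 + ∑ i, ν i).factorial *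
        (Real.sqrt b)⁻¹ ^ (n + 1 + ∑ i, ν i) * Real.sqrt (Real.pi / b) ^ Fintype.card ι *
        Real.exp (-(Real.pi ^ 2 * (∑ i, ω i ^ 2) / (2 * b)))) := by
      rw [hG]
      ring
    rw [← h4]
    refine le_trans ?_ h3
    rw [add_mul, Finset.sum_mul]
    refine (norm_add_le _ _).trans (add_le_add ?_ ?_)
    · rw [norm_mul]
      exact mul_le_mul_of_nonneg_left h1 (norm_nonneg _)
    · refine (norm_sum_le _ _).trans (Finset.sum_le_sum fun i _ => ?_)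
      rw [norm_mul]
      exact mul_le_mul_of_nonneg_left (h2 i) (norm_nonneg _)

theorem gk_int {b : ℝ} (hb : 0 < b) (ω : ι → ℝ) (n : ℕ) (A : Fin n → ℂ) (B : Fin n → ι → ℂ) :
    MeasureTheory.Integrable fun r : ι → ℝ ↦ (∏ l, (A l + ∑ i, B l i * (r i : ℂ))) * gk b ω r := by
  have h := Zd_int hb ω n (fun _ => 0) A B
  simpa using h

theorem gaussN {b : ℝ} (hb : 0 < b) (hb1 : b ≤ 1) (ω : ι → ℝ) (n : ℕ) (A : Fin n → ℂ)
    (B : Fin n → ι → ℂ) (R : ℝ) (hR : ∀ l, ‖A l‖ + ∑ i, ‖B l i‖ ≤ R) :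
    ‖∫ r : ι → ℝ, (∏ l, (A l + ∑ i, B l i * (r i : ℂ))) * gk b ω r‖ ≤
      3 ^ Fintype.card ι * n.factorial * (R * (Real.sqrt b)⁻¹) ^ n *
        Real.sqrt (Real.pi / b) ^ Fintype.card ι *
        Real.exp (-(Real.pi ^ 2 * (∑ i, ω i ^ 2) / (2 * b))) := by
  have h := Zd_le hb hb1 ω n (fun _ => 0) A B R hR
  simp only [pow_zero, Finset.prod_const_one, one_mul, Finset.sum_const_zero, add_zero] at h
  refine h.trans (le_of_eq ?_)
  rw [mul_pow]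
  ring

/-- The integral of the Gaussian. -/
theorem gk_one {b : ℝ} (hb : 0 < b) :
    ∫ r : ι → ℝ, gk b 0 r = (Real.sqrt (Real.pi / b) : ℂ) ^ Fintype.card ι := by
  have h : (fun r : ι → ℝ ↦ gk b 0 r) = fun r : ι → ℝ ↦
      ∏ i, ((Real.exp (-b * (r i) ^ 2) : ℝ) : ℂ) := by
    funext r
    rw [Zd_gk]
    refine Finset.prod_congr rfl fun i _ => ?_
    push_cast
    simp
  rw [h, MeasureTheory.integral_fintype_prod_volume_eq_prod (fun (_ : ι) (x : ℝ) =>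
    ((Real.exp (-b * x ^ 2) : ℝ) : ℂ)), Finset.prod_const, Finset.card_univ]
  congr 1
  rw [integral_complex_ofReal, integral_gaussian]

end AZ
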