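import Pool.Agent.H60.AZ.Zd

/-!
# Row Zd2 (MP_ede373, all algebraic points): products with exponents

PROOF. A product `∏_{s : S} (A s + ∑_i B s i r_i)^(κ s)` is a product over `Fin n`, `n = ∑ κ s`, of linear forms: use the finite type
`Σ s : S, Fin (κ s)` with `Fintype.card = ∑ κ s` (`Fintype.card_sigma`) and an equivalence with `Fin n` (`Fintype.equivFin`),
`Finset.prod_sigma`/`Fintype.prod_sigma`, `prod_const`. Then `gk_int` and `gaussN`.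
-/

set_option autoImplicit false

namespace AZ

open Complex Finset

variable {S ι : Type} [Fintype S] [DecidableEq S] [Fintype ι] [DecidableEq ι]

private theorem Zd2_equiv (κ : S → ℕ) :
    ∃ g : Fin (∑ s, κ s) → S, ∀ f : S → ℂ, ∏ l, f (g l) = ∏ s, f s ^ κ s := by
  have hc : Fintype.card (Σ s : S, Fin (κ s)) = ∑ s, κ s := by
    rw [Fintype.card_sigma]
    exact Finset.sum_congr rfl fun s _ => Fintype.card_fin _
  refine ⟨fun l => ((Fintype.equivFinOfCardEq hc).symm l).1, fun f => ?_⟩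
  rw [Equiv.prod_comp (Fintype.equivFinOfCardEq hc).symm (fun x => f x.1), Fintype.prod_sigma]
  refine Finset.prod_congr rfl fun s _ => ?_
  simp

theorem gk_int' {b : ℝ} (hb : 0 < b) (ω : ι → ℝ) (κ : S → ℕ) (A : S → ℂ) (B : S → ι → ℂ) :
    MeasureTheory.Integrable fun r : ι → ℝ ↦ (∏ s, (A s + ∑ i, B s i * (r i : ℂ)) ^ κ s) * gk b ω r := by
  obtain ⟨g, hg⟩ := Zd2_equiv κ
  have h := gk_int hb ω (∑ s, κ s) (fun l => A (g l)) (fun l => B (g l))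
  have h2 : (fun r : ι → ℝ ↦ (∏ s, (A s + ∑ i, B s i * (r i : ℂ)) ^ κ s) * gk b ω r) =
      fun r : ι → ℝ ↦ (∏ l, (A (g l) + ∑ i, B (g l) i * (r i : ℂ))) * gk b ω r := by
    funext r
    rw [hg fun s => A s + ∑ i, B s i * (r i : ℂ)]
  rw [h2]
  exact h

theorem gaussN' {b : ℝ} (hb : 0 < b) (hb1 : b ≤ 1) (ω : ι → ℝ) (κ : S → ℕ) (A : S → ℂ)
    (B : S → ι → ℂ) (R : ℝ) (hR : ∀ s, ‖A s‖ + ∑ i, ‖B s i‖ ≤ R) :
    ‖∫ r : ι → ℝ, (∏ s, (A s + ∑ i, B s i * (r i : ℂ)) ^ κ s) * gk b ω r‖ ≤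
      3 ^ Fintype.card ι * (∑ s, κ s).factorial * (R * (Real.sqrt b)⁻¹) ^ (∑ s, κ s) *
        Real.sqrt (Real.pi / b) ^ Fintype.card ι *
        Real.exp (-(Real.pi ^ 2 * (∑ i, ω i ^ 2) / (2 * b))) := by
  obtain ⟨g, hg⟩ := Zd2_equiv κ
  have h := gaussN hb hb1 ω (∑ s, κ s) (fun l => A (g l)) (fun l => B (g l)) R fun l => hR (g l)
  have h2 : (fun r : ι → ℝ ↦ (∏ s, (A s + ∑ i, B s i * (r i : ℂ)) ^ κ s) * gk b ω r) =
      fun r : ι → ℝ ↦ (∏ l, (A (g l) + ∑ i, B (g l) i * (r i : ℂ))) * gk b ω r := by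
    funext r
    rw [hg fun s => A s + ∑ i, B s i * (r i : ℂ)]
  rw [h2]
  exact h

end AZ
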