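import Mathlib

/-!
# Row Ze (MP_ede373, all algebraic points): the main term

Pure algebra. `S` finite, `Kc = card S`. `E : (S → ℕ) → ℂ` with `E 0 = 1` and `‖E n‖ ≤ w^(∑ n s)` for `n ≤ Q`. Let
`p(x) = ∑_κ c κ ∑_{n ≤ κ} ∏_s binom(κ s, n s) x_s^(κ s - n s) E n`.

PROOF. Let `κ*` maximise `‖c κ‖ W0^(∑ κ s)` (finite set, `Finset.exists_max_image`). Since some `‖c κ‖ = 1` and `W0 ≥ 1`:
`‖c κ*‖ W0^(∑ κ*) ≥ 1`, so `‖c κ*‖ ≥ W0^{-(∑κ*)} ≥ W0^{-Kc Q}`. The coefficient of `x^(κ*)` in `p` is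
`a* = ∑_{κ ≥ κ*} c κ ∏ binom(κ s, κ s - κ* s) E(κ - κ*)`, and `binom(κ s, κ s - κ* s) ≤ Q^(κ s - κ* s)`
(`Nat.choose_le_pow`-type, `κ s ≤ Q`), `‖c κ‖ ≤ ‖c κ*‖ W0^(∑κ* - ∑κ)` so
`‖a* - c κ*‖ ≤ ‖c κ*‖ ∑_{κ > κ*} (Q w/W0)^(∑(κ - κ*)) ≤ ‖c κ*‖ ((∑_{n ≤ Q} (1/(4 Kc))^n)^Kc - 1) ≤ ‖c κ*‖ ((1 - 1/(4Kc))^{-Kc} - 1) ≤ ‖c κ*‖/2`
(`(1 - y)^{Kc} ≥ 1 - Kc y = 3/4`, Bernoulli). So `‖a*‖ ≥ ‖c κ*‖/2`.
Extraction: for `p(x) = ∑_{l : S → Fin (Q+1)} a l ∏ x_s^(l s)`: with `ω = exp(2πi/(Q+1))`, average over `k : S → Fin (Q+1)` of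
`∏ (ω^(k s))^(-(l* s)) p(ω^k)` is exactly `a l*` (orthogonality, `|l s - l* s| ≤ Q`), so `‖a l*‖ ≤ max_k ‖p(ω^k)‖`: this is `coeff_le`.
-/

set_option autoImplicit false

namespace AZ

open Complex Finset

variable {S : Type} [Fintype S] [DecidableEq S]

omit [Fintype S] [DecidableEq S] in
theorem ze_rootsum (M : ℕ) (hM : 0 < M) (ζ : ℂ) (hz : IsPrimitiveRoot ζ M) (k l : Fin M) :
    ∑ j : Fin M, (ζ⁻¹ ^ (j : ℕ)) ^ (l : ℕ) * (ζ ^ (j : ℕ)) ^ (k : ℕ) =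
      if k = l then (M : ℂ) else 0 := by
  have h0 : ζ ≠ 0 := hz.ne_zero (by omega)
  have h1 : ∀ j : Fin M, (ζ⁻¹ ^ (j : ℕ)) ^ (l : ℕ) * (ζ ^ (j : ℕ)) ^ (k : ℕ) =
      (ζ⁻¹ ^ (l : ℕ) * ζ ^ (k : ℕ)) ^ (j : ℕ) := by
    intro j
    rw [mul_pow, ← pow_mul, ← pow_mul, ← pow_mul, ← pow_mul, mul_comm (l : ℕ), mul_comm (k : ℕ)]
  rw [Finset.sum_congr rfl fun j _ ↦ h1 j]
  set v : ℂ := ζ⁻¹ ^ (l : ℕ) * ζ ^ (k : ℕ) with hv
  rw [Fin.sum_univ_eq_sum_range (fun j ↦ v ^ j) M]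
  have hvM : v ^ M = 1 := by
    rw [hv, mul_pow, ← pow_mul, ← pow_mul, mul_comm (l : ℕ), mul_comm (k : ℕ), pow_mul, pow_mul, inv_pow,
      hz.pow_eq_one]
    simp
  by_cases hkl : k = l
  · rw [if_pos hkl]
    have : v = 1 := by
      rw [hv, hkl, inv_pow]
      exact inv_mul_cancel₀ (pow_ne_zero _ h0)
    simp [this]
  · rw [if_neg hkl]
    have hv1 : v ≠ 1 := by
      intro h
      apply hkl
      have h2 : ζ ^ (k : ℕ) = ζ ^ (l : ℕ) := by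
        have h3 : ζ ^ (l : ℕ) * v = ζ ^ (k : ℕ) := by
          rw [hv, inv_pow, ← mul_assoc, mul_inv_cancel₀ (pow_ne_zero _ h0), one_mul]
        rw [← h3, h, mul_one]
      exact Fin.ext (hz.pow_inj k.2 l.2 h2)
    have h4 := mul_neg_geom_sum v M
    rw [hvM, sub_self] at h4
    rcases mul_eq_zero.mp h4 with h5 | h5
    · exact absurd (sub_eq_zero.mp h5).symm hv1
    · exact h5

theorem coeff_le (Q : ℕ) (a : (S → Fin (Q + 1)) → ℂ) (l : S → Fin (Q + 1)) :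
    ∃ x : S → ℂ, (∀ s, ‖x s‖ = 1) ∧ ‖a l‖ ≤ ‖∑ k, a k * ∏ s, x s ^ (k s : ℕ)‖ := by
  obtain ⟨ζ, hz⟩ : ∃ ζ : ℂ, IsPrimitiveRoot ζ (Q + 1) :=
    ⟨_, Complex.isPrimitiveRoot_exp (Q + 1) (by omega)⟩
  have hn : ‖ζ‖ = 1 := hz.norm'_eq_one (by omega)
  by_contra hcon
  push Not at hcon
  have key : ∑ j : S → Fin (Q + 1), (∏ s, (ζ⁻¹ ^ (j s : ℕ)) ^ (l s : ℕ)) *
      ∑ k, a k * ∏ s, (ζ ^ (j s : ℕ)) ^ (k s : ℕ) =
      ((Q + 1 : ℕ) : ℂ) ^ (Fintype.card S) * a l := by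
    calc ∑ j : S → Fin (Q + 1), (∏ s, (ζ⁻¹ ^ (j s : ℕ)) ^ (l s : ℕ)) *
          ∑ k, a k * ∏ s, (ζ ^ (j s : ℕ)) ^ (k s : ℕ)
        = ∑ j : S → Fin (Q + 1), ∑ k, a k * ∏ s, ((ζ⁻¹ ^ (j s : ℕ)) ^ (l s : ℕ) *
          (ζ ^ (j s : ℕ)) ^ (k s : ℕ)) := by
          refine Finset.sum_congr rfl fun j _ ↦ ?_
          rw [Finset.mul_sum]
          refine Finset.sum_congr rfl fun k _ ↦ ?_
          rw [Finset.prod_mul_distrib]
          ring
      _ = ∑ k, a k * ∑ j : S → Fin (Q + 1), ∏ s, ((ζ⁻¹ ^ (j s : ℕ)) ^ (l s : ℕ) *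
          (ζ ^ (j s : ℕ)) ^ (k s : ℕ)) := by
          rw [Finset.sum_comm]
          refine Finset.sum_congr rfl fun k _ ↦ ?_
          rw [Finset.mul_sum]
      _ = ∑ k, a k * ∏ s, (if k s = l s then ((Q + 1 : ℕ) : ℂ) else 0) := by
          refine Finset.sum_congr rfl fun k _ ↦ ?_
          congr 1
          have h1 : ∀ s, (if k s = l s then ((Q + 1 : ℕ) : ℂ) else 0) =
              ∑ j : Fin (Q + 1), (ζ⁻¹ ^ (j : ℕ)) ^ (l s : ℕ) * (ζ ^ (j : ℕ)) ^ (k s : ℕ) :=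
            fun s ↦ (ze_rootsum (Q + 1) (by omega) ζ hz (k s) (l s)).symm
          rw [Finset.prod_congr rfl fun s _ ↦ h1 s, Finset.prod_univ_sum, Fintype.piFinset_univ]
      _ = ((Q + 1 : ℕ) : ℂ) ^ (Fintype.card S) * a l := by
          rw [Finset.sum_eq_single l]
          · rw [Finset.prod_congr rfl fun s _ ↦ if_pos rfl, Finset.prod_const, Finset.card_univ]
            ring
          · intro k _ hk
            obtain ⟨s, hs⟩ := Function.ne_iff.mp hk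
            rw [Finset.prod_eq_zero (Finset.mem_univ s) (if_neg hs), mul_zero]
          · intro h
            exact absurd (Finset.mem_univ l) h
  have h1 : ‖((Q + 1 : ℕ) : ℂ) ^ (Fintype.card S) * a l‖ =
      ((Q + 1 : ℕ) : ℝ) ^ (Fintype.card S) * ‖a l‖ := by
    rw [norm_mul, norm_pow, Complex.norm_natCast]
  have h2 : ‖∑ j : S → Fin (Q + 1), (∏ s, (ζ⁻¹ ^ (j s : ℕ)) ^ (l s : ℕ)) *
      ∑ k, a k * ∏ s, (ζ ^ (j s : ℕ)) ^ (k s : ℕ)‖ < ∑ _j : S → Fin (Q + 1), ‖a l‖ := by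
    refine lt_of_le_of_lt (norm_sum_le _ _) ?_
    refine Finset.sum_lt_sum_of_nonempty ⟨l, Finset.mem_univ l⟩ fun j _ ↦ ?_
    rw [norm_mul]
    have h3 : ‖∏ s, (ζ⁻¹ ^ (j s : ℕ)) ^ (l s : ℕ)‖ = 1 := by
      rw [norm_prod]
      refine Finset.prod_eq_one fun s _ ↦ ?_
      rw [norm_pow, norm_pow, norm_inv, hn]
      simp
    rw [h3, one_mul]
    exact hcon (fun s ↦ ζ ^ (j s : ℕ)) fun s ↦ by rw [norm_pow, hn, one_pow]
  rw [key, h1, Finset.sum_const, Finset.card_univ, Fintype.card_fun, Fintype.card_fin, nsmul_eq_mul,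
    Nat.cast_pow] at h2
  exact lt_irrefl _ h2

omit [Fintype S] [DecidableEq S] in
theorem ze_geo (y : ℝ) (hy0 : 0 ≤ y) (hy1 : y < 1) (Q m : ℕ) :
    ∑ j : Fin (Q + 1), (if m ≤ (j : ℕ) then y ^ ((j : ℕ) - m) else 0) ≤ (1 - y)⁻¹ := by
  have h1 : ∀ n, ∑ j ∈ range n, (if m ≤ j then y ^ (j - m) else 0) = ∑ i ∈ range (n - m), y ^ i := by
    intro n
    induction n with
    | zero => simp
    | succ n ih =>
      rw [Finset.sum_range_succ, ih]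
      by_cases h : m ≤ n
      · rw [if_pos h, show n + 1 - m = (n - m) + 1 by omega, Finset.sum_range_succ]
      · rw [if_neg h, add_zero, show n + 1 - m = 0 by omega, show n - m = 0 by omega]
  rw [Fin.sum_univ_eq_sum_range (fun j ↦ if m ≤ j then y ^ (j - m) else 0) (Q + 1), h1]
  have h2 := mul_neg_geom_sum y (Q + 1 - m)
  rw [← one_div, le_div_iff₀ (by linarith)]
  nlinarith [pow_nonneg hy0 (Q + 1 - m)]

theorem ze_expand (Q : ℕ) (E : (S → ℕ) → ℂ) (κ : S → Fin (Q + 1)) (x : S → ℂ) :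
    (∑ n ∈ Fintype.piFinset fun s ↦ range ((κ s : ℕ) + 1),
        (∏ s, ((κ s : ℕ).choose (n s) : ℂ) * x s ^ ((κ s : ℕ) - n s)) * E n) =
    ∑ l : S → Fin (Q + 1), (if ∀ s, (l s : ℕ) ≤ κ s then
      ((∏ s, ((κ s : ℕ).choose ((κ s : ℕ) - l s) : ℂ)) * E (fun s ↦ (κ s : ℕ) - l s)) *
        ∏ s, x s ^ (l s : ℕ) else 0) := by
  classical
  rw [← Finset.sum_filter]
  refine Finset.sum_bij' (fun n _ ↦ fun s ↦ (⟨(κ s : ℕ) - n s, by
      have := (κ s).2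
      omega⟩ : Fin (Q + 1))) (fun l _ ↦ fun s ↦ (κ s : ℕ) - l s) ?_ ?_ ?_ ?_ ?_
  · intro n hn
    rw [Finset.mem_filter]
    refine ⟨Finset.mem_univ _, fun s ↦ ?_⟩
    exact Nat.sub_le _ _
  · intro l hl
    rw [Fintype.mem_piFinset]
    intro s
    rw [Finset.mem_range]
    omega
  · intro n hn
    rw [Fintype.mem_piFinset] at hn
    funext s
    have := hn s
    rw [Finset.mem_range] at this
    show (κ s : ℕ) - ((κ s : ℕ) - n s) = n s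
    omega
  · intro l hl
    rw [Finset.mem_filter] at hl
    funext s
    have := hl.2 s
    apply Fin.ext
    show (κ s : ℕ) - ((κ s : ℕ) - l s) = l s
    omega
  · intro n hn
    rw [Fintype.mem_piFinset] at hn
    have h1 : ∀ s, (κ s : ℕ) - ((κ s : ℕ) - n s) = n s := by
      intro s
      have := hn s
      rw [Finset.mem_range] at this
      omega
    rw [Finset.prod_mul_distrib]
    simp only [h1]
    ring

theorem main_term (Q : ℕ) (w W0 : ℝ) (c : (S → Fin (Q + 1)) → ℂ) (E : (S → ℕ) → ℂ) (hw : 0 ≤ w)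
    (hE0 : E 0 = 1) (hE : ∀ n : S → ℕ, (∀ s, n s ≤ Q) → ‖E n‖ ≤ w ^ ∑ s, n s) (hW : 1 ≤ W0)
    (hW' : 4 * Fintype.card S * Q * w ≤ W0) (hc1 : ∃ κ, ‖c κ‖ = 1) :
    ∃ x : S → ℂ, (∀ s, ‖x s‖ = 1) ∧ (1 / 2) * (W0 ^ (Fintype.card S * Q))⁻¹ ≤
      ‖∑ κ, c κ * ∑ n ∈ Fintype.piFinset fun s ↦ range ((κ s : ℕ) + 1),
        (∏ s, ((κ s : ℕ).choose (n s) : ℂ) * x s ^ ((κ s : ℕ) - n s)) * E n‖ := by
  classical
  have hW0 : 0 < W0 := by linarith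
  obtain ⟨κ1, hκ1⟩ := hc1
  obtain ⟨κs, -, hmax⟩ := Finset.exists_max_image (Finset.univ : Finset (S → Fin (Q + 1)))
    (fun κ ↦ ‖c κ‖ * W0 ^ (∑ s, (κ s : ℕ))) ⟨κ1, Finset.mem_univ _⟩
  have hmax' : ∀ κ, ‖c κ‖ * W0 ^ (∑ s, (κ s : ℕ)) ≤ ‖c κs‖ * W0 ^ (∑ s, (κs s : ℕ)) :=
    fun κ ↦ hmax κ (Finset.mem_univ _)
  set a : (S → Fin (Q + 1)) → ℂ := fun l ↦ ∑ κ : S → Fin (Q + 1), (if ∀ s, (l s : ℕ) ≤ κ s then
      c κ * ((∏ s, ((κ s : ℕ).choose ((κ s : ℕ) - l s) : ℂ)) * E (fun s ↦ (κ s : ℕ) - l s)) else 0)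
    with ha
  have hid : ∀ x : S → ℂ, (∑ κ, c κ * ∑ n ∈ Fintype.piFinset fun s ↦ range ((κ s : ℕ) + 1),
        (∏ s, ((κ s : ℕ).choose (n s) : ℂ) * x s ^ ((κ s : ℕ) - n s)) * E n) =
      ∑ l, a l * ∏ s, x s ^ (l s : ℕ) := by
    intro x
    have h1 : ∀ l, a l * ∏ s, x s ^ (l s : ℕ) = ∑ κ : S → Fin (Q + 1),
        c κ * (if ∀ s, (l s : ℕ) ≤ κ s then
          ((∏ s, ((κ s : ℕ).choose ((κ s : ℕ) - l s) : ℂ)) * E (fun s ↦ (κ s : ℕ) - l s)) *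
          ∏ s, x s ^ (l s : ℕ) else 0) := by
      intro l
      rw [ha, Finset.sum_mul]
      refine Finset.sum_congr rfl fun κ _ ↦ ?_
      split_ifs
      · ring
      · ring
    rw [Finset.sum_congr rfl fun l _ ↦ h1 l, Finset.sum_comm]
    refine Finset.sum_congr rfl fun κ _ ↦ ?_
    rw [ze_expand Q E κ x, Finset.mul_sum]
  set K : ℕ := Fintype.card S with hK
  set y : ℝ := (4 * (K : ℝ))⁻¹ with hy
  have hy0 : 0 ≤ y := by positivity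
  have hKy : (K : ℝ) * y ≤ 1 / 4 := by
    rcases Nat.eq_zero_or_pos K with h | h
    · rw [h]
      norm_num
    · have : (0 : ℝ) < K := by exact_mod_cast h
      rw [hy]
      field_simp
      exact le_refl _
  have hy1 : y ≤ 1 / 4 := by
    rcases Nat.eq_zero_or_pos K with h | h
    · rw [hy, h]
      norm_num
    · have : (1 : ℝ) ≤ K := by exact_mod_cast h
      nlinarith
  set g : (S → Fin (Q + 1)) → ℝ := fun κ ↦ ∏ s, (if (κs s : ℕ) ≤ κ s then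
      y ^ ((κ s : ℕ) - κs s) else 0) with hg
  have hgs : ∑ κ, g κ ≤ 4 / 3 := by
    have h1 : ∑ κ, g κ = ∏ s, ∑ j : Fin (Q + 1), (if (κs s : ℕ) ≤ (j : ℕ) then
        y ^ ((j : ℕ) - κs s) else 0) := by
      rw [Finset.prod_univ_sum, Fintype.piFinset_univ]
    rw [h1]
    calc ∏ s, ∑ j : Fin (Q + 1), (if (κs s : ℕ) ≤ (j : ℕ) then y ^ ((j : ℕ) - κs s) else 0)
        ≤ ∏ _s : S, (1 - y)⁻¹ := by
          refine Finset.prod_le_prod (fun s _ ↦ Finset.sum_nonneg fun j _ ↦ ?_) fun s _ ↦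
            ze_geo y hy0 (by linarith) Q (κs s)
          split_ifs
          · exact pow_nonneg hy0 _
          · exact le_refl _
      _ = ((1 - y) ^ K)⁻¹ := by
          rw [Finset.prod_const, Finset.card_univ, inv_pow]
      _ ≤ 4 / 3 := by
          have h2 := one_add_mul_le_pow (a := -y) (by linarith) K
          have h3 : 3 / 4 ≤ (1 - y) ^ K := by
            have h4 : (1 + -y) ^ K = (1 - y) ^ K := by ring_nf
            rw [h4] at h2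
            linarith
          calc ((1 - y) ^ K)⁻¹ ≤ (3 / 4 : ℝ)⁻¹ := inv_anti₀ (by norm_num) h3
            _ = 4 / 3 := by norm_num
  have hgκs : g κs = 1 := by
    rw [hg]
    refine Finset.prod_eq_one fun s _ ↦ ?_
    rw [if_pos (le_refl _), Nat.sub_self, pow_zero]
  -- the terms
  set t : (S → Fin (Q + 1)) → ℂ := fun κ ↦ (if ∀ s, (κs s : ℕ) ≤ κ s then
      c κ * ((∏ s, ((κ s : ℕ).choose ((κ s : ℕ) - κs s) : ℂ)) * E (fun s ↦ (κ s : ℕ) - κs s)) else 0)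
    with ht
  have htκs : t κs = c κs := by
    rw [ht]
    have h1 : (fun s ↦ (κs s : ℕ) - κs s) = (0 : S → ℕ) := by
      funext s
      simp
    simp only [le_refl, implies_true, if_true, Nat.sub_self, Nat.choose_zero_right, Nat.cast_one,
      Finset.prod_const_one, one_mul]
    have h2 : (fun _ : S ↦ (0 : ℕ)) = (0 : S → ℕ) := rfl
    rw [h2, hE0, mul_one]
  have hbd : ∀ κ, κ ≠ κs → ‖t κ‖ ≤ ‖c κs‖ * g κ := by
    intro κ hne
    by_cases hle : ∀ s, (κs s : ℕ) ≤ κ s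
    · have hKpos : 0 < K := by
        obtain ⟨s, -⟩ := Function.ne_iff.mp hne
        exact Fintype.card_pos_iff.mpr ⟨s⟩
      have hKr : (0 : ℝ) < K := by exact_mod_cast hKpos
      set D : ℕ := ∑ s, ((κ s : ℕ) - κs s) with hD
      have hsum : ∑ s, (κ s : ℕ) = ∑ s, (κs s : ℕ) + D := by
        rw [hD, ← Finset.sum_add_distrib]
        refine Finset.sum_congr rfl fun s _ ↦ ?_
        have := hle s
        omega
      have hgk : g κ = y ^ D := by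
        rw [hg, hD, ← Finset.prod_pow_eq_pow_sum]
        refine Finset.prod_congr rfl fun s _ ↦ ?_
        rw [if_pos (hle s)]
      have htk : ‖t κ‖ = ‖c κ‖ * ((∏ s, ((κ s : ℕ).choose ((κ s : ℕ) - κs s) : ℝ)) *
          ‖E (fun s ↦ (κ s : ℕ) - κs s)‖) := by
        rw [ht]
        simp only
        rw [if_pos hle, norm_mul, norm_mul, norm_prod]
        congr 2
        refine Finset.prod_congr rfl fun s _ ↦ ?_
        rw [Complex.norm_natCast]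
      have hch : (∏ s, ((κ s : ℕ).choose ((κ s : ℕ) - κs s) : ℝ)) ≤ (Q : ℝ) ^ D := by
        rw [hD, ← Finset.prod_pow_eq_pow_sum]
        refine Finset.prod_le_prod (fun s _ ↦ Nat.cast_nonneg _) fun s _ ↦ ?_
        have h1 : (κ s : ℕ).choose ((κ s : ℕ) - κs s) ≤ (κ s : ℕ) ^ ((κ s : ℕ) - κs s) :=
          Nat.choose_le_pow _ _
        have h2 : (κ s : ℕ) ^ ((κ s : ℕ) - κs s) ≤ Q ^ ((κ s : ℕ) - κs s) :=
          Nat.pow_le_pow_left (Nat.lt_succ_iff.mp (κ s).2) _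
        exact_mod_cast h1.trans h2
      have hEb : ‖E (fun s ↦ (κ s : ℕ) - κs s)‖ ≤ w ^ D := by
        refine hE _ fun s ↦ ?_
        have := (κ s).2
        omega
      have hQw : (Q : ℝ) * w ≤ W0 * y := by
        rw [hy, ← div_eq_mul_inv, le_div_iff₀ (by positivity)]
        nlinarith
      have hcκ : ‖c κ‖ * W0 ^ D ≤ ‖c κs‖ := by
        have h1 := hmax' κ
        rw [hsum, pow_add] at h1
        have h2 : 0 < W0 ^ (∑ s, (κs s : ℕ)) := pow_pos hW0 _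
        have h3 : (‖c κ‖ * W0 ^ D) * W0 ^ (∑ s, (κs s : ℕ)) ≤ ‖c κs‖ * W0 ^ (∑ s, (κs s : ℕ)) := by
          linarith [h1, mul_comm (W0 ^ (∑ s, (κs s : ℕ))) (W0 ^ D),
            mul_assoc ‖c κ‖ (W0 ^ D) (W0 ^ (∑ s, (κs s : ℕ)))]
        exact le_of_mul_le_mul_right h3 h2
      rw [htk, hgk]
      calc ‖c κ‖ * ((∏ s, ((κ s : ℕ).choose ((κ s : ℕ) - κs s) : ℝ)) *
            ‖E (fun s ↦ (κ s : ℕ) - κs s)‖)
          ≤ ‖c κ‖ * ((Q : ℝ) ^ D * w ^ D) := by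
            refine mul_le_mul_of_nonneg_left ?_ (norm_nonneg _)
            exact mul_le_mul hch hEb (norm_nonneg _) (by positivity)
        _ = ‖c κ‖ * (Q * w) ^ D := by rw [mul_pow]
        _ ≤ ‖c κ‖ * (W0 * y) ^ D := by
            refine mul_le_mul_of_nonneg_left ?_ (norm_nonneg _)
            exact pow_le_pow_left₀ (by positivity) hQw D
        _ = (‖c κ‖ * W0 ^ D) * y ^ D := by rw [mul_pow]; ring
        _ ≤ ‖c κs‖ * y ^ D := mul_le_mul_of_nonneg_right hcκ (pow_nonneg hy0 D)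
    · have h1 : t κ = 0 := by
        rw [ht]
        simp only
        rw [if_neg hle]
      rw [h1, norm_zero]
      refine mul_nonneg (norm_nonneg _) (Finset.prod_nonneg fun s _ ↦ ?_)
      split_ifs
      · exact pow_nonneg hy0 _
      · exact le_refl _
  have haκs : ‖c κs‖ / 2 ≤ ‖a κs‖ := by
    have h1 : a κs = c κs + ∑ κ ∈ Finset.univ.erase κs, t κ := by
      have h2 : a κs = ∑ κ, t κ := rfl
      rw [h2, ← Finset.add_sum_erase _ _ (Finset.mem_univ κs), htκs]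
    have h3 : ‖∑ κ ∈ Finset.univ.erase κs, t κ‖ ≤ ‖c κs‖ * (1 / 3) := by
      calc ‖∑ κ ∈ Finset.univ.erase κs, t κ‖ ≤ ∑ κ ∈ Finset.univ.erase κs, ‖t κ‖ := norm_sum_le _ _
        _ ≤ ∑ κ ∈ Finset.univ.erase κs, ‖c κs‖ * g κ :=
            Finset.sum_le_sum fun κ hκ ↦ hbd κ (Finset.ne_of_mem_erase hκ)
        _ = ‖c κs‖ * ∑ κ ∈ Finset.univ.erase κs, g κ := by rw [Finset.mul_sum]
        _ ≤ ‖c κs‖ * (1 / 3) := by
            refine mul_le_mul_of_nonneg_left ?_ (norm_nonneg _)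
            have h4 := Finset.add_sum_erase (Finset.univ : Finset (S → Fin (Q + 1))) g
              (Finset.mem_univ κs)
            rw [hgκs] at h4
            linarith
    have h5 : ‖c κs‖ ≤ ‖a κs‖ + ‖∑ κ ∈ Finset.univ.erase κs, t κ‖ := by
      have h6 : c κs = a κs - ∑ κ ∈ Finset.univ.erase κs, t κ := by
        rw [h1]
        ring
      calc ‖c κs‖ = ‖a κs - ∑ κ ∈ Finset.univ.erase κs, t κ‖ := by rw [← h6]
        _ ≤ _ := norm_sub_le _ _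
    have h7 := norm_nonneg (c κs)
    linarith
  have hcκs : (W0 ^ (K * Q))⁻¹ ≤ ‖c κs‖ := by
    have h1 := hmax' κ1
    rw [hκ1, one_mul] at h1
    have h2 : (1 : ℝ) ≤ W0 ^ (∑ s, (κ1 s : ℕ)) := one_le_pow₀ hW
    have h3 : W0 ^ (∑ s, (κs s : ℕ)) ≤ W0 ^ (K * Q) := by
      refine pow_le_pow_right₀ hW ?_
      calc ∑ s, (κs s : ℕ) ≤ ∑ _s : S, Q :=
            Finset.sum_le_sum fun s _ ↦ Nat.lt_succ_iff.mp (κs s).2
        _ = K * Q := by rw [Finset.sum_const, Finset.card_univ, smul_eq_mul]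
    have h4 : 0 < W0 ^ (K * Q) := pow_pos hW0 _
    rw [inv_le_iff_one_le_mul₀ h4]
    calc (1 : ℝ) ≤ ‖c κs‖ * W0 ^ (∑ s, (κs s : ℕ)) := h2.trans h1
      _ ≤ ‖c κs‖ * W0 ^ (K * Q) := mul_le_mul_of_nonneg_left h3 (norm_nonneg _)
  obtain ⟨x, hx1, hx2⟩ := coeff_le Q a κs
  refine ⟨x, hx1, ?_⟩
  rw [hid x]
  refine le_trans ?_ hx2
  linarith

end AZ
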