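import Pool.Agent.H60.AZ.Za
import Pool.Agent.H60.AZ.Zd2
import Pool.Agent.H60.AZ.Ze

/-!
# Row Zf (MP_ede373, all algebraic points): the term `m = 0` after averaging

`EM b f = (√(π/b))^{-d} ∫ f(r) gk b 0 r dr` (Gaussian mean, `d = card ι`).

PROOF. `E n := EM b (r ↦ ∏_s (tt r s)^(n s))`. `E 0 = 1` (`gk_one`). `tt r s = ∑_i B s i r_i` with `B s i = nu i s/(z - ze s)` for `s ≠ o`, `0` for
`s = o`; `gaussN'` with `A = 0`, `ω = 0`, `R = max 1 (∑ ..)`: `‖E n‖ ≤ 3^d (∑ n)! (R/√b)^(∑ n)`, and for `n s ≤ Q` (`Q ≥ 1`)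
`(∑ n)! ≤ (card S Q)^(∑ n)`, `3^d ≤ (3^d)^(∑ n)` if `∑ n ≥ 1`; so `‖E n‖ ≤ w^(∑ n)` with `w = C Q/√b` (`∑ n = 0`: `E 0 = 1`).
`∏_s (x s + tt r s)^(κ s) = ∑_{n ≤ κ} ∏ binom x^(κ-n) (tt r s)^(n s)` (`add_pow`, `Finset.prod_univ_sum`), linearity of the integral
(`gk_int'`). `main_term` with `W0 = max 1 (4 card S Q w)`, which is `≤ C Q^2/√b` (`b ≤ 1`, `Q ≥ 1`). So
`(W0^(card S Q))^{-1}/2 ≥ exp(-C' Q log(C Q^2/√b)) ≥ exp(-C'' Q (log(Q+2) + log(1/b)))`; the factor `1/2 ≥ exp(-Q log(Q+2))`.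
The polynomial `PP c 0 (x + tt r) = ∑_κ c κ ∏ (x s + tt r s)^(κ s)` (`K.st 0 = 0`).
-/

set_option autoImplicit false

namespace AZ

open Complex Finset

variable {S ι : Type} [Fintype S] [DecidableEq S] [Fintype ι] [DecidableEq ι] (K : KD S ι)

/-- Gaussian mean with frequency `ω`. -/
noncomputable def EM {ι : Type} [Fintype ι] (b : ℝ) (ω : ι → ℝ) (f : (ι → ℝ) → ℂ) : ℂ :=
  ((Real.sqrt (Real.pi / b) : ℂ) ^ Fintype.card ι)⁻¹ * ∫ r : ι → ℝ, f r * gk b ω r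

/-- coefficients of `tt` -/
private noncomputable def Zf_B (s : S) (i : ι) : ℂ :=
  if s = K.o then 0 else K.nu i s / (K.z - K.ze s)

private theorem Zf_tt (r : ι → ℝ) (s : S) :
    K.tt r s = 0 + ∑ i, Zf_B K s i * (r i : ℂ) := by
  unfold KD.tt Zf_B
  rw [zero_add]
  by_cases h : s = K.o
  · simp [h]
  · simp only [if_neg h]
    rw [Finset.sum_div]
    refine Finset.sum_congr rfl fun i _ ↦ ?_
    ring

private theorem Zf_G {ι : Type} [Fintype ι] {b : ℝ} (hb : 0 < b) :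
    ((Real.sqrt (Real.pi / b) : ℂ) ^ Fintype.card ι) ≠ 0 := by
  have h : 0 < Real.sqrt (Real.pi / b) := Real.sqrt_pos.2 (div_pos Real.pi_pos hb)
  exact pow_ne_zero _ (by exact_mod_cast h.ne')

private theorem Zf_int {b : ℝ} (hb : 0 < b) (n : S → ℕ) :
    MeasureTheory.Integrable fun r : ι → ℝ ↦ (∏ s, (K.tt r s) ^ n s) * gk b 0 r := by
  have h := gk_int' hb (0 : ι → ℝ) n (fun _ : S ↦ (0 : ℂ)) (Zf_B K)
  refine h.congr (Filter.Eventually.of_forall fun r ↦ ?_)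
  simp only [Zf_tt (K := K) r]

/-- the moments -/
private noncomputable def Zf_E (b : ℝ) (n : S → ℕ) : ℂ := EM b 0 fun r ↦ ∏ s, (K.tt r s) ^ n s

private theorem Zf_E0 {b : ℝ} (hb : 0 < b) : Zf_E K b (0 : S → ℕ) = 1 := by
  unfold Zf_E EM
  have h : (fun r : ι → ℝ ↦ (∏ s, (K.tt r s) ^ ((0 : S → ℕ) s)) * gk b 0 r) = fun r ↦ gk b 0 r := by
    funext r
    simp
  rw [h, gk_one hb, inv_mul_cancel₀ (Zf_G hb)]

private theorem Zf_E_le {b R : ℝ} (hb : 0 < b) (hb1 : b ≤ 1) (hR : ∀ s, ∑ i, ‖Zf_B K s i‖ ≤ R)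
    (n : S → ℕ) :
    ‖Zf_E K b n‖ ≤ 3 ^ Fintype.card ι * (∑ s, n s).factorial * (R * (Real.sqrt b)⁻¹) ^ (∑ s, n s) := by
  have h := gaussN' hb hb1 (0 : ι → ℝ) n (fun _ : S ↦ (0 : ℂ)) (Zf_B K) R (fun s ↦ by
    simpa using hR s)
  have h0 : (fun r : ι → ℝ ↦ (∏ s, (K.tt r s) ^ n s) * gk b 0 r) =
      fun r : ι → ℝ ↦ (∏ s, ((0 : ℂ) + ∑ i, Zf_B K s i * (r i : ℂ)) ^ n s) * gk b 0 r := by
    funext r
    simp only [Zf_tt (K := K) r]
  have hG : 0 < Real.sqrt (Real.pi / b) ^ Fintype.card ι :=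
    pow_pos (Real.sqrt_pos.2 (div_pos Real.pi_pos hb)) _
  unfold Zf_E EM
  rw [h0, norm_mul, norm_inv, norm_pow, Complex.norm_real, Real.norm_of_nonneg (Real.sqrt_nonneg _)]
  have h1 : Real.exp (-(Real.pi ^ 2 * (∑ i, ((0 : ι → ℝ) i) ^ 2) / (2 * b))) = 1 := by
    simp
  rw [h1, mul_one] at h
  rw [inv_mul_le_iff₀ hG]
  refine h.trans (le_of_eq ?_)
  ring

private theorem Zf_fact {N M : ℕ} (h : N ≤ M) : N.factorial ≤ M ^ N :=
  (Nat.factorial_le_pow N).trans (Nat.pow_le_pow_left h N)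

private theorem Zf_exp (κ : S → ℕ) (x y : S → ℂ) :
    ∏ s, (x s + y s) ^ κ s = ∑ n ∈ Fintype.piFinset fun s ↦ range (κ s + 1),
      (∏ s, ((κ s).choose (n s) : ℂ) * x s ^ (κ s - n s)) * ∏ s, y s ^ n s := by
  have h : ∀ s, (x s + y s) ^ κ s =
      ∑ m ∈ range (κ s + 1), ((κ s).choose m : ℂ) * x s ^ (κ s - m) * y s ^ m := by
    intro s
    rw [add_comm, add_pow]
    refine Finset.sum_congr rfl fun m _ ↦ ?_
    ring
  rw [Finset.prod_congr rfl fun s _ ↦ h s, Finset.prod_univ_sum]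
  refine Finset.sum_congr rfl fun n _ ↦ ?_
  rw [Finset.prod_mul_distrib]

private theorem Zf_EM {b : ℝ} (hb : 0 < b) (Q : ℕ) (c : (S → Fin (Q + 1)) → ℂ) (x : S → ℂ) :
    EM b 0 (fun r ↦ K.PP Q c 0 (x + K.tt r)) =
      ∑ κ, c κ * ∑ n ∈ Fintype.piFinset fun s ↦ range ((κ s : ℕ) + 1),
        (∏ s, ((κ s : ℕ).choose (n s) : ℂ) * x s ^ ((κ s : ℕ) - n s)) * Zf_E K b n := by
  have h1 : ∀ r : ι → ℝ, K.PP Q c 0 (x + K.tt r) * gk b 0 r =
      ∑ κ, ∑ n ∈ Fintype.piFinset fun s ↦ range ((κ s : ℕ) + 1),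
        (c κ * ∏ s, ((κ s : ℕ).choose (n s) : ℂ) * x s ^ ((κ s : ℕ) - n s)) *
          ((∏ s, (K.tt r s) ^ n s) * gk b 0 r) := by
    intro r
    unfold KD.PP KD.mon KD.st
    rw [Finset.sum_mul]
    refine Finset.sum_congr rfl fun κ _ ↦ ?_
    have h2 : ∏ s, ((x + K.tt r) s + ∑ j, (((0 : ι → ℤ) j : ℤ) : ℂ) * K.nus j s) ^ (κ s : ℕ) =
        ∏ s, (x s + K.tt r s) ^ (κ s : ℕ) := by
      refine Finset.prod_congr rfl fun s _ ↦ ?_
      simp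
    rw [h2, Zf_exp (fun s ↦ (κ s : ℕ)) x (K.tt r), Finset.mul_sum, Finset.sum_mul]
    refine Finset.sum_congr rfl fun n _ ↦ ?_
    ring
  unfold EM
  simp only [h1]
  rw [MeasureTheory.integral_finsetSum _ fun κ _ ↦
    MeasureTheory.integrable_finsetSum _ fun n _ ↦ (Zf_int K hb n).const_mul _, Finset.mul_sum]
  refine Finset.sum_congr rfl fun κ _ ↦ ?_
  rw [MeasureTheory.integral_finsetSum _ fun n _ ↦ (Zf_int K hb n).const_mul _, Finset.mul_sum,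
    Finset.mul_sum]
  refine Finset.sum_congr rfl fun n _ ↦ ?_
  rw [MeasureTheory.integral_const_mul]
  unfold Zf_E EM
  ring

theorem main_low : ∃ C : ℝ, 1 ≤ C ∧ ∀ (Q : ℕ) (b : ℝ), 1 ≤ Q → 0 < b → b ≤ 1 →
    ∀ c : (S → Fin (Q + 1)) → ℂ, (∃ κ, ‖c κ‖ = 1) →
    ∃ x : S → ℂ, (∀ s, ‖x s‖ = 1) ∧
      Real.exp (-(C * Q * (Real.log (Q + 2) + Real.log (1 / b)))) ≤
        ‖EM b 0 (fun r ↦ K.PP Q c 0 (x + K.tt r))‖ := by
  obtain ⟨R, hRd⟩ : ∃ R : ℝ, R = ∑ s, ∑ i, ‖Zf_B K s i‖ := ⟨_, rfl⟩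
  have hR : ∀ s, ∑ i, ‖Zf_B K s i‖ ≤ R := by
    intro s
    rw [hRd]
    exact Finset.single_le_sum (f := fun s ↦ ∑ i, ‖Zf_B K s i‖)
      (fun s _ ↦ Finset.sum_nonneg fun i _ ↦ norm_nonneg _) (Finset.mem_univ s)
  have hR0 : 0 ≤ R := by
    rw [hRd]
    exact Finset.sum_nonneg fun s _ ↦ Finset.sum_nonneg fun i _ ↦ norm_nonneg _
  obtain ⟨k, hk⟩ : ∃ k : ℕ, k = Fintype.card S := ⟨_, rfl⟩
  obtain ⟨T, hT⟩ : ∃ T : ℝ, T = 3 ^ Fintype.card ι := ⟨_, rfl⟩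
  have hT1 : 1 ≤ T := by rw [hT]; exact one_le_pow₀ (by norm_num)
  have hk2 : 2 ≤ k := by rw [hk]; exact K.hS
  obtain ⟨D, hD⟩ : ∃ D : ℝ, D = 1 + 4 * k * (T * k * R) := ⟨_, rfl⟩
  have hD1 : 1 ≤ D := by
    rw [hD]
    have : 0 ≤ 4 * (k : ℝ) * (T * k * R) := by positivity
    linarith
  have hlD : 0 ≤ Real.log D := Real.log_nonneg hD1
  refine ⟨1 + k * (Real.log D + 2), ?_, ?_⟩
  · have : 0 ≤ (k : ℝ) * (Real.log D + 2) := by positivity
    linarith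
  intro Q b hQ hb hb1 c hc
  have hQ1 : (1 : ℝ) ≤ Q := by exact_mod_cast hQ
  have hsb : 0 < Real.sqrt b := Real.sqrt_pos.2 hb
  have hsb1 : Real.sqrt b ≤ 1 := Real.sqrt_le_one.2 hb1
  have hsbi : 1 ≤ (Real.sqrt b)⁻¹ := (one_le_inv₀ hsb).2 hsb1
  obtain ⟨w, hw⟩ : ∃ w : ℝ, w = T * (k * Q) * (R * (Real.sqrt b)⁻¹) := ⟨_, rfl⟩
  have hw0 : 0 ≤ w := by rw [hw]; positivity
  have hE : ∀ n : S → ℕ, (∀ s, n s ≤ Q) → ‖Zf_E K b n‖ ≤ w ^ ∑ s, n s := by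
    intro n hn
    rcases Nat.eq_zero_or_pos (∑ s, n s) with h0 | h0
    · have h1 : n = 0 := by
        funext s
        have := Finset.sum_eq_zero_iff.1 h0 s (Finset.mem_univ s)
        simpa using this
      rw [h0, pow_zero, h1, Zf_E0 K hb, norm_one]
    · refine (Zf_E_le K hb hb1 hR n).trans ?_
      have h1 : ∑ s, n s ≤ k * Q := by
        rw [hk]
        have := Finset.sum_le_card_nsmul (Finset.univ : Finset S) n Q fun s _ ↦ hn s
        simpa using this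
      have h2 : ((∑ s, n s).factorial : ℝ) ≤ ((k : ℝ) * Q) ^ (∑ s, n s) := by
        have := Zf_fact h1
        exact_mod_cast this
      have h3 : (T : ℝ) ≤ T ^ (∑ s, n s) := le_self_pow₀ hT1 (by omega)
      have h4 : w ^ (∑ s, n s) = T ^ (∑ s, n s) * ((k : ℝ) * Q) ^ (∑ s, n s) *
          (R * (Real.sqrt b)⁻¹) ^ (∑ s, n s) := by
        rw [hw, mul_pow (T * (k * Q)), mul_pow T]
      have h5 : 0 ≤ (R * (Real.sqrt b)⁻¹) ^ (∑ s, n s) := by positivity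
      rw [h4, ← hT]
      exact mul_le_mul_of_nonneg_right
        (mul_le_mul h3 h2 (by positivity) (by positivity)) h5
  obtain ⟨W0, hW0⟩ : ∃ W0 : ℝ, W0 = max 1 (4 * k * Q * w) := ⟨_, rfl⟩
  have hW1 : 1 ≤ W0 := by rw [hW0]; exact le_max_left _ _
  obtain ⟨x, hx, hx2⟩ := main_term Q w W0 c (Zf_E K b) hw0 (Zf_E0 K hb) hE hW1
    (by rw [hW0, ← hk]; exact le_max_right _ _) hc
  refine ⟨x, hx, ?_⟩
  rw [Zf_EM K hb]
  refine le_trans ?_ hx2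
  rw [← hk]
  -- the real inequality
  have hW2 : W0 ≤ D * ((Q + 2) ^ 2 * (Real.sqrt b)⁻¹) := by
    have h1 : (1 : ℝ) ≤ (Q + 2) ^ 2 := one_le_pow₀ (by linarith)
    have h2 : (1 : ℝ) ≤ (Q + 2) ^ 2 * (Real.sqrt b)⁻¹ := one_le_mul_of_one_le_of_one_le h1 hsbi
    rw [hW0]
    refine max_le (one_le_mul_of_one_le_of_one_le hD1 h2) ?_
    have h3 : 4 * (k : ℝ) * Q * w = (4 * k * (T * k * R)) * ((Q : ℝ) ^ 2 * (Real.sqrt b)⁻¹) := by
      rw [hw]; ring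
    rw [h3]
    refine mul_le_mul (by rw [hD]; linarith) ?_ (by positivity) (by linarith)
    refine mul_le_mul_of_nonneg_right ?_ (by positivity)
    exact pow_le_pow_left₀ (by positivity) (by linarith) 2
  have hW0p : 0 < W0 := by linarith
  have hlog : Real.log W0 ≤ Real.log D + (2 * Real.log (Q + 2) + 1 / 2 * Real.log (1 / b)) := by
    have h1 := Real.log_le_log hW0p hW2
    rw [Real.log_mul (by positivity) (by positivity), Real.log_mul (by positivity) (by positivity),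
      Real.log_pow, Real.log_inv, Real.log_sqrt hb.le] at h1
    have h2 : Real.log (1 / b) = - Real.log b := by rw [one_div, Real.log_inv]
    rw [h2]
    push_cast at h1
    linarith
  have hlb : 0 ≤ Real.log (1 / b) := by
    apply Real.log_nonneg
    rw [one_div]
    exact (one_le_inv₀ hb).2 hb1
  have hl1 : 1 ≤ Real.log (Q + 2) := by
    rw [Real.le_log_iff_exp_le (by positivity)]
    have := Real.exp_one_lt_d9
    linarith
  have h4 : Real.log (2 * W0 ^ (k * Q)) ≤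
      (1 + k * (Real.log D + 2)) * Q * (Real.log (Q + 2) + Real.log (1 / b)) := by
    rw [Real.log_mul (by norm_num) (by positivity), Real.log_pow]
    push_cast
    have h5 : (k : ℝ) * Q * Real.log W0 ≤
        k * Q * (Real.log D + (2 * Real.log (Q + 2) + 1 / 2 * Real.log (1 / b))) :=
      mul_le_mul_of_nonneg_left hlog (by positivity)
    have h6 : Real.log 2 ≤ 1 := by
      have := Real.log_two_lt_d9
      linarith
    have h7 : (1 : ℝ) ≤ Q * Real.log (Q + 2) := one_le_mul_of_one_le_of_one_le hQ1 hl1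
    have h8 : (k : ℝ) * Q * Real.log D ≤ k * Q * (Real.log D * Real.log (Q + 2)) :=
      mul_le_mul_of_nonneg_left (le_mul_of_one_le_right hlD hl1) (by positivity)
    have h9 : 0 ≤ (k : ℝ) * Q * (Real.log D * Real.log (1 / b)) := by positivity
    have h10 : 0 ≤ (k : ℝ) * Q * Real.log (1 / b) := by positivity
    have h11 : 0 ≤ (Q : ℝ) * Real.log (1 / b) := by positivity
    nlinarith [h5, h6, h7, h8, h9, h10, h11]
  have h5 : 0 < 2 * W0 ^ (k * Q) := by positivity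
  have h12 : (1 : ℝ) / 2 * (W0 ^ (k * Q))⁻¹ = (2 * W0 ^ (k * Q))⁻¹ := by
    rw [mul_inv, one_div]
  rw [Real.exp_neg, h12]
  refine inv_anti₀ h5 ?_
  rw [← Real.exp_log h5]
  exact Real.exp_le_exp.2 h4

end AZ
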