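import Pool.Agent.H60.AZ.Zf

/-!
# Row Zg (MP_ede373, all algebraic points): the terms `m ≠ 0` after averaging

PROOF. `mon κ m (x + tt r) = ∏_s (A s + ∑_i B s i r_i)^(κ s)`, `A s = x s + m*_s`, `‖A s‖ ≤ 1 + C |m|_1` (`‖x s‖ = 1`, `st_le`), `B` as in row
Zf. `gaussN'` with `R = C (1 + |m|_1)`, `∑ κ s =: n ≤ card S * Q`, `n! ≤ (card S Q + 1)^(card S Q)`, `(R/√b)^n ≤ (R/√b)^(card S Q)` (`R, 1/√b ≥ 1`).
Sum over `κ` (at most `(Q+1)^(card S)` terms, `‖c κ‖ ≤ 1`). `3^d`, etc. go into `exp(C Q ...)` (`Q ≥ 1`).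
`∑ ω_i² ≥ ‖ω‖²` (maximum norm).
-/

set_option autoImplicit false

namespace AZ

open Complex Finset

variable {S ι : Type} [Fintype S] [DecidableEq S] [Fintype ι] [DecidableEq ι] (K : KD S ι)

/-- The matrix of the shifts. -/
noncomputable def Zg_B (s : S) (i : ι) : ℂ := if s = K.o then 0 else K.nu i s / (K.z - K.ze s)

theorem Zg_tt (r : ι → ℝ) (s : S) : K.tt r s = ∑ i, Zg_B K s i * (r i : ℂ) := by
  unfold KD.tt Zg_B
  split_ifs with h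
  · simp
  · rw [sum_div]
    exact sum_congr rfl (fun i _ => by ring)

theorem Zg_PP (Q : ℕ) (c : (S → Fin (Q + 1)) → ℂ) (m : ι → ℤ) (b : ℝ) (ω : ι → ℝ) (x : S → ℂ)
    (r : ι → ℝ) :
    K.PP Q c m (x + K.tt r) * gk b ω r = ∑ κ, c κ * ((∏ s, ((x s + K.st (fun j ↦ (m j : ℂ)) s) +
      ∑ i, Zg_B K s i * (r i : ℂ)) ^ (κ s : ℕ)) * gk b ω r) := by
  unfold KD.PP KD.mon
  rw [sum_mul]
  refine sum_congr rfl (fun κ _ => ?_)
  rw [mul_assoc]
  congr 2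
  refine prod_congr rfl (fun s _ => ?_)
  rw [Pi.add_apply, Zg_tt]
  congr 1
  ring

theorem Zg_int (Q : ℕ) (b : ℝ) (hb : 0 < b) (c : (S → Fin (Q + 1)) → ℂ) (m : ι → ℤ) (ω : ι → ℝ)
    (x : S → ℂ) :
    MeasureTheory.Integrable (fun r : ι → ℝ ↦ K.PP Q c m (x + K.tt r) * gk b ω r) := by
  simp_rw [Zg_PP]
  refine MeasureTheory.integrable_finsetSum _ (fun κ _ => ?_)
  exact (gk_int' hb ω (fun s => (κ s : ℕ)) _ _).const_mul _

theorem Zg_one (Q : ℕ) (b : ℝ) (hb : 0 < b) (hb1 : b ≤ 1) (c : (S → Fin (Q + 1)) → ℂ)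
    (hc : ∀ κ, ‖c κ‖ ≤ 1) (m : ι → ℤ) (ω : ι → ℝ) (x : S → ℂ) (R : ℝ) (hR1 : 1 ≤ R)
    (hR : ∀ s, ‖x s + K.st (fun j ↦ (m j : ℂ)) s‖ + ∑ i, ‖Zg_B K s i‖ ≤ R) :
    ‖EM b ω (fun r ↦ K.PP Q c m (x + K.tt r))‖ ≤
      (Q + 1 : ℝ) ^ Fintype.card S * (3 ^ Fintype.card ι *
        ((Fintype.card S * Q + 1 : ℝ) ^ (Fintype.card S * Q) *
          ((R * (Real.sqrt b)⁻¹) ^ (Fintype.card S * Q) *
            Real.exp (-(Real.pi ^ 2 * ‖ω‖ ^ 2 / (2 * b)))))) := by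
  have hsb : 0 < Real.sqrt b := Real.sqrt_pos.2 hb
  have hsb1 : Real.sqrt b ≤ 1 := by
    rw [Real.sqrt_le_left zero_le_one]; linarith
  have hsi : 1 ≤ (Real.sqrt b)⁻¹ := (one_le_inv₀ hsb).2 hsb1
  have hW : 1 ≤ R * (Real.sqrt b)⁻¹ := one_le_mul_of_one_le_of_one_le hR1 hsi
  have hP : 0 < Real.sqrt (Real.pi / b) := Real.sqrt_pos.2 (div_pos Real.pi_pos hb)
  have hω : ‖ω‖ ^ 2 ≤ ∑ i, ω i ^ 2 := by
    have h1 : ‖ω‖ ≤ Real.sqrt (∑ i, ω i ^ 2) := by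
      rw [pi_norm_le_iff_of_nonneg (Real.sqrt_nonneg _)]
      intro i
      rw [Real.norm_eq_abs, ← Real.sqrt_sq_eq_abs]
      exact Real.sqrt_le_sqrt (single_le_sum (f := fun i => ω i ^ 2) (fun i _ => sq_nonneg _) (mem_univ i))
    have h2 := pow_le_pow_left₀ (norm_nonneg ω) h1 2
    rwa [Real.sq_sqrt (sum_nonneg (fun i _ => sq_nonneg _))] at h2
  have hexp : Real.exp (-(Real.pi ^ 2 * (∑ i, ω i ^ 2) / (2 * b))) ≤
      Real.exp (-(Real.pi ^ 2 * ‖ω‖ ^ 2 / (2 * b))) := by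
    rw [Real.exp_le_exp]
    apply neg_le_neg
    apply div_le_div_of_nonneg_right _ (by positivity)
    exact mul_le_mul_of_nonneg_left hω (by positivity)
  set D : ℕ := Fintype.card S * Q with hD
  have hn : ∀ κ : S → Fin (Q + 1), (∑ s, (κ s : ℕ)) ≤ D := by
    intro κ
    calc (∑ s, (κ s : ℕ)) ≤ ∑ _s : S, Q := sum_le_sum (fun s _ => Nat.lt_succ_iff.1 (κ s).2)
      _ = D := by rw [sum_const, card_univ, smul_eq_mul]
  have hterm : ∀ κ : S → Fin (Q + 1), ‖∫ r : ι → ℝ, c κ * ((∏ s, ((x s + K.st (fun j ↦ (m j : ℂ)) s) +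
      ∑ i, Zg_B K s i * (r i : ℂ)) ^ (κ s : ℕ)) * gk b ω r)‖ ≤
      Real.sqrt (Real.pi / b) ^ Fintype.card ι * (3 ^ Fintype.card ι *
        ((Fintype.card S * Q + 1 : ℝ) ^ D * ((R * (Real.sqrt b)⁻¹) ^ D *
            Real.exp (-(Real.pi ^ 2 * ‖ω‖ ^ 2 / (2 * b)))))) := by
    intro κ
    rw [MeasureTheory.integral_const_mul, norm_mul]
    have h1 := gaussN' hb hb1 ω (fun s => (κ s : ℕ)) (fun s => x s + K.st (fun j ↦ (m j : ℂ)) s)
      (Zg_B K) R hR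
    have hfac : (((∑ s, (κ s : ℕ)).factorial : ℕ) : ℝ) ≤ (Fintype.card S * Q + 1 : ℝ) ^ D := by
      have h2 : (∑ s, (κ s : ℕ)).factorial ≤ (D + 1) ^ D := by
        calc (∑ s, (κ s : ℕ)).factorial ≤ (∑ s, (κ s : ℕ)) ^ (∑ s, (κ s : ℕ)) := Nat.factorial_le_pow _
          _ ≤ (D + 1) ^ (∑ s, (κ s : ℕ)) := Nat.pow_le_pow_left ((hn κ).trans (Nat.le_succ _)) _
          _ ≤ (D + 1) ^ D := Nat.pow_le_pow_right (Nat.succ_pos _) (hn κ)
      have h3 : (((∑ s, (κ s : ℕ)).factorial : ℕ) : ℝ) ≤ (((D + 1) ^ D : ℕ) : ℝ) := by exact_mod_cast h2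
      refine h3.trans (le_of_eq ?_)
      rw [hD]; push_cast; ring
    have hpw : (R * (Real.sqrt b)⁻¹) ^ (∑ s, (κ s : ℕ)) ≤ (R * (Real.sqrt b)⁻¹) ^ D :=
      pow_le_pow_right₀ hW (hn κ)
    have hW0 : 0 ≤ (R * (Real.sqrt b)⁻¹) ^ (∑ s, (κ s : ℕ)) := by positivity
    calc ‖c κ‖ * ‖∫ r : ι → ℝ, (∏ s, ((x s + K.st (fun j ↦ (m j : ℂ)) s) +
            ∑ i, Zg_B K s i * (r i : ℂ)) ^ (κ s : ℕ)) * gk b ω r‖
        ≤ 1 * (3 ^ Fintype.card ι * ((∑ s, (κ s : ℕ)).factorial : ℝ) *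
            (R * (Real.sqrt b)⁻¹) ^ (∑ s, (κ s : ℕ)) * Real.sqrt (Real.pi / b) ^ Fintype.card ι *
            Real.exp (-(Real.pi ^ 2 * (∑ i, ω i ^ 2) / (2 * b)))) :=
          mul_le_mul (hc κ) h1 (norm_nonneg _) zero_le_one
      _ = Real.sqrt (Real.pi / b) ^ Fintype.card ι * (3 ^ Fintype.card ι *
            (((∑ s, (κ s : ℕ)).factorial : ℝ) * ((R * (Real.sqrt b)⁻¹) ^ (∑ s, (κ s : ℕ)) *
            Real.exp (-(Real.pi ^ 2 * (∑ i, ω i ^ 2) / (2 * b)))))) := by ring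
      _ ≤ _ := by
          gcongr
  unfold EM
  rw [norm_mul]
  have hint : ∫ r : ι → ℝ, K.PP Q c m (x + K.tt r) * gk b ω r =
      ∑ κ, ∫ r : ι → ℝ, c κ * ((∏ s, ((x s + K.st (fun j ↦ (m j : ℂ)) s) +
      ∑ i, Zg_B K s i * (r i : ℂ)) ^ (κ s : ℕ)) * gk b ω r) := by
    simp_rw [Zg_PP]
    exact MeasureTheory.integral_finsetSum _ (fun κ _ => (gk_int' hb ω (fun s => (κ s : ℕ)) _ _).const_mul _)
  rw [hint]
  have hns : ‖∑ κ : S → Fin (Q + 1), ∫ r : ι → ℝ, c κ * ((∏ s, ((x s + K.st (fun j ↦ (m j : ℂ)) s) +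
      ∑ i, Zg_B K s i * (r i : ℂ)) ^ (κ s : ℕ)) * gk b ω r)‖ ≤
      (Q + 1 : ℝ) ^ Fintype.card S * (Real.sqrt (Real.pi / b) ^ Fintype.card ι * (3 ^ Fintype.card ι *
        ((Fintype.card S * Q + 1 : ℝ) ^ D * ((R * (Real.sqrt b)⁻¹) ^ D *
            Real.exp (-(Real.pi ^ 2 * ‖ω‖ ^ 2 / (2 * b))))))) := by
    refine (norm_sum_le _ _).trans ((sum_le_sum (fun κ _ => hterm κ)).trans (le_of_eq ?_))
    rw [sum_const, card_univ, Fintype.card_fun, Fintype.card_fin, nsmul_eq_mul]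
    push_cast
    ring
  have hninv : ‖((Real.sqrt (Real.pi / b) : ℂ) ^ Fintype.card ι)⁻¹‖ =
      (Real.sqrt (Real.pi / b) ^ Fintype.card ι)⁻¹ := by
    rw [norm_inv, norm_pow, Complex.norm_real, Real.norm_eq_abs, abs_of_pos hP]
  rw [hninv]
  have hPp : 0 < Real.sqrt (Real.pi / b) ^ Fintype.card ι := by positivity
  calc (Real.sqrt (Real.pi / b) ^ Fintype.card ι)⁻¹ * _
      ≤ (Real.sqrt (Real.pi / b) ^ Fintype.card ι)⁻¹ * _ :=
        mul_le_mul_of_nonneg_left hns (by positivity)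
    _ = _ := by field_simp

theorem Zg_num (k d Q : ℕ) (C2 M1 b : ℝ) (hQ : 1 ≤ Q) (hb : 0 < b) (hb1 : b ≤ 1) (hC2 : 1 ≤ C2)
    (hM : 0 ≤ M1) (hk : 1 ≤ k) (E : ℝ) :
    (Q + 1 : ℝ) ^ k * (3 ^ d * ((k * Q + 1 : ℝ) ^ (k * Q) *
      ((C2 * (1 + M1) * (Real.sqrt b)⁻¹) ^ (k * Q) * Real.exp (-E)))) ≤
    Real.exp ((k + d + k * (k + 1) + k * C2) * Q *
      (Real.log (Q + 2) + Real.log (1 / b) + Real.log (1 + M1)) - E) := by
  have hQr : (1 : ℝ) ≤ Q := by exact_mod_cast hQ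
  have hkr : (1 : ℝ) ≤ k := by exact_mod_cast hk
  set L := Real.log (Q + 2) with hL
  have hQ2 : (0 : ℝ) < Q + 2 := by linarith
  have hLe : Real.exp L = Q + 2 := Real.exp_log hQ2
  have hL1 : 1 ≤ L := by
    rw [hL, Real.le_log_iff_exp_le hQ2]
    have := Real.exp_one_lt_d9
    linarith
  have hM1 : (0 : ℝ) < 1 + M1 := by linarith
  set LM := Real.log (1 + M1) with hLM
  have hLMe : Real.exp LM = 1 + M1 := Real.exp_log hM1
  have hLM0 : 0 ≤ LM := Real.log_nonneg (by linarith)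
  set Lb := Real.log (1 / b) with hLb
  have hbi : (0 : ℝ) < 1 / b := by positivity
  have hLbe : Real.exp Lb = 1 / b := Real.exp_log hbi
  have hLb0 : 0 ≤ Lb := Real.log_nonneg (by rw [le_div_iff₀ hb]; linarith)
  have hsb : 0 < Real.sqrt b := Real.sqrt_pos.2 hb
  have h1 : (Q + 1 : ℝ) ^ k ≤ Real.exp (k * Q * L) := by
    calc (Q + 1 : ℝ) ^ k ≤ (Real.exp L) ^ k := by
          rw [hLe]; exact pow_le_pow_left₀ (by linarith) (by linarith) k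
      _ = Real.exp (k * L) := by rw [← Real.exp_nat_mul]
      _ ≤ _ := by
          rw [Real.exp_le_exp]
          have : (k : ℝ) * 1 * L ≤ k * Q * L := by gcongr
          linarith
  have h2 : (3 : ℝ) ^ d ≤ Real.exp (d * Q * L) := by
    calc (3 : ℝ) ^ d ≤ (Real.exp L) ^ d := by
          rw [hLe]; exact pow_le_pow_left₀ (by norm_num) (by linarith) d
      _ = Real.exp (d * L) := by rw [← Real.exp_nat_mul]
      _ ≤ _ := by
          rw [Real.exp_le_exp]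
          have : (d : ℝ) * 1 * L ≤ d * Q * L := by gcongr
          linarith
  have h3 : (k * Q + 1 : ℝ) ^ (k * Q) ≤ Real.exp (k * (k + 1) * Q * L) := by
    have ha : (k * Q + 1 : ℝ) ≤ Real.exp ((k + 1) * L) := by
      have e1 : (k : ℝ) ≤ Real.exp (k * L) := by
        have := Real.add_one_le_exp ((k : ℝ) * L)
        nlinarith
      calc (k * Q + 1 : ℝ) ≤ k * (Q + 2) := by nlinarith
        _ ≤ Real.exp (k * L) * Real.exp L := by
            rw [hLe]; exact mul_le_mul_of_nonneg_right e1 hQ2.le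
        _ = Real.exp ((k + 1) * L) := by rw [← Real.exp_add]; ring_nf
    calc (k * Q + 1 : ℝ) ^ (k * Q) ≤ (Real.exp ((k + 1) * L)) ^ (k * Q) :=
          pow_le_pow_left₀ (by positivity) ha _
      _ = Real.exp (k * (k + 1) * Q * L) := by
          rw [← Real.exp_nat_mul]; push_cast; ring_nf
  have h4 : (C2 * (1 + M1) * (Real.sqrt b)⁻¹) ^ (k * Q) ≤ Real.exp (k * Q * (C2 * L + LM + Lb)) := by
    have hsi : (Real.sqrt b)⁻¹ ≤ 1 / b := by
      rw [← one_div]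
      apply one_div_le_one_div_of_le hb
      calc b = Real.sqrt b * Real.sqrt b := (Real.mul_self_sqrt hb.le).symm
        _ ≤ Real.sqrt b * 1 := by
            refine mul_le_mul_of_nonneg_left ?_ hsb.le
            rw [Real.sqrt_le_left zero_le_one]; linarith
        _ = Real.sqrt b := mul_one _
    have e1 : C2 ≤ Real.exp (C2 * L) := by
      have := Real.add_one_le_exp (C2 * L)
      nlinarith
    have ha : C2 * (1 + M1) * (Real.sqrt b)⁻¹ ≤ Real.exp (C2 * L + LM + Lb) := by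
      rw [Real.exp_add, Real.exp_add, hLMe, hLbe]
      gcongr
    calc (C2 * (1 + M1) * (Real.sqrt b)⁻¹) ^ (k * Q) ≤ (Real.exp (C2 * L + LM + Lb)) ^ (k * Q) :=
          pow_le_pow_left₀ (by positivity) ha _
      _ = _ := by rw [← Real.exp_nat_mul]; push_cast; ring_nf
  calc (Q + 1 : ℝ) ^ k * (3 ^ d * ((k * Q + 1 : ℝ) ^ (k * Q) *
      ((C2 * (1 + M1) * (Real.sqrt b)⁻¹) ^ (k * Q) * Real.exp (-E))))
      ≤ Real.exp (k * Q * L) * (Real.exp (d * Q * L) * (Real.exp (k * (k + 1) * Q * L) *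
          (Real.exp (k * Q * (C2 * L + LM + Lb)) * Real.exp (-E)))) := by gcongr
    _ = Real.exp (k * Q * L + (d * Q * L + (k * (k + 1) * Q * L + (k * Q * (C2 * L + LM + Lb) + -E)))) := by
        rw [Real.exp_add, Real.exp_add, Real.exp_add, Real.exp_add]
    _ ≤ _ := by
        rw [Real.exp_le_exp]
        have hx : 0 ≤ (k + d + k * (k + 1) + k * C2 - k : ℝ) * Q * (LM + Lb) := by
          have : 0 ≤ (k + d + k * (k + 1) + k * C2 - k : ℝ) := by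
            have : (0 : ℝ) ≤ d + k * (k + 1) + k * C2 := by positivity
            linarith
          positivity
        nlinarith [hx]

theorem other_terms : ∃ C : ℝ, 1 ≤ C ∧ ∀ (Q : ℕ) (b : ℝ), 1 ≤ Q → 0 < b → b ≤ 1 →
    ∀ (c : (S → Fin (Q + 1)) → ℂ), (∀ κ, ‖c κ‖ ≤ 1) → ∀ (m : ι → ℤ) (ω : ι → ℝ) (x : S → ℂ),
    (∀ s, ‖x s‖ = 1) →
    MeasureTheory.Integrable (fun r : ι → ℝ ↦ K.PP Q c m (x + K.tt r) * gk b ω r) ∧
    ‖EM b ω (fun r ↦ K.PP Q c m (x + K.tt r))‖ ≤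
      Real.exp (C * Q * (Real.log (Q + 2) + Real.log (1 / b) + Real.log (1 + ∑ j, |(m j : ℝ)|)) -
        Real.pi ^ 2 * ‖ω‖ ^ 2 / (2 * b)) := by
  obtain ⟨C1, hC1, hst⟩ := st_le K
  set CB : ℝ := ∑ s, ∑ i, ‖Zg_B K s i‖ with hCB
  have hCB0 : 0 ≤ CB := sum_nonneg (fun s _ => sum_nonneg (fun i _ => norm_nonneg _))
  have hk : 1 ≤ Fintype.card S := by
    have := K.hS
    omega
  have hkr : (1 : ℝ) ≤ Fintype.card S := by exact_mod_cast hk
  refine ⟨Fintype.card S + Fintype.card ι + Fintype.card S * (Fintype.card S + 1) +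
    Fintype.card S * (C1 + CB), ?_, ?_⟩
  · have : (0 : ℝ) ≤ Fintype.card ι + Fintype.card S * (Fintype.card S + 1) +
      Fintype.card S * (C1 + CB) := by positivity
    linarith
  · intro Q b hQ hb hb1 c hc m ω x hx
    refine ⟨Zg_int K Q b hb c m ω x, ?_⟩
    set M1 : ℝ := ∑ j, |(m j : ℝ)| with hM1
    have hM0 : 0 ≤ M1 := sum_nonneg (fun j _ => abs_nonneg _)
    have hnm : ∑ j, ‖((m j : ℤ) : ℂ)‖ = M1 := by
      rw [hM1]
      refine sum_congr rfl (fun j _ => ?_)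
      rw [Complex.norm_intCast]
    have hR : ∀ s, ‖x s + K.st (fun j ↦ (m j : ℂ)) s‖ + ∑ i, ‖Zg_B K s i‖ ≤ (C1 + CB) * (1 + M1) := by
      intro s
      have h1 := hst (fun j ↦ (m j : ℂ)) s
      rw [hnm] at h1
      have h2 := norm_add_le (x s) (K.st (fun j ↦ (m j : ℂ)) s)
      rw [hx s] at h2
      have h3 : ∑ i, ‖Zg_B K s i‖ ≤ CB :=
        single_le_sum (f := fun s => ∑ i, ‖Zg_B K s i‖) (fun s _ => sum_nonneg (fun i _ => norm_nonneg _))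
          (mem_univ s)
      nlinarith [mul_nonneg hCB0 hM0]
    have hR1 : 1 ≤ (C1 + CB) * (1 + M1) := by nlinarith [mul_nonneg hCB0 hM0]
    refine (Zg_one K Q b hb hb1 c hc m ω x _ hR1 hR).trans ?_
    exact Zg_num (Fintype.card S) (Fintype.card ι) Q (C1 + CB) M1 b hQ hb hb1 (by linarith) hM0 hk
      (Real.pi ^ 2 * ‖ω‖ ^ 2 / (2 * b))

end AZ
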