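import Pool.Agent.H60.AZ.Za

/-!
# Row Zh (MP_ede373, all algebraic points): the remainder after a box

`bx n0 = {m : |m_j| ≤ n0 for all j}`.

PROOF. `FF (x + tt r) - ∑_{m ∈ bx} tm m (x + tt r) PP m (x + tt r) = ∑'_{m ∉ bx} tm m (x+tt r) PP m (x + tt r)` (`summable_Phi`, finite sums over `κ`;
`Summable.sum_add_tsum_subtype_compl`-type lemma). For each `m`: `‖tm m y‖ = e^{q y} ‖c0‖^d exp(-πY ∑ (m_j + v_j y)^2)` (`norm_tm`) at `y = x + tt r`;
`v_j y = v_j x`, `q y = q x` (`v_tt, q_tt`), `|v_j x| ≤ V0` and `q x ≤ C` since `‖x‖ ≤ 1` (`v_le, q_le`).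
`‖PP m y‖ ≤ (Q+1)^(card S) (C (1 + ‖bb y‖ + t))^(card S Q)`, `t = ∑ |m_j + v_j|` (`mon_le`, base `≥ 1`), `‖bb y‖ ≤ 1 + C ‖r‖` (`bb_tt`, `bb_le`), so
`C(1 + ‖bb y‖ + t) ≤ C' (1 + ‖r‖) (1 + t)`. `gauss_tail` with `B = 1`, `n = card S Q`, `V = V0`, for `2 V0 ≤ n0`. If `2 V0 > n0` the same bound with the full sum
(`gauss_sum`) instead, since then `n0^2/C ≤ const`. All constants depend on `K, c0` only; `(Q+1)^(card S) ≤ exp(C Q log(Q+2))` (`Q ≥ 1`).
`continuous_rem`: the difference is a continuous function of `r`: `FF` is continuous (it is given by a power series; or use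
`line`..). It is enough here: `r ↦ FF (x + tt r)` is continuous: `continuous_tsum`-type argument: on `‖r‖ < R` the series of `Phi`
converges uniformly by the majorants `(1+R)^n (1 + t)^n exp(..)` above.
-/

set_option autoImplicit false

namespace AZ

open Complex Finset

variable {S ι : Type} [Fintype S] [DecidableEq S] [Fintype ι] [DecidableEq ι] (K : KD S ι)

/-- The box. -/
noncomputable def bx (ι : Type) [Fintype ι] [DecidableEq ι] (n0 : ℕ) : Finset (ι → ℤ) :=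
  Fintype.piFinset fun _ : ι ↦ Finset.Icc (-(n0 : ℤ)) n0

private theorem Zh_cont_tt : Continuous fun r : ι → ℝ ↦ K.tt r := by
  refine continuous_pi fun s ↦ ?_
  unfold KD.tt
  by_cases hs : s = K.o
  · simp only [hs, if_true]
    exact continuous_const
  · simp only [hs, if_false]
    refine Continuous.div_const ?_ _
    refine continuous_finsetSum _ fun i _ ↦ ?_
    exact (Complex.continuous_ofReal.comp (continuous_apply i)).mul continuous_const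

private theorem Zh_cont_u (j : ι) : Continuous fun x : S → ℂ ↦ K.u j x := by
  unfold KD.u
  exact continuous_finsetSum _ fun s _ ↦ continuous_const.mul (continuous_apply s)

private theorem Zh_cont_tm (c0 : ℂ) (m : ι → ℤ) : Continuous fun x : S → ℂ ↦ K.tm c0 m x := by
  unfold KD.tm
  refine continuous_const.mul (Complex.continuous_exp.comp ?_)
  exact continuous_const.mul
    (continuous_finsetSum _ fun j _ ↦ continuous_const.mul (Zh_cont_u K j))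

private theorem Zh_cont_mon (κ : S → ℕ) (m : ι → ℤ) : Continuous fun x : S → ℂ ↦ K.mon κ m x := by
  unfold KD.mon
  exact continuous_finsetProd _ fun s _ ↦ ((continuous_apply s).add continuous_const).pow _

private theorem Zh_norm_tm (c0 : ℂ) (m : ι → ℤ) (x : S → ℂ) :
    ‖K.tm c0 m x‖ = Real.exp (K.q x) * ‖c0‖ ^ Fintype.card ι *
      Real.exp (-(Real.pi * K.z.im * ∑ j, ((m j : ℝ) + K.v j x) ^ 2)) := by
  have h := norm_tm K c0 m x
  have h2 : Real.exp (K.q x) * Real.exp (-K.q x) = 1 := by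
    rw [← Real.exp_add]; simp
  calc ‖K.tm c0 m x‖ = Real.exp (K.q x) * (‖K.tm c0 m x‖ * Real.exp (-K.q x)) := by
        rw [mul_left_comm, h2, mul_one]
    _ = _ := by rw [h]; ring

private theorem Zh_cont_Phi (c0 : ℂ) (κ : S → ℕ) (x : S → ℂ) :
    Continuous fun r : ι → ℝ ↦ K.Phi c0 κ (x + K.tt r) := by
  obtain ⟨C1, hC1, hmon⟩ := mon_le K
  obtain ⟨C3, hC3, hbb⟩ := bb_tt K
  obtain ⟨C5, hC5, hgs⟩ := gauss_sum (ι := ι) K.hz
  rw [continuous_iff_continuousAt]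
  intro r0
  set R : ℝ := ‖r0‖ + 1 with hR
  have hR0 : 0 ≤ R := by positivity
  have hopen : Metric.ball (0 : ι → ℝ) R ∈ nhds r0 := by
    refine Metric.isOpen_ball.mem_nhds ?_
    rw [mem_ball_zero_iff]; linarith
  have hB : (1 : ℝ) ≤ 1 + ‖K.bb x‖ + C3 * R := by
    have : 0 ≤ C3 * R := by positivity
    have := norm_nonneg (K.bb x)
    linarith
  have hsum := ((hgs (fun j ↦ K.v j x) (∑ s, κ s) (1 + ‖K.bb x‖ + C3 * R) hB).1).mul_left
    (Real.exp (K.q x) * ‖c0‖ ^ Fintype.card ι * C1 ^ (∑ s, κ s))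
  have hco : ContinuousOn (fun r : ι → ℝ ↦ ∑' m : ι → ℤ, K.tm c0 m (x + K.tt r) *
      K.mon κ m (x + K.tt r)) (Metric.ball (0 : ι → ℝ) R) := by
    refine continuousOn_tsum ?_ hsum ?_
    · intro m
      refine Continuous.continuousOn ?_
      have h1 : Continuous fun r : ι → ℝ ↦ x + K.tt r := continuous_const.add (Zh_cont_tt K)
      exact ((Zh_cont_tm K c0 m).comp h1).mul ((Zh_cont_mon K κ m).comp h1)
    · intro m r hr
      rw [mem_ball_zero_iff] at hr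
      have h1 := hmon κ m (x + K.tt r)
      have h2 := hbb x r
      rw [norm_mul, Zh_norm_tm]
      simp only [v_tt, q_tt] at h1 ⊢
      have ht : 0 ≤ ∑ j, |(m j : ℝ) + K.v j x| := Finset.sum_nonneg fun j _ ↦ abs_nonneg _
      have h3 : C3 * ‖r‖ ≤ C3 * R := mul_le_mul_of_nonneg_left hr.le (by linarith)
      have h4 : C1 * (1 + ‖K.bb (x + K.tt r)‖ + ∑ j, |(m j : ℝ) + K.v j x|) ≤
          C1 * (1 + ‖K.bb x‖ + C3 * R + ∑ j, |(m j : ℝ) + K.v j x|) :=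
        mul_le_mul_of_nonneg_left (by linarith) (by linarith)
      have h5 : 0 ≤ C1 * (1 + ‖K.bb (x + K.tt r)‖ + ∑ j, |(m j : ℝ) + K.v j x|) := by
        have := norm_nonneg (K.bb (x + K.tt r))
        positivity
      have h6 := pow_le_pow_left₀ h5 h4 (∑ s, κ s)
      have h7 := h1.trans h6
      have h8 := mul_le_mul_of_nonneg_left h7
        (show 0 ≤ Real.exp (K.q x) * ‖c0‖ ^ Fintype.card ι *
          Real.exp (-(Real.pi * K.z.im * ∑ j, ((m j : ℝ) + K.v j x) ^ 2)) by positivity)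
      refine h8.trans (le_of_eq ?_)
      rw [mul_pow]
      ring
  exact (hco.continuousAt hopen)

theorem continuous_FF (c0 : ℂ) (Q : ℕ) (c : (S → Fin (Q + 1)) → ℂ) (x : S → ℂ) :
    Continuous fun r : ι → ℝ ↦ K.FF c0 Q c (x + K.tt r) := by
  unfold KD.FF
  exact continuous_finsetSum _ fun κ _ ↦ continuous_const.mul (Zh_cont_Phi K c0 _ x)

private theorem Zh_hasSum (c0 : ℂ) (Q : ℕ) (c : (S → Fin (Q + 1)) → ℂ) (x : S → ℂ) :
    HasSum (fun m : ι → ℤ ↦ K.tm c0 m x * K.PP Q c m x) (K.FF c0 Q c x) := by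
  have h1 : ∀ κ : S → Fin (Q + 1), HasSum (fun m : ι → ℤ ↦ c κ * (K.tm c0 m x *
      K.mon (fun s ↦ (κ s : ℕ)) m x)) (c κ * K.Phi c0 (fun s ↦ (κ s : ℕ)) x) := by
    intro κ
    refine HasSum.mul_left _ ?_
    exact (summable_Phi K c0 (fun s ↦ (κ s : ℕ)) x).of_norm.hasSum
  have h2 := hasSum_sum (s := Finset.univ) fun κ _ ↦ h1 κ
  have h3 : (fun m : ι → ℤ ↦ K.tm c0 m x * K.PP Q c m x) =
      fun m : ι → ℤ ↦ ∑ κ : S → Fin (Q + 1), c κ * (K.tm c0 m x *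
      K.mon (fun s ↦ (κ s : ℕ)) m x) := by
    funext m
    unfold KD.PP
    rw [Finset.mul_sum]
    exact Finset.sum_congr rfl fun κ _ ↦ by ring
  rw [h3]
  exact h2

private theorem Zh_PP (Q : ℕ) (c : (S → Fin (Q + 1)) → ℂ) (hc : ∀ κ, ‖c κ‖ ≤ 1) (m : ι → ℤ)
    (x : S → ℂ) (M : ℝ) (hM : 1 ≤ M)
    (h : ∀ κ : S → ℕ, ‖K.mon κ m x‖ ≤ M ^ ∑ s, κ s) :
    ‖K.PP Q c m x‖ ≤ ((Q : ℝ) + 1) ^ Fintype.card S * M ^ (Fintype.card S * Q) := by
  unfold KD.PP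
  refine (norm_sum_le _ _).trans ?_
  have h1 : ∀ κ ∈ (Finset.univ : Finset (S → Fin (Q + 1))),
      ‖c κ * K.mon (fun s ↦ (κ s : ℕ)) m x‖ ≤ M ^ (Fintype.card S * Q) := by
    intro κ _
    rw [norm_mul]
    have h2 : ∑ s, (κ s : ℕ) ≤ Fintype.card S * Q := by
      calc ∑ s, (κ s : ℕ) ≤ ∑ _s : S, Q := Finset.sum_le_sum fun s _ ↦ Nat.lt_succ_iff.mp (κ s).2
        _ = Fintype.card S * Q := by simp
    calc ‖c κ‖ * ‖K.mon (fun s ↦ (κ s : ℕ)) m x‖ ≤ 1 * M ^ ∑ s, (κ s : ℕ) :=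
          mul_le_mul (hc κ) (h _) (norm_nonneg _) zero_le_one
      _ ≤ M ^ (Fintype.card S * Q) := by
          rw [one_mul]; exact pow_le_pow_right₀ hM h2
  refine (Finset.sum_le_sum h1).trans (le_of_eq ?_)
  rw [Finset.sum_const, nsmul_eq_mul]
  congr 1
  simp

private theorem Zh_tail {Y : ℝ} (hY : 0 < Y) : ∃ C : ℝ, 1 ≤ C ∧ ∀ (v : ι → ℝ) (V : ℝ),
    0 ≤ V → (∀ j, |v j| ≤ V) → ∀ (n n0 : ℕ),
    ∑' m : {m : ι → ℤ // m ∉ bx ι n0},
      Real.exp (-(Real.pi * Y * ∑ j, ((m.1 j : ℝ) + v j) ^ 2)) *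
      (1 + ∑ j, |(m.1 j : ℝ) + v j|) ^ n ≤
    Real.exp (C * (n + 1) * Real.log (n + 2) + 4 * V ^ 2 - n0 ^ 2 / C) := by
  obtain ⟨C4, hC4, h4⟩ := gauss_tail (ι := ι) hY
  obtain ⟨C5, hC5, h5⟩ := gauss_sum (ι := ι) hY
  refine ⟨max C4 C5, le_max_of_le_left hC4, ?_⟩
  intro v V hV0 hV n n0
  have hlog : 0 ≤ ((n : ℝ) + 1) * Real.log (n + 2) := by
    have : 0 ≤ Real.log ((n : ℝ) + 2) := Real.log_nonneg (by have := n.cast_nonneg (α := ℝ); linarith)
    positivity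
  have hm4 : C4 ≤ max C4 C5 := le_max_left _ _
  have hm5 : C5 ≤ max C4 C5 := le_max_right _ _
  by_cases hn : 2 * V ≤ n0
  · have h := h4 v V hV n n0 1 le_rfl hn
    rw [one_pow, one_mul] at h
    refine h.trans (Real.exp_le_exp.mpr ?_)
    have h1 : C4 * ((n : ℝ) + 1) * Real.log (n + 2) ≤ max C4 C5 * (n + 1) * Real.log (n + 2) := by
      rw [mul_assoc, mul_assoc]
      exact mul_le_mul_of_nonneg_right hm4 hlog
    have h2 : (n0 : ℝ) ^ 2 / max C4 C5 ≤ (n0 : ℝ) ^ 2 / C4 :=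
      div_le_div_of_nonneg_left (by positivity) (by linarith) hm4
    nlinarith [sq_nonneg V]
  · have h := h5 v n 1 le_rfl
    have h0 : ∀ m : ι → ℤ, 0 ≤ Real.exp (-(Real.pi * Y * ∑ j, ((m j : ℝ) + v j) ^ 2)) *
      (1 + ∑ j, |(m j : ℝ) + v j|) ^ n := by
      intro m
      have ht : 0 ≤ ∑ j, |(m j : ℝ) + v j| := Finset.sum_nonneg fun j _ ↦ abs_nonneg _
      positivity
    have h1 : ∑' m : {m : ι → ℤ // m ∉ bx ι n0},
        Real.exp (-(Real.pi * Y * ∑ j, ((m.1 j : ℝ) + v j) ^ 2)) *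
        (1 + ∑ j, |(m.1 j : ℝ) + v j|) ^ n ≤ ∑' m : ι → ℤ,
        Real.exp (-(Real.pi * Y * ∑ j, ((m j : ℝ) + v j) ^ 2)) *
        (1 + ∑ j, |(m j : ℝ) + v j|) ^ n := by
      refine Summable.tsum_le_tsum_of_inj Subtype.val Subtype.val_injective
        (fun c _ ↦ h0 c) (fun i ↦ le_rfl) (h.1.subtype _) h.1
    have h2 := h1.trans h.2
    rw [one_pow, one_mul] at h2
    refine h2.trans (Real.exp_le_exp.mpr ?_)
    have h3 : C5 * ((n : ℝ) + 1) * Real.log (n + 2) ≤ max C4 C5 * (n + 1) * Real.log (n + 2) := by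
      rw [mul_assoc, mul_assoc]
      exact mul_le_mul_of_nonneg_right hm5 hlog
    have h6 : (n0 : ℝ) ^ 2 / max C4 C5 ≤ (n0 : ℝ) ^ 2 := by
      refine div_le_self (by positivity) (by linarith [le_max_left C4 C5])
    have h7 : (n0 : ℝ) ^ 2 ≤ 4 * V ^ 2 := by
      push Not at hn
      have : (0 : ℝ) ≤ n0 := n0.cast_nonneg
      nlinarith
    linarith

private theorem Zh_num (k : ℕ) (hk : 1 ≤ k) {C2 C6 V0 Cq c0n : ℝ} (d : ℕ) (hC2 : 1 ≤ C2) (hC6 : 1 ≤ C6)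
    (hV0 : 0 ≤ V0) (hCq : 0 ≤ Cq) (hc : 0 ≤ c0n) :
    ∃ C : ℝ, 1 ≤ C ∧ ∀ (Q n0 : ℕ), 1 ≤ Q →
      Real.exp Cq * c0n ^ d * ((Q : ℝ) + 1) ^ k * C2 ^ (k * Q) *
        Real.exp (C6 * ((k * Q : ℕ) + 1) * Real.log ((k * Q : ℕ) + 2) + 4 * V0 ^ 2 - n0 ^ 2 / C6) ≤
      Real.exp (C * Q * Real.log (Q + 2) - n0 ^ 2 / C) := by
  set A : ℝ := Cq + d * Real.log (1 + c0n) + k + k * Real.log C2 +
    C6 * (k + 1) * (Real.log (k + 1) + 1) + 4 * V0 ^ 2 with hA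
  have hk0 : (1 : ℝ) ≤ k := by exact_mod_cast hk
  have hl1 : 0 ≤ Real.log (1 + c0n) := Real.log_nonneg (by linarith)
  have hl2 : 0 ≤ Real.log C2 := Real.log_nonneg hC2
  have hl3 : 0 ≤ Real.log ((k : ℝ) + 1) := Real.log_nonneg (by linarith)
  refine ⟨A + C6, ?_, ?_⟩
  · have : 0 ≤ A := by positivity
    linarith
  intro Q n0 hQ
  have hQ1 : (1 : ℝ) ≤ Q := by exact_mod_cast hQ
  set L : ℝ := Real.log (Q + 2) with hL
  have hL1 : 1 ≤ L := by
    rw [hL, Real.le_log_iff_exp_le (by positivity)]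
    have := Real.exp_one_lt_d9
    linarith
  have hQL : 1 ≤ Q * L := by nlinarith
  have hA0 : 0 ≤ A := by positivity
  have e1 : c0n ^ d ≤ Real.exp (d * Real.log (1 + c0n)) := by
    have : Real.exp (d * Real.log (1 + c0n)) = (1 + c0n) ^ d := by
      rw [mul_comm, Real.exp_mul, Real.exp_log (by linarith), Real.rpow_natCast]
    rw [this]
    exact pow_le_pow_left₀ hc (by linarith) _
  have e2 : ((Q : ℝ) + 1) ^ k ≤ Real.exp (k * L) := by
    have : Real.exp (k * L) = ((Q : ℝ) + 2) ^ k := by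
      rw [mul_comm, Real.exp_mul, hL, Real.exp_log (by linarith), Real.rpow_natCast]
    rw [this]
    exact pow_le_pow_left₀ (by linarith) (by linarith) _
  have e3 : C2 ^ (k * Q) = Real.exp ((k * Q : ℕ) * Real.log C2) := by
    rw [mul_comm (((k * Q : ℕ)) : ℝ), Real.exp_mul, Real.exp_log (by linarith), Real.rpow_natCast]
  have e4 : Real.exp Cq * c0n ^ d * ((Q : ℝ) + 1) ^ k * C2 ^ (k * Q) ≤
      Real.exp (Cq + d * Real.log (1 + c0n) + k * L + (k * Q : ℕ) * Real.log C2) := by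
    rw [Real.exp_add, Real.exp_add, Real.exp_add, e3]
    gcongr
  refine (mul_le_mul_of_nonneg_right e4 (Real.exp_pos _).le).trans ?_
  rw [← Real.exp_add]
  refine Real.exp_le_exp.mpr ?_
  have f1 : Cq ≤ Cq * (Q * L) := le_mul_of_one_le_right hCq hQL
  have f2 : d * Real.log (1 + c0n) ≤ d * Real.log (1 + c0n) * (Q * L) :=
    le_mul_of_one_le_right (by positivity) hQL
  have f3 : (k : ℝ) * L ≤ k * (Q * L) := by
    have : L ≤ Q * L := by nlinarith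
    exact mul_le_mul_of_nonneg_left this (by linarith)
  have f4 : ((k * Q : ℕ) : ℝ) * Real.log C2 ≤ k * Real.log C2 * (Q * L) := by
    push_cast
    have : (Q : ℝ) ≤ Q * L := le_mul_of_one_le_right (by linarith) hL1
    have h := mul_le_mul_of_nonneg_left this (show 0 ≤ (k : ℝ) * Real.log C2 by positivity)
    linarith
  have f5 : Real.log ((k * Q : ℕ) + 2) ≤ (Real.log (k + 1) + 1) * L := by
    have g1 : Real.log (((k * Q : ℕ) : ℝ) + 2) ≤ Real.log ((k + 1) * (Q + 2)) := by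
      refine Real.log_le_log (by positivity) ?_
      push_cast
      nlinarith
    rw [Real.log_mul (by positivity) (by positivity)] at g1
    nlinarith
  have f5' : 0 ≤ Real.log (((k * Q : ℕ) : ℝ) + 2) := by
    refine Real.log_nonneg ?_
    have : (0 : ℝ) ≤ ((k * Q : ℕ) : ℝ) := Nat.cast_nonneg _
    linarith
  have f6 : ((k * Q : ℕ) : ℝ) + 1 ≤ (k + 1) * Q := by
    push_cast
    nlinarith
  have f7 : C6 * (((k * Q : ℕ) : ℝ) + 1) * Real.log ((k * Q : ℕ) + 2) ≤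
      C6 * (k + 1) * (Real.log (k + 1) + 1) * (Q * L) := by
    have g2 : (((k * Q : ℕ) : ℝ) + 1) * Real.log ((k * Q : ℕ) + 2) ≤
        ((k + 1) * Q) * ((Real.log (k + 1) + 1) * L) :=
      mul_le_mul f6 f5 f5' (by positivity)
    have g3 := mul_le_mul_of_nonneg_left g2 (show 0 ≤ C6 by linarith)
    linarith
  have f8 : 4 * V0 ^ 2 ≤ 4 * V0 ^ 2 * (Q * L) := le_mul_of_one_le_right (by positivity) hQL
  have f9 : (n0 : ℝ) ^ 2 / (A + C6) ≤ (n0 : ℝ) ^ 2 / C6 :=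
    div_le_div_of_nonneg_left (by positivity) (by linarith) (by linarith)
  have f10 : 0 ≤ C6 * (Q * L) := by positivity
  have f11 : (A + C6) * Q * L = Cq * (Q * L) + d * Real.log (1 + c0n) * (Q * L) + k * (Q * L) +
      k * Real.log C2 * (Q * L) + C6 * (k + 1) * (Real.log (k + 1) + 1) * (Q * L) +
      4 * V0 ^ 2 * (Q * L) + C6 * (Q * L) := by rw [hA]; ring
  rw [f11]
  linarith

theorem rem_le (c0 : ℂ) : ∃ C : ℝ, 1 ≤ C ∧ ∀ (Q : ℕ), 1 ≤ Q →
    ∀ (c : (S → Fin (Q + 1)) → ℂ), (∀ κ, ‖c κ‖ ≤ 1) → ∀ (n0 : ℕ) (x : S → ℂ) (r : ι → ℝ),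
    (∀ s, ‖x s‖ = 1) →
    ‖K.FF c0 Q c (x + K.tt r) - ∑ m ∈ bx ι n0, K.tm c0 m (x + K.tt r) * K.PP Q c m (x + K.tt r)‖ ≤
      Real.exp (C * Q * Real.log (Q + 2) - n0 ^ 2 / C) * (1 + ‖r‖) ^ (Fintype.card S * Q) := by
  obtain ⟨C1, hC1, hmon⟩ := mon_le K
  obtain ⟨C3, hC3, hbb⟩ := bb_tt K
  obtain ⟨V0, hV0, hv⟩ := v_le K
  obtain ⟨Cq, hCq, hq⟩ := q_le K
  obtain ⟨C6, hC6, htail⟩ := Zh_tail (ι := ι) K.hz
  obtain ⟨C5, hC5, hgs⟩ := gauss_sum (ι := ι) K.hz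
  have hk : 1 ≤ Fintype.card S := by have := K.hS; omega
  obtain ⟨C, hC, hnum⟩ := Zh_num (Fintype.card S) hk (C2 := C1 * (2 + C3)) (C6 := C6) (V0 := V0) (Cq := Cq)
    (c0n := ‖c0‖) (Fintype.card ι) (by nlinarith) hC6 (by linarith) (by linarith) (norm_nonneg _)
  refine ⟨C, hC, ?_⟩
  intro Q hQ c hc n0 x r hx
  have hx1 : ‖x‖ ≤ 1 := by
    rw [pi_norm_le_iff_of_nonneg zero_le_one]
    exact fun s ↦ (hx s).le
  have hvx : ∀ j, |K.v j x| ≤ V0 := fun j ↦ (hv j x).trans (by nlinarith [norm_nonneg x])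
  have hqx : K.q x ≤ Cq := (hq x).trans (by nlinarith [norm_nonneg x, pow_le_one₀ (n := 2) (norm_nonneg x) hx1])
  set n : ℕ := Fintype.card S * Q with hn
  have hr0 := norm_nonneg r
  have hbx : ‖K.bb (x + K.tt r)‖ ≤ 1 + C3 * ‖r‖ := (hbb x r).trans (by linarith [bb_le K x])
  set D : ℝ := Real.exp (K.q x) * ‖c0‖ ^ Fintype.card ι * ((Q : ℝ) + 1) ^ Fintype.card S *
    (C1 * (2 + C3)) ^ n * (1 + ‖r‖) ^ n with hD
  have hD0 : 0 ≤ D := by positivity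
  have hterm : ∀ m : ι → ℤ, ‖K.tm c0 m (x + K.tt r) * K.PP Q c m (x + K.tt r)‖ ≤
      D * (Real.exp (-(Real.pi * K.z.im * ∑ j, ((m j : ℝ) + K.v j x) ^ 2)) *
      (1 + ∑ j, |(m j : ℝ) + K.v j x|) ^ n) := by
    intro m
    have ht : 0 ≤ ∑ j, |(m j : ℝ) + K.v j x| := Finset.sum_nonneg fun j _ ↦ abs_nonneg _
    have hb0 := norm_nonneg (K.bb (x + K.tt r))
    set t : ℝ := ∑ j, |(m j : ℝ) + K.v j x| with htdef
    have h1 : ‖K.PP Q c m (x + K.tt r)‖ ≤ ((Q : ℝ) + 1) ^ Fintype.card S *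
        (C1 * (1 + ‖K.bb (x + K.tt r)‖ + t)) ^ (Fintype.card S * Q) := by
      refine Zh_PP K Q c hc m (x + K.tt r) _ (by nlinarith) ?_
      intro κ
      have := hmon κ m (x + K.tt r)
      simp only [v_tt] at this
      exact this
    have h2 : C1 * (1 + ‖K.bb (x + K.tt r)‖ + t) ≤ (C1 * (2 + C3)) * (1 + ‖r‖) * (1 + t) := by
      have h3 : 1 + ‖K.bb (x + K.tt r)‖ + t ≤ (2 + C3) * (1 + ‖r‖) * (1 + t) := by
        have g1 : 1 + ‖K.bb (x + K.tt r)‖ ≤ (2 + C3) * (1 + ‖r‖) := by nlinarith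
        have g2 : 1 ≤ (2 + C3) * (1 + ‖r‖) := by nlinarith
        nlinarith
      have := mul_le_mul_of_nonneg_left h3 (show 0 ≤ C1 by linarith)
      linarith
    have h4 := pow_le_pow_left₀ (by positivity) h2 n
    have h5 : ‖K.PP Q c m (x + K.tt r)‖ ≤ ((Q : ℝ) + 1) ^ Fintype.card S *
        ((C1 * (2 + C3)) ^ n * (1 + ‖r‖) ^ n * (1 + t) ^ n) := by
      refine h1.trans (mul_le_mul_of_nonneg_left ?_ (by positivity))
      refine h4.trans (le_of_eq ?_)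
      rw [mul_pow, mul_pow]
    rw [norm_mul, Zh_norm_tm, q_tt]
    simp only [v_tt]
    refine (mul_le_mul_of_nonneg_left h5 (by positivity)).trans (le_of_eq ?_)
    rw [hD]
    ring
  have hS := Zh_hasSum K c0 Q c (x + K.tt r)
  have hsplit := hS.summable.sum_add_tsum_subtype_compl (bx ι n0)
  rw [hS.tsum_eq] at hsplit
  rw [← hsplit, add_sub_cancel_left]
  have hE := (hgs (fun j ↦ K.v j x) n 1 le_rfl).1
  have hE2 := ((hE.mul_left D).subtype {m : ι → ℤ | m ∉ bx ι n0}).hasSum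
  have hb1 : ‖∑' m : {m : ι → ℤ // m ∉ bx ι n0}, K.tm c0 m.1 (x + K.tt r) * K.PP Q c m.1 (x + K.tt r)‖ ≤
      ∑' m : {m : ι → ℤ // m ∉ bx ι n0}, D *
        (Real.exp (-(Real.pi * K.z.im * ∑ j, ((m.1 j : ℝ) + K.v j x) ^ 2)) *
      (1 + ∑ j, |(m.1 j : ℝ) + K.v j x|) ^ n) :=
    tsum_of_norm_bounded hE2 fun m ↦ hterm m.1
  refine hb1.trans ?_
  rw [tsum_mul_left]
  have ht2 := htail (fun j ↦ K.v j x) V0 (by linarith) hvx n n0
  refine (mul_le_mul_of_nonneg_left ht2 hD0).trans ?_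
  have hn2 := hnum Q n0 hQ
  rw [← hn] at hn2
  have hD2 : D ≤ Real.exp Cq * ‖c0‖ ^ Fintype.card ι * ((Q : ℝ) + 1) ^ Fintype.card S *
    (C1 * (2 + C3)) ^ n * (1 + ‖r‖) ^ n := by
    rw [hD]
    gcongr
  refine (mul_le_mul_of_nonneg_right hD2 (Real.exp_pos _).le).trans ?_
  have h9 := mul_le_mul_of_nonneg_right hn2 (show 0 ≤ (1 + ‖r‖) ^ n by positivity)
  refine (le_of_eq ?_).trans h9
  ring

end AZ
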