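import Pool.Agent.H60.AZ.Zf

/-!
# Row Zi (MP_ede373, all algebraic points): Gaussian tails

`gauss_mom`: for `0 < b ≤ 1`, `n : ℕ`, `R1 ≥ 0` and a measurable (continuous) `f` with `‖f r‖ ≤ D (1 + ‖r‖)^n` for `‖r‖ ≥ R1` and `‖f r‖ ≤ δ` for
`‖r‖ ≤ R1`: `‖EM b 0 f‖ ≤ δ + D exp(C (n+1) log(n+2) + n log(1/b) - b R1²/2)`.

PROOF. `‖gk b 0 r‖ = exp(-b ∑ r_i²)`, total mass `√(π/b)^d`. Pointwise `‖f r‖ exp(-b∑r²) ≤ δ exp(-b ∑ r²) + D (1+‖r‖)^n exp(-b R1²/2) exp(-b∑r²/2)`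
(for `‖r‖ ≥ R1`: `∑ r_i² ≥ ‖r‖² ≥ R1²`), and `(1 + ‖r‖)^n exp(-b ‖r‖²/4) ≤ exp(C(n+1) log(n+2) + n log(1/b))`: `n log(1+y) ≤ b y²/4 + ...`: with
`y = y'/√b`, `1 + y ≤ (1+y')/√b`, `(1+y')^n exp(-y'²/4) ≤ exp(C (n+1) log (n+2))` (as in row Ba4). Then
`∫ exp(-b∑r²/4) = √(4π/b)^d = 2^d √(π/b)^d` (`gk_one`). So the second term is `≤ D 2^d exp(..)`.
Integrability: domination by an integrable Gaussian.
-/

set_option autoImplicit false

namespace AZ

open Complex Finset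

variable {ι : Type} [Fintype ι] [DecidableEq ι]

/-- the real Gaussian -/
private noncomputable def Zi_E {ι : Type} [Fintype ι] (b : ℝ) (r : ι → ℝ) : ℝ :=
  Real.exp (-(b * ∑ i, r i ^ 2))

private theorem Zi_gk (b : ℝ) (r : ι → ℝ) : gk b 0 r = ((Zi_E b r : ℝ) : ℂ) := by
  unfold gk Zi_E
  simp only [Pi.zero_apply, ofReal_zero, mul_zero, Finset.sum_const_zero, exp_zero, mul_one]
  push_cast
  rfl

private theorem Zi_norm (b : ℝ) (r : ι → ℝ) : ‖gk b 0 r‖ = Zi_E b r := by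
  rw [Zi_gk, Complex.norm_real, Real.norm_eq_abs, abs_of_nonneg]
  exact (Real.exp_pos _).le

private theorem Zi_int {b : ℝ} (hb : 0 < b) : MeasureTheory.Integrable (fun r : ι → ℝ ↦ Zi_E b r) := by
  have h := gk_int hb (0 : ι → ℝ) 0 (fun _ ↦ 0) (fun _ _ ↦ 0)
  simp only [Finset.univ_eq_empty, Finset.prod_empty, one_mul] at h
  refine h.norm.congr (Filter.Eventually.of_forall fun r ↦ ?_)
  exact Zi_norm b r

private theorem Zi_one {b : ℝ} (hb : 0 < b) :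
    ∫ r : ι → ℝ, Zi_E b r = Real.sqrt (Real.pi / b) ^ Fintype.card ι := by
  have h := gk_one (ι := ι) hb
  simp only [Zi_gk] at h
  have h2 : (((∫ r : ι → ℝ, Zi_E b r : ℝ)) : ℂ) =
      (Real.sqrt (Real.pi / b) : ℂ) ^ Fintype.card ι := by
    rw [← h]
    exact (integral_ofReal (𝕜 := ℂ) (f := fun r : ι → ℝ ↦ Zi_E b r)).symm
  exact_mod_cast h2

private theorem Zi_sup (r : ι → ℝ) : ‖r‖ ^ 2 ≤ ∑ i, r i ^ 2 := by
  have h0 : 0 ≤ ∑ i, r i ^ 2 := Finset.sum_nonneg fun i _ ↦ sq_nonneg _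
  have h1 : ‖r‖ ≤ Real.sqrt (∑ i, r i ^ 2) := by
    rw [pi_norm_le_iff_of_nonneg (Real.sqrt_nonneg _)]
    intro i
    rw [Real.norm_eq_abs]
    refine Real.abs_le_sqrt ?_
    exact Finset.single_le_sum (f := fun i ↦ r i ^ 2) (fun j _ ↦ sq_nonneg _) (Finset.mem_univ i)
  calc ‖r‖ ^ 2 ≤ Real.sqrt (∑ i, r i ^ 2) ^ 2 := pow_le_pow_left₀ (norm_nonneg _) h1 2
    _ = _ := Real.sq_sqrt h0

private theorem Zi_poly (n : ℕ) {v : ℝ} (hv : 0 ≤ v) :
    (1 + v) ^ n * Real.exp (-(v ^ 2 / 4)) ≤ Real.exp (2 * (n + 1) * Real.log (n + 2)) := by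
  have hN : (0 : ℝ) < n + 2 := by positivity
  have h1 : 0 < 1 + v := by linarith
  have hl2 : 1 / 2 ≤ Real.log (n + 2) := by
    have h3 : Real.log 2 ≤ Real.log (n + 2) :=
      Real.log_le_log (by norm_num) (by
        have : (0 : ℝ) ≤ n := Nat.cast_nonneg n
        linarith)
    have := Real.log_two_gt_d9
    linarith
  have h2 : Real.log (1 + v) ≤ Real.log (n + 2) + v / (n + 2) := by
    have h3 : Real.log ((1 + v) / (n + 2)) ≤ (1 + v) / (n + 2) - 1 :=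
      Real.log_le_sub_one_of_pos (by positivity)
    rw [Real.log_div h1.ne' hN.ne', add_div] at h3
    have h4 : 1 / ((n : ℝ) + 2) ≤ 1 := by
      rw [div_le_one hN]
      have : (0 : ℝ) ≤ n := Nat.cast_nonneg n
      linarith
    linarith
  have h3 : (1 + v) ^ n = Real.exp (n * Real.log (1 + v)) := by
    rw [Real.exp_nat_mul, Real.exp_log h1]
  rw [h3, ← Real.exp_add]
  apply Real.exp_le_exp.2
  have hn0 : (0 : ℝ) ≤ n := Nat.cast_nonneg n
  have h4 : (n : ℝ) * Real.log (1 + v) ≤ n * Real.log (n + 2) + v := by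
    have h5 : (n : ℝ) * (v / (n + 2)) ≤ v := by
      rw [← mul_div_assoc, div_le_iff₀ hN]
      nlinarith
    have h6 := mul_le_mul_of_nonneg_left h2 hn0
    rw [mul_add] at h6
    linarith
  have h7 : v - v ^ 2 / 4 ≤ 1 := by nlinarith [sq_nonneg (v - 2)]
  nlinarith

private theorem Zi_pt (n : ℕ) {b y : ℝ} (hb : 0 < b) (hb1 : b ≤ 1) (hy : 0 ≤ y) :
    (1 + y) ^ n * Real.exp (-(b * y ^ 2 / 4)) ≤
      Real.exp (2 * (n + 1) * Real.log (n + 2) + n * Real.log (1 / b)) := by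
  have h1 : 1 + y ≤ 1 / b * (1 + b * y) := by
    have e1 : 1 / b * (1 + b * y) = 1 / b + y := by field_simp
    rw [e1]
    have : 1 ≤ 1 / b := by rwa [le_div_iff₀ hb, one_mul]
    linarith
  have h2 : (1 + y) ^ n ≤ (1 / b) ^ n * (1 + b * y) ^ n := by
    rw [← mul_pow]
    exact pow_le_pow_left₀ (by linarith) h1 n
  have h3 : Real.exp (-(b * y ^ 2 / 4)) ≤ Real.exp (-((b * y) ^ 2 / 4)) := by
    apply Real.exp_le_exp.2
    have : (b * y) ^ 2 ≤ b * y ^ 2 := by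
      have : b ^ 2 ≤ b := by nlinarith
      calc (b * y) ^ 2 = b ^ 2 * y ^ 2 := by ring
        _ ≤ b * y ^ 2 := mul_le_mul_of_nonneg_right this (sq_nonneg _)
    linarith
  have h4 := Zi_poly n (mul_nonneg hb.le hy)
  have h5 : (1 / b) ^ n = Real.exp (n * Real.log (1 / b)) := by
    rw [Real.exp_nat_mul, Real.exp_log (by positivity)]
  rw [add_comm (2 * ((n : ℝ) + 1) * Real.log (n + 2)), Real.exp_add, ← h5]
  calc (1 + y) ^ n * Real.exp (-(b * y ^ 2 / 4))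
      ≤ ((1 / b) ^ n * (1 + b * y) ^ n) * Real.exp (-((b * y) ^ 2 / 4)) :=
        mul_le_mul h2 h3 (Real.exp_pos _).le (by positivity)
    _ = (1 / b) ^ n * ((1 + b * y) ^ n * Real.exp (-((b * y) ^ 2 / 4))) := by ring
    _ ≤ _ := mul_le_mul_of_nonneg_left h4 (by positivity)

theorem gauss_mom : ∃ C : ℝ, 1 ≤ C ∧ ∀ (b : ℝ) (n : ℕ) (R1 δ D : ℝ) (f : (ι → ℝ) → ℂ), 0 < b → b ≤ 1 →
    0 ≤ R1 → 0 ≤ δ → 0 ≤ D → Continuous f → (∀ r, ‖r‖ ≤ R1 → ‖f r‖ ≤ δ) →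
    (∀ r, R1 ≤ ‖r‖ → ‖f r‖ ≤ D * (1 + ‖r‖) ^ n) →
    MeasureTheory.Integrable (fun r : ι → ℝ ↦ f r * gk b 0 r) ∧
    ‖EM b 0 f‖ ≤ δ + D * Real.exp (C * (n + 1) * Real.log (n + 2) + n * Real.log (1 / b) -
      b * R1 ^ 2 / 2) := by
  obtain ⟨d, hd⟩ : ∃ d : ℕ, d = Fintype.card ι := ⟨_, rfl⟩
  refine ⟨d + 2, by
    have : (0 : ℝ) ≤ d := Nat.cast_nonneg d
    linarith, ?_⟩
  intro b n R1 δ D f hb hb1 hR1 hδ hD hf h1 h2
  obtain ⟨M, hM⟩ : ∃ M : ℝ, M = Real.exp (2 * (n + 1) * Real.log (n + 2) + n * Real.log (1 / b)) *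
    Real.exp (-(b * R1 ^ 2 / 2)) := ⟨_, rfl⟩
  have hM0 : 0 < M := by
    rw [hM]
    positivity
  have hb4 : 0 < b / 4 := by linarith
  have hE0 : ∀ (c : ℝ) (r : ι → ℝ), 0 ≤ Zi_E c r := fun c r ↦ (Real.exp_pos _).le
  -- pointwise
  have hpt : ∀ r : ι → ℝ, ‖f r * gk b 0 r‖ ≤ δ * Zi_E b r + D * M * Zi_E (b / 4) r := by
    intro r
    rw [norm_mul, Zi_norm]
    rcases le_total ‖r‖ R1 with h3 | h3
    · have h4 : ‖f r‖ * Zi_E b r ≤ δ * Zi_E b r := mul_le_mul_of_nonneg_right (h1 r h3) (hE0 _ _)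
      have h5 : 0 ≤ D * M * Zi_E (b / 4) r := mul_nonneg (mul_nonneg hD hM0.le) (hE0 _ _)
      linarith
    · have h4 : ‖f r‖ * Zi_E b r ≤ D * (1 + ‖r‖) ^ n * Zi_E b r :=
        mul_le_mul_of_nonneg_right (h2 r h3) (hE0 _ _)
      have h5 : Zi_E b r ≤ Real.exp (-(b * ‖r‖ ^ 2 / 4)) * Real.exp (-(b * R1 ^ 2 / 2)) *
          Zi_E (b / 4) r := by
        unfold Zi_E
        rw [← Real.exp_add, ← Real.exp_add]
        apply Real.exp_le_exp.2
        have h6 := Zi_sup r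
        have h7 : R1 ^ 2 ≤ ‖r‖ ^ 2 := pow_le_pow_left₀ hR1 h3 2
        have h8 : b * ‖r‖ ^ 2 ≤ b * ∑ i, r i ^ 2 := mul_le_mul_of_nonneg_left h6 hb.le
        have h9 : b * R1 ^ 2 ≤ b * ‖r‖ ^ 2 := mul_le_mul_of_nonneg_left h7 hb.le
        linarith
      have h6 := Zi_pt n hb hb1 (norm_nonneg r)
      have h7 : D * (1 + ‖r‖) ^ n * Zi_E b r ≤ D * M * Zi_E (b / 4) r := by
        calc D * (1 + ‖r‖) ^ n * Zi_E b r
            ≤ D * (1 + ‖r‖) ^ n * (Real.exp (-(b * ‖r‖ ^ 2 / 4)) * Real.exp (-(b * R1 ^ 2 / 2)) *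
          Zi_E (b / 4) r) := mul_le_mul_of_nonneg_left h5 (by positivity)
          _ = D * (((1 + ‖r‖) ^ n * Real.exp (-(b * ‖r‖ ^ 2 / 4))) *
              Real.exp (-(b * R1 ^ 2 / 2))) * Zi_E (b / 4) r := by ring
          _ ≤ D * M * Zi_E (b / 4) r := by
            refine mul_le_mul_of_nonneg_right (mul_le_mul_of_nonneg_left ?_ hD) (hE0 _ _)
            rw [hM]
            exact mul_le_mul_of_nonneg_right h6 (Real.exp_pos _).le
      have h8 : 0 ≤ δ * Zi_E b r := mul_nonneg hδ (hE0 _ _)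
      linarith
  have hdom : MeasureTheory.Integrable
      (fun r : ι → ℝ ↦ δ * Zi_E b r + D * M * Zi_E (b / 4) r) :=
    ((Zi_int hb).const_mul δ).add ((Zi_int hb4).const_mul (D * M))
  have hcont : Continuous fun r : ι → ℝ ↦ f r * gk b 0 r := by
    refine hf.mul ?_
    unfold gk
    fun_prop
  have hint : MeasureTheory.Integrable (fun r : ι → ℝ ↦ f r * gk b 0 r) :=
    hdom.mono' hcont.aestronglyMeasurable (Filter.Eventually.of_forall hpt)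
  refine ⟨hint, ?_⟩
  have hI : ‖∫ r : ι → ℝ, f r * gk b 0 r‖ ≤ δ * Real.sqrt (Real.pi / b) ^ d +
      D * M * (2 * Real.sqrt (Real.pi / b)) ^ d := by
    refine (MeasureTheory.norm_integral_le_of_norm_le hdom
      (Filter.Eventually.of_forall hpt)).trans (le_of_eq ?_)
    rw [MeasureTheory.integral_add ((Zi_int hb).const_mul δ) ((Zi_int hb4).const_mul (D * M)),
      MeasureTheory.integral_const_mul, MeasureTheory.integral_const_mul, Zi_one hb, Zi_one hb4,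
      ← hd]
    have : Real.sqrt (Real.pi / (b / 4)) = 2 * Real.sqrt (Real.pi / b) := by
      have e1 : Real.pi / (b / 4) = 2 ^ 2 * (Real.pi / b) := by
        field_simp
        norm_num
      rw [e1, Real.sqrt_mul (by norm_num), Real.sqrt_sq (by norm_num)]
    rw [this]
  have hs : 0 < Real.sqrt (Real.pi / b) := Real.sqrt_pos.2 (by positivity)
  have hs' : 0 < Real.sqrt (Real.pi / b) ^ d := by positivity
  unfold EM
  rw [norm_mul, norm_inv, norm_pow, Complex.norm_real, Real.norm_eq_abs, abs_of_pos hs, ← hd]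
  have h10 : (Real.sqrt (Real.pi / b) ^ d)⁻¹ * ‖∫ r : ι → ℝ, f r * gk b 0 r‖ ≤
      δ + D * M * 2 ^ d := by
    rw [inv_mul_le_iff₀ hs']
    refine hI.trans (le_of_eq ?_)
    rw [mul_pow]
    ring
  refine h10.trans ?_
  have h11 : (2 : ℝ) ^ d * M ≤ Real.exp ((d + 2) * (n + 1) * Real.log (n + 2) +
      n * Real.log (1 / b) - b * R1 ^ 2 / 2) := by
    have e1 : (2 : ℝ) ^ d = Real.exp (d * Real.log 2) := by
      rw [Real.exp_nat_mul, Real.exp_log (by norm_num)]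
    rw [e1, hM, ← Real.exp_add, ← Real.exp_add]
    apply Real.exp_le_exp.2
    have hn0 : (0 : ℝ) ≤ n := Nat.cast_nonneg n
    have hd0 : (0 : ℝ) ≤ d := Nat.cast_nonneg d
    have h3 : Real.log 2 ≤ Real.log (n + 2) := Real.log_le_log (by norm_num) (by linarith)
    have h4 : 0 ≤ Real.log (n + 2) := Real.log_nonneg (by linarith)
    have h5 : Real.log 2 ≤ (n + 1) * Real.log (n + 2) := by nlinarith
    have h6 := mul_le_mul_of_nonneg_left h5 hd0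
    nlinarith
  have h12 := mul_le_mul_of_nonneg_left h11 hD
  have h13 : D * M * 2 ^ d = D * (2 ^ d * M) := by ring
  rw [h13]
  linarith

end AZ
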