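import Pool.Agent.H60.AZ.Zb
import Pool.Agent.H60.AZ.Zg
import Pool.Agent.H60.AZ.Zh
import Pool.Agent.H60.AZ.Zi

/-!
# Row Zj (MP_ede373, all algebraic points): the averaged identity

PROOF. `am0 = am 0 = c0^d` (`tm c0 0 x = c0^d`: exponent `0`). For `r : ι → ℝ`, with `n0 : ℕ`,
`f1 r = FF(x + tt r)`, `f2 r = FF(x+tt r) - ∑_{m ∈ bx n0} tm m (x + tt r) PP m (x + tt r)`. By `tm_tt` and `gk b 0 r exp(2πi ∑ r om) = gk b (om m) r`:
`EM b 0 (r ↦ tm m (x+tt r) PP m (x+tt r)) = tm m x * EM b (om m) (r ↦ PP m (x+tt r))`, for `m = 0`: `om 0 = 0`. Linearity (integrability from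
`other_terms`, `gauss_mom`): `c0^d EM b 0 (PP 0) = EM b 0 f1 - EM b 0 f2 - ∑_{m ∈ bx, m ≠ 0} tm m x EM b (om m) (PP m)`.
`‖tm m x‖ ≤ e^{q x} ‖c0‖^d exp(..≤ 0) ≤ C`. Number of `m ∈ bx n0`: `(2 n0+1)^d`.
Bounds: `‖EM b 0 f2‖ ≤ exp(C Q log(Q+2) - n0²/C) exp(C (KQ+1) log(KQ+2) + K Q log(1/b))` (`rem_le`, `gauss_mom` with `R1 = 0`, `δ = ‖f2 0‖`.. take
`D = exp(..)` and `δ = D`); `‖EM b 0 f1‖ ≤ e^{q x}(δ + ..)`: if `Nw FF y ≤ δ` for all `‖bb y‖ ≤ R2`, `R2 = 1 + C R1`: for `‖r‖ ≤ R1` `‖bb(x+tt r)‖ ≤ 1 + C R1`,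
`‖f1 r‖ ≤ δ e^{q x} ≤ C δ`; otherwise `growth`: `‖f1 r‖ ≤ C exp(C (Q+1) log(Q+2) (1 + log(1 + 1 + C‖r‖)))`: this is `≤ D (1+‖r‖)^n` with
`n = ⌈C (Q+1) log(Q+2)⌉`, `D = exp(C' Q log(Q+2))`. For `m ∈ bx, m ≠ 0`: `‖om m‖ ≥ W` gives `other_terms`.
-/

set_option autoImplicit false

namespace AZ

open Complex Finset

variable {S ι : Type} [Fintype S] [DecidableEq S] [Fintype ι] [DecidableEq ι] (K : KD S ι)

omit [DecidableEq ι] in
theorem Zj_gk (b : ℝ) (ω : ι → ℝ) (r : ι → ℝ) :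
    gk b ω r = gk b 0 r * exp (2 * Real.pi * I * ∑ i, (r i : ℂ) * (ω i : ℂ)) := by
  unfold gk
  simp

theorem Zj_om0 : K.om 0 = 0 := by
  funext i
  simp [KD.om]

theorem Zj_tm0 (c0 : ℂ) (x : S → ℂ) : K.tm c0 0 x = c0 ^ Fintype.card ι := by
  simp [KD.tm, KD.am]

theorem Zj_tt_cont (x : S → ℂ) (s : S) : Continuous fun r : ι → ℝ ↦ (x + K.tt r) s := by
  simp only [Pi.add_apply]
  refine continuous_const.add ?_
  unfold KD.tt
  by_cases hs : s = K.o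
  · simp only [hs, if_true]
    exact continuous_const
  · simp only [hs, if_false]
    fun_prop

theorem Zj_term_cont' (c0 : ℂ) (Q : ℕ) (c : (S → Fin (Q + 1)) → ℂ) (m : ι → ℤ)
    (y : (ι → ℝ) → S → ℂ) (hy : ∀ s, Continuous fun r ↦ y r s) :
    Continuous fun r : ι → ℝ ↦ K.tm c0 m (y r) * K.PP Q c m (y r) := by
  unfold KD.tm KD.PP KD.mon KD.u
  fun_prop

theorem Zj_term_cont (c0 : ℂ) (Q : ℕ) (c : (S → Fin (Q + 1)) → ℂ) (m : ι → ℤ) (x : S → ℂ) :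
    Continuous fun r : ι → ℝ ↦ K.tm c0 m (x + K.tt r) * K.PP Q c m (x + K.tt r) :=
  Zj_term_cont' K c0 Q c m _ (Zj_tt_cont K x)

theorem Zj_zero_mem (n0 : ℕ) : (0 : ι → ℤ) ∈ bx ι n0 := by
  unfold bx
  rw [Fintype.mem_piFinset]
  intro j
  rw [Finset.mem_Icc]
  exact ⟨by simp, by simp⟩

theorem Zj_identity (c0 : ℂ) (Q : ℕ) (b : ℝ) (c : (S → Fin (Q + 1)) → ℂ) (n0 : ℕ) (x : S → ℂ)
    (hI1 : MeasureTheory.Integrable fun r : ι → ℝ ↦ K.FF c0 Q c (x + K.tt r) * gk b 0 r)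
    (hI : ∀ m : ι → ℤ, MeasureTheory.Integrable
      fun r : ι → ℝ ↦ K.PP Q c m (x + K.tt r) * gk b (K.om m) r) :
    c0 ^ Fintype.card ι * EM b 0 (fun r ↦ K.PP Q c 0 (x + K.tt r)) =
      EM b 0 (fun r : ι → ℝ ↦ K.FF c0 Q c (x + K.tt r)) -
      EM b 0 (fun r : ι → ℝ ↦ K.FF c0 Q c (x + K.tt r) -
        ∑ m ∈ bx ι n0, K.tm c0 m (x + K.tt r) * K.PP Q c m (x + K.tt r)) -
      ∑ m ∈ (bx ι n0).erase 0, K.tm c0 m x * EM b (K.om m) (fun r ↦ K.PP Q c m (x + K.tt r)) := by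
  have hpt : ∀ r : ι → ℝ, (K.FF c0 Q c (x + K.tt r) -
        ∑ m ∈ bx ι n0, K.tm c0 m (x + K.tt r) * K.PP Q c m (x + K.tt r)) * gk b 0 r =
      K.FF c0 Q c (x + K.tt r) * gk b 0 r -
        ∑ m ∈ bx ι n0, K.tm c0 m x * (K.PP Q c m (x + K.tt r) * gk b (K.om m) r) := by
    intro r
    rw [sub_mul, Finset.sum_mul]
    congr 1
    refine Finset.sum_congr rfl fun m _ => ?_
    rw [tm_tt K, Zj_gk b (K.om m) r]
    ring
  have hint : ∫ r : ι → ℝ, (K.FF c0 Q c (x + K.tt r) -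
        ∑ m ∈ bx ι n0, K.tm c0 m (x + K.tt r) * K.PP Q c m (x + K.tt r)) * gk b 0 r =
      (∫ r : ι → ℝ, K.FF c0 Q c (x + K.tt r) * gk b 0 r) -
        ∑ m ∈ bx ι n0, K.tm c0 m x * ∫ r : ι → ℝ, K.PP Q c m (x + K.tt r) * gk b (K.om m) r := by
    simp only [hpt]
    rw [MeasureTheory.integral_sub hI1
      (MeasureTheory.integrable_finsetSum _ fun m _ => (hI m).const_mul _),
      MeasureTheory.integral_finsetSum _ fun m _ => (hI m).const_mul _]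
    congr 1
    refine Finset.sum_congr rfl fun m _ => ?_
    rw [MeasureTheory.integral_const_mul]
  have hE : EM b 0 (fun r : ι → ℝ ↦ K.FF c0 Q c (x + K.tt r) -
        ∑ m ∈ bx ι n0, K.tm c0 m (x + K.tt r) * K.PP Q c m (x + K.tt r)) =
      EM b 0 (fun r : ι → ℝ ↦ K.FF c0 Q c (x + K.tt r)) -
        ∑ m ∈ bx ι n0, K.tm c0 m x * EM b (K.om m) (fun r ↦ K.PP Q c m (x + K.tt r)) := by
    unfold EM
    rw [hint, mul_sub, Finset.mul_sum]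
    congr 1
    refine Finset.sum_congr rfl fun m _ => ?_
    ring
  rw [hE, ← Finset.add_sum_erase _ _ (Zj_zero_mem (ι := ι) n0), Zj_tm0, Zj_om0]
  ring

theorem Zj_card (n0 : ℕ) : ((bx ι n0).card : ℝ) = (2 * n0 + 1) ^ Fintype.card ι := by
  unfold bx
  rw [Fintype.card_piFinset]
  simp only [Int.card_Icc, Finset.prod_const, Finset.card_univ]
  have : ((n0 : ℤ) + 1 - -(n0 : ℤ)).toNat = 2 * n0 + 1 := by omega
  rw [this]
  push_cast
  ring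

theorem Zj_L (Q : ℕ) (hQ : 1 ≤ Q) : 1 ≤ Real.log ((Q : ℝ) + 2) := by
  have h1 : (1 : ℝ) ≤ Q := by exact_mod_cast hQ
  rw [Real.le_log_iff_exp_le (by linarith)]
  have := Real.exp_one_lt_d9
  linarith

theorem Zj_A {Cg Cb Cq Cm : ℝ} (hCg : 1 ≤ Cg) (hCb : 1 ≤ Cb) (hCq : 1 ≤ Cq) (hCm : 1 ≤ Cm) :
    ∃ C1 : ℝ, 1 ≤ C1 ∧ ∀ (Q : ℕ) (lam : ℝ), 1 ≤ Q → 0 ≤ lam →
      Cq + Cg * (Q + 1) * Real.log (Q + 2) * (1 + Real.log (2 + Cb)) +
        (Cm * ((⌈Cg * ((Q : ℝ) + 1) * Real.log (Q + 2)⌉₊ : ℕ) + 1) *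
            Real.log ((⌈Cg * ((Q : ℝ) + 1) * Real.log (Q + 2)⌉₊ : ℕ) + 2) +
          (⌈Cg * ((Q : ℝ) + 1) * Real.log (Q + 2)⌉₊ : ℕ) * lam) ≤
        C1 * Q * Real.log (Q + 2) * (Real.log (Q + 2) + lam + 1) := by
  obtain ⟨k1, hk1⟩ : ∃ k1 : ℝ, k1 = 2 * Cg + 1 := ⟨_, rfl⟩
  obtain ⟨k2, hk2⟩ : ∃ k2 : ℝ, k2 = Real.log (k1 + 2) + 2 := ⟨_, rfl⟩
  obtain ⟨k3, hk3⟩ : ∃ k3 : ℝ, k3 = 1 + Real.log (2 + Cb) := ⟨_, rfl⟩
  have hk1p : 3 ≤ k1 := by linarith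
  have hk2p : 2 ≤ k2 := by
    have := Real.log_nonneg (by linarith : (1 : ℝ) ≤ k1 + 2)
    linarith
  have hk3p : 1 ≤ k3 := by
    have := Real.log_nonneg (by linarith : (1 : ℝ) ≤ 2 + Cb)
    linarith
  refine ⟨Cm * (k1 + 1) * k2 + k1 + Cq + k1 * k3, ?_, fun Q lam hQ hlam => ?_⟩
  · have h1 : 0 ≤ Cm * (k1 + 1) * k2 := by positivity
    have h2 : 0 ≤ k1 * k3 := by positivity
    linarith
  obtain ⟨L, hL⟩ : ∃ L : ℝ, L = Real.log ((Q : ℝ) + 2) := ⟨_, rfl⟩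
  have hL1 : 1 ≤ L := hL ▸ Zj_L Q hQ
  have hQ1 : (1 : ℝ) ≤ Q := by exact_mod_cast hQ
  rw [← hL, ← hk3]
  obtain ⟨n, hn⟩ : ∃ n : ℕ, n = ⌈Cg * ((Q : ℝ) + 1) * L⌉₊ := ⟨_, rfl⟩
  rw [← hn]
  have hQL : 1 ≤ Q * L := by nlinarith
  have hn1 : (n : ℝ) ≤ k1 * (Q * L) := by
    have h1 : (n : ℝ) < Cg * ((Q : ℝ) + 1) * L + 1 := by
      rw [hn]
      exact Nat.ceil_lt_add_one (by positivity)
    have h2 : Cg * ((Q : ℝ) + 1) * L ≤ Cg * (2 * Q) * L := by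
      refine mul_le_mul_of_nonneg_right (mul_le_mul_of_nonneg_left (by linarith) (by linarith)) (by linarith)
    have h3 : Cg * (2 * Q) * L = 2 * Cg * (Q * L) := by ring
    have h4 : k1 * (Q * L) = 2 * Cg * (Q * L) + Q * L := by rw [hk1]; ring
    linarith
  have hlogn : Real.log ((n : ℝ) + 2) ≤ k2 * L := by
    have hLQ : L ≤ (Q : ℝ) + 2 := by
      rw [hL]
      exact (Real.log_le_sub_one_of_pos (by linarith)).trans (by linarith)
    have h1 : (n : ℝ) + 2 ≤ (k1 + 2) * ((Q : ℝ) + 2) ^ 2 := by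
      have h2 : (Q : ℝ) * L ≤ ((Q : ℝ) + 2) ^ 2 := by nlinarith
      have h3 : k1 * (Q * L) ≤ k1 * ((Q : ℝ) + 2) ^ 2 := mul_le_mul_of_nonneg_left h2 (by linarith)
      nlinarith
    have h2 : Real.log ((n : ℝ) + 2) ≤ Real.log ((k1 + 2) * ((Q : ℝ) + 2) ^ 2) :=
      Real.log_le_log (by positivity) h1
    rw [Real.log_mul (by positivity) (by positivity), Real.log_pow, ← hL] at h2
    have h3 : Real.log (k1 + 2) ≤ Real.log (k1 + 2) * L := by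
      have := Real.log_nonneg (by linarith : (1 : ℝ) ≤ k1 + 2)
      nlinarith
    rw [hk2]
    push_cast at h2
    nlinarith
  have hlogn0 : 0 ≤ Real.log ((n : ℝ) + 2) := Real.log_nonneg (by
    have : (0 : ℝ) ≤ n := Nat.cast_nonneg n
    linarith)
  have e1 : Cm * ((n : ℝ) + 1) * Real.log ((n : ℝ) + 2) ≤ Cm * ((k1 + 1) * (Q * L)) * (k2 * L) := by
    have h1 : (n : ℝ) + 1 ≤ (k1 + 1) * (Q * L) := by nlinarith
    have h0 : 0 ≤ (n : ℝ) + 1 := by positivity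
    have h2 : Cm * ((n : ℝ) + 1) ≤ Cm * ((k1 + 1) * (Q * L)) := mul_le_mul_of_nonneg_left h1 (by linarith)
    exact mul_le_mul h2 hlogn hlogn0 (by positivity)
  have e2 : (n : ℝ) * lam ≤ k1 * (Q * L) * lam := mul_le_mul_of_nonneg_right hn1 hlam
  have e3 : Cg * ((Q : ℝ) + 1) * L * k3 ≤ k1 * (Q * L) * k3 := by
    refine mul_le_mul_of_nonneg_right ?_ (by linarith)
    have h2 : Cg * ((Q : ℝ) + 1) * L ≤ Cg * (2 * Q) * L := by
      refine mul_le_mul_of_nonneg_right (mul_le_mul_of_nonneg_left (by linarith) (by linarith)) (by linarith)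
    have h4 : k1 * (Q * L) = 2 * Cg * (Q * L) + Q * L := by rw [hk1]; ring
    have h3 : Cg * (2 * Q) * L = 2 * Cg * (Q * L) := by ring
    linarith
  have e4 : Cq ≤ Cq * (Q * L) := by nlinarith
  have hfin : (Cm * (k1 + 1) * k2 + k1 + Cq + k1 * k3) * Q * L * (L + lam + 1) =
      Cm * ((k1 + 1) * (Q * L)) * (k2 * L) + k1 * (Q * L) * lam + k1 * (Q * L) * k3 + Cq * (Q * L) +
      (Cm * (k1 + 1) * k2 * (Q * L) * (lam + 1) + k1 * (Q * L) * (L + 1) +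
        Cq * (Q * L) * (L + lam) + k1 * k3 * (Q * L) * (L + lam)) := by ring
  have hrest : 0 ≤ Cm * (k1 + 1) * k2 * (Q * L) * (lam + 1) + k1 * (Q * L) * (L + 1) +
        Cq * (Q * L) * (L + lam) + k1 * k3 * (Q * L) * (L + lam) := by positivity
  rw [hfin]
  linarith

theorem Zj_B {Cr Cm : ℝ} (Kc : ℕ) (hCr : 1 ≤ Cr) (hCm : 1 ≤ Cm) :
    ∃ C2 : ℝ, 1 ≤ C2 ∧ ∀ (Q : ℕ) (lam : ℝ), 1 ≤ Q → 0 ≤ lam →
      1 + Cr * Q * Real.log (Q + 2) +
        (Cm * (((Kc * Q : ℕ) : ℝ) + 1) * Real.log (((Kc * Q : ℕ) : ℝ) + 2) + ((Kc * Q : ℕ) : ℝ) * lam) ≤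
        C2 * Q * (Real.log (Q + 2) + lam) := by
  obtain ⟨k, hk⟩ : ∃ k : ℝ, k = Real.log ((Kc : ℝ) + 1) + 1 := ⟨_, rfl⟩
  have hKc : (0 : ℝ) ≤ Kc := Nat.cast_nonneg _
  have hkp : 1 ≤ k := by
    have := Real.log_nonneg (by linarith : (1 : ℝ) ≤ (Kc : ℝ) + 1)
    linarith
  refine ⟨1 + Cr + Cm * (Kc + 1) * k + Kc, ?_, fun Q lam hQ hlam => ?_⟩
  · have h1 : 0 ≤ Cm * (Kc + 1) * k := by positivity
    linarith
  obtain ⟨L, hL⟩ : ∃ L : ℝ, L = Real.log ((Q : ℝ) + 2) := ⟨_, rfl⟩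
  have hL1 : 1 ≤ L := hL ▸ Zj_L Q hQ
  have hQ1 : (1 : ℝ) ≤ Q := by exact_mod_cast hQ
  rw [← hL]
  push_cast
  have hQL : 1 ≤ Q * L := by nlinarith
  have hlog : Real.log ((Kc : ℝ) * Q + 2) ≤ k * L := by
    have h1 : (Kc : ℝ) * Q + 2 ≤ ((Kc : ℝ) + 1) * ((Q : ℝ) + 2) := by nlinarith
    have h2 := Real.log_le_log (by positivity) h1
    rw [Real.log_mul (by positivity) (by positivity), ← hL] at h2
    have h3 : Real.log ((Kc : ℝ) + 1) ≤ Real.log ((Kc : ℝ) + 1) * L := by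
      have := Real.log_nonneg (by linarith : (1 : ℝ) ≤ (Kc : ℝ) + 1)
      nlinarith
    rw [hk]
    nlinarith
  have hlog0 : 0 ≤ Real.log ((Kc : ℝ) * Q + 2) := Real.log_nonneg (by
    have : (0 : ℝ) ≤ (Kc : ℝ) * Q := by positivity
    linarith)
  have e1 : Cm * ((Kc : ℝ) * Q + 1) * Real.log ((Kc : ℝ) * Q + 2) ≤ Cm * (((Kc : ℝ) + 1) * Q) * (k * L) := by
    have h1 : (Kc : ℝ) * Q + 1 ≤ ((Kc : ℝ) + 1) * Q := by nlinarith
    have h2 : Cm * ((Kc : ℝ) * Q + 1) ≤ Cm * (((Kc : ℝ) + 1) * Q) :=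
      mul_le_mul_of_nonneg_left h1 (by linarith)
    exact mul_le_mul h2 hlog hlog0 (by positivity)
  have hfin : (1 + Cr + Cm * (Kc + 1) * k + Kc) * Q * (L + lam) =
      Q * L + Cr * Q * L + Cm * (((Kc : ℝ) + 1) * Q) * (k * L) + Kc * Q * lam +
      ((1 + Cr + Cm * (Kc + 1) * k) * Q * lam + Kc * Q * L) := by ring
  have hrest : 0 ≤ (1 + Cr + Cm * (Kc + 1) * k) * Q * lam + Kc * Q * L := by positivity
  rw [hfin]
  linarith

theorem Zj_C {Co T : ℝ} (d : ℕ) (hCo : 1 ≤ Co) (hT : 0 ≤ T) :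
    ∃ C3 : ℝ, 1 ≤ C3 ∧ ∀ (Q : ℕ) (lam nu : ℝ), 1 ≤ Q → 0 ≤ lam → 0 ≤ nu →
      d * (1 + nu) + T + Co * Q * (Real.log (Q + 2) + lam + (Real.log (1 + d) + nu)) ≤
        C3 * Q * (Real.log (Q + 2) + lam + nu) := by
  have hd : (0 : ℝ) ≤ d := Nat.cast_nonneg _
  obtain ⟨k, hk⟩ : ∃ k : ℝ, k = Real.log (1 + (d : ℝ)) := ⟨_, rfl⟩
  have hk0 : 0 ≤ k := hk ▸ Real.log_nonneg (by linarith)
  refine ⟨d + T + Co + Co * k, ?_, fun Q lam nu hQ hlam hnu => ?_⟩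
  · have h1 : 0 ≤ Co * k := by positivity
    linarith
  obtain ⟨L, hL⟩ : ∃ L : ℝ, L = Real.log ((Q : ℝ) + 2) := ⟨_, rfl⟩
  have hL1 : 1 ≤ L := hL ▸ Zj_L Q hQ
  have hQ1 : (1 : ℝ) ≤ Q := by exact_mod_cast hQ
  rw [← hL, ← hk]
  have hX : 1 + nu ≤ Q * (L + lam + nu) := by nlinarith
  have hX1 : 1 ≤ Q * (L + lam + nu) := by linarith
  have e1 : d * (1 + nu) ≤ d * (Q * (L + lam + nu)) := mul_le_mul_of_nonneg_left hX hd
  have e2 : T ≤ T * (Q * (L + lam + nu)) := by nlinarith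
  have e3 : Co * Q * k ≤ Co * k * (Q * (L + lam + nu)) := by
    have h1 : (Q : ℝ) ≤ Q * (L + lam + nu) := by nlinarith
    have h2 := mul_le_mul_of_nonneg_left h1 (by positivity : 0 ≤ Co * k)
    linarith
  have hfin : (d + T + Co + Co * k) * Q * (L + lam + nu) = d * (Q * (L + lam + nu)) +
      T * (Q * (L + lam + nu)) + Co * Q * (L + lam + nu) + Co * k * (Q * (L + lam + nu)) := by ring
  rw [hfin]
  linarith

theorem averaged (c0 : ℂ) : ∃ C : ℝ, 1 ≤ C ∧ ∀ (Q : ℕ) (b : ℝ), 1 ≤ Q → 0 < b → b ≤ 1 →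
    ∀ (c : (S → Fin (Q + 1)) → ℂ), (∀ κ, ‖c κ‖ ≤ 1) → ∀ (n0 : ℕ) (R1 δ W : ℝ), 1 ≤ R1 → 0 ≤ δ → 0 ≤ W →
    (∀ y, ‖K.bb y‖ ≤ C * R1 → K.Nw (K.FF c0 Q c) y ≤ δ) →
    (∀ m ∈ bx ι n0, m ≠ 0 → W ≤ ‖K.om m‖) → ∀ x : S → ℂ, (∀ s, ‖x s‖ = 1) →
    ‖c0‖ ^ Fintype.card ι * ‖EM b 0 (fun r ↦ K.PP Q c 0 (x + K.tt r))‖ ≤
      C * δ +
      Real.exp (C * Q * Real.log (Q + 2) * (Real.log (Q + 2) + Real.log (1 / b) + 1) - b * R1 ^ 2 / 2) +
      Real.exp (C * Q * (Real.log (Q + 2) + Real.log (1 / b)) - n0 ^ 2 / C) +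
      Real.exp (C * Q * (Real.log (Q + 2) + Real.log (1 / b) + Real.log (1 + n0)) -
        Real.pi ^ 2 * W ^ 2 / (2 * b)) := by
  obtain ⟨Cg, hCg, hg⟩ := growth K c0
  obtain ⟨Cb, hCb, hbt⟩ := bb_tt K
  obtain ⟨Cq, hCq, hq⟩ := q_le K
  obtain ⟨Cm, hCm, hm⟩ := gauss_mom (ι := ι)
  obtain ⟨Cr, hCr, hr⟩ := rem_le K c0
  obtain ⟨Co, hCo, ho⟩ := other_terms K
  obtain ⟨C1, hC1, h1⟩ := Zj_A hCg hCb hCq hCm
  obtain ⟨C2, hC2, h2⟩ := Zj_B (Fintype.card S) hCr hCm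
  obtain ⟨T, hT⟩ : ∃ T : ℝ, T = Cq + Real.log (1 + ‖c0‖ ^ Fintype.card ι) := ⟨_, rfl⟩
  have hcn : 0 ≤ ‖c0‖ ^ Fintype.card ι := by positivity
  have hT0 : 0 ≤ T := by
    have := Real.log_nonneg (by linarith : (1 : ℝ) ≤ 1 + ‖c0‖ ^ Fintype.card ι)
    rw [hT]
    linarith
  obtain ⟨C3, hC3, h3⟩ := Zj_C (Fintype.card ι) hCo hT0
  obtain ⟨C, hC⟩ : ∃ C : ℝ, C = Real.exp Cq + (1 + Cb) + C1 + C2 + C3 + Cr := ⟨_, rfl⟩
  have he := Real.exp_pos Cq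
  have hC01 : 1 ≤ C := by linarith
  refine ⟨C, hC01, ?_⟩
  intro Q b hQ hb0 hb1 c hc n0 R1 δ W hR1 hδ hW hsmall hfreq x hx
  have hQ1 : (1 : ℝ) ≤ Q := by exact_mod_cast hQ
  obtain ⟨L, hL⟩ : ∃ L : ℝ, L = Real.log ((Q : ℝ) + 2) := ⟨_, rfl⟩
  have hL1 : 1 ≤ L := hL ▸ Zj_L Q hQ
  obtain ⟨lam, hlam⟩ : ∃ lam : ℝ, lam = Real.log (1 / b) := ⟨_, rfl⟩
  have hlam0 : 0 ≤ lam := by
    rw [hlam]
    exact Real.log_nonneg (by rw [le_div_iff₀ hb0]; linarith)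
  obtain ⟨nu, hnu⟩ : ∃ nu : ℝ, nu = Real.log (1 + (n0 : ℝ)) := ⟨_, rfl⟩
  have hn0 : (0 : ℝ) ≤ n0 := Nat.cast_nonneg _
  have hnu0 : 0 ≤ nu := by
    rw [hnu]
    exact Real.log_nonneg (by linarith)
  have hxn : ‖x‖ ≤ 1 := (pi_norm_le_iff_of_nonneg zero_le_one).2 fun s => (hx s).le
  have hqx : K.q x ≤ Cq := by
    refine (hq x).trans ?_
    have : ‖x‖ ^ 2 ≤ 1 := pow_le_one₀ (norm_nonneg _) hxn
    nlinarith
  have hbx : ‖K.bb x‖ ≤ 1 := (bb_le K x).trans hxn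
  -- pointwise bounds
  have hFF : ∀ r : ι → ℝ, ‖K.FF c0 Q c (x + K.tt r)‖ ≤
      Real.exp Cq * K.Nw (K.FF c0 Q c) (x + K.tt r) := by
    intro r
    unfold KD.Nw
    rw [q_tt K]
    have e1 : Real.exp Cq * (‖K.FF c0 Q c (x + K.tt r)‖ * Real.exp (-K.q x)) =
        ‖K.FF c0 Q c (x + K.tt r)‖ * Real.exp (Cq - K.q x) := by
      rw [sub_eq_add_neg, Real.exp_add]
      ring
    rw [e1]
    exact le_mul_of_one_le_right (norm_nonneg _) (Real.one_le_exp (by linarith))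
  -- first term
  obtain ⟨n, hn⟩ : ∃ n : ℕ, n = ⌈Cg * ((Q : ℝ) + 1) * L⌉₊ := ⟨_, rfl⟩
  obtain ⟨G, hG⟩ : ∃ G : ℝ, G = Cg * ((Q : ℝ) + 1) * L := ⟨_, rfl⟩
  have hG0 : 0 ≤ G := by rw [hG]; positivity
  have hGn : G ≤ n := by rw [hn, hG]; exact Nat.le_ceil _
  have hcontF := continuous_FF K c0 Q c x
  obtain ⟨hI1, hE1⟩ := hm b n R1 (Real.exp Cq * δ) (Real.exp (Cq + G * (1 + Real.log (2 + Cb))))
    (fun r : ι → ℝ ↦ K.FF c0 Q c (x + K.tt r)) hb0 hb1 (by linarith) (by positivity) (by positivity)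
    hcontF (fun r hrR => by
      refine (hFF r).trans (mul_le_mul_of_nonneg_left (hsmall _ ?_) he.le)
      refine (hbt x r).trans ?_
      have h5 : Cb * ‖r‖ ≤ Cb * R1 := mul_le_mul_of_nonneg_left hrR (by linarith)
      have h6 : (1 + Cb) * R1 ≤ C * R1 := mul_le_mul_of_nonneg_right (by linarith) (by linarith)
      nlinarith)
    (fun r _ => by
      refine (hFF r).trans ?_
      have h5 := hg Q c hc (x + K.tt r)
      rw [← hL, ← hG] at h5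
      have h6 : Real.log (1 + ‖K.bb (x + K.tt r)‖) ≤ Real.log (2 + Cb) + Real.log (1 + ‖r‖) := by
        rw [← Real.log_mul (by positivity) (by positivity)]
        refine Real.log_le_log (by positivity) ?_
        have := hbt x r
        have hr0 := norm_nonneg r
        nlinarith
      have h7 : G * (1 + Real.log (1 + ‖K.bb (x + K.tt r)‖)) ≤
          G * (1 + Real.log (2 + Cb)) + n * Real.log (1 + ‖r‖) := by
        have h8 : 0 ≤ Real.log (1 + ‖r‖) := Real.log_nonneg (by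
          have := norm_nonneg r
          linarith)
        have h9 : G * Real.log (1 + ‖r‖) ≤ n * Real.log (1 + ‖r‖) := mul_le_mul_of_nonneg_right hGn h8
        have h10 := mul_le_mul_of_nonneg_left h6 hG0
        nlinarith
      have h11 : Real.exp (n * Real.log (1 + ‖r‖)) = (1 + ‖r‖) ^ n := by
        rw [mul_comm, Real.exp_mul, Real.exp_log (by positivity), Real.rpow_natCast]
      calc Real.exp Cq * K.Nw (K.FF c0 Q c) (x + K.tt r)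
          ≤ Real.exp Cq * Real.exp (G * (1 + Real.log (2 + Cb)) + n * Real.log (1 + ‖r‖)) :=
            mul_le_mul_of_nonneg_left (h5.trans (Real.exp_le_exp.2 h7)) he.le
        _ = Real.exp (Cq + G * (1 + Real.log (2 + Cb))) * (1 + ‖r‖) ^ n := by
            rw [← h11, ← Real.exp_add, ← Real.exp_add]
            ring_nf)
  have hE1' : ‖EM b 0 (fun r : ι → ℝ ↦ K.FF c0 Q c (x + K.tt r))‖ ≤ C * δ +
      Real.exp (C * Q * L * (L + lam + 1) - b * R1 ^ 2 / 2) := by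
    refine hE1.trans ?_
    have h5 : Real.exp Cq * δ ≤ C * δ := mul_le_mul_of_nonneg_right (by linarith) hδ
    refine add_le_add h5 ?_
    rw [← Real.exp_add]
    refine Real.exp_le_exp.2 ?_
    have h6 := h1 Q lam hQ hlam0
    rw [← hL, ← hn, ← hG] at h6
    have h7 : C1 * Q * L * (L + lam + 1) ≤ C * Q * L * (L + lam + 1) := by
      have : C1 ≤ C := by linarith
      gcongr
    rw [← hlam]
    linarith
  -- second term
  have hcont2 : Continuous fun r : ι → ℝ ↦ K.FF c0 Q c (x + K.tt r) -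
        ∑ m ∈ bx ι n0, K.tm c0 m (x + K.tt r) * K.PP Q c m (x + K.tt r) :=
    hcontF.sub (continuous_finsetSum _ fun m _ => Zj_term_cont K c0 Q c m x)
  obtain ⟨-, hE2⟩ := hm b (Fintype.card S * Q) 0 (Real.exp (Cr * Q * L - n0 ^ 2 / Cr))
    (Real.exp (Cr * Q * L - n0 ^ 2 / Cr)) (fun r : ι → ℝ ↦ K.FF c0 Q c (x + K.tt r) -
        ∑ m ∈ bx ι n0, K.tm c0 m (x + K.tt r) * K.PP Q c m (x + K.tt r)) hb0 hb1 le_rfl
    (by positivity) (by positivity) hcont2 (fun r hr0 => by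
      have h5 := hr Q hQ c hc n0 x r hx
      have h6 : ‖r‖ = 0 := le_antisymm hr0 (norm_nonneg _)
      rw [h6, ← hL] at h5
      simpa using h5)
    (fun r _ => by
      have h5 := hr Q hQ c hc n0 x r hx
      rw [← hL] at h5
      exact h5)
  have hE2' : ‖EM b 0 (fun r : ι → ℝ ↦ K.FF c0 Q c (x + K.tt r) -
        ∑ m ∈ bx ι n0, K.tm c0 m (x + K.tt r) * K.PP Q c m (x + K.tt r))‖ ≤
      Real.exp (C * Q * (L + lam) - n0 ^ 2 / C) := by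
    refine hE2.trans ?_
    obtain ⟨X, hX⟩ : ∃ X : ℝ, X = Cm * (((Fintype.card S * Q : ℕ) : ℝ) + 1) *
        Real.log (((Fintype.card S * Q : ℕ) : ℝ) + 2) + ((Fintype.card S * Q : ℕ) : ℝ) * lam := ⟨_, rfl⟩
    have hX0 : 0 ≤ X := by
      have h5 : (0 : ℝ) ≤ ((Fintype.card S * Q : ℕ) : ℝ) := Nat.cast_nonneg _
      have h6 := Real.log_nonneg (by linarith : (1 : ℝ) ≤ ((Fintype.card S * Q : ℕ) : ℝ) + 2)
      rw [hX]
      positivity
    have h6 := h2 Q lam hQ hlam0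
    rw [← hL, ← hX] at h6
    have hexp : Cm * (((Fintype.card S * Q : ℕ) : ℝ) + 1) *
        Real.log (((Fintype.card S * Q : ℕ) : ℝ) + 2) + ((Fintype.card S * Q : ℕ) : ℝ) * Real.log (1 / b) -
        b * 0 ^ 2 / 2 = X := by
      rw [hX, hlam]
      ring
    rw [hexp]
    have h7 : Real.exp (Cr * Q * L - n0 ^ 2 / Cr) + Real.exp (Cr * Q * L - n0 ^ 2 / Cr) * Real.exp X ≤
        Real.exp (Cr * Q * L - n0 ^ 2 / Cr) * (Real.exp 1 * Real.exp X) := by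
      have h8 := Real.one_le_exp hX0
      have h9 : (2 : ℝ) ≤ Real.exp 1 := by
        have := Real.add_one_le_exp (1 : ℝ)
        linarith
      have h10 : 1 + Real.exp X ≤ Real.exp 1 * Real.exp X := by nlinarith
      have h11 := mul_le_mul_of_nonneg_left h10 (Real.exp_pos (Cr * Q * L - n0 ^ 2 / Cr)).le
      linarith
    refine h7.trans ?_
    rw [← Real.exp_add, ← Real.exp_add]
    refine Real.exp_le_exp.2 ?_
    have h12 : C2 * Q * (L + lam) ≤ C * Q * (L + lam) := by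
      have : C2 ≤ C := by linarith
      gcongr
    have h13 : (n0 : ℝ) ^ 2 / C ≤ n0 ^ 2 / Cr := by
      have : Cr ≤ C := by linarith
      gcongr
    linarith
  -- third term
  have htm : ∀ m : ι → ℤ, ‖K.tm c0 m x‖ ≤ Real.exp T := by
    intro m
    have h5 := norm_tm K c0 m x
    have h6 : Real.exp (-(Real.pi * K.z.im * ∑ j, ((m j : ℝ) + K.v j x) ^ 2)) ≤ 1 := by
      rw [Real.exp_le_one_iff, neg_nonpos]
      have := K.hz
      have := Real.pi_pos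
      positivity
    have h7 : ‖K.tm c0 m x‖ = ‖K.tm c0 m x‖ * Real.exp (-K.q x) * Real.exp (K.q x) := by
      rw [mul_assoc, ← Real.exp_add, neg_add_cancel, Real.exp_zero, mul_one]
    rw [h7, h5, hT, Real.exp_add, Real.exp_log (by linarith), mul_comm (Real.exp Cq)]
    refine mul_le_mul ?_ (Real.exp_le_exp.2 hqx) (Real.exp_pos _).le (by linarith)
    have := mul_le_mul_of_nonneg_left h6 hcn
    linarith
  have hsum : ‖∑ m ∈ (bx ι n0).erase 0, K.tm c0 m x *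
        EM b (K.om m) (fun r ↦ K.PP Q c m (x + K.tt r))‖ ≤
      Real.exp (C * Q * (L + lam + nu) - Real.pi ^ 2 * W ^ 2 / (2 * b)) := by
    obtain ⟨B, hB⟩ : ∃ B : ℝ, B = T + Co * Q * (L + lam + (Real.log (1 + (Fintype.card ι : ℝ)) + nu)) -
      Real.pi ^ 2 * W ^ 2 / (2 * b) := ⟨_, rfl⟩
    have hterm : ∀ m ∈ (bx ι n0).erase 0, ‖K.tm c0 m x *
        EM b (K.om m) (fun r ↦ K.PP Q c m (x + K.tt r))‖ ≤ Real.exp B := by
      intro m hmem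
      rw [Finset.mem_erase] at hmem
      have h5 := (ho Q b hQ hb0 hb1 c hc m (K.om m) x hx).2
      rw [norm_mul, hB, sub_eq_add_neg, add_assoc, Real.exp_add]
      refine mul_le_mul (htm m) (h5.trans (Real.exp_le_exp.2 ?_)) (norm_nonneg _) (Real.exp_pos _).le
      rw [← hL, ← hlam]
      have hms : ∑ j, |(m j : ℝ)| ≤ Fintype.card ι * n0 := by
        have : ∀ j ∈ (univ : Finset ι), |(m j : ℝ)| ≤ n0 := by
          intro j _
          have h6 := hmem.2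
          unfold bx at h6
          rw [Fintype.mem_piFinset] at h6
          have h7 := Finset.mem_Icc.1 (h6 j)
          rw [abs_le]
          exact ⟨by exact_mod_cast h7.1, by exact_mod_cast h7.2⟩
        refine (Finset.sum_le_card_nsmul _ _ _ this).trans ?_
        rw [Finset.card_univ, nsmul_eq_mul]
      have hd0 : (0 : ℝ) ≤ Fintype.card ι := Nat.cast_nonneg _
      have hms0 : 0 ≤ ∑ j, |(m j : ℝ)| := Finset.sum_nonneg fun j _ => abs_nonneg _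
      have h6 : Real.log (1 + ∑ j, |(m j : ℝ)|) ≤ Real.log (1 + (Fintype.card ι : ℝ)) + nu := by
        rw [hnu, ← Real.log_mul (by positivity) (by positivity)]
        refine Real.log_le_log (by positivity) ?_
        nlinarith
      have h7 : W ^ 2 ≤ ‖K.om m‖ ^ 2 := pow_le_pow_left₀ hW (hfreq m hmem.2 hmem.1) 2
      have h8 : Real.pi ^ 2 * W ^ 2 / (2 * b) ≤ Real.pi ^ 2 * ‖K.om m‖ ^ 2 / (2 * b) := by
        gcongr
      have h9 : Co * Q * (L + lam + Real.log (1 + ∑ j, |(m j : ℝ)|)) ≤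
          Co * Q * (L + lam + (Real.log (1 + (Fintype.card ι : ℝ)) + nu)) := by
        gcongr
      linarith
    refine (norm_sum_le_of_le _ hterm).trans ?_
    rw [Finset.sum_const, nsmul_eq_mul]
    have hcard : (((bx ι n0).erase 0).card : ℝ) ≤ Real.exp (Fintype.card ι * (1 + nu)) := by
      have h5 : (((bx ι n0).erase 0).card : ℝ) ≤ ((bx ι n0).card : ℝ) := by
        exact_mod_cast Finset.card_le_card (Finset.erase_subset _ _)
      refine h5.trans ?_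
      rw [Zj_card, mul_comm (Fintype.card ι : ℝ), Real.exp_mul, Real.rpow_natCast]
      refine pow_le_pow_left₀ (by positivity) ?_ _
      rw [Real.exp_add, hnu, Real.exp_log (by positivity)]
      have h9 : (2 : ℝ) ≤ Real.exp 1 := by
        have := Real.add_one_le_exp (1 : ℝ)
        linarith
      nlinarith
    refine (mul_le_mul_of_nonneg_right hcard (Real.exp_pos _).le).trans ?_
    rw [← Real.exp_add]
    refine Real.exp_le_exp.2 ?_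
    have h6 := h3 Q lam nu hQ hlam0 hnu0
    rw [← hL] at h6
    have h7 : C3 * Q * (L + lam + nu) ≤ C * Q * (L + lam + nu) := by
      have : C3 ≤ C := by linarith
      gcongr
    rw [hB]
    linarith
  have hid := Zj_identity K c0 Q b c n0 x hI1 fun m => (ho Q b hQ hb0 hb1 c hc m (K.om m) x hx).1
  rw [← norm_pow, ← norm_mul, hid, ← hL, ← hlam, ← hnu]
  refine (norm_sub_le _ _).trans ?_
  refine (add_le_add (norm_sub_le _ _) le_rfl).trans ?_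
  linarith

end AZ
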