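import Pool.Agent.H60.AZ.Zj

/-!
# Row Zk (MP_ede373, all algebraic points): the zero estimate

Notation `k = card S - 1 ≥ 1`, `l = log (Q + H + 2) ≥ 1`, `d = card ι`.

PROOF. Constants: `C` of `averaged`, `C'` of `main_low`, `Cg` of `gap`. Let `Cb ≥ 1` (to be chosen), `Λ = 1 + log Cb`, `C1 = C3 Λ`,
`b = 1/(Cb H² Q l) ∈ (0, 1]`, `n0 = ⌈√(C1 Q l)⌉₊` (`C1 Q l ≤ n0² ≤ 4 C1 Q l`), `R1 = C4 √(Cb Λ) H Q l²` (so `R1 ≥ 1`, `b R1²/2 ≥ C4² Λ Q l²/2`,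
using `l³ ≥ l²`), `W = 1/H`, `δ = exp(-C5 Q l)`. `log(1/b) ≤ Λ + 4 l ≤ 5 Λ l` (`log Q, log l, log H ≤ l`).
Suppose `Nw FF y < δ` for all `y` with `‖bb y‖ ≤ C R1`. Frequencies: `m ∈ bx n0`, `m ≠ 0`: `∑ |m_j| ≤ d n0`, so
`1 ≤ Cg d² n0² ‖om m‖^k ≤ 4 Cg d² C1 Q l ‖om m‖^k ≤ (H ‖om m‖)^k` if `4 Cg d² C1 Q l ≤ H^k` (part of the hypothesis `C Q l ≤ H^k`), so
`‖om m‖ ≥ W`. Take `x` from `main_low`; `averaged`:
`‖c0‖^d exp(-6 C' Λ Q l) ≤ C δ + exp(7 C Λ Q l² - C4² Λ Q l²/2) + exp(6 C Λ Q l - C1 Q l/C) + exp(C Q (6 Λ l + log(1+n0)) - π² Cb Q l/2)`.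
The left side is `≥ exp(-C2 Λ Q l)` with `C2 = 6 C' + d |log ‖c0‖|` (`c0 ≠ 0`). Choose `C4` with `C4²/2 ≥ 7 C + C2 + 3`, `C3` with `C3/C ≥ 6 C + C2 + 3`; then
`log (1+n0) ≤ log(3 √(C1 Q l)) ≤ 2 + log C3 + log Λ + 2 l`; choose `Cb` so large that
`π² Cb/2 ≥ C (6 Λ + 2 + log C3 + log Λ + 2) + (C2 + 3) Λ` (`log Cb = o(Cb)`), then `C5 ≥ (C2 + 3) Λ + log C`. All four terms are
`≤ exp(-(C2 + 3) Λ Q l) ≤ e^{-3} exp(-C2 Λ Q l)`, `4 e^{-3} < 1`: contradiction. Final constant: maximum of `C5`, `C C4 √(Cb Λ)`, `4 Cg d² C1`.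
-/

set_option autoImplicit false

namespace AZ

open Complex Finset

theorem Zk_const {Ca Cm L0 : ℝ} (hCa : 1 ≤ Ca) (hCm : 1 ≤ Cm) (hL0 : 0 ≤ L0) :
    ∃ t Λ C3 A G : ℝ, 1 ≤ t ∧ 1 ≤ Λ ∧ 1 ≤ C3 ∧ 1 ≤ A ∧ 0 ≤ G ∧ Λ = 1 + Real.log (t ^ 2) ∧
      G = 6 * Cm + L0 + 3 ∧ C3 = Ca * (6 * Ca + G) ∧ A = 7 * Ca + G ∧
      A * Λ + Ca * (4 + Real.log C3) ≤ t ^ 2 := by
  obtain ⟨G, hG⟩ : ∃ G, G = 6 * Cm + L0 + 3 := ⟨_, rfl⟩
  obtain ⟨C3, hC3⟩ : ∃ C3, C3 = Ca * (6 * Ca + G) := ⟨_, rfl⟩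
  obtain ⟨A, hA⟩ : ∃ A, A = 7 * Ca + G := ⟨_, rfl⟩
  obtain ⟨B, hB⟩ : ∃ B, B = Ca * (4 + Real.log C3) := ⟨_, rfl⟩
  obtain ⟨t, ht⟩ : ∃ t, t = 3 * A + B + 1 := ⟨_, rfl⟩
  have hG0 : 0 ≤ G := by rw [hG]; positivity
  have hC31 : 1 ≤ C3 := by rw [hC3]; nlinarith
  have hA1 : 1 ≤ A := by rw [hA]; linarith
  have hl3 : 0 ≤ Real.log C3 := Real.log_nonneg hC31
  have hB0 : 0 ≤ B := by rw [hB]; positivity
  have ht1 : 1 ≤ t := by rw [ht]; linarith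
  have hlt : Real.log (t ^ 2) ≤ 2 * t := by
    rw [Real.log_pow]
    have := Real.log_le_sub_one_of_pos (by linarith : 0 < t)
    push_cast
    linarith
  have hlt0 : 0 ≤ Real.log (t ^ 2) := Real.log_nonneg (one_le_pow₀ ht1)
  refine ⟨t, 1 + Real.log (t ^ 2), C3, A, G, ht1, by linarith, hC31, hA1, hG0, rfl, hG, hC3, hA, ?_⟩
  rw [← hB]
  have h1 : A * (1 + Real.log (t ^ 2)) ≤ A * (1 + 2 * t) :=
    mul_le_mul_of_nonneg_left (by linarith) (by linarith)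
  have h2 : t ^ 2 = 3 * (A * t) + B * t + t := by
    calc t ^ 2 = (3 * A + B + 1) * t := by rw [← ht]; ring
      _ = _ := by ring
  have h3 : A ≤ A * t := le_mul_of_one_le_right (by linarith) ht1
  have h4 : B ≤ B * t := le_mul_of_one_le_right hB0 ht1
  linarith

theorem Zk_logb {t Q H l : ℝ} (ht : 1 ≤ t) (hQ : 1 ≤ Q) (hH : 1 ≤ H) (hl : 1 ≤ l) (hQl : Real.log Q ≤ l)
    (hHl : Real.log H ≤ l) :
    0 ≤ Real.log (1 / (1 / (t ^ 2 * H ^ 2 * Q * l))) ∧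
    Real.log (1 / (1 / (t ^ 2 * H ^ 2 * Q * l))) ≤ 5 * (1 + Real.log (t ^ 2)) * l := by
  rw [one_div_one_div]
  have ht0 : 0 < t := by linarith
  have hH0 : 0 < H := by linarith
  have hQ0 : 0 < Q := by linarith
  have hl0 : 0 < l := by linarith
  have e : Real.log (t ^ 2 * H ^ 2 * Q * l) = Real.log (t ^ 2) + 2 * Real.log H + Real.log Q + Real.log l := by
    rw [Real.log_mul (by positivity) hl0.ne', Real.log_mul (by positivity) hQ0.ne',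
      Real.log_mul (by positivity) (by positivity), Real.log_pow H]
    push_cast
    ring
  have h1 : 0 ≤ Real.log (t ^ 2) := Real.log_nonneg (one_le_pow₀ ht)
  have h2 := Real.log_nonneg hH
  have h3 := Real.log_nonneg hQ
  have h4 := Real.log_nonneg hl
  have h5 := Real.log_le_sub_one_of_pos hl0
  rw [e]
  refine ⟨by linarith, ?_⟩
  have h6 : Real.log (t ^ 2) ≤ Real.log (t ^ 2) * l := le_mul_of_one_le_right h1 hl
  have h7 : 5 * (1 + Real.log (t ^ 2)) * l = 5 * l + 5 * (Real.log (t ^ 2) * l) := by ring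
  rw [h7]
  linarith

theorem Zk_T2 {Ca G A Λ t Q H l u w : ℝ} (hCa : 1 ≤ Ca) (hG : 0 ≤ G) (hA : A = 7 * Ca + G) (hΛ : 1 ≤ Λ)
    (ht : 1 ≤ t) (hQ : 1 ≤ Q) (hH : 1 ≤ H) (hl : 1 ≤ l) (hu0 : 0 ≤ u) (hu : u ≤ l) (hw0 : 0 ≤ w)
    (hw : w ≤ 5 * Λ * l) :
    Ca * Q * u * (u + w + 1) - 1 / (t ^ 2 * H ^ 2 * Q * l) * (2 * A * t * Λ * H * Q * l ^ 2) ^ 2 / 2 ≤
      -(G * Λ * (Q * l)) := by
  have ht0 : 0 < t := by linarith
  have hH0 : 0 < H := by linarith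
  have hQ0 : 0 < Q := by linarith
  have hl0 : 0 < l := by linarith
  have hΛ0 : 0 < Λ := by linarith
  have hA1 : 1 ≤ A := by rw [hA]; linarith
  have e1 : 1 / (t ^ 2 * H ^ 2 * Q * l) * (2 * A * t * Λ * H * Q * l ^ 2) ^ 2 / 2 =
      2 * A ^ 2 * Λ ^ 2 * Q * l ^ 3 := by
    field_simp
  have h1 : u + w + 1 ≤ 7 * (Λ * l) := by
    have : l ≤ Λ * l := le_mul_of_one_le_left hl0.le hΛ
    linarith
  have h2 : Ca * Q * u * (u + w + 1) ≤ Ca * Q * l * (7 * (Λ * l)) :=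
    mul_le_mul (mul_le_mul_of_nonneg_left hu (by positivity)) h1 (by positivity) (by positivity)
  have h3 : A * (Λ * Q * l ^ 2) ≤ 2 * A ^ 2 * Λ ^ 2 * Q * l ^ 3 := by
    have h4 : 1 ≤ 2 * A * Λ * l := by
      have h41 : 1 ≤ A * Λ := one_le_mul_of_one_le_of_one_le hA1 hΛ
      have h42 : 1 ≤ A * Λ * l := one_le_mul_of_one_le_of_one_le h41 hl
      linarith
    have h5 : 0 ≤ A * (Λ * Q * l ^ 2) := by positivity
    calc A * (Λ * Q * l ^ 2) ≤ A * (Λ * Q * l ^ 2) * (2 * A * Λ * l) := le_mul_of_one_le_right h5 h4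
      _ = _ := by ring
  have h6 : G * Λ * (Q * l) ≤ G * (Λ * Q * l ^ 2) := by
    have h7 : 0 ≤ G * Λ * (Q * l) := by positivity
    calc G * Λ * (Q * l) ≤ G * Λ * (Q * l) * l := le_mul_of_one_le_right h7 hl
      _ = _ := by ring
  rw [e1]
  have e2 : Ca * Q * l * (7 * (Λ * l)) = 7 * Ca * (Λ * Q * l ^ 2) := by ring
  have e3 : A * (Λ * Q * l ^ 2) = 7 * Ca * (Λ * Q * l ^ 2) + G * (Λ * Q * l ^ 2) := by rw [hA]; ring
  linarith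

theorem Zk_T3 {Ca G C3 Λ Q l u w n : ℝ} (hCa : 1 ≤ Ca) (hC3 : C3 = Ca * (6 * Ca + G)) (hΛ : 1 ≤ Λ)
    (hQ : 1 ≤ Q) (hl : 1 ≤ l) (hu : u ≤ l) (hw : w ≤ 5 * Λ * l) (hn : C3 * Λ * (Q * l) ≤ n ^ 2) :
    Ca * Q * (u + w) - n ^ 2 / Ca ≤ -(G * Λ * (Q * l)) := by
  have hl0 : 0 < l := by linarith
  have h1 : u + w ≤ 6 * (Λ * l) := by
    have : l ≤ Λ * l := le_mul_of_one_le_left hl0.le hΛ
    linarith
  have h2 : Ca * Q * (u + w) ≤ Ca * Q * (6 * (Λ * l)) := mul_le_mul_of_nonneg_left h1 (by positivity)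
  have h3 : (6 * Ca + G) * (Λ * (Q * l)) ≤ n ^ 2 / Ca := by
    rw [le_div_iff₀ (by linarith)]
    refine le_trans (le_of_eq ?_) hn
    rw [hC3]
    ring
  have e1 : Ca * Q * (6 * (Λ * l)) = 6 * Ca * (Λ * (Q * l)) := by ring
  have e2 : (6 * Ca + G) * (Λ * (Q * l)) = 6 * Ca * (Λ * (Q * l)) + G * Λ * (Q * l) := by ring
  linarith

theorem Zk_logn {C3 Λ Q l n : ℝ} (hC3 : 1 ≤ C3) (hΛ : 1 ≤ Λ) (hQ : 1 ≤ Q) (hl : 1 ≤ l)
    (hQl : Real.log Q ≤ l) (hn0 : 0 ≤ n) (hn : n ≤ Real.sqrt (C3 * Λ * (Q * l)) + 1) :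
    Real.log (1 + n) ≤ (3 + Real.log C3 + Λ) * l := by
  have hl0 : 0 < l := by linarith
  have hQ0 : 0 < Q := by linarith
  have hΛ0 : 0 < Λ := by linarith
  have hC0 : 0 < C3 := by linarith
  have h1 : 1 ≤ C3 * Λ * (Q * l) :=
    one_le_mul_of_one_le_of_one_le (one_le_mul_of_one_le_of_one_le hC3 hΛ) (one_le_mul_of_one_le_of_one_le hQ hl)
  have h2 : 1 ≤ Real.sqrt (C3 * Λ * (Q * l)) := by
    rw [Real.one_le_sqrt]
    exact h1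
  have h3 : Real.log (1 + n) ≤ Real.log (3 * Real.sqrt (C3 * Λ * (Q * l))) :=
    Real.log_le_log (by linarith) (by linarith)
  have h4 : Real.log (3 * Real.sqrt (C3 * Λ * (Q * l))) =
      Real.log 3 + (Real.log C3 + Real.log Λ + (Real.log Q + Real.log l)) / 2 := by
    rw [Real.log_mul (by norm_num) (by linarith), Real.log_sqrt (by linarith),
      Real.log_mul (by positivity) (by positivity), Real.log_mul hC0.ne' hΛ0.ne', Real.log_mul hQ0.ne' hl0.ne']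
  have h5 : Real.log 3 ≤ 2 := by
    have := Real.log_le_sub_one_of_pos (by norm_num : (0:ℝ) < 3)
    linarith
  have h6 := Real.log_le_sub_one_of_pos hΛ0
  have h7 := Real.log_le_sub_one_of_pos hl0
  have h8 := Real.log_nonneg hC3
  have h9 : Real.log C3 ≤ Real.log C3 * l := le_mul_of_one_le_right h8 hl
  have h10 : Λ ≤ Λ * l := le_mul_of_one_le_right hΛ0.le hl
  have h11 : (3 + Real.log C3 + Λ) * l = 3 * l + Real.log C3 * l + Λ * l := by ring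
  rw [h11]
  rw [h4] at h3
  linarith

theorem Zk_T4 {Ca G A C3 Λ t Q H l u w n : ℝ} (hCa : 1 ≤ Ca) (hC3 : 1 ≤ C3) (hA : A = 7 * Ca + G)
    (hΛ : 1 ≤ Λ) (ht : 1 ≤ t) (hQ : 1 ≤ Q) (hH : 1 ≤ H) (hl : 1 ≤ l) (hu : u ≤ l) (hw : w ≤ 5 * Λ * l)
    (hn : Real.log (1 + n) ≤ (3 + Real.log C3 + Λ) * l)
    (hmain : A * Λ + Ca * (4 + Real.log C3) ≤ t ^ 2) :
    Ca * Q * (u + w + Real.log (1 + n)) -
      Real.pi ^ 2 * (1 / H) ^ 2 / (2 * (1 / (t ^ 2 * H ^ 2 * Q * l))) ≤ -(G * Λ * (Q * l)) := by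
  have ht0 : 0 < t := by linarith
  have hH0 : 0 < H := by linarith
  have hQ0 : 0 < Q := by linarith
  have hl0 : 0 < l := by linarith
  have hΛ0 : 0 < Λ := by linarith
  have e1 : Real.pi ^ 2 * (1 / H) ^ 2 / (2 * (1 / (t ^ 2 * H ^ 2 * Q * l))) =
      Real.pi ^ 2 / 2 * (t ^ 2 * (Q * l)) := by
    field_simp
  have h1 : t ^ 2 * (Q * l) ≤ Real.pi ^ 2 / 2 * (t ^ 2 * (Q * l)) := by
    have h11 : 1 ≤ Real.pi ^ 2 / 2 := by nlinarith [Real.pi_gt_three]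
    exact le_mul_of_one_le_left (by positivity) h11
  have h2 : u + w + Real.log (1 + n) ≤ (7 * Λ + 4 + Real.log C3) * l := by
    have h21 : l ≤ Λ * l := le_mul_of_one_le_left hl0.le hΛ
    have h22 : (7 * Λ + 4 + Real.log C3) * l = 5 * Λ * l + l + (3 + Real.log C3 + Λ) * l + Λ * l := by ring
    rw [h22]
    have h23 : 0 ≤ Λ * l := by positivity
    linarith
  have h3 : Ca * Q * (u + w + Real.log (1 + n)) ≤ Ca * Q * ((7 * Λ + 4 + Real.log C3) * l) :=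
    mul_le_mul_of_nonneg_left h2 (by positivity)
  have h4 := mul_le_mul_of_nonneg_right hmain (by positivity : 0 ≤ Q * l)
  have e2 : Ca * Q * ((7 * Λ + 4 + Real.log C3) * l) = (7 * Ca * Λ + Ca * (4 + Real.log C3)) * (Q * l) := by ring
  have e3 : (A * Λ + Ca * (4 + Real.log C3)) * (Q * l) =
      (7 * Ca * Λ + Ca * (4 + Real.log C3)) * (Q * l) + G * Λ * (Q * l) := by rw [hA]; ring
  rw [e1]
  linarith

theorem Zk_freq {Cg d n P H W : ℝ} {k : ℕ} {a : ℝ} (hk : 1 ≤ k) (hCg : 1 ≤ Cg) (hd : 0 ≤ d) (hH : 1 ≤ H) (hW : 0 ≤ W)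
    (hn : n ^ 2 ≤ 4 * P) (ha0 : 0 ≤ a) (ha : a ≤ d * n)
    (h : 1 ≤ Cg * a ^ 2 * W ^ k) (hP : 4 * Cg * d ^ 2 * P ≤ H ^ k) : 1 / H ≤ W := by
  have hH0 : 0 < H := by linarith
  have h1 : a ^ 2 ≤ d ^ 2 * n ^ 2 := by
    rw [← mul_pow]
    exact pow_le_pow_left₀ ha0 ha 2
  have h2 : a ^ 2 ≤ d ^ 2 * (4 * P) := h1.trans (mul_le_mul_of_nonneg_left hn (by positivity))
  have hWk : 0 ≤ W ^ k := pow_nonneg hW k
  have h3 : Cg * a ^ 2 * W ^ k ≤ Cg * (d ^ 2 * (4 * P)) * W ^ k :=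
    mul_le_mul_of_nonneg_right (mul_le_mul_of_nonneg_left h2 (by linarith)) hWk
  have h4 : Cg * (d ^ 2 * (4 * P)) * W ^ k ≤ H ^ k * W ^ k :=
    mul_le_mul_of_nonneg_right (by linarith) hWk
  have h5 : 1 ≤ (H * W) ^ k := by
    rw [mul_pow]
    linarith
  by_contra hc
  push Not at hc
  have h6 : H * W < 1 := by
    rw [lt_div_iff₀ hH0] at hc
    linarith
  have h7 : (H * W) ^ k < 1 := pow_lt_one₀ (by positivity) h6 (by omega)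
  linarith

variable {S ι : Type} [Fintype S] [DecidableEq S] [Fintype ι] [DecidableEq ι] (K : KD S ι)

theorem zero_estimate (c0 : ℂ) (hc0 : c0 ≠ 0) : ∃ C : ℝ, 1 ≤ C ∧ ∀ (Q : ℕ) (H : ℝ), 1 ≤ Q → 1 ≤ H →
    C * Q * Real.log (Q + H + 2) ≤ H ^ (Fintype.card S - 1) →
    ∀ (c : (S → Fin (Q + 1)) → ℂ), (∀ κ, ‖c κ‖ ≤ 1) → (∃ κ, ‖c κ‖ = 1) →
    ∃ y, ‖K.bb y‖ ≤ C * H * Q * Real.log (Q + H + 2) ^ 2 ∧
      Real.exp (-(C * Q * Real.log (Q + H + 2))) ≤ K.Nw (K.FF c0 Q c) y := by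
  classical
  obtain ⟨Ca, hCa, hav⟩ := averaged K c0
  obtain ⟨Cm, hCm, hml⟩ := main_low K
  obtain ⟨Cg, hCg, hgap⟩ := gap K
  obtain ⟨L0, hL0⟩ : ∃ L0, L0 = (Fintype.card ι : ℝ) * |Real.log ‖c0‖| := ⟨_, rfl⟩
  have hL00 : 0 ≤ L0 := by rw [hL0]; positivity
  obtain ⟨t, Λ, C3, A, G, ht, hΛ, hC3, hA1, hG, hΛe, hGe, hC3e, hAe, hmain⟩ := Zk_const hCa hCm hL00
  obtain ⟨d, hd⟩ : ∃ d : ℝ, d = (Fintype.card ι : ℝ) := ⟨_, rfl⟩
  have hd0 : 0 ≤ d := by rw [hd]; positivity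
  obtain ⟨C5, hC5⟩ : ∃ C5, C5 = G * Λ + Real.log Ca := ⟨_, rfl⟩
  have hlCa := Real.log_nonneg hCa
  have ht0 : 0 < t := by linarith
  have hΛ0 : 0 < Λ := by linarith
  have hCa0 : 0 < Ca := by linarith
  have hC50 : 0 ≤ C5 := by rw [hC5]; positivity
  obtain ⟨E1, hE1⟩ : ∃ E1, E1 = Ca * (2 * A * t * Λ) := ⟨_, rfl⟩
  obtain ⟨E2, hE2⟩ : ∃ E2, E2 = 4 * Cg * d ^ 2 * (C3 * Λ) := ⟨_, rfl⟩
  have hE10 : 0 ≤ E1 := by rw [hE1]; positivity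
  have hE20 : 0 ≤ E2 := by rw [hE2]; positivity
  refine ⟨C5 + E1 + E2 + 1, by linarith, ?_⟩
  intro Q H hQ hH hQH c hc1 hc2
  have hQ1 : (1:ℝ) ≤ (Q:ℝ) := by exact_mod_cast hQ
  have hQ0 : (0:ℝ) < (Q:ℝ) := by linarith
  have hH0 : 0 < H := by linarith
  obtain ⟨l, hl⟩ : ∃ l, l = Real.log (Q + H + 2) := ⟨_, rfl⟩
  rw [← hl] at hQH ⊢
  have hl1 : 1 ≤ l := by
    rw [hl, Real.le_log_iff_exp_le (by positivity)]
    linarith [Real.exp_one_lt_d9]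
  have hl0 : 0 < l := by linarith
  have hlQ : Real.log Q ≤ l := by
    rw [hl]
    exact Real.log_le_log hQ0 (by linarith)
  have hlQ2 : Real.log (Q + 2) ≤ l := by
    rw [hl]
    exact Real.log_le_log (by linarith) (by linarith)
  have hlQ20 : 0 ≤ Real.log ((Q:ℝ) + 2) := Real.log_nonneg (by linarith)
  have hlH : Real.log H ≤ l := by
    rw [hl]
    exact Real.log_le_log hH0 (by linarith)
  have hP : 1 ≤ (Q:ℝ) * l := one_le_mul_of_one_le_of_one_le hQ1 hl1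
  have hP0 : 0 < (Q:ℝ) * l := by linarith
  -- the parameter b
  obtain ⟨b, hb⟩ : ∃ b, b = 1 / (t ^ 2 * H ^ 2 * Q * l) := ⟨_, rfl⟩
  have hbig : 1 ≤ t ^ 2 * H ^ 2 * Q * l :=
    one_le_mul_of_one_le_of_one_le (one_le_mul_of_one_le_of_one_le
      (one_le_mul_of_one_le_of_one_le (one_le_pow₀ ht) (one_le_pow₀ hH)) hQ1) hl1
  have hb0 : 0 < b := by rw [hb]; positivity
  have hb1 : b ≤ 1 := by
    rw [hb]
    exact div_le_one_of_le₀ hbig (by positivity)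
  obtain ⟨w, hw⟩ : ∃ w, w = Real.log (1 / b) := ⟨_, rfl⟩
  have hwb := Zk_logb ht hQ1 hH hl1 hlQ hlH
  rw [← hb, ← hw, ← hΛe] at hwb
  obtain ⟨hw0, hw1⟩ := hwb
  -- the parameter n0
  obtain ⟨n0, hn0⟩ : ∃ n0 : ℕ, n0 = ⌈Real.sqrt (C3 * Λ * (Q * l))⌉₊ := ⟨_, rfl⟩
  have hC1 : 1 ≤ C3 * Λ * (Q * l) :=
    one_le_mul_of_one_le_of_one_le (one_le_mul_of_one_le_of_one_le hC3 hΛ) hP
  have hs1 : 1 ≤ Real.sqrt (C3 * Λ * (Q * l)) := by
    rw [Real.one_le_sqrt]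
    exact hC1
  have hn1 : Real.sqrt (C3 * Λ * (Q * l)) ≤ n0 := by rw [hn0]; exact Nat.le_ceil _
  have hn2 : (n0:ℝ) ≤ Real.sqrt (C3 * Λ * (Q * l)) + 1 := by
    rw [hn0]
    exact (Nat.ceil_lt_add_one (by linarith)).le
  have hsq : Real.sqrt (C3 * Λ * (Q * l)) ^ 2 = C3 * Λ * (Q * l) := Real.sq_sqrt (by linarith)
  have hn3 : C3 * Λ * (Q * l) ≤ (n0:ℝ) ^ 2 := by
    rw [← hsq]
    exact pow_le_pow_left₀ (by linarith) hn1 2
  have hn4 : (n0:ℝ) ^ 2 ≤ 4 * (C3 * Λ * (Q * l)) := by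
    calc (n0:ℝ) ^ 2 ≤ (2 * Real.sqrt (C3 * Λ * (Q * l))) ^ 2 := pow_le_pow_left₀ (by positivity) (by linarith) 2
      _ = 4 * (C3 * Λ * (Q * l)) := by rw [mul_pow, hsq]; norm_num
  have hn5 := Zk_logn hC3 hΛ hQ1 hl1 hlQ (by positivity : (0:ℝ) ≤ n0) hn2
  -- contradiction
  by_contra hcon
  push Not at hcon
  obtain ⟨δ, hδ⟩ : ∃ δ, δ = Real.exp (-(C5 * (Q * l))) := ⟨_, rfl⟩
  obtain ⟨R1, hR1⟩ : ∃ R1, R1 = 2 * A * t * Λ * H * Q * l ^ 2 := ⟨_, rfl⟩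
  have hR11 : 1 ≤ R1 := by
    rw [hR1]
    refine one_le_mul_of_one_le_of_one_le (one_le_mul_of_one_le_of_one_le (one_le_mul_of_one_le_of_one_le
      (one_le_mul_of_one_le_of_one_le (one_le_mul_of_one_le_of_one_le (by linarith) ht) hΛ) hH) hQ1)
      (one_le_pow₀ hl1)
  have hsmall : ∀ y, ‖K.bb y‖ ≤ Ca * R1 → K.Nw (K.FF c0 Q c) y ≤ δ := by
    intro y hy
    have h1 : ‖K.bb y‖ ≤ (C5 + E1 + E2 + 1) * H * Q * l ^ 2 := by
      refine hy.trans ?_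
      have h2 : Ca * R1 = E1 * (H * Q * l ^ 2) := by rw [hR1, hE1]; ring
      have h3 : (C5 + E1 + E2 + 1) * H * Q * l ^ 2 = (C5 + E1 + E2 + 1) * (H * Q * l ^ 2) := by ring
      rw [h2, h3]
      exact mul_le_mul_of_nonneg_right (by linarith) (by positivity)
    refine (hcon y h1).le.trans ?_
    rw [hδ, Real.exp_le_exp]
    have h4 : (C5 + E1 + E2 + 1) * Q * l = (C5 + E1 + E2 + 1) * (Q * l) := by ring
    rw [h4]
    have h5 : C5 * (Q * l) ≤ (C5 + E1 + E2 + 1) * (Q * l) := mul_le_mul_of_nonneg_right (by linarith) hP0.le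
    linarith
  have hfreq : ∀ m ∈ bx ι n0, m ≠ 0 → 1 / H ≤ ‖K.om m‖ := by
    intro m hm hm0
    refine Zk_freq (k := Fintype.card S - 1) (Cg := Cg) (d := d) (n := n0) (P := C3 * Λ * (Q * l))
      (a := ∑ j, |(m j : ℝ)|) (by have := K.hS; omega) hCg hd0 hH (norm_nonneg _) hn4
      (sum_nonneg fun j _ => abs_nonneg _) ?_ (hgap m hm0) ?_
    · have h1 : ∀ j ∈ (univ : Finset ι), |(m j : ℝ)| ≤ n0 := by
        intro j _
        have h2 := Fintype.mem_piFinset.1 hm j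
        rw [Finset.mem_Icc] at h2
        rw [abs_le]
        exact ⟨by exact_mod_cast h2.1, by exact_mod_cast h2.2⟩
      refine (sum_le_card_nsmul _ _ _ h1).trans (le_of_eq ?_)
      rw [nsmul_eq_mul, card_univ, hd]
    · refine le_trans ?_ hQH
      have h1 : 4 * Cg * d ^ 2 * (C3 * Λ * (Q * l)) = E2 * (Q * l) := by rw [hE2]; ring
      have h2 : (C5 + E1 + E2 + 1) * Q * l = (C5 + E1 + E2 + 1) * (Q * l) := by ring
      rw [h1, h2]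
      exact mul_le_mul_of_nonneg_right (by linarith) hP0.le
  obtain ⟨x, hx1, hx2⟩ := hml Q b hQ hb0 hb1 c hc2
  have hfin := hav Q b hQ hb0 hb1 c hc1 n0 R1 δ (1 / H) hR11 (by rw [hδ]; positivity) (by positivity) hsmall
    hfreq x hx1
  rw [← hw] at hfin hx2
  -- the four terms
  have hT2 := Zk_T2 hCa hG hAe hΛ ht hQ1 hH hl1 hlQ20 hlQ2 hw0 hw1
  rw [← hb, ← hR1] at hT2
  have hT3 := Zk_T3 hCa hC3e hΛ hQ1 hl1 hlQ2 hw1 hn3
  have hT4 := Zk_T4 hCa hC3 hAe hΛ ht hQ1 hH hl1 hlQ2 hw1 hn5 hmain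
  rw [← hb] at hT4
  have k2 := Real.exp_le_exp.2 hT2
  have k3 := Real.exp_le_exp.2 hT3
  have k4 := Real.exp_le_exp.2 hT4
  have k1 : Ca * δ ≤ Real.exp (-(G * Λ * (Q * l))) := by
    have h1 : Ca = Real.exp (Real.log Ca) := (Real.exp_log hCa0).symm
    calc Ca * δ = Real.exp (Real.log Ca + -(C5 * (Q * l))) := by rw [Real.exp_add, ← h1, hδ]
      _ ≤ Real.exp (-(G * Λ * (Q * l))) := by
        rw [Real.exp_le_exp, hC5]
        have h2 : Real.log Ca ≤ Real.log Ca * (Q * l) := le_mul_of_one_le_right hlCa hP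
        have h3 : (G * Λ + Real.log Ca) * (Q * l) = G * Λ * (Q * l) + Real.log Ca * (Q * l) := by ring
        rw [h3]
        linarith
  -- the left side
  have kl : Real.exp (-((6 * Cm + L0) * Λ * (Q * l))) ≤
      ‖c0‖ ^ Fintype.card ι * ‖EM b 0 (fun r ↦ K.PP Q c 0 (x + K.tt r))‖ := by
    have hc00 : 0 < ‖c0‖ := norm_pos_iff.2 hc0
    have h1 : Real.exp (-(L0 * Λ * (Q * l))) ≤ ‖c0‖ ^ Fintype.card ι := by
      have h2 : ‖c0‖ ^ Fintype.card ι = Real.exp ((Fintype.card ι : ℝ) * Real.log ‖c0‖) := by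
        rw [← Real.log_pow, Real.exp_log (pow_pos hc00 _)]
      rw [h2, Real.exp_le_exp]
      have h3 : -L0 ≤ (Fintype.card ι : ℝ) * Real.log ‖c0‖ := by
        rw [hL0, ← mul_neg]
        exact mul_le_mul_of_nonneg_left (neg_abs_le _) (by positivity)
      have h4 : L0 ≤ L0 * Λ * (Q * l) := by
        have h5 : 1 ≤ Λ * (Q * l) := one_le_mul_of_one_le_of_one_le hΛ hP
        calc L0 ≤ L0 * (Λ * (Q * l)) := le_mul_of_one_le_right hL00 h5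
          _ = _ := by ring
      linarith
    have h2 : Real.exp (-(6 * Cm * Λ * (Q * l))) ≤ ‖EM b 0 (fun r ↦ K.PP Q c 0 (x + K.tt r))‖ := by
      refine le_trans ?_ hx2
      rw [Real.exp_le_exp]
      have h3 : Real.log ((Q:ℝ) + 2) + w ≤ 6 * (Λ * l) := by
        have : l ≤ Λ * l := le_mul_of_one_le_left hl0.le hΛ
        linarith
      have h4 : Cm * Q * (Real.log ((Q:ℝ) + 2) + w) ≤ Cm * Q * (6 * (Λ * l)) :=
        mul_le_mul_of_nonneg_left h3 (by positivity)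
      have h5 : Cm * Q * (6 * (Λ * l)) = 6 * Cm * Λ * (Q * l) := by ring
      linarith
    have h3 := mul_le_mul h1 h2 (by positivity) (by positivity)
    rw [← Real.exp_add] at h3
    refine le_trans (le_of_eq ?_) h3
    congr 1
    ring
  have hGs : Real.exp (-(G * Λ * (Q * l))) ≤ Real.exp (-((6 * Cm + L0) * Λ * (Q * l))) * Real.exp (-3) := by
    rw [← Real.exp_add, Real.exp_le_exp, hGe]
    have h5 : 1 ≤ Λ * (Q * l) := one_le_mul_of_one_le_of_one_le hΛ hP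
    have h6 : (6 * Cm + L0 + 3) * Λ * (Q * l) = (6 * Cm + L0) * Λ * (Q * l) + 3 * (Λ * (Q * l)) := by ring
    rw [h6]
    linarith
  have he3 : Real.exp (-3) < 1 / 4 := by
    rw [Real.exp_neg, inv_eq_one_div]
    refine one_div_lt_one_div_of_lt (by norm_num) ?_
    have h7 := Real.add_one_lt_exp (by norm_num : (3:ℝ) ≠ 0)
    have h8 : (3:ℝ) + 1 = 4 := by norm_num
    linarith
  have hpos := Real.exp_pos (-((6 * Cm + L0) * Λ * (Q * l)))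
  have hfin2 : Real.exp (-((6 * Cm + L0) * Λ * (Q * l))) ≤
      4 * (Real.exp (-((6 * Cm + L0) * Λ * (Q * l))) * Real.exp (-3)) := by
    linarith
  nlinarith

end AZ
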