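import Pool.Agent.H60.AZ.Su
import Pool.Agent.H60.AZ.Zk

/-!
# Row Zl (MP_ede373, all algebraic points): some jet is not too small

PROOF. `k = card S - 1 ≥ 1`, `A' = Ak k`, `Q = M^(k A')`, `N = M^(kA' + 5k + 1)`, `h = M^(A'+5)`, `H = M^(A'+2)`. Suppose
`‖JJ n‖ < η := exp(-M^(2(k+1)A' + 9))` for all `n` with `∑ n s < N`. `h^k = M^(kA' + 5k)`, `C h^k ≤ N` for `M ≥ C`. `schwarz`: on `V`
`Nw ≤ exp(-N² h²/C + C A log(N h+2)) + η exp(C N log(N+2))`, where `N² h² = M^(2(k+1)A' + 10 k + 12)`, `A ≤ M^(kA'+1)`, logs `≤ M`,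
`N log(N+2) ≤ M^(kA'+5k+2)`, and `kA' + 5k + 2 ≤ 2(k+1)A' + 8`: both terms are `≤ exp(-M^(2(k+1)A'+8))` for `M` large, so on `V`:
`Nw ≤ exp(-L)`, `L = M^(2(k+1)A'+7)`. Zero estimate: `C Q l ≤ H^k = M^(kA' + 2k)` holds for `M` large (`l = log(Q+H+2) ≤ M`, `M² ≤ M^(2k)`, `C ≤ M`);
it gives `y` with `‖bb y‖ ≤ r := M^((k+1)A'+4)` (`C H Q l² ≤ C M^((k+1)A' + 2) l²`, `C l² ≤ M²`) and `Nw y ≥ exp(-C Q l) ≥ exp(-M^(kA'+2))`. `spread`:
`Nw y ≤ exp(-L/2 + C A log(r+2) + C r²)`, `r² = M^(2(k+1)A'+8)`: TOO LARGE compared with `L`; so take instead `r = M^((k+1)A'+3)`: indeed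
`C H Q l² ≤ M^((k+1)A'+2) C l²` and `C l² ≤ M` for `M` large (`l ≤ C' log M`), so `r = M^((k+1)A'+3)`, `r² = M^(2(k+1)A'+6)`, and
`-L/2 + C M^(kA'+3) + C M^(2(k+1)A'+6) ≤ -M^(2(k+1)A'+6) < -M^(kA'+2)`: contradiction.
-/

set_option autoImplicit false

namespace AZ

open Complex Finset

variable {S ι : Type} [Fintype S] [DecidableEq S] [Fintype ι] [DecidableEq ι] (K : KD S ι)

theorem Zl_log (D : ℝ) (hD : 0 < D) : ∃ M0 : ℕ, ∀ M : ℕ, M0 ≤ M →
    D * Real.log M ^ 2 ≤ M ∧ 3 ≤ M := by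
  have h1 : (fun x : ℝ => Real.log x ^ 2) =o[Filter.atTop] (id : ℝ → ℝ) :=
    Real.isLittleO_pow_log_id_atTop
  have h2 := h1.bound (show (0 : ℝ) < 1 / D by positivity)
  have h3 := tendsto_natCast_atTop_atTop (R := ℝ) |>.eventually h2
  obtain ⟨M0, hM0⟩ := Filter.eventually_atTop.1 h3
  refine ⟨max M0 3, fun M hM => ⟨?_, (le_max_right _ _).trans hM⟩⟩
  have h4 := hM0 M ((le_max_left _ _).trans hM)
  rw [Real.norm_of_nonneg (sq_nonneg _), id, Real.norm_of_nonneg (Nat.cast_nonneg _)] at h4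
  have h5 := mul_le_mul_of_nonneg_left h4 hD.le
  have e1 : D * (1 / D * (M : ℝ)) = M := by field_simp
  linarith

theorem Zl_lg (m X : ℝ) (E : ℕ) (hX : 0 < X) (h : X ≤ m ^ E) :
    Real.log X ≤ E * Real.log m := by
  have h1 := Real.log_le_log hX h
  rwa [Real.log_pow] at h1

theorem Zl_two (m : ℝ) (hm : 3 ≤ m) (i : ℕ) : m ^ i + 2 ≤ m ^ (i + 1) := by
  have h1 : 1 ≤ m ^ i := one_le_pow₀ (by linarith)
  have h2 : m ^ (i + 1) = m * m ^ i := by ring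
  have h3 : 3 * m ^ i ≤ m * m ^ i := mul_le_mul_of_nonneg_right hm (by linarith)
  linarith

/-- the first term of the Schwarz estimate -/
theorem Zl_sch (m C2 lg A : ℝ) (k a : ℕ) (hm : 16 ≤ m) (hC2 : 1 ≤ C2) (hC2m : C2 ≤ m)
    (hA : A ≤ m ^ (k * a + 1)) (hlg : C2 * lg ≤ m) (hlg0 : 0 ≤ lg) :
    -((m ^ (k * a + 5 * k + 1)) ^ 2 * (m ^ (a + 5)) ^ 2 / C2) + C2 * A * lg ≤
      -(m ^ (2 * (k + 1) * a + 8)) := by
  have hm0 : 0 < m := by linarith
  have hm1 : 1 ≤ m := by linarith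
  have h1 : (m ^ (k * a + 5 * k + 1)) ^ 2 * (m ^ (a + 5)) ^ 2 =
      m * m ^ (2 * (k + 1) * a + 10 * k + 11) := by
    rw [← pow_mul, ← pow_mul, ← pow_add, ← pow_succ']
    congr 1
    ring
  have h2 : m ^ (2 * (k + 1) * a + 10 * k + 11) ≤
      (m ^ (k * a + 5 * k + 1)) ^ 2 * (m ^ (a + 5)) ^ 2 / C2 := by
    rw [h1, le_div_iff₀ (by linarith), mul_comm]
    exact mul_le_mul_of_nonneg_right hC2m (by positivity)
  have h3 : m ^ (2 * (k + 1) * a + 9) ≤ m ^ (2 * (k + 1) * a + 10 * k + 11) :=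
    pow_le_pow_right₀ hm1 (by omega)
  have h4 : m ^ (2 * (k + 1) * a + 9) = m * m ^ (2 * (k + 1) * a + 8) := by ring
  have h5 : 16 * m ^ (2 * (k + 1) * a + 8) ≤ m * m ^ (2 * (k + 1) * a + 8) :=
    mul_le_mul_of_nonneg_right hm (by positivity)
  have h6 : C2 * A * lg ≤ m * m ^ (k * a + 1) := by
    have h7 : (C2 * lg) * A ≤ (C2 * lg) * m ^ (k * a + 1) :=
      mul_le_mul_of_nonneg_left hA (mul_nonneg (by linarith) hlg0)
    have h8 : (C2 * lg) * m ^ (k * a + 1) ≤ m * m ^ (k * a + 1) :=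
      mul_le_mul_of_nonneg_right hlg (by positivity)
    have e1 : C2 * A * lg = (C2 * lg) * A := by ring
    linarith
  have h7 : m * m ^ (k * a + 1) = m ^ (k * a + 2) := by ring
  have h8 : m ^ (k * a + 2) ≤ m ^ (2 * (k + 1) * a + 8) := by
    refine pow_le_pow_right₀ hm1 ?_
    have : k * a ≤ 2 * (k + 1) * a := Nat.mul_le_mul_right a (by omega)
    omega
  have h9 : 0 < m ^ (2 * (k + 1) * a + 8) := by positivity
  linarith

/-- the second term of the Schwarz estimate -/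
theorem Zl_sch2 (m C2 lg : ℝ) (k a : ℕ) (hm : 16 ≤ m)
    (ha : 30 ≤ a) (_hk : 1 ≤ k) (hlg : C2 * lg ≤ m) :
    -(m ^ (2 * (k + 1) * a + 9)) + C2 * m ^ (k * a + 5 * k + 1) * lg ≤
      -(m ^ (2 * (k + 1) * a + 8)) := by
  have hm0 : 0 < m := by linarith
  have hm1 : 1 ≤ m := by linarith
  have h4 : m ^ (2 * (k + 1) * a + 9) = m * m ^ (2 * (k + 1) * a + 8) := by ring
  have h5 : 16 * m ^ (2 * (k + 1) * a + 8) ≤ m * m ^ (2 * (k + 1) * a + 8) :=
    mul_le_mul_of_nonneg_right hm (by positivity)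
  have h6 : C2 * m ^ (k * a + 5 * k + 1) * lg ≤ m * m ^ (k * a + 5 * k + 1) := by
    have h8 : (C2 * lg) * m ^ (k * a + 5 * k + 1) ≤ m * m ^ (k * a + 5 * k + 1) :=
      mul_le_mul_of_nonneg_right hlg (by positivity)
    have e1 : C2 * m ^ (k * a + 5 * k + 1) * lg = (C2 * lg) * m ^ (k * a + 5 * k + 1) := by ring
    linarith
  have h7 : m * m ^ (k * a + 5 * k + 1) = m ^ (k * a + 5 * k + 2) := by ring
  have h8 : m ^ (k * a + 5 * k + 2) ≤ m ^ (2 * (k + 1) * a + 8) := by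
    refine pow_le_pow_right₀ hm1 ?_
    have h9 : k * 30 ≤ k * a := Nat.mul_le_mul_left k ha
    have h10 : 2 * (k + 1) * a = k * a + k * a + 2 * a := by ring
    omega
  have h9 : 0 < m ^ (2 * (k + 1) * a + 8) := by positivity
  linarith

/-- the final contradiction -/
theorem Zl_fin (m C3 lg A : ℝ) (k a : ℕ) (hm : 16 ≤ m) (hC3 : 0 ≤ C3) (hC3m : 4 * C3 + 8 ≤ m)
    (hA : A ≤ m ^ (k * a + 1)) (hlg : C3 * lg ≤ m) (hlg0 : 0 ≤ lg) :
    -(m ^ (2 * (k + 1) * a + 7) / 2) + C3 * A * lg + C3 * (m ^ (k * a + a + 3)) ^ 2 <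
      -(m ^ (k * a + 1)) := by
  have hm0 : 0 < m := by linarith
  have hm1 : 1 ≤ m := by linarith
  have h1 : (m ^ (k * a + a + 3)) ^ 2 = m ^ (2 * (k + 1) * a + 6) := by
    rw [← pow_mul]
    congr 1
    ring
  have h4 : m ^ (2 * (k + 1) * a + 7) = m * m ^ (2 * (k + 1) * a + 6) := by ring
  have h5 : (4 * C3 + 8) * m ^ (2 * (k + 1) * a + 6) ≤ m * m ^ (2 * (k + 1) * a + 6) :=
    mul_le_mul_of_nonneg_right hC3m (by positivity)
  have h6 : C3 * A * lg ≤ m * m ^ (k * a + 1) := by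
    have h7 : (C3 * lg) * A ≤ (C3 * lg) * m ^ (k * a + 1) :=
      mul_le_mul_of_nonneg_left hA (mul_nonneg hC3 hlg0)
    have h8 : (C3 * lg) * m ^ (k * a + 1) ≤ m * m ^ (k * a + 1) :=
      mul_le_mul_of_nonneg_right hlg (by positivity)
    have e1 : C3 * A * lg = (C3 * lg) * A := by ring
    linarith
  have h7 : m * m ^ (k * a + 1) = m ^ (k * a + 2) := by ring
  have hka : k * a ≤ 2 * (k + 1) * a := Nat.mul_le_mul_right a (by omega)
  have h8 : m ^ (k * a + 2) ≤ m ^ (2 * (k + 1) * a + 6) := pow_le_pow_right₀ hm1 (by omega)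
  have h9 : m ^ (k * a + 1) ≤ m ^ (2 * (k + 1) * a + 6) := pow_le_pow_right₀ hm1 (by omega)
  have h10 : 0 < m ^ (2 * (k + 1) * a + 6) := by positivity
  have h11 : 0 ≤ C3 * m ^ (2 * (k + 1) * a + 6) := mul_nonneg hC3 h10.le
  rw [h1]
  have h12 : (4 * C3 + 8) * m ^ (2 * (k + 1) * a + 6) =
      4 * (C3 * m ^ (2 * (k + 1) * a + 6)) + 8 * m ^ (2 * (k + 1) * a + 6) := by ring
  linarith

theorem ze (c0 : ℂ) (hc0 : c0 ≠ 0) : ∃ M0 : ℕ, ∀ M : ℕ, M0 ≤ M →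
    ∀ c : (S → Fin (M ^ eQ (Fintype.card S - 1) + 1)) → ℂ, (∀ κ, ‖c κ‖ ≤ 1) → (∃ κ, ‖c κ‖ = 1) →
      ∃ n : S → ℕ, ∑ s, n s < M ^ eS (Fintype.card S - 1) ∧
        Real.exp (-(M : ℝ) ^ (eb (Fintype.card S - 1) - 1)) ≤
          ‖K.JJ c0 (M ^ eQ (Fintype.card S - 1)) c n‖ := by
  obtain ⟨C1, hC1, hf⟩ := fdat K c0
  obtain ⟨C2, hC2, hsch⟩ := schwarz K
  obtain ⟨C3, hC3, hspr⟩ := spread K
  obtain ⟨C4, hC4, hze⟩ := zero_estimate K c0 hc0
  obtain ⟨k, hk⟩ : ∃ k : ℕ, k = Fintype.card S - 1 := ⟨_, rfl⟩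
  have hk1 : 1 ≤ k := by
    have := K.hS
    omega
  rw [← hk]
  simp only [← hk] at hsch hze
  obtain ⟨a, ha⟩ : ∃ a : ℕ, a = Ak k := ⟨_, rfl⟩
  have ha30 : 30 ≤ a := by
    rw [ha]
    unfold Ak
    omega
  obtain ⟨E, hE⟩ : ∃ E : ℕ, E = k * a + a + 5 * k + 10 := ⟨_, rfl⟩
  obtain ⟨B, hB⟩ : ∃ B : ℝ, B = C1 + C2 + C3 + C4 := ⟨_, rfl⟩
  have hE1 : (1 : ℝ) ≤ E := by
    have : 1 ≤ E := by omega
    exact_mod_cast this
  have hB4 : 4 ≤ B := by linarith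
  obtain ⟨M0, hM0⟩ := Zl_log (4 * B * (E : ℝ) ^ 2) (by positivity)
  refine ⟨M0, fun M hM c hc hc1 => ?_⟩
  obtain ⟨hMl, hM3⟩ := hM0 M hM
  by_contra hcon
  push Not at hcon
  obtain ⟨m, hm⟩ : ∃ m : ℝ, m = (M : ℝ) := ⟨_, rfl⟩
  have hm3 : 3 ≤ m := by rw [hm]; exact_mod_cast hM3
  obtain ⟨Λ, hΛ⟩ : ∃ Λ : ℝ, Λ = E * Real.log m := ⟨_, rfl⟩
  have hlog1 : 1 ≤ Real.log m := by
    rw [Real.le_log_iff_exp_le (by linarith)]
    have := Real.exp_one_lt_d9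
    linarith
  have hΛ1 : 1 ≤ Λ := by
    rw [hΛ]
    have := mul_le_mul hE1 hlog1 (by norm_num) (by linarith)
    linarith
  have hΛm : 4 * B * Λ ^ 2 ≤ m := by
    rw [← hm] at hMl
    have e1 : 4 * B * Λ ^ 2 = 4 * B * (E : ℝ) ^ 2 * Real.log m ^ 2 := by rw [hΛ]; ring
    rw [e1]
    exact hMl
  have hΛΛ : Λ ≤ Λ ^ 2 := by
    have := mul_le_mul_of_nonneg_left hΛ1 (by linarith : (0 : ℝ) ≤ Λ)
    have e1 : Λ ^ 2 = Λ * Λ := by ring
    linarith
  have hΛm1 : 4 * B * Λ ≤ m :=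
    (mul_le_mul_of_nonneg_left hΛΛ (by linarith : (0 : ℝ) ≤ 4 * B)).trans hΛm
  have hBm : 4 * B ≤ m := by
    have := mul_le_mul_of_nonneg_left hΛ1 (by linarith : (0 : ℝ) ≤ 4 * B)
    linarith
  have hm16 : 16 ≤ m := by linarith
  have hm0 : 0 < m := by linarith
  have hm1 : 1 ≤ m := by linarith
  have hCB : ∀ C' : ℝ, 0 ≤ C' → C' ≤ B → ∀ lg : ℝ, 0 ≤ lg → lg ≤ Λ → 4 * (C' * lg) ≤ m := by
    intro C' h0 h1 lg h2 h3
    have h4 : C' * lg ≤ B * Λ := mul_le_mul h1 h3 h2 (by linarith)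
    have e1 : 4 * B * Λ = 4 * (B * Λ) := by ring
    linarith
  -- logarithms
  have hlog : ∀ X : ℝ, 1 ≤ X → ∀ i : ℕ, i ≤ E → X ≤ m ^ i →
      0 ≤ Real.log X ∧ Real.log X ≤ Λ := by
    intro X hX i hi h
    refine ⟨Real.log_nonneg hX, ?_⟩
    rw [hΛ]
    exact Zl_lg m X E (by linarith) (h.trans (pow_le_pow_right₀ hm1 hi))
  -- the parameters
  have hQ : ((M ^ eQ k : ℕ) : ℝ) = m ^ (k * a) := by
    push_cast
    rw [← hm]
    unfold eQ
    rw [← ha]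
  have hN : ((M ^ eS k : ℕ) : ℝ) = m ^ (k * a + 5 * k + 1) := by
    push_cast
    rw [← hm]
    unfold eS
    rw [← ha]
  have hη : Real.exp (-(M : ℝ) ^ (eb k - 1)) = Real.exp (-(m ^ (2 * (k + 1) * a + 9))) := by
    rw [← hm]
    have : eb k - 1 = 2 * (k + 1) * a + 9 := by
      unfold eb
      rw [← ha]
      omega
    rw [this]
  obtain ⟨A, hAd⟩ : ∃ A : ℝ, A = C1 * ((M ^ eQ k : ℕ) + 1) * Real.log ((M ^ eQ k : ℕ) + 2) :=
    ⟨_, rfl⟩
  have hQ1 : 1 ≤ m ^ (k * a) := one_le_pow₀ hm1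
  have hlQ := hlog (m ^ (k * a) + 2) (by linarith) (k * a + 1) (by omega) (Zl_two m hm3 _)
  have hA0 : 0 ≤ A := by
    rw [hAd, hQ]
    exact mul_nonneg (mul_nonneg (by linarith) (by linarith)) hlQ.1
  have hA : A ≤ m ^ (k * a + 1) := by
    rw [hAd, hQ]
    have h1 : (m ^ (k * a) + 1) * (C1 * Real.log (m ^ (k * a) + 2)) ≤
        (2 * m ^ (k * a)) * (C1 * Real.log (m ^ (k * a) + 2)) :=
      mul_le_mul_of_nonneg_right (by linarith) (mul_nonneg (by linarith) hlQ.1)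
    have h2 := hCB C1 (by linarith) (by linarith) _ hlQ.1 hlQ.2
    have h3 : m ^ (k * a) * (2 * (C1 * Real.log (m ^ (k * a) + 2))) ≤ m ^ (k * a) * m := by
      refine mul_le_mul_of_nonneg_left ?_ (by linarith)
      have := mul_nonneg (by linarith : (0 : ℝ) ≤ C1) hlQ.1
      linarith
    have e1 : m ^ (k * a) * m = m ^ (k * a + 1) := by ring
    have e2 : C1 * (m ^ (k * a) + 1) * Real.log (m ^ (k * a) + 2) =
      (m ^ (k * a) + 1) * (C1 * Real.log (m ^ (k * a) + 2)) := by ring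
    rw [e2, ← e1]
    linarith
  have hFD : K.FDat (K.FF c0 (M ^ eQ k) c) (K.JJ c0 (M ^ eQ k) c) A := by
    rw [hAd]
    exact hf (M ^ eQ k) c hc
  -- decay on V
  have hV : ∀ x ∈ K.V, K.Nw (K.FF c0 (M ^ eQ k) c) x ≤
      Real.exp (-(m ^ (2 * (k + 1) * a + 7))) := by
    intro x hx
    have h1 := hsch _ _ A hFD hA0 (M ^ eS k) (m ^ (a + 5))
      (Real.exp (-(m ^ (2 * (k + 1) * a + 9)))) (one_le_pow₀ hm1) ?_ (Real.exp_pos _).le
      (fun n hn => by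
        have := hcon n hn
        rw [hη] at this
        exact this.le) x hx
    · rw [hN] at h1
      have hlN := hlog (m ^ (k * a + 5 * k + 1) + 2)
        (by have : 0 < m ^ (k * a + 5 * k + 1) := by positivity
            linarith)
        (k * a + 5 * k + 1 + 1) (by omega) (Zl_two m hm3 _)
      have e1 : m ^ (k * a + 5 * k + 1) * m ^ (a + 5) = m ^ (k * a + a + 5 * k + 6) := by
        rw [← pow_add]
        congr 1
        ring
      rw [e1] at h1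
      have hlh := hlog (m ^ (k * a + a + 5 * k + 6) + 2)
        (by have : 0 < m ^ (k * a + a + 5 * k + 6) := by positivity
            linarith)
        (k * a + a + 5 * k + 6 + 1) (by omega) (Zl_two m hm3 _)
      have b1 := hCB C2 (by linarith) (by linarith) _ hlh.1 hlh.2
      have b2 := hCB C2 (by linarith) (by linarith) _ hlN.1 hlN.2
      have p1 := mul_nonneg (by linarith : (0 : ℝ) ≤ C2) hlh.1
      have p2 := mul_nonneg (by linarith : (0 : ℝ) ≤ C2) hlN.1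
      have h2 := Zl_sch m C2 _ A k a hm16 hC2 (by linarith) hA (by linarith) hlh.1
      have h3 := Zl_sch2 m C2 _ k a hm16 ha30 hk1
        (by linarith : C2 * Real.log (m ^ (k * a + 5 * k + 1) + 2) ≤ m)
      rw [← Real.exp_add] at h1
      have h4 := Real.exp_le_exp.2 h2
      have h5 := Real.exp_le_exp.2 h3
      have h6 : K.Nw (K.FF c0 (M ^ eQ k) c) x ≤
          2 * Real.exp (-(m ^ (2 * (k + 1) * a + 8))) := by linarith
      refine h6.trans ?_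
      have h7 : (2 : ℝ) ≤ Real.exp 1 := by
        have := Real.add_one_le_exp (1 : ℝ)
        linarith
      have h8 : 2 * Real.exp (-(m ^ (2 * (k + 1) * a + 8))) ≤
          Real.exp 1 * Real.exp (-(m ^ (2 * (k + 1) * a + 8))) :=
        mul_le_mul_of_nonneg_right h7 (Real.exp_pos _).le
      refine h8.trans ?_
      rw [← Real.exp_add]
      refine Real.exp_le_exp.2 ?_
      have h9 : m ^ (2 * (k + 1) * a + 8) = m * m ^ (2 * (k + 1) * a + 7) := by ring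
      have h10 : 16 * m ^ (2 * (k + 1) * a + 7) ≤ m * m ^ (2 * (k + 1) * a + 7) :=
        mul_le_mul_of_nonneg_right hm16 (by positivity)
      have h11 : 1 ≤ m ^ (2 * (k + 1) * a + 7) := one_le_pow₀ hm1
      linarith
    · rw [hN, ← pow_mul]
      have e1 : m ^ (k * a + 5 * k + 1) = m * m ^ ((a + 5) * k) := by
        rw [← pow_succ']
        congr 1
        ring
      rw [e1]
      exact mul_le_mul_of_nonneg_right (by linarith) (by positivity)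
  -- the zero estimate
  have hQH : m ^ (k * a) + m ^ (a + 2) + 2 ≤ m ^ (k * a + a + 4) := by
    have h1 : m ^ (k * a) ≤ m ^ (k * a + a + 2) := pow_le_pow_right₀ hm1 (by omega)
    have h2 : m ^ (a + 2) ≤ m ^ (k * a + a + 2) := pow_le_pow_right₀ hm1 (by omega)
    have h3 : 1 ≤ m ^ (k * a + a + 2) := one_le_pow₀ hm1
    have e1 : m ^ (k * a + a + 4) = (m * m) * m ^ (k * a + a + 2) := by ring
    have h4 : 4 ≤ m * m := by
      have := mul_le_mul hm3 hm3 (by norm_num) (by linarith)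
      linarith
    have h5 : 4 * m ^ (k * a + a + 2) ≤ (m * m) * m ^ (k * a + a + 2) :=
      mul_le_mul_of_nonneg_right h4 (by linarith)
    linarith
  have hH1 : 1 ≤ m ^ (a + 2) := one_le_pow₀ hm1
  have hl := hlog (m ^ (k * a) + m ^ (a + 2) + 2) (by linarith) (k * a + a + 4) (by omega) hQH
  have b4 := hCB C4 (by linarith) (by linarith) _ hl.1 hl.2
  have p4 := mul_nonneg (by linarith : (0 : ℝ) ≤ C4) hl.1
  have hCQl : C4 * m ^ (k * a) * Real.log (m ^ (k * a) + m ^ (a + 2) + 2) ≤ m ^ (k * a + 1) := by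
    have h1 : m ^ (k * a) * (C4 * Real.log (m ^ (k * a) + m ^ (a + 2) + 2)) ≤ m ^ (k * a) * m :=
      mul_le_mul_of_nonneg_left (by linarith) (by linarith)
    have e1 : m ^ (k * a) * m = m ^ (k * a + 1) := by ring
    have e2 : C4 * m ^ (k * a) * Real.log (m ^ (k * a) + m ^ (a + 2) + 2) =
      m ^ (k * a) * (C4 * Real.log (m ^ (k * a) + m ^ (a + 2) + 2)) := by ring
    rw [e2, ← e1]
    exact h1
  obtain ⟨y, hy1, hy2⟩ := hze (M ^ eQ k) (m ^ (a + 2))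
    (Nat.one_le_iff_ne_zero.2 (pow_ne_zero _ (by omega))) hH1 (by
      rw [hQ, ← pow_mul]
      refine hCQl.trans (pow_le_pow_right₀ hm1 ?_)
      have : (a + 2) * k = k * a + 2 * k := by ring
      omega) c hc hc1
  rw [hQ] at hy1 hy2
  have hr : ‖K.bb y‖ ≤ m ^ (k * a + a + 3) := by
    refine hy1.trans ?_
    have h1 : C4 * Real.log (m ^ (k * a) + m ^ (a + 2) + 2) ^ 2 ≤ m := by
      have h2 : Real.log (m ^ (k * a) + m ^ (a + 2) + 2) ^ 2 ≤ Λ ^ 2 :=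
        pow_le_pow_left₀ hl.1 hl.2 2
      have h3 : C4 * Real.log (m ^ (k * a) + m ^ (a + 2) + 2) ^ 2 ≤ B * Λ ^ 2 :=
        mul_le_mul (by linarith) h2 (sq_nonneg _) (by linarith)
      have h4 : 0 ≤ B * Λ ^ 2 := mul_nonneg (by linarith) (sq_nonneg _)
      have e1 : 4 * B * Λ ^ 2 = 4 * (B * Λ ^ 2) := by ring
      linarith
    have e1 : C4 * m ^ (a + 2) * m ^ (k * a) *
        Real.log (m ^ (k * a) + m ^ (a + 2) + 2) ^ 2 =
        m ^ (k * a + a + 2) * (C4 * Real.log (m ^ (k * a) + m ^ (a + 2) + 2) ^ 2) := by ring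
    have e2 : m ^ (k * a + a + 3) = m ^ (k * a + a + 2) * m := by ring
    rw [e1, e2]
    exact mul_le_mul_of_nonneg_left h1 (by positivity)
  have hlr := hlog (m ^ (k * a + a + 3) + 2)
    (by have : 0 < m ^ (k * a + a + 3) := by positivity
        linarith)
    (k * a + a + 3 + 1) (by omega) (Zl_two m hm3 _)
  have b3 := hCB C3 (by linarith) (by linarith) _ hlr.1 hlr.2
  have p3 := mul_nonneg (by linarith : (0 : ℝ) ≤ C3) hlr.1
  have h20 := hspr _ _ A hFD hA0 (m ^ (2 * (k + 1) * a + 7)) (m ^ (k * a + a + 3))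
    (by positivity) (one_le_pow₀ hm1) hV y hr
  have h21 := Zl_fin m C3 _ A k a hm16 (by linarith) (by linarith) hA
    (by linarith : C3 * Real.log (m ^ (k * a + a + 3) + 2) ≤ m) hlr.1
  have h22 := Real.exp_lt_exp.2 h21
  have h23 : Real.exp (-(m ^ (k * a + 1))) ≤
      Real.exp (-(C4 * m ^ (k * a) * Real.log (m ^ (k * a) + m ^ (a + 2) + 2))) :=
    Real.exp_le_exp.2 (by linarith)
  linarith

end AZ
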